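import Pool.Agent.Lib_helper87.AX.D

/-!
# The classes are checked by polynomial arithmetic
-/

set_option autoImplicit false
set_option linter.unusedSectionVars false
set_option linter.unusedVariables false

namespace Pool.Agent.AX

open MK4 KC72 Polynomial

/-- the product of polynomials -/
def pmul : List ℤ → List ℤ → List ℤ
  | [], _ => []
  | a :: p, q => bif q.isEmpty then [] else axpy a q (0 :: pmul p q)

/-- an element `(P(x) + Q(x) y) / d` -/
structure El where
  /-- the first part -/
  P : List ℤ
  /-- the second part -/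
  Q : List ℤ
  /-- the denominator -/
  d : ℤ

/-- a curve: `cd y ^ 2 = C0(x) + C1(x) y` -/
structure Cv where
  /-- the factor -/
  cd : ℤ
  /-- the first part -/
  C0 : List ℤ
  /-- the second part -/
  C1 : List ℤ

/-- the product -/
def El.mul (C : Cv) (a b : El) : El :=
  ⟨axpy C.cd (pmul a.P b.P) (pmul C.C0 (pmul a.Q b.Q)),
    axpy C.cd (axpy 1 (pmul a.P b.Q) (pmul a.Q b.P)) (pmul C.C1 (pmul a.Q b.Q)),
    C.cd * (a.d * b.d)⟩

/-- the power times an element -/
def El.pw (C : Cv) (a : El) : ℕ → El → El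
  | 0, b => b
  | n + 1, b => a.mul C (El.pw C a n b)

/-- the product of powers -/
def prE (C : Cv) : List El → List ℕ → El
  | a :: A, n :: e => a.pw C n (prE C A e)
  | _, _ => ⟨[1], [], 1⟩

/-- the exponents of the denominator -/
def mx (a b : List ℤ) : List ℕ :=
  List.zipWith (fun a b => (-a).toNat + ((-b).toNat - (-a).toNat)) a b

/-- the exponents of the numerator -/
def up (a : List ℤ) (m : List ℕ) : List ℕ :=
  List.zipWith (fun a m => a.toNat + (m - (-a).toNat)) a m

/-- the sign -/
def sgb (b : Bool) : ℤ := bif b then -1 else 1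

/-- three elements with `s₁ a + s₂ b = c` -/
def sum3 (s1 s2 : ℤ) (a b c : El) : Bool :=
  isZ (axpy (s1 * (b.d * c.d)) a.P (axpy (s2 * (a.d * c.d)) b.P (axpy (-(a.d * b.d)) c.P []))) &&
    isZ (axpy (s1 * (b.d * c.d)) a.Q (axpy (s2 * (a.d * c.d)) b.Q (axpy (-(a.d * b.d)) c.Q [])))

/-- the check of a class -/
def chkP (C : Cv) (G : List El) (p : Mo × Mo) : Bool :=
  Nat.beq p.1.2.length p.2.2.length &&
    sum3 (sgb p.1.1) (sgb p.2.1) (prE C G (up p.1.2 (mx p.1.2 p.2.2)))
      (prE C G (up p.2.2 (mx p.1.2 p.2.2))) (prE C G (mx p.1.2 p.2.2))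

/-- the norm -/
def El.nm (C : Cv) (a : El) : List ℤ :=
  axpy C.cd (pmul a.P a.P) (axpy 1 (pmul C.C1 (pmul a.P a.Q)) (axpy (-1) (pmul C.C0 (pmul a.Q a.Q))
    []))

/-- the elements do not vanish -/
def chkN (C : Cv) (G : List El) : Bool := G.all fun a => decide (a.d ≠ 0) && !(isZ (a.nm C))

section

variable {F : Type*} [Field F]

/-- the value of a polynomial -/
def pev (x : F) : List ℤ → F
  | [] => 0
  | a :: l => (a : F) + x * pev x l

lemma pev_axpy (x : F) (a : ℤ) (p q : List ℤ) : pev x (axpy a p q) = a * pev x p + pev x q := by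
  induction p generalizing q with
  | nil => simp [axpy, pev]
  | cons b p ih =>
    cases q with
    | nil => simp only [axpy, pev, ih]; push_cast; ring
    | cons c q => simp only [axpy, pev, ih]; push_cast; ring

lemma pev_pmul (x : F) (p q : List ℤ) : pev x (pmul p q) = pev x p * pev x q := by
  induction p with
  | nil => simp [pmul, pev]
  | cons a p ih =>
    cases q with
    | nil => simp [pmul, pev]
    | cons b q =>
      rw [pmul]
      simp only [List.isEmpty_cons, cond_false, pev_axpy]
      rw [show pev x (0 :: pmul p (b :: q)) = ((0 : ℤ) : F) + x * pev x (pmul p (b :: q)) from rfl,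
        ih, show pev x (a :: p) = (a : F) + x * pev x p from rfl]
      push_cast
      ring

lemma pev_isZ (x : F) {l : List ℤ} (h : isZ l = true) : pev x l = 0 := by
  induction l with
  | nil => rfl
  | cons a l ih =>
    unfold isZ at h
    rw [List.all_cons, Bool.and_eq_true] at h
    rw [pev, ih h.2, of_decide_eq_true h.1]
    simp

/-- the value of an element -/
def El.v (x y : F) (a : El) : F := (pev x a.P + pev x a.Q * y) / (a.d : F)

/-- the equation of the curve -/
def Cv.Eq (C : Cv) (x y : F) : Prop := (C.cd : F) * y ^ 2 = pev x C.C0 + pev x C.C1 * y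

lemma El.mul_v {C : Cv} {x y : F} (hC : C.Eq x y) (hcd : (C.cd : F) ≠ 0) (a b : El) :
    (a.mul C b).v x y = a.v x y * b.v x y := by
  unfold Cv.Eq at hC
  unfold El.v El.mul
  simp only [pev_axpy, pev_pmul]
  push_cast
  rw [div_mul_div_comm]
  by_cases hd : (a.d : F) * b.d = 0
  · rw [hd, mul_zero, div_zero, div_zero]
  · rw [div_eq_div_iff (mul_ne_zero hcd hd) hd]
    linear_combination (-(pev x a.Q * pev x b.Q * (a.d * b.d : F))) * hC

lemma El.pw_v {C : Cv} {x y : F} (hC : C.Eq x y) (hcd : (C.cd : F) ≠ 0) (a b : El) (n : ℕ) :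
    (a.pw C n b).v x y = a.v x y ^ n * b.v x y := by
  induction n with
  | zero => simp [El.pw]
  | succ n ih => rw [El.pw, El.mul_v hC hcd, ih, pow_succ]; ring

/-- monomials with natural exponents -/
def evN : List F → List ℕ → F
  | a :: g, n :: e => a ^ n * evN g e
  | _, _ => 1

lemma prE_v {C : Cv} {x y : F} (hC : C.Eq x y) (hcd : (C.cd : F) ≠ 0) (G : List El)
    (e : List ℕ) : (prE C G e).v x y = evN (G.map (El.v x y)) e := by
  induction G generalizing e with
  | nil => simp [prE, evN, El.v, pev]
  | cons a G ih =>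
    cases e with
    | nil => simp [prE, evN, El.v, pev]
    | cons n e => rw [prE, El.pw_v hC hcd, ih, List.map_cons, evN]

lemma evN_up {g : List F} (hg : ∀ z ∈ g, z ≠ 0) {e : List ℤ} {m : List ℕ}
    (h : List.Forall₂ (fun a m => (-a).toNat ≤ m) e m) :
    evN g (up e m) = evl g e * evN g m := by
  induction h generalizing g with
  | nil => cases g <;> simp [up, evN]
  | @cons a n e m h1 h2 ih =>
    cases g with
    | nil => simp [up, evN]
    | cons z g =>
      have z0 := hg z (by simp)
      have h3 := ih (g := g) fun w hw => hg w (by simp [hw])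
      unfold up at h3 ⊢
      rw [List.zipWith_cons_cons, evN, h3, evl_cons, evN]
      have h4 : z ^ (a.toNat + (n - (-a).toNat)) = z ^ a * z ^ n := by
        have h5 : ((a.toNat + (n - (-a).toNat) : ℕ) : ℤ) = a + n := by omega
        rw [← zpow_natCast, h5, zpow_add₀ z0, zpow_natCast]
      rw [h4]
      ring

lemma mx_l : ∀ {a b : List ℤ}, a.length = b.length →
    List.Forall₂ (fun a m => (-a).toNat ≤ m) a (mx a b)
  | [], [], _ => by simp [mx]
  | a :: e, b :: f, h => by
    unfold mx
    rw [List.zipWith_cons_cons]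
    refine List.Forall₂.cons (by omega) ?_
    exact mx_l (by simpa using h)

lemma mx_r : ∀ {a b : List ℤ}, a.length = b.length →
    List.Forall₂ (fun a m => (-a).toNat ≤ m) b (mx a b)
  | [], [], _ => by simp [mx]
  | a :: e, b :: f, h => by
    unfold mx
    rw [List.zipWith_cons_cons]
    refine List.Forall₂.cons (by omega) ?_
    exact mx_r (by simpa using h)

lemma evN_ne {g : List F} (hg : ∀ z ∈ g, z ≠ 0) (m : List ℕ) : evN g m ≠ 0 := by
  induction g generalizing m with
  | nil => simp [evN]
  | cons z g ih =>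
    cases m with
    | nil => simp [evN]
    | cons n m =>
      rw [evN]
      exact mul_ne_zero (pow_ne_zero _ (hg z (by simp))) (ih (fun w hw => hg w (by simp [hw])) m)

lemma sum3_v {x y : F} {s1 s2 : ℤ} {a b c : El} (ha : (a.d : F) ≠ 0) (hb : (b.d : F) ≠ 0)
    (hc : (c.d : F) ≠ 0) (h : sum3 s1 s2 a b c = true) :
    (s1 : F) * a.v x y + s2 * b.v x y = c.v x y := by
  unfold sum3 at h
  rw [Bool.and_eq_true] at h
  have h1 := pev_isZ x h.1
  have h2 := pev_isZ x h.2
  simp only [pev_axpy, pev] at h1 h2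
  push_cast at h1 h2
  unfold El.v
  field_simp
  linear_combination h1 + y * h2

lemma El.mul_d {C : Cv} (hcd : (C.cd : F) ≠ 0) {a b : El} (ha : (a.d : F) ≠ 0)
    (hb : (b.d : F) ≠ 0) : ((a.mul C b).d : F) ≠ 0 := by
  unfold El.mul
  push_cast
  exact mul_ne_zero hcd (mul_ne_zero ha hb)

lemma prE_d {C : Cv} (hcd : (C.cd : F) ≠ 0) {G : List El} (hG : ∀ a ∈ G, (a.d : F) ≠ 0)
    (e : List ℕ) : ((prE C G e).d : F) ≠ 0 := by
  induction G generalizing e with
  | nil => simp [prE]
  | cons a G ih =>
    cases e with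
    | nil => simp [prE]
    | cons n e =>
      rw [prE]
      have h1 := ih (fun b hb => hG b (by simp [hb])) e
      induction n with
      | zero => exact h1
      | succ n ihn => exact El.mul_d hcd (hG a (by simp)) ihn

/-- **the classes** -/
theorem sols_chk [CharZero F] {C : Cv} {x y : F} (hC : C.Eq x y) (hcd : C.cd ≠ 0) {G : List El}
    (hd : ∀ a ∈ G, a.d ≠ 0) (hg : ∀ z ∈ G.map (El.v x y), z ≠ 0) {cls : List (Mo × Mo)}
    (h : cls.all (chkP C G) = true) : Sols (G.map (El.v x y)) cls := by
  intro p hp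
  rw [List.all_eq_true] at h
  have h1 := h p hp
  unfold chkP at h1
  rw [Bool.and_eq_true] at h1
  have hcd' : (C.cd : F) ≠ 0 := by exact_mod_cast hcd
  have hd' : ∀ a ∈ G, (a.d : F) ≠ 0 := fun a ha => by exact_mod_cast hd a ha
  have hl := Nat.eq_of_beq_eq_true h1.1
  have h2 := sum3_v (x := x) (y := y) (prE_d hcd' hd' _) (prE_d hcd' hd' _) (prE_d hcd' hd' _) h1.2
  rw [prE_v hC hcd', prE_v hC hcd', prE_v hC hcd', evN_up hg (mx_l hl), evN_up hg (mx_r hl)] at h2
  have h3 := evN_ne hg (mx p.1.2 p.2.2)
  have e : ∀ b : Bool, ((sgb b : ℤ) : F) = bif b then -1 else 1 := by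
    intro b; cases b <;> simp [sgb]
  rw [e, e] at h2
  unfold ev
  apply mul_right_cancel₀ h3
  linear_combination h2

/-- the polynomial -/
noncomputable def toP (k : Type*) [Field k] : List ℤ → k[X]
  | [] => 0
  | a :: l => C (a : k) + X * toP k l

lemma toP_pev {k : Type*} [Field k] [Algebra k F] (x : F) (l : List ℤ) :
    (toP k l).eval₂ (algebraMap k F) x = pev x l := by
  induction l with
  | nil => simp [toP, pev]
  | cons a l ih => rw [toP, eval₂_add, eval₂_C, eval₂_mul, eval₂_X, ih, pev, map_intCast]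

lemma toP_zero {k : Type*} [Field k] [CharZero k] {l : List ℤ} (h : toP k l = 0) :
    isZ l = true := by
  induction l with
  | nil => rfl
  | cons a l ih =>
    rw [toP] at h
    have h0 : (a : k) = 0 := by
      have := congrArg (fun p => Polynomial.coeff p 0) h
      simpa using this
    rw [h0, map_zero, zero_add] at h
    have h1 : toP k l = 0 := by
      rcases mul_eq_zero.mp h with h | h
      · exact absurd h X_ne_zero
      · exact h
    unfold isZ
    rw [List.all_cons, Bool.and_eq_true]
    exact ⟨decide_eq_true (by exact_mod_cast h0), ih h1⟩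

/-- **the generators do not vanish** -/
theorem ne_chk {k : Type*} [Field k] [CharZero k] [Algebra k F] {C : Cv} {x y : F}
    (hx : TN.Tr k x) (hC : C.Eq x y) {G : List El} (h : chkN C G = true) :
    ∀ z ∈ G.map (El.v x y), z ≠ 0 := by
  have : CharZero F := charZero_of_injective_algebraMap (algebraMap k F).injective
  intro z hz h0
  obtain ⟨a, ha, rfl⟩ := List.mem_map.mp hz
  unfold chkN at h
  rw [List.all_eq_true] at h
  have h1 := h a ha
  rw [Bool.and_eq_true, Bool.not_eq_true'] at h1
  have hd : (a.d : F) ≠ 0 := by exact_mod_cast of_decide_eq_true h1.1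
  unfold El.v at h0
  rw [div_eq_zero_iff, or_iff_left hd] at h0
  have h2 : pev x (a.nm C) = 0 := by
    unfold El.nm
    unfold Cv.Eq at hC
    simp only [pev_axpy, pev_pmul, pev]
    push_cast
    linear_combination (C.cd * pev x a.P + pev x C.C1 * pev x a.Q - C.cd * pev x a.Q * y) * h0 +
      pev x a.Q ^ 2 * hC
  rw [← toP_pev (k := k)] at h2
  have h3 := toP_zero (hx _ h2)
  rw [h3] at h1
  exact absurd h1.2 (by simp)

end

end Pool.Agent.AX
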