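import Pool.Agent.Lib_helper24.FAM.LK

/-!
# Checked relations with auxiliary functions: packed vectors
-/

set_option autoImplicit false
set_option linter.unusedSectionVars false
set_option linter.unusedVariables false

open scoped TensorProduct

namespace Pool.Agent.AX

open MK4 KC72
open TN (KC lg1)

/-! ### packed vectors -/

/-- the value at `B` -/
def pk (B : ℤ) : List ℤ → ℤ
  | [] => 0
  | x :: v => x + B * pk B v

/-- the sum of the absolute values -/
def l1 : List ℤ → ℕ
  | [] => 0
  | x :: v => x.natAbs + l1 v

lemma pk_axpy (B a : ℤ) (x y : List ℤ) : pk B (axpy a x y) = a * pk B x + pk B y := by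
  induction x generalizing y with
  | nil => simp [axpy, pk]
  | cons x xs ih =>
    cases y with
    | nil => simp only [axpy, pk, ih]; ring
    | cons y ys => simp only [axpy, pk, ih]; ring

lemma l1_axpy (a : ℤ) (x y : List ℤ) : l1 (axpy a x y) ≤ a.natAbs * l1 x + l1 y := by
  induction x generalizing y with
  | nil => simp [axpy, l1]
  | cons x xs ih =>
    cases y with
    | nil =>
      simp only [axpy, l1]
      have h := ih []
      rw [Int.natAbs_mul]
      simp only [l1] at h
      nlinarith
    | cons y ys =>
      simp only [axpy, l1]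
      have h := ih ys
      have h1 : (a * x + y).natAbs ≤ a.natAbs * x.natAbs + y.natAbs := by
        rw [← Int.natAbs_mul]; exact Int.natAbs_add_le _ _
      nlinarith

lemma pk_append (B : ℤ) (x y : List ℤ) : pk B (x ++ y) = pk B x + B ^ x.length * pk B y := by
  induction x with
  | nil => simp [pk]
  | cons x xs ih => simp only [List.cons_append, pk, ih, List.length_cons, pow_succ]; ring

lemma l1_append (x y : List ℤ) : l1 (x ++ y) = l1 x + l1 y := by
  induction x with
  | nil => simp [l1]
  | cons x xs ih => simp only [List.cons_append, l1, ih]; ring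

lemma pk_map (B r : ℤ) (a : List ℤ) : pk B (a.map fun x => r * x) = r * pk B a := by
  induction a with
  | nil => simp [pk]
  | cons x xs ih => simp only [List.map_cons, pk, ih]; ring

lemma l1_map (r : ℤ) (a : List ℤ) : l1 (a.map fun x => r * x) = r.natAbs * l1 a := by
  induction a with
  | nil => simp [l1]
  | cons x xs ih => simp only [List.map_cons, l1, ih, Int.natAbs_mul]; ring

lemma pk_outer (B : ℤ) (ρ a : List ℤ) : pk B (outer ρ a) = pk (B ^ a.length) ρ * pk B a := by
  induction ρ with
  | nil => simp [outer, pk]
  | cons r ρ ih =>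
    have h1 : outer (r :: ρ) a = a.map (fun x => r * x) ++ outer ρ a := by simp [outer]
    rw [h1, pk_append, pk_map, ih, List.length_map, pk]
    ring

lemma l1_outer (ρ a : List ℤ) : l1 (outer ρ a) = l1 ρ * l1 a := by
  induction ρ with
  | nil => simp [outer, l1]
  | cons r ρ ih =>
    have h1 : outer (r :: ρ) a = a.map (fun x => r * x) ++ outer ρ a := by simp [outer]
    rw [h1, l1_append, l1_map, ih, l1]
    ring

lemma pk_sgl (D : ℤ) (c : ℕ) (s : ℤ) : pk D (sgl c s) = s * D ^ c := by
  induction c with
  | zero => simp [sgl, pk]
  | succ c ih =>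
    have : sgl (c + 1) s = 0 :: sgl c s := by simp [sgl, List.replicate_succ]
    rw [this, pk, ih, pow_succ]
    ring

lemma l1_sgl (c : ℕ) (s : ℤ) : l1 (sgl c s) = s.natAbs := by
  induction c with
  | zero => simp [sgl, l1]
  | succ c ih =>
    have : sgl (c + 1) s = 0 :: sgl c s := by simp [sgl, List.replicate_succ]
    rw [this, l1, ih]
    simp

/-- a packed vector with small entries -/
lemma isZ_of_pk {B : ℤ} (v : List ℤ) (h1 : (l1 v : ℤ) < B) (h : pk B v = 0) : isZ v = true := by
  induction v with
  | nil => rfl
  | cons x v ih =>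
    simp only [l1, pk] at h1 h
    push_cast at h1
    have hB : 0 < B := by
      have : (0 : ℤ) ≤ |x| := abs_nonneg x
      have : (0 : ℤ) ≤ (l1 v : ℤ) := Int.natCast_nonneg _
      linarith
    have hx : x = 0 := by
      have hd : B ∣ x := ⟨-pk B v, by linear_combination h⟩
      by_contra hx
      have h3 := Int.le_of_dvd (abs_pos.mpr hx) ((dvd_abs _ _).mpr hd)
      have : (0 : ℤ) ≤ (l1 v : ℤ) := Int.natCast_nonneg _
      linarith
    subst hx
    have h2 : pk B v = 0 := by
      have : B * pk B v = 0 := by linear_combination h
      exact (mul_eq_zero.mp this).resolve_left hB.ne'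
    have h3 := ih (by simpa using h1) h2
    unfold isZ at h3 ⊢
    rw [List.all_cons, h3]
    simp

end Pool.Agent.AX
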