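import Pool.Agent.Lib_helper87.AX.A
import Pool.Agent.Lib_helper72.KC.X

/-!
# Checked relations with auxiliary functions
-/

set_option autoImplicit false
set_option linter.unusedSectionVars false
set_option linter.unusedVariables false

open scoped TensorProduct

namespace Pool.Agent.AX

open MK4 KC72
open TN (KC lg1 hk_self hk_compl)

/-! ### constants -/

/-- the exponents of the generators which are not marked as constants vanish -/
def mz : List Bool → List ℤ → Bool
  | b :: K, e :: a => (b || decide (e = 0)) && mz K a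
  | _, _ => true

/-- an argument of a relation -/
def chkOm (K : List Bool) (cls : List (Mo × Mo)) (p : Option (ℕ × ℕ)) (a : Mo) : Bool :=
  match p with
  | some p => decide (p.1 < cls.length) && eqM (oo cls p) a
  | none => mz K a.2

/-- the check of a relation -/
def chkRm (K : List Bool) (cls : List (Mo × Mo)) (R : Rel) : Bool :=
  decide (R.x.1 < cls.length) && decide (R.y.1 < cls.length) && decide (R.z.1 < cls.length) &&
    eqM (oo cls R.z) ((oo cls R.y).div (oo cls R.x)) &&
    chkOm K cls R.w ((co cls R.x).div (co cls R.y)) &&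
    chkOm K cls R.u (((co cls R.x).div (co cls R.y)).mul (oo cls R.z))

section

variable {F : Type*} [Field F] {k : Type*} [Field k] [Algebra k F]

/-- the marked generators are constants -/
def Msk (k : Type*) [Field k] {F : Type*} [Field F] [Algebra k F] (K : List Bool) (g : List F) :
    Prop := List.Forall₂ (fun b x => b = true → ∃ c : k, x = algebraMap k F c) K g

lemma evl_constM {K : List Bool} {g : List F} (hk : Msk k K g) {a : List ℤ}
    (h : mz K a = true) : ∃ c : k, evl g a = algebraMap k F c := by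
  unfold Msk at hk
  induction hk generalizing a with
  | nil => exact ⟨1, by simp⟩
  | cons h1 h2 ih =>
    cases a with
    | nil => exact ⟨1, by simp⟩
    | cons e a =>
      simp only [mz, Bool.and_eq_true, Bool.or_eq_true, decide_eq_true_eq] at h
      obtain ⟨c, hc⟩ := ih h.2
      rcases h.1 with hb | he
      · obtain ⟨d, hd⟩ := h1 hb
        exact ⟨d ^ e * c, by rw [evl_cons, hc, hd, map_mul, map_zpow₀]⟩
      · exact ⟨c, by rw [evl_cons, hc, he, zpow_zero, one_mul]⟩

lemma ev_constM {K : List Bool} {g : List F} (hk : Msk k K g) {a : Mo}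
    (h : mz K a.2 = true) : ∃ c : k, ev g a = algebraMap k F c := by
  obtain ⟨c, hc⟩ := evl_constM hk h
  unfold ev
  rw [hc]
  rcases a with ⟨_ | _, a⟩
  · exact ⟨c, by simp⟩
  · exact ⟨-c, by simp⟩

variable {M : Type*} [AddCommGroup M] [Module ℚ M] (Φ : B2 F →ₗ[ℚ] M)

/-- the symbols of the classes -/
noncomputable def EP (g : List F) (cls : List (Mo × Mo)) : List M :=
  cls.map (fun p => Φ (sy (ev g p.1)))

lemma EP_getD {g : List F} {cls : List (Mo × Mo)} {c : ℕ} (hc : c < cls.length) :
    (EP Φ g cls).getD c 0 = Φ (sy (ev g (cls.getD c default).1)) := by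
  unfold EP
  rw [List.getD_eq_getElem?_getD, List.getD_eq_getElem?_getD, List.getElem?_map,
    List.getElem?_eq_getElem hc]
  rfl

lemma oo_syP [CharZero F] {g : List F} (hg : ∀ x ∈ g, x ≠ 0) {cls : List (Mo × Mo)}
    (H : Sols g cls) {p : ℕ × ℕ} (hp : p.1 < cls.length) (s : ℤ) :
    (s : ℚ) • Φ (sy (ev g (oo cls p))) = pl (EP Φ g cls) (ovec s p) := by
  unfold ovec
  rw [pl_sgl, EP_getD Φ hp]
  have h1 : sy (ev g (oo cls p)) = (sg6 p.2 : ℚ) • sy (ev g (cls.getD p.1 default).1) :=
    orb6_sy hg (H.getD hp) p.2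
  rw [h1, map_smul, smul_smul]
  push_cast
  rfl

variable (hΦ : ∀ c : k, Φ (sy (algebraMap k F c)) = 0)

include hΦ

lemma ovecO_syP [CharZero F] {K : List Bool} {g : List F} (hg : ∀ x ∈ g, x ≠ 0)
    (hk : Msk k K g) {cls : List (Mo × Mo)}
    (H : Sols g cls) {p : Option (ℕ × ℕ)} {a : Mo} (h : chkOm K cls p a = true) (s : ℤ) :
    (s : ℚ) • Φ (sy (ev g a)) = pl (EP Φ g cls) (ovecO s p) := by
  cases p with
  | some p =>
    simp only [chkOm, Bool.and_eq_true, decide_eq_true_eq] at h
    rw [← ev_eqM hg h.2]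
    exact oo_syP Φ hg H h.1 s
  | none =>
    obtain ⟨c, hc⟩ := ev_constM hk h
    rw [hc, hΦ, smul_zero]
    simp [ovecO]

/-- **a checked five term relation** -/
theorem relv_zeroM [CharZero F] {K : List Bool} {g : List F} (hg : ∀ x ∈ g, x ≠ 0)
    (hk : Msk k K g) {cls : List (Mo × Mo)}
    (H : Sols g cls) {R : Rel} (h : chkRm K cls R = true) :
    pl (EP Φ g cls) (relv R) = 0 := by
  unfold chkRm at h
  simp only [Bool.and_eq_true, decide_eq_true_eq] at h
  obtain ⟨⟨⟨⟨⟨hx, hy⟩, hz⟩, ez⟩, ew⟩, eu⟩ := h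
  have X := oo_co hg H hx
  have Y := oo_co hg H hy
  have Z := oo_co hg H hz
  have x0 := ev_ne hg (oo cls R.x)
  have y0 := ev_ne hg (oo cls R.y)
  have z0 := ev_ne hg (oo cls R.z)
  have x1 := ev_ne hg (co cls R.x)
  have y1 := ev_ne hg (co cls R.y)
  have z1 := ev_ne hg (co cls R.z)
  have eqz := ev_eqM hg ez
  rw [ev_div hg] at eqz
  set x := ev g (oo cls R.x) with hx'
  set y := ev g (oo cls R.y) with hy'
  set z := ev g (oo cls R.z) with hz'
  have cx : ev g (co cls R.x) = 1 - x := by linear_combination X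
  have cy : ev g (co cls R.y) = 1 - y := by linear_combination Y
  have cz : ev g (co cls R.z) = 1 - z := by linear_combination Z
  rw [cx] at x1
  rw [cy] at y1
  rw [cz] at z1
  have nx : x ≠ 1 := fun h => x1 (by rw [h, sub_self])
  have ny : y ≠ 1 := fun h => y1 (by rw [h, sub_self])
  have nxy : x ≠ y := by
    intro h
    apply z1
    rw [eqz, ← h, div_self x0, sub_self]
  have f5 : sy x - sy y + sy (y / x) - sy ((1 - x⁻¹) / (1 - y⁻¹)) + sy ((1 - x) / (1 - y)) = 0 :=
    K4M.five x0 nx y0 ny nxy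
  have hw : (1 - x) / (1 - y) = ev g ((co cls R.x).div (co cls R.y)) := by
    rw [ev_div hg, cx, cy]
  have hu : (1 - x⁻¹) / (1 - y⁻¹) =
      ev g (((co cls R.x).div (co cls R.y)).mul (oo cls R.z)) := by
    rw [ev_mul hg, ev_div hg, cx, cy, ← hz', eqz]
    have e1 : (1 - x⁻¹) = -(1 - x) / x := by field_simp; ring
    have e2 : (1 - y⁻¹) = -(1 - y) / y := by field_simp; ring
    rw [e1, e2]
    have y1' : -(1 - y) ≠ 0 := neg_ne_zero.mpr y1
    field_simp
  rw [hw, hu, ← eqz] at f5
  have f6 := congrArg Φ f5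
  rw [map_add, map_sub, map_add, map_sub, map_zero] at f6
  unfold relv
  rw [pl_axpy, pl_axpy, pl_axpy, pl_axpy, ← oo_syP Φ hg H hx 1, ← oo_syP Φ hg H hy (-1),
    ← oo_syP Φ hg H hz 1, ← ovecO_syP Φ hΦ hg hk H eu (-1), ← ovecO_syP Φ hΦ hg hk H ew 1]
  push_cast
  linear_combination (norm := module) f6

end

/-! ### weight two -/

/-- a relation of weight two: five term relations with coefficients -/
structure Aux2 where
  /-- the relations -/
  rels : List (Rel × ℤ)
  /-- the factor -/
  N : ℤ
  /-- the class -/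
  c : ℕ
  /-- the coefficients of the first classes -/
  a : List ℤ

/-- the combination of the relations -/
def Aux2.sum : List (Rel × ℤ) → List ℤ
  | [] => []
  | p :: l => axpy p.2 (relv p.1) (Aux2.sum l)

/-- the check: `N [c] = ∑ a_i [i]` -/
def Aux2.chk (K : List Bool) (cls : List (Mo × Mo)) (m : ℕ) (D : Aux2) : Bool :=
  decide (D.N ≠ 0) && decide (D.c < cls.length) && decide (D.a.length ≤ m) &&
    D.rels.all (fun p => chkRm K cls p.1) &&
    isZ (axpy (-D.N) (sgl D.c 1) (axpy 1 D.a (Aux2.sum D.rels)))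

section

variable {F : Type*} [Field F] [CharZero F] {k : Type*} [Field k] [Algebra k F]

lemma pl_mem {M : Type*} [AddCommGroup M] [Module ℚ M] (S : Submodule ℚ M) :
    ∀ (E : List M) (v : List ℤ), (∀ i < v.length, E.getD i 0 ∈ S) → pl E v ∈ S
  | [], v, _ => by simp
  | e :: E, [], _ => by simp
  | e :: E, x :: v, h => by
    rw [pl_cons]
    refine Submodule.add_mem _ (Submodule.smul_mem _ _ ?_) (pl_mem S E v fun i hi => ?_)
    · simpa using h 0 (by simp)
    · simpa using h (i + 1) (by simpa using hi)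

/-- **a checked relation of weight two** -/
theorem Aux2.sound {K : List Bool} {g : List F} (hg : ∀ x ∈ g, x ≠ 0) (hk : Msk k K g)
    {cls : List (Mo × Mo)} (H : Sols g cls) {m : ℕ} {D : Aux2} (h : D.chk K cls m = true) :
    sy (ev g (cls.getD D.c default).1) ∈ SC k F ⊔
      Submodule.span ℚ {a | ∃ p ∈ cls.take m, a = sy (ev g p.1)} := by
  unfold Aux2.chk at h
  simp only [Bool.and_eq_true, decide_eq_true_eq, List.all_eq_true] at h
  obtain ⟨⟨⟨⟨hN, hc⟩, ha⟩, hr⟩, hz⟩ := h
  set Φ := (SC k F).mkQ with hΦd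
  have hΦ : ∀ c : k, Φ (sy (algebraMap k F c)) = 0 := by
    intro c
    rw [hΦd, Submodule.mkQ_apply, Submodule.Quotient.mk_eq_zero]
    exact Submodule.subset_span ⟨c, rfl⟩
  have h0 : ∀ l : List (Rel × ℤ), (∀ p ∈ l, chkRm K cls p.1 = true) →
      pl (EP Φ g cls) (Aux2.sum l) = 0 := by
    intro l hl
    induction l with
    | nil => simp [Aux2.sum]
    | cons p l ih =>
      rw [Aux2.sum, pl_axpy, relv_zeroM Φ hΦ hg hk H (hl p (by simp)),
        ih (fun q hq => hl q (by simp [hq])), smul_zero, add_zero]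
  have h1 := pl_isZ (EP Φ g cls) hz
  rw [pl_axpy, pl_axpy, pl_sgl, h0 _ hr, EP_getD Φ hc] at h1
  have h2 : (D.N : ℚ) • Φ (sy (ev g (cls.getD D.c default).1)) = pl (EP Φ g cls) D.a := by
    push_cast at h1
    linear_combination (norm := module) -h1
  set T : Submodule ℚ (B2 F) := Submodule.span ℚ {a | ∃ p ∈ cls.take m, a = sy (ev g p.1)}
  have h3 : pl (EP Φ g cls) D.a ∈ T.map Φ := by
    apply pl_mem
    intro i hi
    have hi' : i < m := lt_of_lt_of_le hi ha
    by_cases hic : i < cls.length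
    · rw [EP_getD Φ hic]
      refine Submodule.mem_map_of_mem (Submodule.subset_span ⟨cls.getD i default, ?_, rfl⟩)
      rw [List.getD_eq_getElem _ _ hic]
      exact List.mem_take_iff_getElem.mpr ⟨i, by omega, rfl⟩
    · have : (EP Φ g cls).getD i 0 = 0 := by
        rw [List.getD_eq_default]
        unfold EP
        rw [List.length_map]
        omega
      rw [this]
      exact Submodule.zero_mem _
  have hN' : (D.N : ℚ) ≠ 0 := by exact_mod_cast hN
  have h4 : Φ (sy (ev g (cls.getD D.c default).1)) ∈ T.map Φ := by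
    have := Submodule.smul_mem (T.map Φ) (D.N : ℚ)⁻¹ (h2 ▸ h3)
    rwa [smul_smul, inv_mul_cancel₀ hN', one_smul] at this
  obtain ⟨t, ht, e⟩ := h4
  have h5 : sy (ev g (cls.getD D.c default).1) - t ∈ SC k F := by
    rw [← Submodule.Quotient.mk_eq_zero, Submodule.Quotient.mk_sub]
    exact sub_eq_zero.mpr e.symm
  have h6 : sy (ev g (cls.getD D.c default).1) =
      (sy (ev g (cls.getD D.c default).1) - t) + t := by abel
  rw [h6]
  exact Submodule.add_mem_sup h5 ht

end

end Pool.Agent.AX
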