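import Pool.Agent.Lib_helper87.AX.B

/-!
# Checked relations of weight three
-/

set_option autoImplicit false
set_option linter.unusedSectionVars false
set_option linter.unusedVariables false

open scoped TensorProduct

namespace Pool.Agent.AX

open MK4 KC72
open TN (KC lg1 hk_self hk_compl)

/-- an occurrence: a class, a factor, the exponents of the unit -/
structure Oc where
  /-- the class -/
  c : ℕ
  /-- the factor -/
  s : ℤ
  /-- the exponents -/
  u : List ℤ

/-- two to the power `m` -/
def p2 (m : ℕ) : ℤ := Int.ofNat (Nat.pow 2 m)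

lemma p2_eq (m : ℕ) : p2 m = 2 ^ m := by
  unfold p2
  rw [Int.ofNat_eq_natCast]
  push_cast [show Nat.pow 2 m = 2 ^ m from rfl]
  rfl

/-- the packed sum of the occurrences of the block `j` -/
def pb (w n K j : ℕ) : List Oc → ℤ
  | [] => 0
  | o :: l => bif Nat.beq (o.c / K) j
      then o.s * (pk (p2 w) o.u * p2 (w * n * (o.c % K))) + pb w n K j l
      else pb w n K j l

/-- the sum of the packed sums -/
def pbN (w n K j : ℕ) : List (List Oc) → ℤ
  | [] => 0
  | l :: L => pb w n K j l + pbN w n K j L

/-- the vector of the block `j` -/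
def vb (K j : ℕ) : List Oc → List ℤ
  | [] => []
  | o :: l => bif Nat.beq (o.c / K) j
      then axpy 1 (outer (sgl (o.c % K) o.s) o.u) (vb K j l)
      else vb K j l

/-- the bound -/
def bd : List Oc → ℕ
  | [] => 0
  | o :: l => o.s.natAbs * l1 o.u + bd l

/-- the bounds of the chunks -/
def bdN : List (List Oc) → ℕ
  | [] => 0
  | l :: L => bd l + bdN L

lemma pb_eq {w n K j : ℕ} {l : List Oc} (hl : ∀ o ∈ l, o.u.length = n) :
    pk (p2 w) (vb K j l) = pb w n K j l := by
  induction l with
  | nil => rfl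
  | cons o l ih =>
    have h1 := ih fun o ho => hl o (by simp [ho])
    rw [vb, pb]
    cases Nat.beq (o.c / K) j with
    | false => simpa using h1
    | true =>
      simp only [cond_true]
      rw [pk_axpy, h1, pk_outer, pk_sgl, hl o (by simp), p2_eq, p2_eq, ← pow_mul, ← pow_mul]
      ring

lemma l1_vb {K j : ℕ} {l : List Oc} : l1 (vb K j l) ≤ bd l := by
  induction l with
  | nil => simp [vb, l1]
  | cons o l ih =>
    rw [vb, bd]
    cases Nat.beq (o.c / K) j with
    | false =>
      simp only [cond_false]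
      omega
    | true =>
      simp only [cond_true]
      refine (l1_axpy _ _ _).trans ?_
      rw [l1_outer, l1_sgl]
      simp only [Int.natAbs_one, one_mul]
      omega

lemma pb_append {w n K j : ℕ} (l l' : List Oc) :
    pb w n K j (l ++ l') = pb w n K j l + pb w n K j l' := by
  induction l with
  | nil => simp [pb]
  | cons o l ih =>
    rw [List.cons_append, pb, pb]
    cases Nat.beq (o.c / K) j with
    | false => simpa using ih
    | true => simp only [cond_true, ih]; ring

lemma pbN_eq {w n K j : ℕ} (L : List (List Oc)) : pbN w n K j L = pb w n K j L.flatten := by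
  induction L with
  | nil => rfl
  | cons l L ih => rw [pbN, ih, List.flatten_cons, pb_append]

lemma bd_append (l l' : List Oc) : bd (l ++ l') = bd l + bd l' := by
  induction l with
  | nil => simp [bd]
  | cons o l ih => rw [List.cons_append, bd, bd, ih]; ring

lemma bdN_eq (L : List (List Oc)) : bdN L = bd L.flatten := by
  induction L with
  | nil => rfl
  | cons l L ih => rw [bdN, ih, List.flatten_cons, bd_append]

section

variable {V : Type*} [AddCommGroup V] [Module ℚ V] {M : Type*} [AddCommGroup M] [Module ℚ M]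
  (Φ : ℕ → (V →ₗ[ℚ] M)) (g : List V)

/-- the value of the occurrences -/
noncomputable def tot : List Oc → M
  | [] => 0
  | o :: l => (o.s : ℚ) • Φ o.c (pl g o.u) + tot l

lemma tot_append (l l' : List Oc) : tot Φ g (l ++ l') = tot Φ g l + tot Φ g l' := by
  induction l with
  | nil => simp [tot]
  | cons o l ih => rw [List.cons_append, tot, tot, ih, add_assoc]

lemma tot_flatMap_zero {α : Type*} (f : α → List Oc) (l : List α) (h : ∀ a ∈ l, tot Φ g (f a) = 0) :
    tot Φ g (l.flatMap f) = 0 := by
  induction l with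
  | nil => rfl
  | cons a l ih =>
    rw [List.flatMap_cons, tot_append, h a (by simp), ih fun b hb => h b (by simp [hb]), add_zero]

/-- the generators of the block `j` -/
noncomputable def EBl (K j : ℕ) : List M :=
  ((List.range K).map fun b => Φ (j * K + b)).flatMap fun B : V →ₗ[ℚ] M => g.map B

lemma pl_vb {K j : ℕ} (hK : 0 < K) {l : List Oc} (hl : ∀ o ∈ l, o.u.length = g.length) :
    pl (EBl Φ g K j) (vb K j l) = tot Φ g (l.filter fun o => Nat.beq (o.c / K) j) := by
  induction l with
  | nil => simp [vb, tot]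
  | cons o l ih =>
    have h1 := ih fun o ho => hl o (by simp [ho])
    rw [vb]
    by_cases hb : Nat.beq (o.c / K) j = true
    · rw [hb, cond_true, pl_axpy, h1, List.filter_cons_of_pos (by simpa using hb), tot]
      congr 1
      unfold EBl
      rw [pl_outer _ _ _ _ (hl o (by simp)), pl_sgl]
      have h2 : (((List.range K).map fun b => Φ (j * K + b)).getD (o.c % K) 0) = Φ o.c := by
        have h3 : o.c % K < K := Nat.mod_lt _ hK
        rw [List.getD_eq_getElem?_getD, List.getElem?_map, List.getElem?_range h3]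
        have h4 := Nat.eq_of_beq_eq_true hb
        have h5 : j * K + o.c % K = o.c := by
          rw [← h4, Nat.div_add_mod']
        simp only [Option.map_some, Option.getD_some, h5]
      rw [h2]
      simp
    · rw [Bool.not_eq_true] at hb
      rw [hb, cond_false, h1, List.filter_cons_of_neg (by simp [hb])]

lemma tot_split {K nb : ℕ} {l : List Oc} (hl : ∀ o ∈ l, o.c / K < nb) :
    tot Φ g l = ∑ j ∈ Finset.range nb, tot Φ g (l.filter fun o => Nat.beq (o.c / K) j) := by
  induction l with
  | nil => simp [tot]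
  | cons o l ih =>
    have h1 := ih fun o ho => hl o (by simp [ho])
    have h2 : ∀ j, tot Φ g ((o :: l).filter fun o => Nat.beq (o.c / K) j) =
        (if j = o.c / K then (o.s : ℚ) • Φ o.c (pl g o.u) else 0) +
          tot Φ g (l.filter fun o => Nat.beq (o.c / K) j) := by
      intro j
      by_cases hj : j = o.c / K
      · rw [if_pos hj, List.filter_cons_of_pos (by simp [hj]), tot]
      · rw [if_neg hj, List.filter_cons_of_neg, zero_add]
        intro hb
        exact hj (Nat.eq_of_beq_eq_true hb).symm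
    simp only [h2]
    rw [Finset.sum_add_distrib, ← h1, tot, Finset.sum_ite_eq', if_pos]
    exact Finset.mem_range.mpr (hl o (by simp))

/-- **the packed check** -/
theorem tot_zero {w K nb : ℕ} (hK : 0 < K) {l : List Oc} (h1 : ∀ o ∈ l, o.c / K < nb)
    (h2 : ∀ o ∈ l, o.u.length = g.length) (h3 : bd l < 2 ^ w)
    (h4 : ∀ j < nb, pb w g.length K j l = 0) : tot Φ g l = 0 := by
  rw [tot_split Φ g h1]
  refine Finset.sum_eq_zero fun j hj => ?_
  rw [← pl_vb Φ g hK h2]
  refine pl_isZ _ (isZ_of_pk (B := p2 w) _ ?_ ?_)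
  · rw [p2_eq]
    have h5 : l1 (vb K j l) < 2 ^ w := lt_of_le_of_lt l1_vb h3
    exact_mod_cast h5
  · rw [pb_eq h2]
    exact h4 j (Finset.mem_range.mp hj)

end

/-! ### relations of weight three -/

/-- the occurrence of an argument -/
def oc1 (s : ℤ) (p : ℕ × ℕ) (u : List ℤ) : Oc := ⟨p.1, s * sg6 p.2, u⟩

/-- the occurrence of an optional argument -/
def ocO (s : ℤ) (p : Option (ℕ × ℕ)) (u l : List ℤ) (L : List Oc) : List Oc :=
  match p with
  | some p => oc1 s p u :: L
  | none => L

/-- the occurrences of a relation -/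
def ocR (p : Rel × List ℤ) : List Oc :=
  oc1 1 p.1.x p.2 :: oc1 (-1) p.1.y p.2 :: oc1 1 p.1.z p.2 ::
    (ocO (-1) p.1.u p.2 [] (ocO 1 p.1.w p.2 [] []))

/-- a trivial element: `a {f} ⊗ f + b {f} ⊗ (1 - f)` -/
def ocT (cls : List (Mo × Mo)) (t : ℕ × ℤ × ℤ) : Oc :=
  ⟨t.1, 1, axpy t.2.1 (cls.getD t.1 default).1.2 (axpy t.2.2 (cls.getD t.1 default).2.2 [])⟩

/-- a term -/
def ocM (a : ℤ) (t : Tm) : Oc := ⟨t.c, a * sg6 t.s, t.u⟩

/-- a certificate for an identity: the relations and the trivial elements -/
structure Id3 where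
  /-- the five term relations -/
  rels : List (List (Rel × List ℤ))
  /-- the trivial elements -/
  triv : List (List (ℕ × ℤ × ℤ))

/-- the occurrences -/
def Id3.occ (D : Id3) (cls : List (Mo × Mo)) (L : List (ℤ × List Tm)) : List (List Oc) :=
  D.rels.map (fun l => l.flatMap ocR) ++ D.triv.map (fun l => l.map (ocT cls)) ++
    L.map (fun p => p.2.map (ocM p.1))

/-- the relations are relations -/
def Id3.chkA (D : Id3) (K : List Bool) (cls : List (Mo × Mo)) : Bool :=
  D.rels.all fun l => l.all fun p => chkRm K cls p.1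

/-- the classes of the trivial elements and of the terms -/
def Id3.chkB (D : Id3) (cls : List (Mo × Mo)) (L : List (ℤ × List Tm)) : Bool :=
  (D.triv.all fun l => l.all fun t => decide (t.1 < cls.length)) &&
    L.all fun p => p.2.all fun t => decide (t.c < cls.length)

/-- the occurrences are in range -/
def okO (n K nb : ℕ) (L : List (List Oc)) : Bool :=
  L.all fun l => l.all fun o => Nat.blt (o.c / K) nb && Nat.beq o.u.length n

/-- the numerical check -/
def Id3.chkC (D : Id3) (w n K nb : ℕ) (cls : List (Mo × Mo)) (L : List (ℤ × List Tm)) : Bool :=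
  Nat.blt 0 K && okO n K nb (D.occ cls L) && Nat.blt (bdN (D.occ cls L)) (Nat.pow 2 w) &&
    (List.range nb).all fun j => decide (pbN w n K j (D.occ cls L) = 0)

section

variable {F : Type*} [Field F] [CharZero F] {k : Type*} [Field k] [Algebra k F]

/-- the sum of the multiples of the elements -/
noncomputable def zts (g : List F) (cls : List (Mo × Mo)) : List (ℤ × List Tm) → HK F
  | [] => 0
  | p :: L => (p.1 : ℚ) • zt g cls p.2 + zts g cls L

variable (k) in
/-- the symbols of the classes -/
noncomputable def Ph (g : List F) (cls : List (Mo × Mo)) (c : ℕ) :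
    FT F →ₗ[ℚ] (HK F ⧸ KC k F) := (EP (TT F k) g cls).getD c 0

lemma tot_R {K : List Bool} {g : List F} (hg : ∀ x ∈ g, x ≠ 0) (hk : Msk k K g)
    {cls : List (Mo × Mo)} (H : Sols g cls) {p : Rel × List ℤ} (h : chkRm K cls p.1 = true) :
    tot (Ph k g cls) (g.map lg) (ocR p) = 0 := by
  have h1 := LinearMap.congr_fun
    (relv_zeroM (TT F k) (fun c => TT_const c) hg hk H h) (pl (g.map lg) p.2)
  rw [LinearMap.zero_apply] at h1
  rw [← h1]
  unfold relv
  rw [pl_axpy, pl_axpy, pl_axpy, pl_axpy]
  obtain ⟨⟨x, y, z, u, w⟩, v⟩ := p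
  cases u <;> cases w <;>
    simp only [ocR, ocO, oc1, tot, ovec, ovecO, pl_sgl, pl_nil_right, Ph, LinearMap.add_apply,
      LinearMap.smul_apply, LinearMap.zero_apply] <;> push_cast <;> module

lemma tot_T {g : List F} (hg : ∀ x ∈ g, x ≠ 0) {cls : List (Mo × Mo)} (H : Sols g cls)
    {t : ℕ × ℤ × ℤ} (h : t.1 < cls.length) :
    tot (Ph k g cls) (g.map lg) [ocT cls t] = 0 := by
  have hS := H.getD h
  set f := ev g (cls.getD t.1 default).1 with hf
  have f0 : f ≠ 0 := ev_ne hg _
  have f1 : f ≠ 1 := by
    intro h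
    apply ev_ne hg (cls.getD t.1 default).2
    linear_combination hS - h
  have e2 : (1 - f) = ev g (cls.getD t.1 default).2 := by linear_combination -hS
  have z1 : TT F k (sy f) (pl (g.map lg) (cls.getD t.1 default).1.2) = 0 := by
    rw [← lg_ev hg, ← hf, TT_apply, hk_self f0 f1, map_zero]
  have z2 : TT F k (sy f) (pl (g.map lg) (cls.getD t.1 default).2.2) = 0 := by
    rw [← lg_ev hg, ← e2, TT_apply, hk_compl f0 f1, map_zero]
  simp only [tot, ocT, Ph, EP_getD _ h, pl_axpy, pl_nil_right, add_zero, map_add, map_smul]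
  rw [← hf, z1, z2]
  simp

lemma tot_M {g : List F} (hg : ∀ x ∈ g, x ≠ 0) {cls : List (Mo × Mo)} (H : Sols g cls) (a : ℤ)
    {L : List Tm} (h : ∀ t ∈ L, t.c < cls.length) :
    tot (Ph k g cls) (g.map lg) (L.map (ocM a)) = (KC k F).mkQ ((a : ℚ) • zt g cls L) := by
  induction L with
  | nil => simp [tot, zt]
  | cons t L ih =>
    have h1 := ih fun t ht => h t (by simp [ht])
    have hc := h t (by simp)
    rw [List.map_cons, tot, h1, zt]
    have e2 : sy (ev g (oo cls (t.c, t.s))) = (sg6 t.s : ℚ) • sy (ev g (cls.getD t.c default).1) :=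
      orb6_sy hg (H.getD hc) t.s
    rw [smul_add, map_add]
    congr 1
    rw [map_smul, ← TT_apply (k := k), e2, map_smul, LinearMap.smul_apply, lg_evl hg]
    simp only [ocM, Ph, EP_getD _ hc, smul_smul]
    push_cast
    rfl

/-- **a checked identity of weight three** -/
theorem Id3.sound {K : List Bool} {g : List F} (hg : ∀ x ∈ g, x ≠ 0) (hk : Msk k K g)
    {cls : List (Mo × Mo)} (H : Sols g cls) {n : ℕ} (hn : g.length = n) {D : Id3}
    {L : List (ℤ × List Tm)} (hA : D.chkA K cls = true) (hB : D.chkB cls L = true)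
    {w Kb nb : ℕ} (hC : D.chkC w n Kb nb cls L = true) : zts g cls L ∈ KC k F := by
  unfold Id3.chkC at hC
  simp only [Bool.and_eq_true, List.all_eq_true, decide_eq_true_eq, List.mem_range] at hC
  obtain ⟨⟨⟨hK, hO⟩, hb⟩, hz⟩ := hC
  have hK' : 0 < Kb := Nat.blt_eq.mp hK
  have hb' := Nat.blt_eq.mp hb
  unfold okO at hO
  simp only [Bool.and_eq_true, List.all_eq_true] at hO
  have hO' : ∀ o ∈ (D.occ cls L).flatten, o.c / Kb < nb ∧ o.u.length = (g.map lg).length := by
    intro o ho
    obtain ⟨l, hl, hol⟩ := List.mem_flatten.mp ho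
    have := hO l hl o hol
    exact ⟨Nat.blt_eq.mp this.1, by rw [Nat.eq_of_beq_eq_true this.2, List.length_map, hn]⟩
  have h0 : tot (Ph k g cls) (g.map lg) (D.occ cls L).flatten = 0 := by
    refine tot_zero _ _ hK' (fun o ho => (hO' o ho).1) (fun o ho => (hO' o ho).2) (w := w) ?_ ?_
    · rw [← bdN_eq]
      exact hb'
    · intro j hj
      rw [← pbN_eq, List.length_map, hn]
      exact hz j hj
  unfold Id3.chkA at hA
  simp only [List.all_eq_true] at hA
  unfold Id3.chkB at hB
  simp only [Bool.and_eq_true, List.all_eq_true, decide_eq_true_eq] at hB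
  unfold Id3.occ at h0
  rw [List.flatten_append, List.flatten_append, tot_append, tot_append] at h0
  have e1 : tot (Ph k g cls) (g.map lg) (D.rels.map fun l => l.flatMap ocR).flatten = 0 := by
    rw [← List.flatMap_def]
    refine tot_flatMap_zero _ _ _ _ fun l hl => tot_flatMap_zero _ _ _ _ fun p hp => ?_
    exact tot_R hg hk H (hA l hl p hp)
  have e2 : tot (Ph k g cls) (g.map lg) (D.triv.map fun l => l.map (ocT cls)).flatten = 0 := by
    rw [← List.flatMap_def]
    refine tot_flatMap_zero _ _ _ _ fun l hl => ?_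
    rw [show l.map (ocT cls) = l.flatMap (fun t => [ocT cls t]) from List.map_eq_flatMap ..]
    exact tot_flatMap_zero (Ph k g cls) _ _ _ fun t ht => tot_T hg H (hB.1 l hl t ht)
  rw [e1, e2, zero_add, zero_add] at h0
  have e3 : ∀ L : List (ℤ × List Tm), (∀ p ∈ L, ∀ t ∈ p.2, t.c < cls.length) →
      tot (Ph k g cls) (g.map lg) (L.map fun p => p.2.map (ocM p.1)).flatten =
        (KC k F).mkQ (zts g cls L) := by
    intro L hL
    induction L with
    | nil => simp [tot, zts]
    | cons p L ih =>
      rw [List.map_cons, List.flatten_cons, tot_append, ih fun q hq => hL q (by simp [hq]),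
        tot_M hg H _ (hL p (by simp)), zts, map_add]
  rw [e3 L hB.2, Submodule.mkQ_apply, Submodule.Quotient.mk_eq_zero] at h0
  exact h0

/-- a multiple -/
theorem zts_mul {g : List F} {cls : List (Mo × Mo)} {N m : ℤ} (hN : N ≠ 0) {L L' : List Tm}
    (h : zts g cls [(N, L), (m, L')] ∈ KC k F) :
    ∃ β : ℚ, zt g cls L - β • zt g cls L' ∈ KC k F := by
  refine ⟨-(m : ℚ) / N, ?_⟩
  have hN' : (N : ℚ) ≠ 0 := by exact_mod_cast hN
  have h1 := Submodule.smul_mem _ ((N : ℚ)⁻¹) h
  simp only [zts, add_zero] at h1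
  rw [smul_add, smul_smul, smul_smul, inv_mul_cancel₀ hN', one_smul] at h1
  have e : -(-(m : ℚ) / N) = (N : ℚ)⁻¹ * m := by field_simp
  rw [sub_eq_add_neg, ← neg_smul, e]
  exact h1

end

end Pool.Agent.AX
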