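import Pool.Agent.Lib_helper87.AX.R

/-!
# The five exceptional curves: the equation and the generators
-/

set_option autoImplicit false
set_option linter.unusedSectionVars false
set_option linter.unusedVariables false

namespace Pool.Agent.AX

open KC72

/-- the curve with `t = 1 / 3` -/
def Cc0 : Cv := ⟨9, [0, 0, -4, 9], [4, -6]⟩

/-- its generators -/
def Gc0 : List El := [⟨[0, 1], [], 1⟩, ⟨[-4, 9], [], 9⟩, ⟨[-1, 3], [], 3⟩, ⟨[], [1], 1⟩, ⟨[0, -1], [3], 3⟩, ⟨[2], [], 1⟩, ⟨[3], [], 1⟩]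

/-- the curve with `t = -(1 / 3)` -/
def Cc1 : Cv := ⟨9, [0, 0, 2, 9], [-2, -12]⟩

/-- its generators -/
def Gc1 : List El := [⟨[0, 1], [], 1⟩, ⟨[2, 9], [], 9⟩, ⟨[1, 3], [], 3⟩, ⟨[], [1], 1⟩, ⟨[0, 1], [3], 3⟩, ⟨[2], [], 1⟩, ⟨[3], [], 1⟩]

/-- the curve with `t = -(1 / 5)` -/
def Cc2 : Cv := ⟨25, [0, 0, 4, 25], [-4, -30]⟩

/-- its generators -/
def Gc2 : List El := [⟨[0, 1], [], 1⟩, ⟨[4, 25], [], 25⟩, ⟨[1, 5], [], 5⟩, ⟨[], [1], 1⟩, ⟨[0, 1], [5], 5⟩, ⟨[2], [], 1⟩, ⟨[5], [], 1⟩]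

/-- the curve with `b = 1`, `c = 2 / 3` -/
def C8c : Cv := ⟨3, [0, 0, -3, 3], [3, -1]⟩

/-- its generators -/
def G8c : List El := [⟨[0, 1], [], 1⟩, ⟨[-1, 1], [], 1⟩, ⟨[-2, 3], [], 3⟩, ⟨[-3, 4], [], 4⟩, ⟨[], [1], 1⟩, ⟨[0, -2], [3], 3⟩, ⟨[0, -1], [2], 2⟩, ⟨[2], [], 1⟩, ⟨[3], [], 1⟩]

/-- the curve with `b = -(1 / 8)`, `c = -(1 / 6)` -/
def C8d : Cv := ⟨24, [0, 0, 3, 24], [-3, -28]⟩

/-- its generators -/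
def G8d : List El := [⟨[0, 1], [], 1⟩, ⟨[1, 8], [], 8⟩, ⟨[1, 6], [], 6⟩, ⟨[3, 16], [], 16⟩, ⟨[], [1], 1⟩, ⟨[0, 1], [6], 6⟩, ⟨[0, 1], [4], 4⟩, ⟨[2], [], 1⟩, ⟨[3], [], 1⟩]

end Pool.Agent.AX
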