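import Pool.Agent.Lib_helper87.AX.Cd
import Pool.Agent.Lib_helper60.N6S.J
import Pool.Agent.Lib_helper60.K8c.C
import Pool.Agent.Lib_helper60.K8d.C

/-!
# The five exceptional curves: the equation and the generators, II
-/

set_option autoImplicit false
set_option linter.unusedSectionVars false
set_option linter.unusedVariables false

namespace Pool.Agent.AX

open KC72

section

variable {k : Type*} [Field k] [CharZero k] {F : Type*} [Field F] [Algebra k F] {t : k} {x y : F}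

lemma k_eq {a : k} {p q : ℤ} (hq : (q : k) ≠ 0) (h : (q : k) * a = p) :
    algebraMap k F a = (p : F) / (q : F) := by
  have h1 : a = (p : k) / (q : k) := by
    rw [eq_div_iff hq]
    linear_combination h
  rw [h1, map_div₀, map_intCast, map_intCast]

lemma t0 (hk : N6S.KdS 0 t) : algebraMap k F t = 1 / 3 := by
  have h : algebraMap k F t = ((1 : ℤ) : F) / ((3 : ℤ) : F) :=
    k_eq (by norm_num) (by push_cast; linear_combination hk.1 rfl)
  rw [h]
  push_cast
  ring

lemma Cc0_eq (hk : N6S.KdS 0 t) (h : N6.G6 t x y) : Cc0.Eq x y := by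
  have : CharZero F := charZero_of_injective_algebraMap (algebraMap k F).injective
  have h1 := h.eq
  rw [map_add, map_pow, t0 hk] at h1
  unfold Cv.Eq Cc0
  simp only [pev]
  push_cast
  linear_combination 9 * h1

lemma Gc0_eq (hk : N6S.KdS 0 t) : N6S.glS 0 t x y = Gc0.map (El.v x y) := by
  have : CharZero F := charZero_of_injective_algebraMap (algebraMap k F).injective
  unfold N6S.glS Gc0
  rw [map_add, map_pow, t0 hk]
  simp only [List.map_cons, List.map_nil, El.v, pev, N6S.pr]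
  refine List.cons_eq_cons.mpr ⟨?_, List.cons_eq_cons.mpr ⟨?_, List.cons_eq_cons.mpr ⟨?_,
    List.cons_eq_cons.mpr ⟨?_, List.cons_eq_cons.mpr ⟨?_, List.cons_eq_cons.mpr ⟨?_,
    List.cons_eq_cons.mpr ⟨?_, rfl⟩⟩⟩⟩⟩⟩⟩ <;> push_cast <;> simp <;> ring

lemma t1 (hk : N6S.KdS 1 t) : algebraMap k F t = -1 / 3 := by
  have h : algebraMap k F t = ((-1 : ℤ) : F) / ((3 : ℤ) : F) :=
    k_eq (by norm_num) (by push_cast; linear_combination hk.2.1 rfl)
  rw [h]
  push_cast
  ring

lemma Cc1_eq (hk : N6S.KdS 1 t) (h : N6.G6 t x y) : Cc1.Eq x y := by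
  have : CharZero F := charZero_of_injective_algebraMap (algebraMap k F).injective
  have h1 := h.eq
  rw [map_add, map_pow, t1 hk] at h1
  unfold Cv.Eq Cc1
  simp only [pev]
  push_cast
  linear_combination 9 * h1

lemma Gc1_eq (hk : N6S.KdS 1 t) : N6S.glS 1 t x y = Gc1.map (El.v x y) := by
  have : CharZero F := charZero_of_injective_algebraMap (algebraMap k F).injective
  unfold N6S.glS Gc1
  rw [map_add, map_pow, t1 hk]
  simp only [List.map_cons, List.map_nil, El.v, pev, N6S.pr]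
  refine List.cons_eq_cons.mpr ⟨?_, List.cons_eq_cons.mpr ⟨?_, List.cons_eq_cons.mpr ⟨?_,
    List.cons_eq_cons.mpr ⟨?_, List.cons_eq_cons.mpr ⟨?_, List.cons_eq_cons.mpr ⟨?_,
    List.cons_eq_cons.mpr ⟨?_, rfl⟩⟩⟩⟩⟩⟩⟩ <;> push_cast <;> simp <;> ring

lemma t2 (hk : N6S.KdS 2 t) : algebraMap k F t = -1 / 5 := by
  have h : algebraMap k F t = ((-1 : ℤ) : F) / ((5 : ℤ) : F) :=
    k_eq (by norm_num) (by push_cast; linear_combination hk.2.2 rfl)
  rw [h]
  push_cast
  ring

lemma Cc2_eq (hk : N6S.KdS 2 t) (h : N6.G6 t x y) : Cc2.Eq x y := by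
  have : CharZero F := charZero_of_injective_algebraMap (algebraMap k F).injective
  have h1 := h.eq
  rw [map_add, map_pow, t2 hk] at h1
  unfold Cv.Eq Cc2
  simp only [pev]
  push_cast
  linear_combination 25 * h1

lemma Gc2_eq (hk : N6S.KdS 2 t) : N6S.glS 2 t x y = Gc2.map (El.v x y) := by
  have : CharZero F := charZero_of_injective_algebraMap (algebraMap k F).injective
  unfold N6S.glS Gc2
  rw [map_add, map_pow, t2 hk]
  simp only [List.map_cons, List.map_nil, El.v, pev, N6S.pr]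
  refine List.cons_eq_cons.mpr ⟨?_, List.cons_eq_cons.mpr ⟨?_, List.cons_eq_cons.mpr ⟨?_,
    List.cons_eq_cons.mpr ⟨?_, List.cons_eq_cons.mpr ⟨?_, List.cons_eq_cons.mpr ⟨?_,
    List.cons_eq_cons.mpr ⟨?_, rfl⟩⟩⟩⟩⟩⟩⟩ <;> push_cast <;> simp <;> ring

lemma C8c_eq (h : TN.Gen (1 : k) (2 / 3) x y) : C8c.Eq x y := by
  have : CharZero F := charZero_of_injective_algebraMap (algebraMap k F).injective
  have h1 := h.eq
  simp only [map_div₀, map_neg, map_one, map_ofNat] at h1
  unfold Cv.Eq C8c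
  simp only [pev]
  push_cast
  linear_combination 3 * h1

lemma G8c_eq [CharZero F] : List.ofFn (K8c.G8 x y) = G8c.map (El.v x y) := by
  rw [show List.ofFn (K8c.G8 x y) = [x, x - 1, x - (2/3), x - (3/4), y, y - (2/3) * x, y - (1/2) * x, 2, 3] from rfl]
  unfold G8c
  simp only [List.map_cons, List.map_nil, El.v, pev]
  refine List.cons_eq_cons.mpr ⟨?_, List.cons_eq_cons.mpr ⟨?_, List.cons_eq_cons.mpr ⟨?_,
    List.cons_eq_cons.mpr ⟨?_, List.cons_eq_cons.mpr ⟨?_, List.cons_eq_cons.mpr ⟨?_,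
    List.cons_eq_cons.mpr ⟨?_, List.cons_eq_cons.mpr ⟨?_, List.cons_eq_cons.mpr ⟨?_,
    rfl⟩⟩⟩⟩⟩⟩⟩⟩⟩ <;> push_cast <;> ring

lemma C8d_eq (h : TN.Gen (-1 / 8 : k) (-1 / 6) x y) : C8d.Eq x y := by
  have : CharZero F := charZero_of_injective_algebraMap (algebraMap k F).injective
  have h1 := h.eq
  simp only [map_div₀, map_neg, map_one, map_ofNat] at h1
  unfold Cv.Eq C8d
  simp only [pev]
  push_cast
  linear_combination 24 * h1

lemma G8d_eq [CharZero F] : List.ofFn (K8d.G8 x y) = G8d.map (El.v x y) := by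
  rw [show List.ofFn (K8d.G8 x y) = [x, x + (1/8), x + (1/6), x + (3/16), y, y + (1/6) * x, y + (1/4) * x, 2, 3] from rfl]
  unfold G8d
  simp only [List.map_cons, List.map_nil, El.v, pev]
  refine List.cons_eq_cons.mpr ⟨?_, List.cons_eq_cons.mpr ⟨?_, List.cons_eq_cons.mpr ⟨?_,
    List.cons_eq_cons.mpr ⟨?_, List.cons_eq_cons.mpr ⟨?_, List.cons_eq_cons.mpr ⟨?_,
    List.cons_eq_cons.mpr ⟨?_, List.cons_eq_cons.mpr ⟨?_, List.cons_eq_cons.mpr ⟨?_,
    rfl⟩⟩⟩⟩⟩⟩⟩⟩⟩ <;> push_cast <;> ring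

end

end Pool.Agent.AX
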