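import Pool.Agent.Lib_helper87.AX.C

/-!
# Back to the generators without the auxiliary functions
-/

set_option autoImplicit false
set_option linter.unusedSectionVars false
set_option linter.unusedVariables false

open scoped TensorProduct

namespace Pool.Agent.AX

open MK4 KC72
open TN (KC lg1 hk_self hk_compl)

/-- `m` further generators in front -/
def padL (m : ℕ) (v : List ℤ) : List ℤ := List.replicate m 0 ++ v

/-- `m` further generators in front -/
def padM (m : ℕ) (a : Mo) : Mo := (a.1, padL m a.2)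

section

variable {F : Type*} [Field F]

lemma evl_pad {m : ℕ} {A : List F} (hA : A.length = m) (G : List F) (v : List ℤ) :
    evl (A ++ G) (padL m v) = evl G v := by
  subst hA
  unfold padL
  induction A with
  | nil => simp
  | cons a A ih =>
    rw [List.length_cons, List.replicate_succ, List.cons_append, List.cons_append, evl_cons, ih,
      zpow_zero, one_mul]

lemma ev_pad {m : ℕ} {A : List F} (hA : A.length = m) (G : List F) (a : Mo) :
    ev (A ++ G) (padM m a) = ev G a := by
  unfold ev padM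
  rw [evl_pad hA]

/-- the terms of two lists agree -/
def padS (m : ℕ) (cls0 : List (Mo × Mo)) : List Tm → List (Mo × Mo) → List Tm → Bool
  | [], _, [] => true
  | t0 :: L0, cls, t :: L =>
    eqM (oo cls (t.c, t.s)) (padM m (oo cls0 (t0.c, t0.s))) && isZ (axpy (-1) t.u (padL m t0.u)) &&
      padS m cls0 L0 cls L
  | _, _, _ => false

/-- the elements agree -/
theorem zt_padS {m : ℕ} {A G : List F} (hA : A.length = m) (hg : ∀ x ∈ A ++ G, x ≠ 0)
    {cls0 cls : List (Mo × Mo)} {L0 L : List Tm} (h : padS m cls0 L0 cls L = true) :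
    zt (A ++ G) cls L = zt G cls0 L0 := by
  induction L0 generalizing L with
  | nil =>
    cases L with
    | nil => rfl
    | cons t L => exact absurd h (by simp [padS])
  | cons t0 L0 ih =>
    cases L with
    | nil => exact absurd h (by simp [padS])
    | cons t L =>
      simp only [padS, Bool.and_eq_true] at h
      obtain ⟨⟨h1, h2⟩, h3⟩ := h
      have e1 := ev_eqM hg h1
      rw [ev_pad hA] at e1
      have h4 : eqM (false, t.u) (false, padL m t0.u) = true := by
        unfold eqM
        simpa using h2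
      have e2 := ev_eqM hg h4
      have e3 : ∀ v : List ℤ, ev (A ++ G) (false, v) = evl (A ++ G) v := by
        intro v; simp [ev]
      rw [e3, e3, evl_pad hA] at e2
      rw [zt, zt, ih h3, e1, e2]

/-- the same terms with respect to two lists of classes -/
theorem zt_same {G : List F} (hg : ∀ x ∈ G, x ≠ 0)
    {cls0 cls : List (Mo × Mo)} {L0 L : List Tm} (h : padS 0 cls0 L0 cls L = true) :
    zt G cls L = zt G cls0 L0 :=
  zt_padS (A := []) rfl hg h

end

section

variable {F : Type*} [Field F] [CharZero F] {k : Type*} [Field k] [Algebra k F]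

/-- **the multiples**: from an identity over the extended generators -/
theorem Id3.mul {K : List Bool} {m n : ℕ} {A G : List F} (hAm : A.length = m)
    (hn : (A ++ G).length = n) (hg : ∀ x ∈ A ++ G, x ≠ 0) (hk : Msk k K (A ++ G))
    {cls cls1 cls2 : List (Mo × Mo)} (H : Sols (A ++ G) cls) {D : Id3} {N M : ℤ} (hN : N ≠ 0)
    {L1 L2 L1' L2' : List Tm} (h1 : padS m cls1 L1 cls L1' = true)
    (h2 : padS m cls2 L2 cls L2' = true) (hA : D.chkA K cls = true)
    (hB : D.chkB cls [(N, L1'), (M, L2')] = true) {w Kb nb : ℕ}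
    (hC : D.chkC w n Kb nb cls [(N, L1'), (M, L2')] = true) :
    ∃ β : ℚ, zt G cls1 L1 - β • zt G cls2 L2 ∈ KC k F := by
  have h := zts_mul hN (Id3.sound hg hk H hn hA hB hC)
  rwa [zt_padS hAm hg h1, zt_padS hAm hg h2] at h

/-- **the symbols**: from relations over the extended generators: `cls.take m'` are the kept
classes, `D.c` is the dropped class -/
theorem Aux2.back {K : List Bool} {m : ℕ} {A G : List F} (hAm : A.length = m)
    (hg : ∀ x ∈ A ++ G, x ≠ 0) (hk : Msk k K (A ++ G))
    {cls cls0 : List (Mo × Mo)} (H : Sols (A ++ G) cls) {D : Aux2}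
    (h0 : cls.take cls0.length = cls0.map fun p => (padM m p.1, padM m p.2))
    (h : D.chk K cls cls0.length = true) {a : Mo}
    (ha : eqM (cls.getD D.c default).1 (padM m a) = true) :
    sy (ev G a) ∈ SC k F ⊔ Submodule.span ℚ {b | ∃ p ∈ cls0, b = sy (ev G p.1)} := by
  have h1 := Aux2.sound hg hk H h
  rw [ev_eqM hg ha, ev_pad hAm, h0] at h1
  have e : {b : B2 F | ∃ p ∈ cls0.map fun p => (padM m p.1, padM m p.2),
      b = sy (ev (A ++ G) p.1)} = {b : B2 F | ∃ p ∈ cls0, b = sy (ev G p.1)} := by
    ext b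
    constructor
    · rintro ⟨p, hp, rfl⟩
      obtain ⟨q, hq, rfl⟩ := List.mem_map.mp hp
      exact ⟨q, hq, by rw [ev_pad hAm]⟩
    · rintro ⟨p, hp, rfl⟩
      exact ⟨_, List.mem_map.mpr ⟨p, hp, rfl⟩, by rw [ev_pad hAm]⟩
  rwa [e] at h1

/-- dropping classes -/
theorem hU_drop {G : List F} {cls cls0 : List (Mo × Mo)}
    (h : ∀ p ∈ cls, p ∈ cls0 ∨
      sy (ev G p.1) ∈ SC k F ⊔ Submodule.span ℚ {b | ∃ p ∈ cls0, b = sy (ev G p.1)})
    {a : B2 F} (ha : a ∈ SC k F ⊔ Submodule.span ℚ {b : B2 F | ∃ p ∈ cls, b = sy (ev G p.1)}) :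
    a ∈ SC k F ⊔ Submodule.span ℚ {b : B2 F | ∃ p ∈ cls0, b = sy (ev G p.1)} := by
  refine (sup_le le_sup_left (Submodule.span_le.mpr ?_) :
    SC k F ⊔ Submodule.span ℚ {b : B2 F | ∃ p ∈ cls, b = sy (ev G p.1)} ≤ _) ha
  rintro b ⟨p, hp, rfl⟩
  rcases h p hp with h1 | h1
  · exact Submodule.mem_sup_right (Submodule.subset_span ⟨p, h1, rfl⟩)
  · exact h1

end

end Pool.Agent.AX
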