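import Pool.Agent.Lib_helper87.AX.P
import Pool.Agent.Lib_helper24.TN.KB

/-!
# Relations between the symbols with explicit coefficients; kept and dropped classes
-/

set_option autoImplicit false
set_option linter.unusedSectionVars false
set_option linter.unusedVariables false

open scoped TensorProduct

namespace Pool.Agent.AX

open MK4 KC72
open TN (KC lg1 hk_self hk_compl)

/-- the packed value of an argument -/
def pkO (w : ℕ) (s : ℤ) : Option (ℕ × ℕ) → ℤ
  | some p => s * sg6 p.2 * p2 (w * p.1)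
  | none => 0

/-- the packed value of a relation -/
def pkR (w : ℕ) (R : Rel) : ℤ :=
  sg6 R.x.2 * p2 (w * R.x.1) + (-(sg6 R.y.2) * p2 (w * R.y.1) + (sg6 R.z.2 * p2 (w * R.z.1) +
    (pkO w (-1) R.u + pkO w 1 R.w)))

/-- the packed sum -/
def pkS (w : ℕ) : List (Rel × ℤ) → ℤ
  | [] => 0
  | p :: l => p.2 * pkR w p.1 + pkS w l

/-- the bound -/
def bdS : List (Rel × ℤ) → ℕ
  | [] => 0
  | p :: l => p.2.natAbs * 5 + bdS l

/-- the packed check: `∑ q_c [c] + (relations) = 0` -/
def chk2 (w : ℕ) (K : List Bool) (cls : List (Mo × Mo)) (rels : List (Rel × ℤ)) (q : List ℤ) :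
    Bool :=
  rels.all (fun p => chkRm K cls p.1) && Nat.blt (l1 q + bdS rels) (Nat.pow 2 w) &&
    decide (pk (p2 w) q + pkS w rels = 0)

/-- the classes `idx` are kept, the others are given by the vectors `dr` -/
def chkDr (N : ℕ) (idx : List ℕ) (dr : List (ℕ × List ℤ)) : Bool :=
  (List.range N).all (fun i => idx.contains i || dr.any (fun d => Nat.beq d.1 i)) &&
    dr.all fun d => decide (d.2.getD d.1 0 ≠ 0) && Nat.ble d.2.length N &&
      (List.range d.2.length).all fun i =>
        decide (d.2.getD i 0 = 0) || (Nat.beq i d.1 || idx.contains i)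

section

variable {F : Type*} [Field F] [CharZero F] {k : Type*} [Field k] [Algebra k F]

/-- the sum of the symbols of the classes -/
noncomputable def ssum (g : List F) (cls : List (Mo × Mo)) (q : List ℤ) : B2 F :=
  pl (cls.map fun p => sy (ev g p.1)) q

lemma natAbs_sg6 (s : ℕ) : (sg6 s).natAbs = 1 := by
  rcases s with _ | _ | _ | _ | _ | s <;> rfl

lemma pk_ovec (w : ℕ) (s : ℤ) (p : ℕ × ℕ) :
    pk (p2 w) (ovec s p) = s * sg6 p.2 * p2 (w * p.1) := by
  unfold ovec
  rw [pk_sgl, p2_eq, p2_eq, ← pow_mul]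

lemma pk_ovecO (w : ℕ) (s : ℤ) (p : Option (ℕ × ℕ)) : pk (p2 w) (ovecO s p) = pkO w s p := by
  cases p with
  | none => rfl
  | some p => exact pk_ovec w s p

lemma pk_relv (w : ℕ) (R : Rel) : pk (p2 w) (relv R) = pkR w R := by
  unfold relv pkR
  rw [pk_axpy, pk_axpy, pk_axpy, pk_axpy, pk_ovec, pk_ovec, pk_ovec, pk_ovecO, pk_ovecO]
  ring

lemma l1_ovec (s : ℤ) (p : ℕ × ℕ) : l1 (ovec s p) = s.natAbs := by
  unfold ovec
  rw [l1_sgl, Int.natAbs_mul, natAbs_sg6, mul_one]

lemma l1_ovecO (s : ℤ) (p : Option (ℕ × ℕ)) : l1 (ovecO s p) ≤ s.natAbs := by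
  cases p with
  | none => simp [ovecO, l1]
  | some p => exact (l1_ovec s p).le

lemma l1_relv (R : Rel) : l1 (relv R) ≤ 5 := by
  unfold relv
  have h1 := l1_axpy 1 (ovecO (-1) R.u) (ovecO 1 R.w)
  have h2 := l1_axpy 1 (ovec 1 R.z) (axpy 1 (ovecO (-1) R.u) (ovecO 1 R.w))
  have h3 := l1_axpy 1 (ovec (-1) R.y) (axpy 1 (ovec 1 R.z) (axpy 1 (ovecO (-1) R.u)
    (ovecO 1 R.w)))
  have h4 := l1_axpy 1 (ovec 1 R.x) (axpy 1 (ovec (-1) R.y) (axpy 1 (ovec 1 R.z)
    (axpy 1 (ovecO (-1) R.u) (ovecO 1 R.w))))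
  have h5 := l1_ovecO (-1) R.u
  have h6 := l1_ovecO 1 R.w
  rw [l1_ovec] at h2 h3 h4
  simp only [Int.natAbs_one, Int.natAbs_neg, one_mul] at h1 h2 h3 h4 h5 h6
  omega

lemma pk_sum (w : ℕ) (l : List (Rel × ℤ)) : pk (p2 w) (Aux2.sum l) = pkS w l := by
  induction l with
  | nil => rfl
  | cons p l ih => rw [Aux2.sum, pkS, pk_axpy, ih, pk_relv]

lemma l1_sum (l : List (Rel × ℤ)) : l1 (Aux2.sum l) ≤ bdS l := by
  induction l with
  | nil => simp [Aux2.sum, l1]
  | cons p l ih =>
    rw [Aux2.sum, bdS]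
    have h1 := l1_axpy p.2 (relv p.1) (Aux2.sum l)
    have h2 := Nat.mul_le_mul_left p.2.natAbs (l1_relv p.1)
    omega

/-- **an explicit relation between the symbols** -/
theorem chk2_sound {w : ℕ} {K : List Bool} {g : List F} (hg : ∀ x ∈ g, x ≠ 0) (hk : Msk k K g)
    {cls : List (Mo × Mo)} (H : Sols g cls) {rels : List (Rel × ℤ)} {q : List ℤ}
    (h : chk2 w K cls rels q = true) : ssum g cls q ∈ SC k F := by
  unfold chk2 at h
  rw [Bool.and_eq_true, Bool.and_eq_true, List.all_eq_true] at h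
  obtain ⟨⟨hr, hb⟩, hz⟩ := h
  have hb' := Nat.blt_eq.mp hb
  have hz' := of_decide_eq_true hz
  have hZ : isZ (axpy 1 q (Aux2.sum rels)) = true := by
    refine isZ_of_pk (B := p2 w) _ ?_ ?_
    · rw [p2_eq]
      have h1 := l1_axpy 1 q (Aux2.sum rels)
      have h2 := l1_sum rels
      have h3 : l1 (axpy 1 q (Aux2.sum rels)) < 2 ^ w := by
        have : Nat.pow 2 w = 2 ^ w := rfl
        simp only [Int.natAbs_one, one_mul] at h1
        omega
      exact_mod_cast h3
    · rw [pk_axpy, pk_sum, one_mul]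
      exact hz'
  set Φ := (SC k F).mkQ with hΦd
  have hΦ : ∀ c : k, Φ (sy (algebraMap k F c)) = 0 := by
    intro c
    rw [hΦd, Submodule.mkQ_apply, Submodule.Quotient.mk_eq_zero]
    exact Submodule.subset_span ⟨c, rfl⟩
  have h0 : ∀ l : List (Rel × ℤ), (∀ p ∈ l, chkRm K cls p.1 = true) →
      pl (EP Φ g cls) (Aux2.sum l) = 0 := by
    intro l hl
    induction l with
    | nil => simp [Aux2.sum]
    | cons p l ih =>
      rw [Aux2.sum, pl_axpy, relv_zeroM Φ hΦ hg hk H (hl p (by simp)),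
        ih (fun q hq => hl q (by simp [hq])), smul_zero, add_zero]
  have h1 := pl_isZ (EP Φ g cls) hZ
  rw [pl_axpy, h0 _ hr, add_zero] at h1
  have h2 : EP Φ g cls = (cls.map fun p => sy (ev g p.1)).map Φ := by
    unfold EP
    rw [List.map_map]
    rfl
  rw [h2, pl_map] at h1
  push_cast at h1
  rw [one_smul, hΦd, Submodule.mkQ_apply, Submodule.Quotient.mk_eq_zero] at h1
  exact h1

lemma pl_take {M : Type*} [AddCommGroup M] [Module ℚ M] :
    ∀ (E : List M) (q : List ℤ) (n : ℕ), q.length ≤ n → pl (E.take n) q = pl E q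
  | [], q, n, _ => by simp
  | e :: E, [], n, _ => by simp
  | e :: E, a :: q, 0, h => by simp at h
  | e :: E, a :: q, n + 1, h => by
    rw [List.take_succ_cons, pl_cons, pl_cons, pl_take E q n (by simpa using h)]

/-- the symbols over the base generators -/
lemma ssum_pad {m : ℕ} {A G : List F} (hA : A.length = m) {cls cls0 : List (Mo × Mo)}
    (h0 : cls.take cls0.length = cls0.map fun p => (padM m p.1, padM m p.2)) {q : List ℤ}
    (hq : q.length ≤ cls0.length) : ssum (A ++ G) cls q = ssum G cls0 q := by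
  unfold ssum
  rw [← pl_take _ q cls0.length hq, ← List.map_take, h0, List.map_map]
  congr 1
  refine List.map_congr_left fun p _ => ?_
  show sy (ev (A ++ G) (padM m p.1)) = _
  rw [ev_pad hA]

lemma pl_range {M : Type*} [AddCommGroup M] [Module ℚ M] :
    ∀ (E : List M) (q : List ℤ),
      pl E q = ∑ i ∈ Finset.range E.length, (q.getD i 0 : ℚ) • E.getD i 0
  | [], q => by simp
  | e :: E, [] => by simp
  | e :: E, a :: q => by
    rw [pl_cons, pl_range E q, List.length_cons, Finset.sum_range_succ']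
    simp only [List.getD_cons_succ, List.getD_cons_zero]
    rw [add_comm]

/-- **dropping classes**: from explicit relations between the symbols -/
theorem hred_of {g : List F} {clsF clsK : List (Mo × Mo)} {idx : List ℕ}
    {dr : List (ℕ × List ℤ)} (hdr : ∀ d ∈ dr, ssum g clsF d.2 ∈ SC k F)
    (hc : chkDr clsF.length idx dr = true)
    (hK : ∀ i ∈ idx, clsF.getD i default ∈ clsK) :
    ∀ p ∈ clsF, sy (ev g p.1) ∈ SC k F ⊔
      Submodule.span ℚ {a : B2 F | ∃ p ∈ clsK, a = sy (ev g p.1)} := by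
  intro p hp
  unfold chkDr at hc
  simp only [Bool.and_eq_true, Bool.or_eq_true, List.all_eq_true, List.mem_range,
    decide_eq_true_eq, List.any_eq_true, List.contains_iff_mem] at hc
  obtain ⟨h1, h2⟩ := hc
  obtain ⟨c, hcl, rfl⟩ := List.mem_iff_getElem.mp hp
  have hkept : ∀ i ∈ idx, sy (ev g (clsF.getD i default).1) ∈ SC k F ⊔
      Submodule.span ℚ {a : B2 F | ∃ p ∈ clsK, a = sy (ev g p.1)} := fun i hi =>
    Submodule.mem_sup_right (Submodule.subset_span ⟨_, hK i hi, rfl⟩)
  rcases h1 c hcl with h | ⟨d, hd, hdc⟩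
  · have := hkept c h
    rwa [List.getD_eq_getElem _ _ hcl] at this
  · obtain ⟨⟨h3, h4⟩, h5⟩ := h2 d hd
    have hdc' := Nat.eq_of_beq_eq_true hdc
    have h6 := hdr d hd
    unfold ssum at h6
    rw [pl_range, List.length_map] at h6
    rw [hdc'] at h3 h5
    have h7 : ∀ i, i < clsF.length → (clsF.map fun p => sy (ev g p.1)).getD i 0 =
        sy (ev g (clsF.getD i default).1) := by
      intro i hi
      rw [List.getD_eq_getElem?_getD, List.getElem?_map, List.getElem?_eq_getElem hi,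
        List.getD_eq_getElem _ _ hi]
      rfl
    rw [← Finset.add_sum_erase _ _ (Finset.mem_range.mpr hcl), h7 c hcl] at h6
    have h8 : ∑ i ∈ (Finset.range clsF.length).erase c,
        (d.2.getD i 0 : ℚ) • (clsF.map fun p => sy (ev g p.1)).getD i 0 ∈ SC k F ⊔
          Submodule.span ℚ {a : B2 F | ∃ p ∈ clsK, a = sy (ev g p.1)} := by
      refine Submodule.sum_mem _ fun i hi => ?_
      rw [Finset.mem_erase, Finset.mem_range] at hi
      by_cases hiq : i < d.2.length
      · rcases h5 i hiq with h9 | h9 | h9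
        · rw [h9, Int.cast_zero, zero_smul]
          exact Submodule.zero_mem _
        · exact absurd (Nat.eq_of_beq_eq_true h9) hi.1
        · rw [h7 i hi.2]
          exact Submodule.smul_mem _ _ (hkept i h9)
      · rw [List.getD_eq_default _ _ (by omega), Int.cast_zero, zero_smul]
        exact Submodule.zero_mem _
    have h10 := Submodule.sub_mem _ (Submodule.mem_sup_left (T := Submodule.span ℚ
      {a : B2 F | ∃ p ∈ clsK, a = sy (ev g p.1)}) h6) h8
    rw [add_sub_cancel_right] at h10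
    have h3' : (d.2.getD c 0 : ℚ) ≠ 0 := by exact_mod_cast h3
    have h11 := Submodule.smul_mem _ (d.2.getD c 0 : ℚ)⁻¹ h10
    rw [smul_smul, inv_mul_cancel₀ h3', one_smul, List.getD_eq_getElem _ _ hcl] at h11
    exact h11

/-- **the trivial elements** -/
theorem Id3.zero {K : List Bool} {m n : ℕ} {A G : List F} (hAm : A.length = m)
    (hn : (A ++ G).length = n) (hg : ∀ x ∈ A ++ G, x ≠ 0) (hk : Msk k K (A ++ G))
    {cls cls1 : List (Mo × Mo)} (H : Sols (A ++ G) cls) {D : Id3} {N : ℤ} (hN : N ≠ 0)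
    {L1 L1' : List Tm} (h1 : padS m cls1 L1 cls L1' = true) (hA : D.chkA K cls = true)
    (hB : D.chkB cls [(N, L1')] = true) {w Kb nb : ℕ}
    (hC : D.chkC w n Kb nb cls [(N, L1')] = true) : zt G cls1 L1 ∈ KC k F := by
  have h := Id3.sound hg hk H hn hA hB hC
  rw [← zt_padS hAm hg h1]
  have hN' : (N : ℚ) ≠ 0 := by exact_mod_cast hN
  have h2 := Submodule.smul_mem _ ((N : ℚ)⁻¹) h
  simp only [zts, add_zero] at h2
  rwa [smul_smul, inv_mul_cancel₀ hN', one_smul] at h2

lemma ex_zero {z ξ : HK F} (h : z ∈ KC k F) : ∃ β : ℚ, z - β • ξ ∈ MK4.Cst k F :=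
  ⟨0, by rw [zero_smul, sub_zero, ← TN.KC_eq]; exact h⟩

end

end Pool.Agent.AX
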