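import Pool.Agent.Lib_helper87.AX.Cd
import Pool.Agent.Lib_helper40.MC.X6a.Dat

/-!
# `t = 1 / 3`: the trivial closed elements
-/

set_option autoImplicit false
set_option linter.unusedVariables false
set_option maxRecDepth 100000

namespace Pool.Agent.AXX6a

open Pool.Agent.KC72 Pool.Agent.AX Pool.Agent.MK4 Pool.Agent.MCX6a

/-- the auxiliary functions -/
noncomputable def E : List El := [⟨[.ofNat 0, .negSucc 1], [.ofNat 3], 3⟩, ⟨[.negSucc 1, .ofNat 3], [], 3⟩, ⟨[.negSucc 1, .ofNat 3], [.ofNat 9], 9⟩]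

/-- the classes -/
noncomputable def pool : List (Mo × Mo) := [
  ((false, [.ofNat 0, .ofNat 0, .ofNat 0, .ofNat 1, .ofNat 0, .ofNat 0, .ofNat 0, .ofNat 0, .negSucc 1, .ofNat 2]), (true, [.ofNat 0, .ofNat 0, .ofNat 0, .ofNat 0, .ofNat 1, .ofNat 0, .ofNat 0, .ofNat 0, .negSucc 1, .ofNat 2])),
  ((false, [.ofNat 0, .ofNat 0, .ofNat 0, .negSucc 1, .ofNat 0, .ofNat 0, .ofNat 1, .ofNat 0, .ofNat 0, .ofNat 0]), (false, [.ofNat 0, .ofNat 0, .ofNat 0, .negSucc 1, .negSucc 0, .ofNat 0, .ofNat 1, .ofNat 1, .ofNat 0, .ofNat 0])),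
  ((false, [.ofNat 0, .ofNat 0, .ofNat 0, .ofNat 1, .negSucc 0, .ofNat 0, .negSucc 0, .ofNat 1, .ofNat 0, .ofNat 0]), (false, [.ofNat 0, .ofNat 0, .ofNat 0, .ofNat 0, .negSucc 0, .negSucc 0, .negSucc 0, .ofNat 2, .ofNat 0, .negSucc 0])),
  ((false, [.ofNat 0, .ofNat 0, .ofNat 0, .ofNat 0, .ofNat 1, .negSucc 0, .ofNat 0, .ofNat 0, .negSucc 1, .ofNat 1]), (false, [.ofNat 0, .ofNat 0, .ofNat 0, .ofNat 1, .ofNat 0, .negSucc 0, .ofNat 0, .ofNat 0, .negSucc 1, .ofNat 0])),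
  ((false, [.ofNat 0, .ofNat 0, .ofNat 0, .ofNat 0, .negSucc 0, .ofNat 1, .ofNat 1, .negSucc 0, .ofNat 0, .ofNat 0]), (true, [.ofNat 0, .ofNat 0, .ofNat 0, .ofNat 0, .ofNat 0, .ofNat 1, .ofNat 1, .negSucc 1, .ofNat 0, .negSucc 0])),
  ((true, [.ofNat 0, .ofNat 0, .ofNat 0, .ofNat 0, .ofNat 1, .ofNat 0, .negSucc 0, .ofNat 0, .ofNat 0, .ofNat 0]), (false, [.ofNat 0, .ofNat 0, .ofNat 0, .ofNat 1, .ofNat 1, .ofNat 1, .negSucc 0, .negSucc 0, .ofNat 0, .ofNat 0])),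
  ((false, [.ofNat 0, .ofNat 0, .ofNat 0, .ofNat 1, .ofNat 0, .ofNat 0, .ofNat 0, .ofNat 0, .ofNat 0, .ofNat 1]), (true, [.ofNat 0, .ofNat 0, .ofNat 0, .ofNat 0, .ofNat 0, .ofNat 1, .ofNat 0, .ofNat 0, .ofNat 0, .ofNat 1])),
  ((false, [.ofNat 0, .ofNat 0, .ofNat 0, .negSucc 1, .ofNat 0, .ofNat 0, .ofNat 1, .ofNat 0, .ofNat 2, .negSucc 0]), (false, [.ofNat 0, .ofNat 0, .ofNat 0, .negSucc 1, .ofNat 0, .negSucc 0, .ofNat 0, .ofNat 2, .ofNat 0, .ofNat 0])),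
  ((false, [.ofNat 0, .ofNat 0, .ofNat 0, .ofNat 1, .negSucc 0, .ofNat 0, .negSucc 0, .ofNat 1, .ofNat 2, .negSucc 0]), (true, [.ofNat 0, .ofNat 0, .ofNat 0, .ofNat 0, .negSucc 1, .negSucc 0, .ofNat 0, .ofNat 2, .ofNat 0, .negSucc 0])),
  ((false, [.ofNat 0, .ofNat 0, .ofNat 0, .ofNat 0, .ofNat 1, .negSucc 0, .ofNat 0, .ofNat 0, .ofNat 0, .ofNat 0]), (false, [.ofNat 0, .ofNat 0, .ofNat 0, .ofNat 0, .ofNat 0, .negSucc 0, .ofNat 0, .ofNat 0, .ofNat 0, .negSucc 1])),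
  ((false, [.ofNat 0, .ofNat 0, .ofNat 0, .ofNat 0, .negSucc 0, .ofNat 1, .ofNat 1, .negSucc 0, .ofNat 2, .negSucc 0]), (true, [.ofNat 0, .ofNat 0, .ofNat 0, .ofNat 2, .ofNat 0, .ofNat 1, .ofNat 0, .negSucc 1, .ofNat 0, .negSucc 0])),
  ((true, [.ofNat 0, .ofNat 0, .ofNat 0, .ofNat 0, .ofNat 1, .ofNat 0, .negSucc 0, .ofNat 0, .ofNat 2, .negSucc 0]), (false, [.ofNat 0, .ofNat 0, .ofNat 0, .ofNat 0, .ofNat 2, .ofNat 1, .ofNat 0, .negSucc 1, .ofNat 0, .ofNat 0])),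
  ((false, [.ofNat 0, .ofNat 0, .ofNat 0, .negSucc 0, .ofNat 0, .ofNat 0, .ofNat 1, .ofNat 0, .ofNat 0, .ofNat 1]), (true, [.ofNat 0, .ofNat 0, .ofNat 0, .negSucc 0, .ofNat 0, .ofNat 0, .ofNat 0, .ofNat 1, .ofNat 0, .ofNat 1])),
  ((false, [.ofNat 0, .ofNat 0, .ofNat 0, .negSucc 0, .negSucc 0, .ofNat 0, .ofNat 0, .ofNat 1, .ofNat 2, .negSucc 0]), (false, [.ofNat 0, .ofNat 0, .ofNat 0, .negSucc 0, .negSucc 0, .negSucc 0, .ofNat 0, .ofNat 2, .ofNat 0, .ofNat 0])),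
  ((false, [.ofNat 0, .ofNat 0, .ofNat 0, .ofNat 1, .ofNat 0, .negSucc 0, .negSucc 0, .ofNat 1, .ofNat 0, .ofNat 0]), (false, [.ofNat 0, .ofNat 0, .ofNat 0, .ofNat 0, .negSucc 0, .negSucc 0, .ofNat 0, .ofNat 1, .ofNat 0, .negSucc 0])),
  ((true, [.ofNat 0, .ofNat 0, .ofNat 0, .ofNat 3, .ofNat 2, .negSucc 1, .negSucc 1, .ofNat 1, .negSucc 3, .ofNat 3]), (false, [.ofNat 0, .ofNat 0, .ofNat 0, .ofNat 0, .ofNat 1, .negSucc 0, .ofNat 2, .negSucc 0, .negSucc 3, .ofNat 3])),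
  ((false, [.ofNat 0, .ofNat 0, .ofNat 1, .ofNat 0, .ofNat 0, .ofNat 0, .ofNat 0, .negSucc 0, .ofNat 1, .ofNat 0]), (true, [.ofNat 0, .ofNat 0, .ofNat 0, .ofNat 1, .ofNat 1, .ofNat 1, .ofNat 0, .negSucc 1, .ofNat 0, .ofNat 0])),
  ((true, [.ofNat 0, .ofNat 0, .ofNat 1, .ofNat 0, .ofNat 0, .negSucc 0, .ofNat 0, .ofNat 0, .negSucc 0, .ofNat 1]), (false, [.ofNat 0, .ofNat 0, .ofNat 0, .ofNat 1, .ofNat 1, .ofNat 0, .ofNat 0, .negSucc 0, .negSucc 0, .ofNat 1])),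
  ((false, [.ofNat 0, .ofNat 0, .ofNat 1, .ofNat 0, .ofNat 0, .negSucc 0, .ofNat 0, .ofNat 0, .negSucc 0, .ofNat 1]), (true, [.ofNat 0, .ofNat 0, .ofNat 0, .ofNat 0, .ofNat 0, .negSucc 0, .ofNat 0, .ofNat 1, .negSucc 0, .ofNat 1])),
  ((false, [.ofNat 0, .ofNat 0, .ofNat 2, .ofNat 0, .negSucc 0, .negSucc 0, .ofNat 0, .ofNat 0, .negSucc 1, .ofNat 1]), (true, [.ofNat 0, .ofNat 2, .ofNat 0, .ofNat 0, .negSucc 0, .ofNat 0, .ofNat 0, .ofNat 0, .negSucc 1, .ofNat 1])),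
  ((false, [.ofNat 0, .ofNat 0, .ofNat 2, .ofNat 0, .negSucc 0, .negSucc 0, .ofNat 0, .ofNat 0, .ofNat 0, .ofNat 1]), (true, [.ofNat 0, .ofNat 0, .ofNat 0, .ofNat 1, .negSucc 0, .ofNat 1, .ofNat 0, .ofNat 0, .ofNat 0, .ofNat 1])),
  ((false, [.ofNat 0, .ofNat 1, .ofNat 0, .ofNat 0, .negSucc 0, .ofNat 0, .ofNat 0, .ofNat 0, .ofNat 0, .negSucc 0]), (false, [.ofNat 0, .ofNat 0, .ofNat 0, .ofNat 0, .negSucc 0, .ofNat 1, .ofNat 0, .ofNat 0, .ofNat 1, .negSucc 0])),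
  ((true, [.ofNat 0, .ofNat 1, .ofNat 0, .ofNat 0, .ofNat 0, .ofNat 0, .ofNat 0, .ofNat 0, .ofNat 0, .ofNat 1]), (false, [.ofNat 0, .ofNat 0, .ofNat 0, .ofNat 0, .ofNat 0, .ofNat 1, .ofNat 0, .ofNat 0, .ofNat 0, .ofNat 1])),
  ((true, [.ofNat 0, .ofNat 1, .ofNat 0, .negSucc 0, .ofNat 0, .ofNat 0, .ofNat 0, .ofNat 0, .ofNat 1, .ofNat 0]), (false, [.ofNat 0, .ofNat 0, .ofNat 0, .negSucc 0, .ofNat 1, .ofNat 0, .ofNat 0, .ofNat 0, .ofNat 0, .ofNat 1])),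
  ((true, [.ofNat 0, .ofNat 1, .ofNat 0, .ofNat 0, .ofNat 0, .ofNat 0, .ofNat 0, .ofNat 0, .negSucc 0, .ofNat 2]), (false, [.ofNat 0, .ofNat 0, .ofNat 0, .ofNat 0, .ofNat 1, .ofNat 0, .ofNat 0, .ofNat 0, .negSucc 0, .ofNat 2])),
  ((true, [.ofNat 0, .ofNat 1, .ofNat 0, .ofNat 0, .ofNat 0, .ofNat 0, .ofNat 0, .ofNat 0, .negSucc 0, .ofNat 1]), (false, [.ofNat 0, .ofNat 0, .ofNat 0, .ofNat 1, .ofNat 0, .ofNat 0, .ofNat 0, .ofNat 0, .negSucc 0, .ofNat 1])),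
  ((false, [.ofNat 0, .ofNat 1, .ofNat 1, .negSucc 0, .negSucc 0, .ofNat 0, .ofNat 1, .negSucc 0, .ofNat 0, .ofNat 0]), (true, [.ofNat 1, .ofNat 0, .ofNat 0, .negSucc 0, .negSucc 0, .ofNat 1, .ofNat 1, .negSucc 0, .ofNat 0, .ofNat 0])),
  ((true, [.ofNat 0, .ofNat 2, .ofNat 0, .ofNat 0, .negSucc 0, .ofNat 0, .ofNat 0, .ofNat 0, .ofNat 0, .ofNat 0]), (false, [.ofNat 0, .ofNat 0, .ofNat 0, .ofNat 1, .negSucc 0, .ofNat 1, .ofNat 0, .ofNat 0, .ofNat 0, .ofNat 0])),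
  ((true, [.ofNat 1, .ofNat 0, .ofNat 0, .ofNat 0, .ofNat 0, .ofNat 0, .negSucc 0, .ofNat 0, .ofNat 0, .ofNat 0]), (false, [.ofNat 0, .ofNat 0, .ofNat 0, .ofNat 0, .ofNat 0, .ofNat 0, .negSucc 0, .ofNat 1, .ofNat 1, .ofNat 0])),
  ((true, [.ofNat 1, .ofNat 0, .ofNat 0, .negSucc 0, .ofNat 0, .ofNat 0, .ofNat 0, .ofNat 0, .ofNat 0, .ofNat 1]), (false, [.ofNat 0, .ofNat 0, .ofNat 0, .negSucc 0, .ofNat 0, .ofNat 0, .ofNat 0, .ofNat 1, .ofNat 0, .ofNat 1])),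
  ((true, [.ofNat 1, .ofNat 0, .ofNat 0, .negSucc 0, .ofNat 0, .ofNat 0, .ofNat 0, .ofNat 0, .negSucc 0, .ofNat 1]), (false, [.ofNat 0, .ofNat 0, .ofNat 0, .negSucc 0, .ofNat 0, .ofNat 0, .ofNat 1, .ofNat 0, .negSucc 0, .ofNat 1])),
  ((true, [.ofNat 1, .ofNat 0, .ofNat 1, .ofNat 0, .ofNat 0, .negSucc 0, .ofNat 0, .negSucc 0, .negSucc 1, .ofNat 1]), (false, [.ofNat 0, .ofNat 1, .ofNat 0, .ofNat 0, .ofNat 1, .ofNat 0, .ofNat 1, .negSucc 1, .negSucc 1, .ofNat 1])),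
  ((true, [.ofNat 1, .ofNat 0, .ofNat 1, .ofNat 0, .ofNat 0, .negSucc 0, .negSucc 0, .ofNat 0, .negSucc 0, .ofNat 1]), (false, [.ofNat 0, .ofNat 0, .ofNat 0, .ofNat 2, .ofNat 1, .negSucc 0, .negSucc 1, .ofNat 1, .negSucc 0, .ofNat 1])),
  ((true, [.ofNat 1, .ofNat 0, .ofNat 1, .ofNat 0, .ofNat 0, .ofNat 0, .ofNat 0, .negSucc 0, .negSucc 1, .ofNat 2]), (false, [.ofNat 0, .ofNat 1, .ofNat 0, .ofNat 0, .negSucc 0, .ofNat 0, .ofNat 1, .ofNat 0, .negSucc 1, .ofNat 2])),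
  ((true, [.ofNat 1, .ofNat 0, .ofNat 1, .ofNat 0, .negSucc 0, .negSucc 0, .negSucc 0, .ofNat 1, .ofNat 0, .ofNat 1]), (false, [.ofNat 0, .ofNat 0, .ofNat 0, .ofNat 0, .negSucc 1, .ofNat 0, .ofNat 0, .ofNat 2, .ofNat 0, .ofNat 1])),
  ((true, [.ofNat 1, .ofNat 1, .ofNat 0, .ofNat 0, .ofNat 0, .ofNat 0, .ofNat 0, .negSucc 0, .negSucc 1, .ofNat 1]), (false, [.ofNat 0, .ofNat 0, .ofNat 1, .ofNat 0, .negSucc 0, .negSucc 0, .ofNat 1, .ofNat 0, .negSucc 1, .ofNat 1])),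
  ((true, [.ofNat 2, .negSucc 0, .ofNat 0, .ofNat 0, .ofNat 1, .ofNat 0, .negSucc 0, .negSucc 0, .negSucc 0, .ofNat 0]), (false, [.ofNat 0, .negSucc 0, .ofNat 0, .ofNat 0, .ofNat 2, .negSucc 0, .negSucc 0, .ofNat 1, .negSucc 0, .ofNat 1])),
  ((true, [.ofNat 2, .negSucc 0, .ofNat 0, .ofNat 0, .ofNat 0, .ofNat 0, .negSucc 0, .ofNat 0, .negSucc 0, .ofNat 1]), (false, [.ofNat 0, .negSucc 0, .ofNat 0, .ofNat 1, .ofNat 0, .negSucc 0, .negSucc 0, .ofNat 2, .negSucc 0, .ofNat 1])),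
  ((true, [.ofNat 2, .ofNat 0, .ofNat 0, .negSucc 0, .ofNat 0, .ofNat 0, .ofNat 0, .negSucc 0, .negSucc 1, .ofNat 1]), (false, [.ofNat 0, .ofNat 0, .ofNat 0, .negSucc 0, .ofNat 0, .ofNat 0, .ofNat 2, .negSucc 0, .negSucc 1, .ofNat 1])),
  ((true, [.ofNat 2, .ofNat 0, .ofNat 0, .ofNat 0, .negSucc 0, .ofNat 0, .negSucc 0, .ofNat 0, .ofNat 0, .ofNat 0]), (false, [.ofNat 0, .ofNat 0, .ofNat 0, .ofNat 1, .negSucc 1, .ofNat 0, .ofNat 0, .ofNat 1, .ofNat 0, .ofNat 0])),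
  ((false, [.ofNat 0, .ofNat 0, .ofNat 1, .ofNat 1, .negSucc 0, .negSucc 0, .negSucc 0, .ofNat 1, .ofNat 0, .ofNat 0]), (true, [.ofNat 1, .ofNat 0, .ofNat 0, .ofNat 0, .negSucc 0, .ofNat 0, .negSucc 0, .ofNat 1, .ofNat 0, .ofNat 0])),
  ((true, [.ofNat 0, .ofNat 1, .ofNat 0, .ofNat 1, .ofNat 1, .ofNat 0, .negSucc 0, .negSucc 0, .negSucc 0, .ofNat 0]), (false, [.ofNat 0, .ofNat 0, .ofNat 1, .ofNat 0, .ofNat 1, .negSucc 0, .negSucc 0, .ofNat 0, .negSucc 0, .ofNat 1])),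
  ((false, [.negSucc 0, .ofNat 1, .ofNat 0, .ofNat 1, .ofNat 0, .ofNat 0, .ofNat 0, .ofNat 0, .negSucc 0, .ofNat 1]), (true, [.negSucc 0, .ofNat 0, .ofNat 1, .ofNat 0, .ofNat 0, .negSucc 0, .ofNat 0, .ofNat 1, .negSucc 0, .ofNat 1])),
  ((false, [.negSucc 0, .ofNat 1, .ofNat 0, .ofNat 1, .ofNat 0, .ofNat 0, .ofNat 0, .ofNat 0, .ofNat 0, .ofNat 0]), (true, [.negSucc 0, .ofNat 0, .ofNat 0, .ofNat 0, .negSucc 0, .ofNat 0, .ofNat 1, .ofNat 1, .ofNat 0, .ofNat 0])),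
  ((true, [.ofNat 1, .ofNat 0, .ofNat 0, .ofNat 1, .ofNat 0, .ofNat 0, .negSucc 0, .ofNat 0, .negSucc 0, .ofNat 1]), (false, [.ofNat 0, .ofNat 0, .ofNat 1, .ofNat 0, .negSucc 0, .negSucc 0, .ofNat 0, .ofNat 1, .negSucc 0, .ofNat 1])),
  ((false, [.ofNat 0, .ofNat 0, .ofNat 0, .ofNat 3, .ofNat 1, .negSucc 0, .negSucc 0, .negSucc 0, .negSucc 1, .ofNat 0]), (false, [.ofNat 1, .ofNat 0, .ofNat 0, .ofNat 0, .ofNat 1, .negSucc 0, .ofNat 0, .negSucc 0, .negSucc 1, .ofNat 1])),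
  ((false, [.ofNat 0, .ofNat 0, .ofNat 0, .ofNat 3, .ofNat 0, .ofNat 0, .negSucc 1, .ofNat 0, .ofNat 0, .negSucc 0]), (false, [.ofNat 0, .ofNat 1, .ofNat 0, .ofNat 0, .negSucc 0, .ofNat 0, .negSucc 0, .ofNat 1, .ofNat 1, .negSucc 0])),
  ((false, [.ofNat 0, .negSucc 0, .ofNat 1, .ofNat 0, .ofNat 1, .ofNat 0, .ofNat 0, .negSucc 0, .ofNat 0, .ofNat 1]), (true, [.ofNat 0, .negSucc 0, .ofNat 0, .ofNat 2, .ofNat 1, .ofNat 1, .negSucc 0, .negSucc 0, .ofNat 1, .ofNat 0])),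
  ((false, [.ofNat 0, .ofNat 0, .ofNat 1, .ofNat 0, .ofNat 1, .negSucc 0, .ofNat 0, .negSucc 0, .negSucc 0, .ofNat 0]), (false, [.ofNat 1, .ofNat 0, .ofNat 0, .ofNat 0, .ofNat 1, .negSucc 0, .negSucc 0, .ofNat 0, .negSucc 0, .ofNat 0])),
  ((true, [.ofNat 0, .ofNat 1, .negSucc 0, .ofNat 0, .ofNat 1, .ofNat 1, .ofNat 0, .negSucc 0, .ofNat 0, .ofNat 0]), (false, [.ofNat 0, .ofNat 0, .negSucc 0, .ofNat 1, .ofNat 1, .ofNat 1, .negSucc 0, .ofNat 0, .ofNat 1, .ofNat 0])),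
  ((true, [.ofNat 1, .ofNat 0, .negSucc 0, .ofNat 0, .ofNat 1, .ofNat 1, .ofNat 0, .negSucc 0, .ofNat 0, .ofNat 1]), (false, [.ofNat 0, .ofNat 1, .negSucc 0, .ofNat 0, .ofNat 0, .ofNat 1, .ofNat 0, .ofNat 0, .ofNat 0, .ofNat 1])),
  ((true, [.ofNat 1, .ofNat 0, .ofNat 0, .ofNat 0, .ofNat 1, .ofNat 0, .ofNat 0, .negSucc 0, .negSucc 1, .ofNat 2]), (false, [.ofNat 0, .ofNat 0, .ofNat 0, .ofNat 1, .ofNat 1, .negSucc 0, .negSucc 0, .ofNat 1, .negSucc 1, .ofNat 2])),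
  ((true, [.negSucc 0, .ofNat 0, .ofNat 1, .ofNat 0, .ofNat 1, .ofNat 0, .ofNat 1, .negSucc 0, .negSucc 0, .ofNat 2]), (false, [.negSucc 0, .ofNat 0, .ofNat 0, .ofNat 3, .ofNat 1, .ofNat 0, .negSucc 0, .ofNat 0, .negSucc 0, .ofNat 2])),
  ((false, [.negSucc 0, .ofNat 1, .ofNat 0, .ofNat 0, .ofNat 1, .ofNat 0, .ofNat 1, .negSucc 0, .negSucc 0, .ofNat 1]), (true, [.negSucc 0, .ofNat 0, .ofNat 0, .ofNat 2, .ofNat 1, .negSucc 0, .negSucc 0, .ofNat 1, .negSucc 0, .ofNat 1])),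
  ((true, [.ofNat 0, .ofNat 0, .ofNat 0, .ofNat 0, .ofNat 1, .ofNat 2, .ofNat 2, .negSucc 3, .ofNat 0, .ofNat 0]), (false, [.ofNat 0, .ofNat 0, .ofNat 1, .ofNat 0, .negSucc 0, .ofNat 1, .ofNat 1, .negSucc 1, .ofNat 1, .ofNat 0])),
  ((false, [.ofNat 0, .ofNat 0, .ofNat 1, .ofNat 0, .ofNat 0, .ofNat 0, .negSucc 0, .ofNat 0, .ofNat 1, .ofNat 0]), (true, [.ofNat 0, .ofNat 0, .ofNat 0, .ofNat 2, .ofNat 1, .ofNat 0, .negSucc 1, .ofNat 0, .ofNat 0, .ofNat 0])),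
  ((true, [.ofNat 0, .negSucc 0, .ofNat 1, .ofNat 0, .ofNat 0, .ofNat 0, .ofNat 0, .ofNat 0, .ofNat 0, .ofNat 1]), (false, [.ofNat 0, .negSucc 0, .ofNat 0, .ofNat 2, .ofNat 1, .ofNat 0, .negSucc 0, .ofNat 0, .ofNat 0, .ofNat 1])),
  ((false, [.ofNat 0, .negSucc 0, .ofNat 1, .ofNat 0, .ofNat 0, .ofNat 0, .ofNat 0, .ofNat 0, .ofNat 0, .ofNat 1]), (true, [.ofNat 0, .negSucc 0, .ofNat 0, .ofNat 0, .ofNat 0, .ofNat 0, .ofNat 1, .ofNat 0, .ofNat 0, .ofNat 1])),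
  ((true, [.ofNat 0, .ofNat 1, .ofNat 0, .ofNat 0, .ofNat 1, .ofNat 1, .negSucc 0, .negSucc 0, .ofNat 1, .ofNat 0]), (false, [.ofNat 0, .ofNat 0, .ofNat 0, .ofNat 1, .ofNat 2, .ofNat 0, .negSucc 1, .ofNat 0, .ofNat 0, .ofNat 1])),
  ((true, [.ofNat 1, .ofNat 0, .ofNat 0, .ofNat 0, .ofNat 1, .ofNat 1, .negSucc 0, .negSucc 0, .ofNat 0, .ofNat 1]), (false, [.ofNat 0, .ofNat 1, .ofNat 0, .ofNat 0, .ofNat 1, .ofNat 0, .negSucc 0, .ofNat 0, .ofNat 0, .ofNat 1])),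
  ((true, [.ofNat 0, .ofNat 1, .ofNat 0, .negSucc 1, .ofNat 0, .ofNat 1, .ofNat 0, .ofNat 0, .ofNat 3, .ofNat 0]), (false, [.ofNat 0, .ofNat 0, .ofNat 0, .negSucc 1, .ofNat 2, .ofNat 0, .ofNat 0, .ofNat 0, .ofNat 0, .ofNat 2])),
  ((true, [.ofNat 1, .ofNat 0, .negSucc 0, .ofNat 0, .ofNat 1, .ofNat 2, .negSucc 0, .negSucc 0, .ofNat 1, .ofNat 0]), (false, [.ofNat 0, .ofNat 0, .negSucc 0, .ofNat 1, .ofNat 2, .ofNat 0, .negSucc 1, .ofNat 1, .ofNat 0, .ofNat 1])),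
  ((false, [.negSucc 0, .ofNat 0, .ofNat 1, .ofNat 0, .ofNat 0, .negSucc 0, .ofNat 0, .ofNat 1, .ofNat 0, .ofNat 1]), (true, [.negSucc 0, .ofNat 0, .ofNat 0, .ofNat 0, .negSucc 0, .ofNat 0, .ofNat 1, .ofNat 1, .ofNat 0, .ofNat 1])),
  ((false, [.ofNat 0, .ofNat 0, .ofNat 0, .ofNat 2, .ofNat 1, .negSucc 0, .negSucc 0, .ofNat 0, .negSucc 1, .ofNat 1]), (true, [.ofNat 1, .ofNat 0, .ofNat 0, .ofNat 0, .ofNat 0, .negSucc 0, .ofNat 0, .ofNat 0, .negSucc 1, .ofNat 1])),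
  ((false, [.ofNat 0, .negSucc 0, .ofNat 0, .ofNat 2, .ofNat 1, .ofNat 0, .negSucc 0, .ofNat 0, .negSucc 0, .ofNat 1]), (true, [.ofNat 0, .negSucc 0, .ofNat 0, .ofNat 0, .ofNat 0, .ofNat 0, .ofNat 1, .ofNat 0, .negSucc 0, .ofNat 1])),
  ((false, [.ofNat 0, .ofNat 0, .ofNat 1, .ofNat 2, .ofNat 1, .negSucc 1, .negSucc 0, .ofNat 0, .negSucc 2, .ofNat 2]), (true, [.ofNat 0, .ofNat 1, .ofNat 0, .ofNat 0, .ofNat 1, .negSucc 0, .ofNat 1, .negSucc 0, .negSucc 2, .ofNat 2])),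
  ((true, [.ofNat 0, .ofNat 0, .negSucc 0, .ofNat 1, .ofNat 1, .ofNat 0, .negSucc 0, .ofNat 1, .negSucc 0, .ofNat 1]), (false, [.ofNat 0, .ofNat 0, .negSucc 0, .ofNat 0, .ofNat 1, .ofNat 1, .ofNat 1, .negSucc 0, .negSucc 0, .ofNat 1])),
  ((true, [.ofNat 0, .ofNat 1, .ofNat 0, .ofNat 1, .ofNat 1, .negSucc 1, .negSucc 0, .ofNat 1, .negSucc 2, .ofNat 2]), (false, [.ofNat 0, .ofNat 0, .ofNat 1, .ofNat 0, .ofNat 0, .negSucc 1, .ofNat 1, .ofNat 0, .negSucc 2, .ofNat 2]))]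

theorem poolOk : PoolOk Cc0 E Gc0 pool :=
  ⟨by decide, by decide +kernel, by decide +kernel⟩

/-- relations -/
noncomputable def z1r0 : List (Rel × List ℤ) := [
  (⟨(0, 0), (2, 5), (13, 5), some (12, 3), some (7, 3)⟩, [.ofNat 0, .ofNat 0, .ofNat 0, .ofNat 18, .ofNat 6, .ofNat 4, .negSucc 18, .ofNat 2, .ofNat 2, .ofNat 9]),
  (⟨(0, 0), (3, 1), (9, 1), none, some (6, 1)⟩, [.ofNat 0, .ofNat 0, .ofNat 0, .ofNat 10, .ofNat 0, .negSucc 1, .ofNat 0, .ofNat 0, .ofNat 0, .ofNat 8]),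
  (⟨(0, 0), (4, 5), (13, 0), some (14, 2), some (11, 3)⟩, [.ofNat 0, .ofNat 0, .ofNat 0, .ofNat 0, .negSucc 8, .ofNat 0, .ofNat 9, .ofNat 0, .negSucc 17, .ofNat 9]),
  (⟨(0, 0), (23, 2), (24, 2), none, some (25, 0)⟩, [.ofNat 0, .ofNat 0, .ofNat 0, .negSucc 9, .negSucc 1, .negSucc 1, .ofNat 10, .negSucc 1, .negSucc 9, .ofNat 0]),
  (⟨(1, 0), (3, 5), (14, 5), some (13, 3), some (8, 3)⟩, [.ofNat 0, .ofNat 0, .ofNat 0, .negSucc 20, .negSucc 13, .negSucc 10, .ofNat 20, .ofNat 8, .negSucc 23, .negSucc 3]),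
  (⟨(1, 0), (4, 1), (10, 1), none, some (7, 1)⟩, [.ofNat 0, .ofNat 0, .ofNat 0, .ofNat 0, .ofNat 6, .ofNat 4, .negSucc 9, .ofNat 2, .ofNat 20, .ofNat 0]),
  (⟨(1, 0), (12, 2), (46, 0), some (23, 4), some (64, 3)⟩, [.ofNat 0, .ofNat 2, .ofNat 0, .ofNat 6, .ofNat 10, .ofNat 4, .negSucc 13, .negSucc 1, .ofNat 10, .ofNat 0]),
  (⟨(1, 0), (17, 5), (40, 0), some (44, 1), some (30, 1)⟩, [.ofNat 0, .ofNat 8, .negSucc 3, .negSucc 5, .ofNat 4, .ofNat 2, .ofNat 8, .negSucc 11, .negSucc 3, .negSucc 3]),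
  (⟨(1, 0), (18, 2), (47, 3), some (21, 1), some (56, 5)⟩, [.ofNat 0, .negSucc 9, .ofNat 4, .ofNat 9, .ofNat 0, .ofNat 1, .ofNat 2, .negSucc 1, .negSucc 1, .ofNat 8]),
  (⟨(2, 0), (4, 5), (12, 0), some (14, 3), some (9, 3)⟩, [.ofNat 0, .ofNat 0, .ofNat 0, .ofNat 0, .negSucc 14, .ofNat 5, .ofNat 10, .negSucc 1, .negSucc 1, .ofNat 0]),
  (⟨(3, 0), (23, 1), (3, 4), some (23, 2), some (60, 2)⟩, [.ofNat 0, .ofNat 0, .ofNat 0, .ofNat 12, .ofNat 12, .ofNat 4, .negSucc 15, .negSucc 3, .ofNat 8, .ofNat 0]),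
  (⟨(3, 0), (41, 1), (55, 0), some (49, 2), some (58, 2)⟩, [.ofNat 0, .ofNat 0, .ofNat 0, .negSucc 8, .negSucc 9, .ofNat 1, .ofNat 12, .ofNat 0, .ofNat 0, .negSucc 3]),
  (⟨(8, 0), (10, 5), (46, 2), some (58, 4), some (60, 4)⟩, [.ofNat 0, .ofNat 0, .ofNat 0, .ofNat 12, .ofNat 12, .ofNat 4, .negSucc 15, .negSucc 3, .ofNat 8, .ofNat 0]),
  (⟨(8, 0), (16, 5), (47, 5), some (49, 4), some (23, 4)⟩, [.ofNat 0, .ofNat 0, .ofNat 0, .negSucc 2, .negSucc 9, .negSucc 4, .ofNat 8, .ofNat 8, .negSucc 7, .ofNat 4]),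
  (⟨(9, 0), (22, 5), (24, 5), some (21, 0), none⟩, [.ofNat 0, .ofNat 2, .ofNat 0, .ofNat 3, .ofNat 2, .ofNat 3, .ofNat 0, .ofNat 0, .ofNat 0, .ofNat 12]),
  (⟨(9, 0), (50, 5), (59, 5), some (62, 2), some (57, 2)⟩, [.ofNat 0, .negSucc 1, .ofNat 0, .ofNat 7, .ofNat 8, .negSucc 0, .negSucc 9, .ofNat 2, .ofNat 2, .ofNat 4])]

/-- relations -/
noncomputable def z1r1 : List (Rel × List ℤ) := [
  (⟨(12, 0), (14, 5), (55, 1), some (66, 5), some (16, 4)⟩, [.ofNat 0, .negSucc 1, .ofNat 0, .negSucc 9, .ofNat 2, .ofNat 4, .negSucc 9, .ofNat 14, .ofNat 18, .ofNat 4]),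
  (⟨(13, 0), (14, 0), (63, 0), some (51, 1), some (29, 1)⟩, [.ofNat 0, .negSucc 1, .ofNat 0, .negSucc 0, .ofNat 8, .negSucc 0, .negSucc 9, .ofNat 10, .ofNat 2, .ofNat 12]),
  (⟨(13, 0), (16, 5), (18, 0), some (17, 0), none⟩, [.ofNat 0, .ofNat 2, .ofNat 0, .ofNat 5, .ofNat 0, .negSucc 6, .ofNat 2, .negSucc 5, .negSucc 9, .negSucc 7]),
  (⟨(15, 0), (64, 0), (67, 2), some (66, 3), some (65, 1)⟩, [.ofNat 0, .ofNat 0, .ofNat 0, .negSucc 8, .negSucc 1, .ofNat 5, .ofNat 8, .negSucc 3, .ofNat 4, .ofNat 0]),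
  (⟨(17, 0), (24, 0), (50, 1), some (42, 5), some (29, 4)⟩, [.ofNat 0, .negSucc 1, .ofNat 0, .ofNat 7, .ofNat 8, .negSucc 0, .negSucc 9, .ofNat 2, .ofNat 2, .ofNat 4]),
  (⟨(17, 0), (30, 3), (32, 2), some (66, 1), some (51, 0)⟩, [.ofNat 0, .negSucc 3, .ofNat 4, .ofNat 12, .negSucc 3, .negSucc 7, .ofNat 4, .negSucc 3, .negSucc 15, .ofNat 0]),
  (⟨(18, 0), (26, 0), (58, 5), some (59, 3), some (61, 3)⟩, [.ofNat 0, .ofNat 6, .ofNat 0, .negSucc 6, .negSucc 3, .ofNat 1, .ofNat 6, .negSucc 1, .negSucc 1, .ofNat 0]),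
  (⟨(18, 0), (28, 2), (32, 2), some (55, 2), some (63, 1)⟩, [.ofNat 0, .ofNat 0, .negSucc 3, .negSucc 7, .ofNat 4, .ofNat 4, .negSucc 7, .ofNat 12, .ofNat 12, .ofNat 4]),
  (⟨(18, 0), (31, 5), (53, 2), some (63, 1), some (65, 1)⟩, [.ofNat 0, .ofNat 2, .negSucc 3, .ofNat 1, .ofNat 0, .ofNat 1, .negSucc 1, .ofNat 2, .ofNat 2, .negSucc 3]),
  (⟨(21, 0), (22, 2), (27, 2), some (25, 2), some (23, 5)⟩, [.ofNat 0, .ofNat 10, .ofNat 0, .negSucc 2, .negSucc 1, .negSucc 2, .ofNat 0, .ofNat 0, .ofNat 0, .ofNat 0]),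
  (⟨(21, 0), (35, 0), (51, 0), some (61, 0), some (67, 4)⟩, [.ofNat 0, .ofNat 6, .negSucc 3, .negSucc 2, .ofNat 4, .ofNat 1, .negSucc 1, .ofNat 2, .negSucc 1, .ofNat 4]),
  (⟨(25, 0), (26, 0), (66, 2), some (40, 5), some (53, 1)⟩, [.ofNat 0, .negSucc 5, .ofNat 4, .ofNat 7, .ofNat 0, .negSucc 4, .negSucc 5, .ofNat 6, .negSucc 1, .ofNat 4]),
  (⟨(25, 0), (28, 3), (35, 2), some (49, 3), some (44, 0)⟩, [.ofNat 0, .negSucc 3, .negSucc 3, .ofNat 2, .ofNat 4, .ofNat 10, .negSucc 3, .negSucc 3, .ofNat 16, .negSucc 7]),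
  (⟨(26, 0), (32, 5), (43, 2), some (37, 0), some (44, 0)⟩, [.ofNat 0, .negSucc 3, .ofNat 0, .ofNat 4, .ofNat 0, .negSucc 3, .negSucc 3, .ofNat 8, .negSucc 3, .ofNat 4]),
  (⟨(28, 0), (30, 0), (30, 1), some (28, 1), some (38, 4)⟩, [.negSucc 13, .negSucc 1, .ofNat 0, .ofNat 5, .ofNat 0, .ofNat 3, .ofNat 0, .ofNat 8, .ofNat 18, .negSucc 5]),
  (⟨(31, 0), (35, 1), (43, 1), some (38, 3), some (40, 4)⟩, [.negSucc 3, .negSucc 1, .ofNat 0, .negSucc 0, .ofNat 0, .ofNat 3, .ofNat 2, .ofNat 2, .ofNat 6, .ofNat 0])]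

/-- relations -/
noncomputable def z1r2 : List (Rel × List ℤ) := [
  (⟨(41, 0), (42, 0), (62, 1), none, some (43, 4)⟩, [.ofNat 0, .negSucc 1, .ofNat 0, .ofNat 7, .ofNat 8, .negSucc 0, .negSucc 9, .ofNat 2, .ofNat 2, .ofNat 4]),
  (⟨(55, 0), (56, 0), (64, 1), none, some (57, 4)⟩, [.ofNat 0, .negSucc 1, .ofNat 0, .ofNat 7, .ofNat 8, .negSucc 0, .negSucc 9, .ofNat 2, .ofNat 2, .ofNat 4])]

/-- trivial elements -/
noncomputable def z1t0 : List (ℕ × ℤ × ℤ) := [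
  (0, .negSucc 17, .ofNat 5),
  (1, .negSucc 11, .ofNat 6),
  (2, .negSucc 17, .ofNat 9),
  (3, .ofNat 0, .negSucc 3),
  (4, .negSucc 17, .ofNat 9),
  (6, .ofNat 10, .negSucc 1),
  (7, .ofNat 9, .ofNat 0),
  (8, .ofNat 12, .negSucc 11),
  (9, .ofNat 5, .ofNat 4),
  (10, .ofNat 6, .negSucc 5),
  (11, .ofNat 9, .ofNat 0),
  (12, .negSucc 4, .ofNat 10),
  (13, .ofNat 8, .negSucc 0),
  (14, .negSucc 11, .ofNat 14),
  (15, .ofNat 3, .negSucc 0),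
  (16, .ofNat 0, .ofNat 8),
  (17, .ofNat 0, .negSucc 7),
  (18, .ofNat 4, .negSucc 3),
  (21, .negSucc 3, .ofNat 4),
  (22, .negSucc 11, .ofNat 0),
  (23, .ofNat 12, .negSucc 3),
  (24, .ofNat 0, .ofNat 8),
  (25, .ofNat 0, .ofNat 4),
  (26, .ofNat 4, .ofNat 0),
  (27, .ofNat 5, .negSucc 2),
  (28, .ofNat 28, .negSucc 31),
  (29, .ofNat 0, .ofNat 8),
  (30, .negSucc 27, .ofNat 12),
  (31, .ofNat 4, .ofNat 0),
  (35, .ofNat 4, .negSucc 7),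
  (37, .ofNat 0, .ofNat 4),
  (38, .ofNat 5, .ofNat 1)]

/-- trivial elements -/
noncomputable def z1t1 : List (ℕ × ℤ × ℤ) := [
  (40, .ofNat 0, .ofNat 4),
  (41, .ofNat 2, .ofNat 0),
  (43, .negSucc 3, .ofNat 8),
  (44, .ofNat 0, .ofNat 8),
  (46, .ofNat 2, .negSucc 1),
  (47, .negSucc 3, .negSucc 5),
  (49, .negSucc 3, .ofNat 8),
  (51, .ofNat 0, .negSucc 7),
  (53, .negSucc 3, .ofNat 4),
  (55, .ofNat 4, .ofNat 0),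
  (56, .ofNat 4, .ofNat 8),
  (58, .ofNat 6, .negSucc 3),
  (59, .ofNat 0, .ofNat 4),
  (61, .ofNat 0, .ofNat 4),
  (63, .negSucc 3, .ofNat 0),
  (64, .negSucc 3, .ofNat 8),
  (65, .negSucc 3, .ofNat 2),
  (66, .negSucc 3, .ofNat 4),
  (67, .negSucc 5, .ofNat 4)]

/-- the identity -/
noncomputable def z1 : Id3 := ⟨[z1r0, z1r1, z1r2], [z1t0, z1t1]⟩

/-- the element -/
noncomputable def z1L : List Tm := [
  ⟨12, 0, [.ofNat 0, .ofNat 0, .ofNat 0, .ofNat 27, .ofNat 9, .negSucc 8, .ofNat 0, .negSucc 17, .negSucc 23, .ofNat 0]⟩,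
  ⟨13, 0, [.ofNat 0, .ofNat 0, .ofNat 0, .ofNat 0, .ofNat 0, .ofNat 0, .ofNat 0, .ofNat 0, .negSucc 11, .ofNat 0]⟩,
  ⟨14, 0, [.ofNat 0, .ofNat 0, .ofNat 0, .ofNat 0, .ofNat 0, .negSucc 8, .ofNat 9, .ofNat 0, .negSucc 23, .ofNat 9]⟩,
  ⟨15, 0, [.ofNat 0, .ofNat 0, .ofNat 0, .ofNat 0, .negSucc 2, .ofNat 0, .ofNat 0, .ofNat 0, .ofNat 4, .negSucc 5]⟩]

theorem z1_pad : padS E.length x6a.cls x6a_l1 pool z1L = true := by decide +kernel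

theorem z1_A : z1.chkA ((E ++ Gc0).map El.isK) pool = true := by decide +kernel

theorem z1_B : z1.chkB pool [(1, z1L)] = true := by decide +kernel

theorem z1_C : z1.chkC 15 (E ++ Gc0).length 64 2 pool [(1, z1L)] = true := by decide +kernel

/-- **a trivial element** -/
theorem z1_zero {k : Type*} [Field k] [CharZero k] {F : Type*} [Field F] [Algebra k F] {x y : F}
    (hx : TN.Tr k x) (hC : Cc0.Eq x y) : zt (Gc0.map (El.v x y)) x6a.cls x6a_l1 ∈ TN.KC k F :=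
  poolOk.zero hx hC (by decide) z1_pad z1_A z1_B z1_C

/-- relations -/
noncomputable def z2r0 : List (Rel × List ℤ) := [
  (⟨(0, 0), (2, 5), (13, 5), some (12, 3), some (7, 3)⟩, [.ofNat 0, .ofNat 0, .ofNat 0, .negSucc 25, .ofNat 4, .negSucc 11, .ofNat 19, .ofNat 0, .negSucc 5, .negSucc 10]),
  (⟨(0, 0), (3, 1), (9, 1), none, some (6, 1)⟩, [.ofNat 0, .ofNat 0, .ofNat 0, .negSucc 15, .ofNat 0, .ofNat 8, .ofNat 0, .ofNat 0, .ofNat 0, .negSucc 7]),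
  (⟨(0, 0), (4, 5), (13, 0), some (14, 2), some (11, 3)⟩, [.ofNat 0, .ofNat 0, .ofNat 0, .ofNat 0, .ofNat 19, .ofNat 0, .negSucc 18, .ofNat 0, .ofNat 38, .negSucc 18]),
  (⟨(0, 0), (23, 2), (24, 2), none, some (25, 0)⟩, [.ofNat 0, .ofNat 0, .ofNat 0, .ofNat 4, .negSucc 3, .ofNat 4, .ofNat 0, .ofNat 0, .ofNat 6, .ofNat 0]),
  (⟨(1, 0), (3, 5), (14, 5), some (13, 3), some (8, 3)⟩, [.ofNat 0, .ofNat 0, .ofNat 0, .ofNat 29, .ofNat 20, .ofNat 7, .negSucc 33, .negSucc 1, .ofNat 32, .ofNat 4]),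
  (⟨(1, 0), (4, 1), (10, 1), none, some (7, 1)⟩, [.ofNat 0, .ofNat 0, .ofNat 0, .ofNat 12, .ofNat 4, .negSucc 11, .ofNat 0, .ofNat 0, .negSucc 43, .ofNat 8]),
  (⟨(1, 0), (12, 2), (46, 0), some (23, 4), some (64, 3)⟩, [.ofNat 0, .negSucc 1, .ofNat 0, .negSucc 29, .negSucc 13, .negSucc 3, .ofNat 34, .ofNat 2, .negSucc 5, .ofNat 8]),
  (⟨(1, 0), (17, 5), (40, 0), some (44, 1), some (30, 1)⟩, [.ofNat 0, .negSucc 3, .ofNat 0, .negSucc 1, .negSucc 3, .ofNat 6, .ofNat 0, .ofNat 0, .ofNat 12, .negSucc 7]),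
  (⟨(1, 0), (18, 2), (47, 3), some (21, 1), some (56, 5)⟩, [.ofNat 0, .ofNat 6, .ofNat 0, .negSucc 8, .negSucc 5, .ofNat 3, .ofNat 0, .ofNat 0, .ofNat 6, .negSucc 11]),
  (⟨(2, 0), (4, 5), (12, 0), some (14, 3), some (9, 3)⟩, [.ofNat 0, .ofNat 0, .ofNat 0, .negSucc 11, .ofNat 15, .negSucc 6, .ofNat 0, .ofNat 0, .ofNat 6, .negSucc 7]),
  (⟨(3, 0), (23, 1), (3, 4), some (23, 2), some (60, 2)⟩, [.ofNat 0, .negSucc 1, .ofNat 0, .negSucc 7, .negSucc 15, .negSucc 5, .ofNat 20, .ofNat 4, .negSucc 9, .ofNat 0]),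
  (⟨(3, 0), (41, 1), (55, 0), some (49, 2), some (58, 2)⟩, [.ofNat 0, .ofNat 4, .ofNat 0, .ofNat 5, .ofNat 4, .ofNat 3, .negSucc 5, .negSucc 5, .ofNat 0, .negSucc 3]),
  (⟨(8, 0), (10, 5), (46, 2), some (58, 4), some (60, 4)⟩, [.ofNat 0, .ofNat 0, .ofNat 0, .negSucc 11, .negSucc 15, .negSucc 3, .ofNat 20, .ofNat 4, .negSucc 3, .ofNat 0]),
  (⟨(8, 0), (16, 5), (47, 5), some (49, 4), some (23, 4)⟩, [.ofNat 0, .ofNat 0, .ofNat 0, .ofNat 3, .ofNat 0, .ofNat 9, .negSucc 5, .negSucc 5, .ofNat 12, .negSucc 11]),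
  (⟨(9, 0), (22, 5), (24, 5), some (21, 0), none⟩, [.ofNat 0, .negSucc 1, .ofNat 0, .negSucc 4, .ofNat 2, .negSucc 0, .ofNat 0, .ofNat 0, .ofNat 0, .negSucc 3]),
  (⟨(9, 0), (50, 5), (59, 5), some (62, 2), some (57, 2)⟩, [.ofNat 0, .ofNat 2, .ofNat 0, .ofNat 1, .ofNat 2, .negSucc 2, .ofNat 0, .ofNat 0, .negSucc 5, .ofNat 4])]

/-- relations -/
noncomputable def z2r1 : List (Rel × List ℤ) := [
  (⟨(12, 0), (14, 5), (55, 1), some (66, 5), some (16, 4)⟩, [.ofNat 0, .ofNat 2, .ofNat 0, .negSucc 1, .ofNat 2, .ofNat 0, .ofNat 6, .negSucc 5, .negSucc 5, .ofNat 4]),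
  (⟨(13, 0), (14, 0), (63, 0), some (51, 1), some (29, 1)⟩, [.ofNat 0, .ofNat 2, .ofNat 0, .ofNat 1, .ofNat 2, .negSucc 2, .ofNat 0, .ofNat 0, .negSucc 5, .ofNat 4]),
  (⟨(13, 0), (16, 5), (18, 0), some (17, 0), none⟩, [.ofNat 0, .negSucc 1, .ofNat 0, .ofNat 11, .ofNat 10, .ofNat 3, .ofNat 0, .negSucc 11, .negSucc 5, .ofNat 8]),
  (⟨(15, 0), (64, 0), (67, 2), some (66, 3), some (65, 1)⟩, [.ofNat 0, .ofNat 0, .ofNat 0, .ofNat 1, .ofNat 0, .negSucc 0, .negSucc 1, .ofNat 2, .ofNat 0, .ofNat 0]),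
  (⟨(17, 0), (24, 0), (50, 1), some (42, 5), some (29, 4)⟩, [.ofNat 0, .ofNat 2, .ofNat 0, .ofNat 1, .ofNat 2, .negSucc 2, .ofNat 0, .ofNat 0, .negSucc 5, .ofNat 4]),
  (⟨(18, 0), (26, 0), (58, 5), some (59, 3), some (61, 3)⟩, [.ofNat 0, .negSucc 1, .ofNat 0, .negSucc 0, .negSucc 1, .ofNat 3, .ofNat 0, .ofNat 0, .ofNat 6, .negSucc 3]),
  (⟨(18, 0), (31, 5), (53, 2), some (63, 1), some (65, 1)⟩, [.ofNat 0, .negSucc 1, .ofNat 0, .negSucc 0, .negSucc 1, .ofNat 3, .ofNat 0, .ofNat 0, .ofNat 6, .negSucc 3]),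
  (⟨(21, 0), (22, 2), (27, 2), some (25, 2), some (23, 5)⟩, [.ofNat 0, .negSucc 5, .ofNat 0, .ofNat 5, .negSucc 1, .ofNat 5, .ofNat 0, .ofNat 0, .ofNat 0, .ofNat 0]),
  (⟨(21, 0), (35, 0), (51, 0), some (61, 0), some (67, 4)⟩, [.ofNat 0, .negSucc 1, .ofNat 0, .negSucc 0, .negSucc 1, .ofNat 3, .ofNat 0, .ofNat 0, .ofNat 6, .negSucc 3]),
  (⟨(25, 0), (26, 0), (66, 2), some (40, 5), some (53, 1)⟩, [.ofNat 0, .ofNat 2, .ofNat 0, .ofNat 1, .ofNat 2, .negSucc 2, .ofNat 0, .ofNat 0, .negSucc 5, .ofNat 4]),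
  (⟨(25, 0), (28, 3), (35, 2), some (49, 3), some (44, 0)⟩, [.ofNat 0, .ofNat 4, .ofNat 0, .ofNat 2, .ofNat 4, .negSucc 5, .ofNat 0, .ofNat 0, .negSucc 11, .ofNat 8]),
  (⟨(28, 0), (30, 0), (30, 1), some (28, 1), some (38, 4)⟩, [.ofNat 0, .ofNat 2, .ofNat 0, .ofNat 1, .ofNat 2, .negSucc 2, .ofNat 0, .ofNat 0, .negSucc 5, .ofNat 4]),
  (⟨(31, 0), (35, 1), (43, 1), some (38, 3), some (40, 4)⟩, [.ofNat 0, .ofNat 2, .ofNat 0, .ofNat 1, .ofNat 2, .negSucc 2, .ofNat 0, .ofNat 0, .negSucc 5, .ofNat 4]),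
  (⟨(41, 0), (42, 0), (62, 1), none, some (43, 4)⟩, [.ofNat 0, .ofNat 2, .ofNat 0, .ofNat 1, .ofNat 2, .negSucc 2, .ofNat 0, .ofNat 0, .negSucc 5, .ofNat 4]),
  (⟨(55, 0), (56, 0), (64, 1), none, some (57, 4)⟩, [.ofNat 0, .negSucc 1, .ofNat 0, .ofNat 1, .ofNat 2, .negSucc 2, .ofNat 4, .ofNat 0, .negSucc 5, .ofNat 8])]

/-- trivial elements -/
noncomputable def z2t0 : List (ℕ × ℤ × ℤ) := [
  (0, .ofNat 38, .negSucc 18),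
  (2, .ofNat 38, .negSucc 18),
  (3, .ofNat 8, .negSucc 1),
  (4, .ofNat 38, .negSucc 18),
  (6, .negSucc 15, .ofNat 8),
  (7, .negSucc 18, .ofNat 0),
  (8, .negSucc 19, .ofNat 12),
  (9, .negSucc 18, .ofNat 0),
  (10, .negSucc 19, .ofNat 12),
  (11, .negSucc 18, .ofNat 0),
  (12, .negSucc 20, .ofNat 3),
  (13, .ofNat 0, .ofNat 5),
  (14, .ofNat 20, .negSucc 15),
  (15, .negSucc 0, .ofNat 1),
  (16, .ofNat 0, .negSucc 11),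
  (17, .ofNat 0, .ofNat 12),
  (18, .ofNat 0, .ofNat 12),
  (21, .ofNat 0, .negSucc 11),
  (22, .ofNat 8, .negSucc 3),
  (23, .negSucc 3, .ofNat 20),
  (25, .ofNat 0, .negSucc 11),
  (27, .negSucc 2, .ofNat 5),
  (41, .negSucc 5, .ofNat 0),
  (46, .ofNat 6, .ofNat 2),
  (47, .ofNat 0, .ofNat 6),
  (55, .ofNat 0, .negSucc 3),
  (56, .ofNat 0, .negSucc 3),
  (57, .ofNat 0, .negSucc 3),
  (58, .ofNat 2, .negSucc 7),
  (60, .negSucc 1, .ofNat 0),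
  (64, .ofNat 16, .negSucc 15),
  (65, .ofNat 0, .negSucc 1)]

/-- trivial elements -/
noncomputable def z2t1 : List (ℕ × ℤ × ℤ) := [
  (66, .ofNat 4, .negSucc 3),
  (67, .ofNat 2, .ofNat 0)]

/-- the identity -/
noncomputable def z2 : Id3 := ⟨[z2r0, z2r1], [z2t0, z2t1]⟩

/-- the element -/
noncomputable def z2L : List Tm := [
  ⟨12, 0, [.ofNat 0, .ofNat 0, .ofNat 0, .ofNat 0, .ofNat 1, .negSucc 0, .ofNat 0, .ofNat 1, .ofNat 0, .ofNat 3]⟩,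
  ⟨13, 0, [.ofNat 0, .ofNat 0, .ofNat 0, .negSucc 3, .negSucc 1, .ofNat 0, .ofNat 4, .ofNat 0, .ofNat 0, .ofNat 0]⟩,
  ⟨14, 0, [.ofNat 0, .ofNat 0, .ofNat 0, .ofNat 0, .ofNat 0, .ofNat 1, .negSucc 0, .ofNat 0, .ofNat 0, .negSucc 0]⟩,
  ⟨15, 0, [.ofNat 0, .ofNat 0, .ofNat 0, .ofNat 2, .ofNat 1, .ofNat 0, .negSucc 1, .ofNat 0, .ofNat 0, .ofNat 0]⟩]

theorem z2_pad : padS E.length x6a.cls x6a_l2 pool z2L = true := by decide +kernel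

theorem z2_A : z2.chkA ((E ++ Gc0).map El.isK) pool = true := by decide +kernel

theorem z2_B : z2.chkB pool [(1, z2L)] = true := by decide +kernel

theorem z2_C : z2.chkC 14 (E ++ Gc0).length 64 2 pool [(1, z2L)] = true := by decide +kernel

/-- **a trivial element** -/
theorem z2_zero {k : Type*} [Field k] [CharZero k] {F : Type*} [Field F] [Algebra k F] {x y : F}
    (hx : TN.Tr k x) (hC : Cc0.Eq x y) : zt (Gc0.map (El.v x y)) x6a.cls x6a_l2 ∈ TN.KC k F :=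
  poolOk.zero hx hC (by decide) z2_pad z2_A z2_B z2_C

/-- relations -/
noncomputable def z3r0 : List (Rel × List ℤ) := [
  (⟨(0, 0), (2, 5), (13, 5), some (12, 3), some (7, 3)⟩, [.ofNat 0, .ofNat 0, .ofNat 48, .ofNat 270, .negSucc 47, .ofNat 50, .negSucc 235, .ofNat 46, .ofNat 52, .ofNat 132]),
  (⟨(0, 0), (3, 1), (9, 1), none, some (6, 1)⟩, [.ofNat 0, .ofNat 0, .ofNat 0, .ofNat 188, .ofNat 0, .negSucc 81, .ofNat 0, .ofNat 0, .ofNat 0, .ofNat 106]),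
  (⟨(0, 0), (4, 5), (13, 0), some (14, 2), some (11, 3)⟩, [.negSucc 11, .negSucc 11, .ofNat 24, .ofNat 0, .negSucc 209, .negSucc 11, .ofNat 216, .ofNat 0, .negSucc 419, .ofNat 210]),
  (⟨(0, 0), (23, 2), (24, 2), none, some (25, 0)⟩, [.ofNat 12, .ofNat 12, .negSucc 71, .negSucc 109, .ofNat 80, .ofNat 44, .ofNat 56, .negSucc 45, .negSucc 67, .ofNat 0]),
  (⟨(1, 0), (3, 0), (63, 0), some (29, 1), some (45, 2)⟩, [.negSucc 11, .ofNat 0, .ofNat 0, .ofNat 36, .ofNat 0, .ofNat 0, .negSucc 11, .ofNat 0, .ofNat 0, .negSucc 11]),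
  (⟨(1, 0), (3, 5), (14, 5), some (13, 3), some (8, 3)⟩, [.negSucc 11, .negSucc 23, .negSucc 71, .negSucc 353, .negSucc 225, .negSucc 57, .ofNat 424, .ofNat 70, .negSucc 431, .negSucc 85]),
  (⟨(1, 0), (4, 1), (10, 1), none, some (7, 1)⟩, [.ofNat 0, .ofNat 0, .ofNat 48, .negSucc 89, .negSucc 47, .ofNat 80, .negSucc 25, .negSucc 13, .ofNat 472, .negSucc 77]),
  (⟨(1, 0), (12, 2), (46, 0), some (23, 4), some (64, 3)⟩, [.ofNat 0, .ofNat 76, .ofNat 48, .ofNat 192, .ofNat 110, .ofNat 2, .negSucc 315, .negSucc 15, .ofNat 80, .negSucc 65]),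
  (⟨(1, 0), (17, 5), (40, 0), some (44, 1), some (30, 1)⟩, [.ofNat 12, .ofNat 100, .negSucc 43, .negSucc 47, .ofNat 98, .negSucc 37, .ofNat 16, .negSucc 35, .negSucc 103, .ofNat 94]),
  (⟨(1, 0), (18, 2), (47, 3), some (21, 1), some (56, 5)⟩, [.ofNat 12, .negSucc 151, .ofNat 20, .ofNat 168, .ofNat 60, .negSucc 3, .negSucc 19, .ofNat 2, .negSucc 39, .ofNat 166]),
  (⟨(2, 0), (4, 0), (66, 3), some (16, 4), some (54, 2)⟩, [.ofNat 0, .ofNat 0, .negSucc 11, .ofNat 0, .ofNat 18, .ofNat 0, .ofNat 0, .ofNat 0, .negSucc 11, .ofNat 0]),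
  (⟨(2, 0), (4, 5), (12, 0), some (14, 3), some (9, 3)⟩, [.negSucc 11, .ofNat 0, .ofNat 0, .ofNat 78, .negSucc 197, .ofNat 130, .ofNat 56, .negSucc 21, .negSucc 51, .ofNat 72]),
  (⟨(2, 0), (42, 0), (53, 0), some (56, 2), some (52, 2)⟩, [.ofNat 12, .ofNat 0, .negSucc 35, .ofNat 72, .negSucc 11, .ofNat 0, .negSucc 59, .ofNat 36, .ofNat 12, .negSucc 23]),
  (⟨(3, 0), (23, 1), (3, 4), some (23, 2), some (60, 2)⟩, [.ofNat 0, .ofNat 42, .ofNat 48, .ofNat 138, .ofNat 186, .ofNat 44, .negSucc 259, .negSucc 91, .ofNat 130, .ofNat 0]),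
  (⟨(3, 0), (41, 1), (55, 0), some (49, 2), some (58, 2)⟩, [.ofNat 0, .negSucc 59, .negSucc 23, .negSucc 95, .negSucc 31, .negSucc 39, .ofNat 48, .ofNat 150, .ofNat 12, .ofNat 82]),
  (⟨(4, 0), (18, 5), (62, 5), some (48, 0), some (28, 4)⟩, [.ofNat 0, .ofNat 0, .negSucc 83, .ofNat 12, .ofNat 30, .ofNat 54, .ofNat 0, .ofNat 0, .ofNat 0, .negSucc 29])]

/-- relations -/
noncomputable def z3r1 : List (Rel × List ℤ) := [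
  (⟨(4, 0), (23, 3), (36, 1), some (39, 4), some (37, 4)⟩, [.ofNat 24, .ofNat 12, .ofNat 0, .ofNat 0, .negSucc 35, .ofNat 24, .ofNat 12, .negSucc 35, .ofNat 12, .negSucc 23]),
  (⟨(8, 0), (10, 5), (46, 2), some (58, 4), some (60, 4)⟩, [.ofNat 0, .ofNat 0, .ofNat 48, .ofNat 222, .ofNat 186, .ofNat 2, .negSucc 259, .negSucc 91, .ofNat 4, .ofNat 0]),
  (⟨(8, 0), (16, 5), (47, 5), some (49, 4), some (23, 4)⟩, [.ofNat 12, .ofNat 24, .ofNat 24, .negSucc 191, .negSucc 115, .negSucc 183, .ofNat 160, .ofNat 178, .negSucc 219, .ofNat 170]),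
  (⟨(9, 0), (22, 5), (24, 5), some (21, 0), none⟩, [.ofNat 12, .ofNat 40, .negSucc 23, .ofNat 78, .ofNat 16, .ofNat 24, .negSucc 11, .negSucc 11, .ofNat 12, .ofNat 102]),
  (⟨(9, 0), (50, 5), (59, 5), some (62, 2), some (57, 2)⟩, [.ofNat 0, .negSucc 39, .ofNat 24, .ofNat 32, .negSucc 13, .negSucc 13, .negSucc 43, .ofNat 34, .ofNat 40, .negSucc 15]),
  (⟨(11, 0), (22, 0), (33, 1), some (31, 1), some (34, 4)⟩, [.ofNat 12, .ofNat 12, .negSucc 23, .ofNat 0, .ofNat 18, .ofNat 18, .negSucc 11, .negSucc 11, .ofNat 12, .negSucc 5]),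
  (⟨(12, 0), (14, 5), (55, 1), some (66, 5), some (16, 4)⟩, [.ofNat 12, .negSucc 75, .ofNat 0, .ofNat 118, .ofNat 40, .negSucc 81, .negSucc 139, .ofNat 130, .negSucc 23, .ofNat 44]),
  (⟨(13, 0), (14, 0), (63, 0), some (51, 1), some (29, 1)⟩, [.ofNat 24, .negSucc 63, .ofNat 96, .negSucc 1, .negSucc 19, .negSucc 43, .negSucc 7, .negSucc 39, .ofNat 40, .negSucc 23]),
  (⟨(13, 0), (16, 5), (18, 0), some (17, 0), none⟩, [.negSucc 23, .ofNat 52, .negSucc 143, .negSucc 157, .negSucc 119, .ofNat 76, .negSucc 19, .ofNat 204, .ofNat 208, .negSucc 243]),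
  (⟨(15, 0), (64, 0), (67, 2), some (66, 3), some (65, 1)⟩, [.ofNat 0, .ofNat 0, .ofNat 0, .negSucc 47, .ofNat 14, .negSucc 1, .ofNat 88, .negSucc 49, .negSucc 63, .ofNat 48]),
  (⟨(16, 0), (20, 0), (44, 1), some (48, 0), some (34, 4)⟩, [.ofNat 0, .ofNat 0, .ofNat 84, .negSucc 11, .negSucc 29, .negSucc 53, .ofNat 0, .ofNat 0, .ofNat 0, .ofNat 30]),
  (⟨(17, 0), (24, 0), (50, 1), some (42, 5), some (29, 4)⟩, [.negSucc 23, .negSucc 75, .ofNat 96, .ofNat 32, .negSucc 43, .negSucc 67, .negSucc 43, .ofNat 58, .ofNat 28, .negSucc 45]),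
  (⟨(17, 0), (30, 3), (32, 2), some (66, 1), some (51, 0)⟩, [.negSucc 11, .ofNat 28, .negSucc 51, .ofNat 6, .negSucc 25, .ofNat 38, .ofNat 8, .ofNat 34, .negSucc 7, .ofNat 0]),
  (⟨(18, 0), (26, 0), (58, 5), some (59, 3), some (61, 3)⟩, [.ofNat 0, .ofNat 36, .negSucc 23, .negSucc 31, .ofNat 10, .ofNat 14, .ofNat 48, .negSucc 33, .negSucc 39, .ofNat 12]),
  (⟨(18, 0), (28, 2), (32, 2), some (55, 2), some (63, 1)⟩, [.ofNat 12, .ofNat 0, .ofNat 76, .ofNat 2, .negSucc 9, .negSucc 45, .negSucc 3, .negSucc 53, .ofNat 12, .negSucc 15]),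
  (⟨(18, 0), (31, 5), (53, 2), some (63, 1), some (65, 1)⟩, [.ofNat 0, .ofNat 64, .negSucc 19, .ofNat 8, .ofNat 30, .negSucc 21, .negSucc 3, .negSucc 13, .negSucc 67, .ofNat 40])]

/-- relations -/
noncomputable def z3r2 : List (Rel × List ℤ) := [
  (⟨(19, 0), (33, 0), (50, 0), some (35, 5), some (57, 4)⟩, [.ofNat 0, .negSucc 23, .ofNat 36, .ofNat 0, .negSucc 5, .negSucc 17, .ofNat 0, .ofNat 0, .negSucc 11, .ofNat 6]),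
  (⟨(21, 0), (22, 2), (27, 2), some (25, 2), some (23, 5)⟩, [.ofNat 0, .ofNat 152, .ofNat 0, .negSucc 77, .ofNat 2, .negSucc 77, .ofNat 0, .ofNat 0, .ofNat 0, .ofNat 0]),
  (⟨(21, 0), (35, 0), (51, 0), some (61, 0), some (67, 4)⟩, [.ofNat 0, .ofNat 36, .negSucc 43, .negSucc 11, .ofNat 50, .ofNat 14, .ofNat 8, .negSucc 13, .negSucc 39, .ofNat 32]),
  (⟨(25, 0), (26, 0), (66, 2), some (40, 5), some (53, 1)⟩, [.ofNat 0, .negSucc 47, .negSucc 15, .ofNat 56, .negSucc 29, .ofNat 26, .negSucc 35, .ofNat 30, .ofNat 68, .negSucc 51]),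
  (⟨(25, 0), (28, 3), (35, 2), some (49, 3), some (44, 0)⟩, [.negSucc 11, .negSucc 127, .ofNat 88, .ofNat 4, .negSucc 51, .ofNat 8, .negSucc 19, .ofNat 16, .ofNat 140, .negSucc 87]),
  (⟨(26, 0), (32, 5), (43, 2), some (37, 0), some (44, 0)⟩, [.negSucc 23, .ofNat 28, .ofNat 0, .ofNat 8, .negSucc 35, .ofNat 16, .ofNat 28, .negSucc 19, .ofNat 28, .negSucc 39]),
  (⟨(28, 0), (30, 0), (30, 1), some (28, 1), some (38, 4)⟩, [.ofNat 14, .negSucc 63, .ofNat 48, .negSucc 4, .negSucc 35, .ofNat 0, .ofNat 0, .ofNat 1, .ofNat 30, .negSucc 20]),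
  (⟨(29, 0), (34, 0), (40, 0), some (62, 5), some (39, 4)⟩, [.negSucc 47, .ofNat 12, .ofNat 0, .negSucc 11, .ofNat 24, .ofNat 24, .ofNat 48, .negSucc 47, .ofNat 12, .negSucc 23]),
  (⟨(31, 0), (35, 1), (43, 1), some (38, 3), some (40, 4)⟩, [.negSucc 7, .negSucc 63, .ofNat 48, .negSucc 7, .negSucc 35, .ofNat 0, .ofNat 28, .negSucc 1, .ofNat 24, .negSucc 17]),
  (⟨(41, 0), (42, 0), (62, 1), none, some (43, 4)⟩, [.ofNat 0, .negSucc 27, .ofNat 48, .ofNat 8, .negSucc 31, .ofNat 16, .ofNat 16, .negSucc 61, .ofNat 52, .negSucc 57]),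
  (⟨(55, 0), (56, 0), (64, 1), none, some (57, 4)⟩, [.ofNat 0, .negSucc 15, .ofNat 48, .ofNat 32, .negSucc 7, .ofNat 4, .negSucc 103, .ofNat 34, .ofNat 52, .negSucc 21])]

/-- trivial elements -/
noncomputable def z3t0 : List (ℕ × ℤ × ℤ) := [
  (0, .negSucc 347, .ofNat 124),
  (1, .negSucc 59, .negSucc 5),
  (2, .negSucc 419, .ofNat 180),
  (3, .negSucc 113, .ofNat 22),
  (4, .negSucc 425, .ofNat 150),
  (6, .ofNat 188, .negSucc 81),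
  (7, .ofNat 210, .negSucc 29),
  (8, .ofNat 324, .negSucc 239),
  (9, .ofNat 196, .ofNat 26),
  (10, .ofNat 234, .negSucc 155),
  (11, .ofNat 204, .negSucc 5),
  (12, .ofNat 164, .negSucc 45),
  (13, .negSucc 103, .ofNat 28),
  (14, .negSucc 395, .ofNat 274),
  (15, .ofNat 14, .negSucc 29),
  (16, .ofNat 24, .ofNat 244),
  (17, .negSucc 143, .negSucc 147),
  (18, .ofNat 176, .negSucc 103),
  (19, .negSucc 17, .ofNat 12),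
  (20, .ofNat 42, .negSucc 11),
  (21, .ofNat 4, .ofNat 92),
  (22, .negSucc 179, .ofNat 72),
  (23, .ofNat 120, .negSucc 259),
  (24, .negSucc 23, .ofNat 52),
  (25, .ofNat 12, .ofNat 128),
  (26, .negSucc 39, .ofNat 24),
  (27, .ofNat 76, .negSucc 77),
  (28, .negSucc 51, .ofNat 68),
  (29, .ofNat 108, .negSucc 49),
  (30, .ofNat 28, .ofNat 24),
  (31, .negSucc 3, .negSucc 11),
  (32, .ofNat 24, .ofNat 0)]

/-- trivial elements -/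
noncomputable def z3t1 : List (ℕ × ℤ × ℤ) := [
  (33, .ofNat 12, .negSucc 11),
  (34, .negSucc 59, .ofNat 12),
  (35, .negSucc 3, .negSucc 39),
  (36, .ofNat 12, .negSucc 23),
  (37, .negSucc 23, .ofNat 8),
  (38, .negSucc 10, .ofNat 14),
  (39, .ofNat 36, .ofNat 12),
  (40, .ofNat 12, .ofNat 44),
  (41, .ofNat 88, .negSucc 23),
  (42, .ofNat 48, .negSucc 83),
  (43, .negSucc 7, .ofNat 40),
  (44, .ofNat 24, .ofNat 40),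
  (45, .ofNat 12, .negSucc 11),
  (46, .ofNat 10, .negSucc 75),
  (47, .ofNat 4, .negSucc 179),
  (49, .negSucc 43, .negSucc 91),
  (50, .negSucc 23, .negSucc 11),
  (51, .negSucc 11, .ofNat 8),
  (52, .negSucc 35, .ofNat 24),
  (53, .ofNat 16, .negSucc 3),
  (54, .ofNat 6, .negSucc 11),
  (55, .negSucc 99, .ofNat 90),
  (56, .ofNat 104, .ofNat 64),
  (57, .negSucc 59, .ofNat 60),
  (58, .negSucc 23, .ofNat 94),
  (59, .ofNat 0, .negSucc 3),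
  (60, .ofNat 42, .ofNat 0),
  (61, .ofNat 0, .ofNat 20),
  (62, .negSucc 59, .ofNat 12),
  (63, .negSucc 19, .ofNat 0),
  (64, .negSucc 103, .ofNat 196),
  (65, .negSucc 19, .ofNat 64)]

/-- trivial elements -/
noncomputable def z3t2 : List (ℕ × ℤ × ℤ) := [
  (66, .negSucc 115, .ofNat 68),
  (67, .negSucc 35, .ofNat 44)]

/-- the identity -/
noncomputable def z3 : Id3 := ⟨[z3r0, z3r1, z3r2], [z3t0, z3t1, z3t2]⟩

/-- the element -/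
noncomputable def z3L : List Tm := [
  ⟨0, 0, [.ofNat 0, .ofNat 0, .ofNat 0, .ofNat 0, .ofNat 9, .ofNat 0, .negSucc 5, .ofNat 0, .negSucc 1, .ofNat 0]⟩,
  ⟨1, 0, [.ofNat 0, .ofNat 0, .ofNat 0, .negSucc 5, .ofNat 0, .ofNat 3, .ofNat 0, .ofNat 0, .ofNat 4, .negSucc 2]⟩,
  ⟨3, 0, [.ofNat 0, .ofNat 0, .ofNat 0, .ofNat 0, .ofNat 0, .ofNat 0, .ofNat 6, .negSucc 5, .negSucc 3, .ofNat 0]⟩,
  ⟨4, 0, [.ofNat 0, .ofNat 0, .ofNat 0, .ofNat 0, .ofNat 9, .ofNat 0, .ofNat 3, .negSucc 8, .negSucc 3, .ofNat 0]⟩,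
  ⟨12, 0, [.ofNat 0, .ofNat 0, .ofNat 0, .ofNat 0, .ofNat 0, .ofNat 0, .ofNat 0, .ofNat 0, .ofNat 8, .negSucc 5]⟩,
  ⟨14, 0, [.ofNat 0, .ofNat 0, .ofNat 0, .ofNat 0, .ofNat 0, .ofNat 0, .ofNat 0, .ofNat 0, .ofNat 0, .negSucc 2]⟩,
  ⟨15, 0, [.ofNat 0, .ofNat 0, .ofNat 0, .ofNat 1, .negSucc 1, .ofNat 0, .ofNat 0, .ofNat 1, .ofNat 0, .ofNat 0]⟩]

theorem z3_pad : padS E.length x6a.cls x6a_l3 pool z3L = true := by decide +kernel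

theorem z3_A : z3.chkA ((E ++ Gc0).map El.isK) pool = true := by decide +kernel

theorem z3_B : z3.chkB pool [(6, z3L)] = true := by decide +kernel

theorem z3_C : z3.chkC 19 (E ++ Gc0).length 64 2 pool [(6, z3L)] = true := by decide +kernel

/-- **a trivial element** -/
theorem z3_zero {k : Type*} [Field k] [CharZero k] {F : Type*} [Field F] [Algebra k F] {x y : F}
    (hx : TN.Tr k x) (hC : Cc0.Eq x y) : zt (Gc0.map (El.v x y)) x6a.cls x6a_l3 ∈ TN.KC k F :=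
  poolOk.zero hx hC (by decide) z3_pad z3_A z3_B z3_C

end Pool.Agent.AXX6a
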