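import Pool.Agent.Lib_helper87.AX.Cu
import Pool.Agent.Lib_helper87.AX.X6a
import Pool.Agent.Lib_helper40.MC.X6a.Ix

/-!
# `t = 1 / 3`: the multiples and the kept classes
-/

set_option autoImplicit false
set_option linter.unusedSectionVars false
set_option linter.unusedVariables false
set_option maxRecDepth 100000

open scoped TensorProduct

namespace Pool.Agent.AXH

open Pool.Agent.KC72 Pool.Agent.AX Pool.Agent.MK4 Pool.Agent.MC Pool.Agent.MCX6a

/-- the explicit class -/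
noncomputable def xi6a : List Tm := [
  ⟨0, 0, [.ofNat 0, .ofNat 8, .negSucc 1, .negSucc 7, .ofNat 4, .ofNat 0, .ofNat 0]⟩,
  ⟨4, 0, [.ofNat 0, .ofNat 0, .ofNat 3, .ofNat 6, .negSucc 7, .ofNat 0, .ofNat 0]⟩,
  ⟨12, 0, [.negSucc 1, .ofNat 6, .negSucc 3, .ofNat 0, .ofNat 0, .ofNat 0, .ofNat 0]⟩,
  ⟨14, 0, [.negSucc 4, .ofNat 0, .ofNat 0, .ofNat 3, .negSucc 0, .ofNat 0, .negSucc 3]⟩,
  ⟨15, 0, [.ofNat 1, .negSucc 0, .ofNat 0, .ofNat 0, .ofNat 0, .ofNat 0, .ofNat 0]⟩]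

theorem pad6a : padS 0 kept xi6a x6a.cls x6a_l0 = true := by decide +kernel

theorem okT6a : okT 7 kept xi6a = true := by decide +kernel

theorem chkD6a : chkD 7 kept xi6a = true := by decide +kernel

variable {k : Type*} [Field k] [CharZero k] {F : Type*} [Field F] [Algebra k F] {t : k} {x y : F}

/-- **the multiples** -/
theorem hmul6a (hk : N6S.KdS 0 t) (h : N6.G6 t x y) : ∀ L' ∈ x6a_ll, ∃ β : ℚ,
    KC72.zt (N6S.glS 0 t x y) x6a.cls L' - β • KC72.zt (N6S.glS 0 t x y) kept xi6a ∈ Cst k F := by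
  have : CharZero F := charZero_of_injective_algebraMap (algebraMap k F).injective
  have hx : TN.Tr k x := h.tr
  have hC := Cc0_eq hk h
  have hg : ∀ z ∈ N6S.glS 0 t x y, z ≠ 0 := N6S.glS_ne 0 h
  have h0 := zt_same hg pad6a
  rw [Gc0_eq hk] at h0 ⊢
  intro L' hL'
  simp only [x6a_ll, List.mem_cons, List.not_mem_nil, or_false] at hL'
  rcases hL' with rfl | rfl | rfl | rfl
  · exact ⟨1, by rw [one_smul, h0, sub_self]; exact Submodule.zero_mem _⟩
  · exact ex_zero (AXX6a.z1_zero hx hC)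
  · exact ex_zero (AXX6a.z2_zero hx hC)
  · exact ex_zero (AXX6a.z3_zero hx hC)

end Pool.Agent.AXH
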