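import Pool.Agent.Lib_helper87.AX.Cd
import Pool.Agent.Lib_helper40.MC.X6b.Dat

/-!
# `t = -(1 / 3)`: the trivial closed elements
-/

set_option autoImplicit false
set_option linter.unusedVariables false
set_option maxRecDepth 100000

namespace Pool.Agent.AXX6b

open Pool.Agent.KC72 Pool.Agent.AX Pool.Agent.MK4 Pool.Agent.MCX6b

/-- the auxiliary functions -/
noncomputable def E : List El := [⟨[.ofNat 1, .ofNat 6], [.ofNat 9], 9⟩]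

/-- the classes -/
noncomputable def pool : List (Mo × Mo) := [
  ((true, [.ofNat 0, .ofNat 1, .ofNat 0, .ofNat 0, .ofNat 0, .ofNat 0, .negSucc 0, .ofNat 2]), (false, [.ofNat 0, .ofNat 0, .ofNat 1, .ofNat 0, .ofNat 0, .ofNat 0, .negSucc 0, .ofNat 2])),
  ((false, [.ofNat 0, .negSucc 1, .ofNat 0, .ofNat 0, .ofNat 1, .ofNat 0, .ofNat 0, .ofNat 0]), (false, [.ofNat 0, .negSucc 1, .negSucc 0, .ofNat 0, .ofNat 1, .ofNat 1, .ofNat 0, .ofNat 0])),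
  ((false, [.ofNat 0, .ofNat 1, .negSucc 0, .ofNat 0, .negSucc 0, .ofNat 1, .ofNat 0, .ofNat 0]), (true, [.ofNat 0, .ofNat 0, .negSucc 0, .negSucc 0, .negSucc 0, .ofNat 2, .ofNat 0, .negSucc 0])),
  ((false, [.ofNat 0, .ofNat 0, .ofNat 1, .negSucc 0, .ofNat 0, .ofNat 0, .negSucc 0, .ofNat 1]), (true, [.ofNat 0, .ofNat 1, .ofNat 0, .negSucc 0, .ofNat 0, .ofNat 0, .negSucc 0, .ofNat 0])),
  ((false, [.ofNat 0, .ofNat 0, .negSucc 0, .ofNat 1, .ofNat 1, .negSucc 0, .ofNat 0, .ofNat 0]), (false, [.ofNat 0, .ofNat 0, .ofNat 0, .ofNat 1, .ofNat 1, .negSucc 1, .ofNat 0, .negSucc 0])),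
  ((true, [.ofNat 0, .ofNat 0, .ofNat 1, .ofNat 0, .negSucc 0, .ofNat 0, .ofNat 0, .ofNat 0]), (false, [.ofNat 0, .ofNat 1, .ofNat 1, .ofNat 1, .negSucc 0, .negSucc 0, .ofNat 0, .ofNat 0])),
  ((true, [.ofNat 0, .ofNat 1, .ofNat 0, .ofNat 0, .ofNat 0, .ofNat 0, .ofNat 0, .ofNat 1]), (false, [.ofNat 0, .ofNat 0, .ofNat 0, .ofNat 1, .ofNat 0, .ofNat 0, .ofNat 0, .ofNat 1])),
  ((false, [.ofNat 0, .negSucc 1, .ofNat 0, .ofNat 0, .ofNat 1, .ofNat 0, .ofNat 1, .negSucc 0]), (false, [.ofNat 0, .negSucc 1, .ofNat 0, .negSucc 0, .ofNat 0, .ofNat 2, .ofNat 0, .ofNat 0])),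
  ((false, [.ofNat 0, .ofNat 1, .negSucc 0, .ofNat 0, .negSucc 0, .ofNat 1, .ofNat 1, .negSucc 0]), (false, [.ofNat 0, .ofNat 0, .negSucc 1, .negSucc 0, .ofNat 0, .ofNat 2, .ofNat 0, .negSucc 0])),
  ((false, [.ofNat 0, .ofNat 0, .ofNat 1, .negSucc 0, .ofNat 0, .ofNat 0, .ofNat 0, .ofNat 0]), (false, [.ofNat 0, .ofNat 0, .ofNat 0, .negSucc 0, .ofNat 0, .ofNat 0, .ofNat 0, .negSucc 1])),
  ((false, [.ofNat 0, .ofNat 0, .negSucc 0, .ofNat 1, .ofNat 1, .negSucc 0, .ofNat 1, .negSucc 0]), (false, [.ofNat 0, .ofNat 2, .ofNat 0, .ofNat 1, .ofNat 0, .negSucc 1, .ofNat 0, .negSucc 0])),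
  ((true, [.ofNat 0, .ofNat 0, .ofNat 1, .ofNat 0, .negSucc 0, .ofNat 0, .ofNat 1, .negSucc 0]), (false, [.ofNat 0, .ofNat 0, .ofNat 2, .ofNat 1, .ofNat 0, .negSucc 1, .ofNat 0, .ofNat 0])),
  ((true, [.ofNat 0, .negSucc 0, .ofNat 0, .ofNat 0, .ofNat 1, .ofNat 0, .ofNat 0, .ofNat 1]), (false, [.ofNat 0, .negSucc 0, .ofNat 0, .ofNat 0, .ofNat 0, .ofNat 1, .ofNat 0, .ofNat 1])),
  ((false, [.ofNat 0, .negSucc 0, .negSucc 0, .ofNat 0, .ofNat 0, .ofNat 1, .ofNat 1, .negSucc 0]), (false, [.ofNat 0, .negSucc 0, .negSucc 0, .negSucc 0, .ofNat 0, .ofNat 2, .ofNat 0, .ofNat 0])),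
  ((false, [.ofNat 0, .ofNat 1, .ofNat 0, .negSucc 0, .negSucc 0, .ofNat 1, .ofNat 0, .ofNat 0]), (true, [.ofNat 0, .ofNat 0, .negSucc 0, .negSucc 0, .ofNat 0, .ofNat 1, .ofNat 0, .negSucc 0])),
  ((true, [.ofNat 0, .ofNat 0, .ofNat 1, .negSucc 0, .negSucc 0, .ofNat 2, .negSucc 0, .ofNat 3]), (false, [.ofNat 0, .ofNat 0, .ofNat 2, .ofNat 1, .ofNat 1, .negSucc 1, .negSucc 0, .ofNat 3])),
  ((true, [.ofNat 0, .negSucc 2, .negSucc 1, .negSucc 0, .ofNat 2, .ofNat 2, .ofNat 0, .ofNat 0]), (false, [.ofNat 0, .negSucc 2, .negSucc 0, .ofNat 1, .ofNat 1, .ofNat 1, .ofNat 1, .ofNat 0])),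
  ((false, [.ofNat 1, .ofNat 0, .ofNat 0, .ofNat 0, .ofNat 0, .negSucc 0, .ofNat 1, .ofNat 0]), (true, [.ofNat 0, .ofNat 1, .ofNat 1, .ofNat 1, .ofNat 0, .negSucc 1, .ofNat 0, .ofNat 0])),
  ((true, [.ofNat 1, .ofNat 0, .ofNat 0, .negSucc 0, .ofNat 0, .ofNat 0, .ofNat 0, .ofNat 1]), (false, [.ofNat 0, .ofNat 1, .ofNat 1, .ofNat 0, .ofNat 0, .negSucc 0, .ofNat 0, .ofNat 1])),
  ((false, [.ofNat 1, .ofNat 0, .ofNat 0, .negSucc 0, .ofNat 0, .ofNat 0, .ofNat 0, .ofNat 1]), (true, [.ofNat 0, .ofNat 0, .ofNat 0, .negSucc 0, .ofNat 0, .ofNat 1, .ofNat 0, .ofNat 1])),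
  ((false, [.ofNat 1, .ofNat 1, .ofNat 1, .ofNat 0, .negSucc 0, .negSucc 0, .ofNat 0, .ofNat 1]), (true, [.ofNat 0, .ofNat 0, .ofNat 1, .ofNat 1, .negSucc 0, .ofNat 0, .ofNat 0, .ofNat 1])),
  ((false, [.negSucc 0, .ofNat 3, .ofNat 1, .ofNat 1, .negSucc 0, .negSucc 0, .ofNat 0, .ofNat 0]), (true, [.negSucc 0, .ofNat 0, .ofNat 0, .ofNat 2, .ofNat 0, .ofNat 0, .ofNat 0, .ofNat 0])),
  ((false, [.negSucc 0, .ofNat 3, .ofNat 1, .ofNat 1, .negSucc 0, .negSucc 0, .negSucc 0, .ofNat 0]), (true, [.negSucc 0, .ofNat 0, .negSucc 0, .ofNat 0, .ofNat 1, .ofNat 1, .negSucc 0, .ofNat 0])),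
  ((true, [.ofNat 1, .ofNat 0, .ofNat 1, .ofNat 0, .ofNat 0, .negSucc 0, .ofNat 0, .ofNat 2]), (false, [.ofNat 0, .ofNat 0, .ofNat 1, .ofNat 0, .negSucc 0, .ofNat 1, .ofNat 0, .ofNat 2])),
  ((true, [.ofNat 0, .ofNat 0, .ofNat 1, .ofNat 2, .ofNat 2, .negSucc 3, .ofNat 0, .ofNat 0]), (false, [.ofNat 1, .ofNat 0, .negSucc 0, .ofNat 1, .ofNat 1, .negSucc 1, .ofNat 1, .ofNat 0])),
  ((false, [.negSucc 0, .ofNat 0, .ofNat 4, .ofNat 2, .ofNat 2, .negSucc 3, .negSucc 1, .ofNat 3]), (true, [.negSucc 0, .ofNat 0, .ofNat 2, .negSucc 1, .negSucc 1, .ofNat 4, .negSucc 1, .ofNat 3])),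
  ((false, [.ofNat 1, .ofNat 0, .ofNat 0, .ofNat 0, .negSucc 0, .ofNat 0, .ofNat 1, .ofNat 0]), (true, [.ofNat 0, .ofNat 2, .ofNat 1, .ofNat 0, .negSucc 1, .ofNat 0, .ofNat 0, .ofNat 0])),
  ((false, [.ofNat 0, .negSucc 0, .ofNat 1, .ofNat 1, .ofNat 1, .negSucc 0, .ofNat 0, .ofNat 2]), (true, [.ofNat 1, .negSucc 0, .ofNat 0, .negSucc 0, .ofNat 0, .ofNat 1, .ofNat 0, .ofNat 2])),
  ((false, [.ofNat 0, .negSucc 1, .ofNat 0, .ofNat 1, .ofNat 1, .ofNat 0, .ofNat 0, .ofNat 1]), (true, [.ofNat 1, .negSucc 1, .negSucc 0, .negSucc 0, .ofNat 1, .ofNat 1, .ofNat 0, .ofNat 1])),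
  ((false, [.negSucc 0, .ofNat 0, .ofNat 0, .ofNat 2, .ofNat 0, .ofNat 0, .ofNat 0, .ofNat 0]), (true, [.negSucc 0, .ofNat 0, .negSucc 0, .ofNat 0, .ofNat 1, .ofNat 1, .ofNat 0, .ofNat 0])),
  ((false, [.negSucc 0, .ofNat 1, .ofNat 1, .ofNat 0, .negSucc 0, .ofNat 1, .negSucc 0, .ofNat 1]), (true, [.negSucc 0, .ofNat 0, .ofNat 1, .ofNat 1, .ofNat 1, .negSucc 0, .negSucc 0, .ofNat 1]))]

theorem poolOk : PoolOk Cc1 E Gc1 pool :=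
  ⟨by decide, by decide +kernel, by decide +kernel⟩

/-- relations -/
noncomputable def z1r0 : List (Rel × List ℤ) := [
  (⟨(1, 0), (5, 0), (26, 1), some (17, 4), some (22, 3)⟩, [.ofNat 4, .negSucc 5, .ofNat 0, .negSucc 1, .ofNat 0, .ofNat 0, .ofNat 4, .ofNat 0]),
  (⟨(1, 0), (5, 5), (14, 0), some (12, 3), some (6, 3)⟩, [.ofNat 0, .ofNat 6, .ofNat 0, .ofNat 18, .ofNat 0, .negSucc 11, .ofNat 4, .ofNat 0]),
  (⟨(1, 0), (6, 4), (28, 2), some (18, 4), some (21, 3)⟩, [.negSucc 3, .ofNat 0, .ofNat 0, .ofNat 8, .ofNat 0, .ofNat 0, .ofNat 0, .ofNat 0]),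
  (⟨(2, 0), (4, 0), (30, 3), some (17, 4), some (24, 2)⟩, [.ofNat 0, .ofNat 0, .negSucc 5, .ofNat 0, .ofNat 0, .ofNat 0, .ofNat 4, .negSucc 11]),
  (⟨(2, 0), (4, 5), (12, 0), some (14, 3), some (9, 3)⟩, [.ofNat 0, .ofNat 0, .ofNat 6, .ofNat 0, .ofNat 0, .ofNat 0, .negSucc 3, .ofNat 12]),
  (⟨(5, 0), (6, 4), (20, 4), some (19, 4), some (29, 5)⟩, [.ofNat 4, .ofNat 0, .ofNat 0, .negSucc 7, .ofNat 0, .ofNat 0, .ofNat 0, .ofNat 0]),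
  (⟨(12, 0), (14, 1), (27, 2), some (18, 4), some (28, 0)⟩, [.negSucc 3, .ofNat 0, .ofNat 0, .ofNat 8, .ofNat 0, .ofNat 0, .ofNat 0, .ofNat 0]),
  (⟨(12, 0), (14, 2), (19, 4), some (20, 1), some (23, 1)⟩, [.negSucc 3, .ofNat 0, .ofNat 0, .ofNat 8, .ofNat 0, .ofNat 0, .ofNat 0, .ofNat 0]),
  (⟨(12, 0), (14, 5), (26, 1), some (30, 5), some (17, 4)⟩, [.ofNat 8, .negSucc 5, .negSucc 5, .ofNat 2, .ofNat 0, .ofNat 0, .ofNat 8, .ofNat 0]),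
  (⟨(13, 0), (15, 4), (27, 2), some (23, 4), some (30, 3)⟩, [.ofNat 4, .ofNat 0, .ofNat 0, .negSucc 7, .ofNat 0, .ofNat 0, .ofNat 0, .ofNat 0]),
  (⟨(13, 0), (17, 5), (19, 0), some (18, 0), none⟩, [.negSucc 3, .ofNat 0, .ofNat 0, .negSucc 3, .ofNat 0, .ofNat 0, .ofNat 0, .negSucc 11]),
  (⟨(15, 0), (24, 1), (25, 4), some (24, 1), some (15, 0)⟩, [.ofNat 2, .ofNat 0, .negSucc 5, .ofNat 0, .ofNat 0, .ofNat 0, .ofNat 4, .negSucc 5])]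

/-- trivial elements -/
noncomputable def z1t0 : List (ℕ × ℤ × ℤ) := [
  (1, .negSucc 11, .ofNat 12),
  (4, .negSucc 23, .ofNat 24),
  (5, .ofNat 12, .negSucc 11),
  (6, .negSucc 5, .negSucc 17),
  (9, .negSucc 5, .ofNat 6),
  (12, .ofNat 0, .negSucc 11),
  (14, .ofNat 0, .negSucc 11),
  (15, .ofNat 4, .ofNat 4),
  (18, .negSucc 11, .ofNat 0),
  (19, .ofNat 12, .ofNat 0),
  (21, .ofNat 0, .negSucc 3),
  (22, .ofNat 2, .ofNat 2),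
  (24, .ofNat 2, .negSucc 3),
  (25, .ofNat 1, .ofNat 1),
  (26, .ofNat 12, .negSucc 5),
  (29, .negSucc 3, .ofNat 0),
  (30, .ofNat 6, .ofNat 6)]

/-- the identity -/
noncomputable def z1 : Id3 := ⟨[z1r0], [z1t0]⟩

/-- the element -/
noncomputable def z1L : List Tm := [
  ⟨1, 0, [.ofNat 0, .ofNat 0, .ofNat 3, .negSucc 5, .ofNat 0, .ofNat 0, .negSucc 1, .ofNat 0]⟩,
  ⟨4, 0, [.ofNat 0, .ofNat 0, .negSucc 8, .ofNat 0, .ofNat 0, .ofNat 6, .ofNat 2, .ofNat 0]⟩,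
  ⟨6, 0, [.ofNat 0, .ofNat 0, .ofNat 0, .ofNat 0, .ofNat 0, .ofNat 3, .negSucc 0, .ofNat 6]⟩,
  ⟨9, 0, [.ofNat 0, .ofNat 0, .ofNat 0, .ofNat 0, .ofNat 0, .ofNat 0, .ofNat 1, .ofNat 0]⟩,
  ⟨13, 0, [.ofNat 0, .ofNat 0, .ofNat 0, .ofNat 3, .ofNat 0, .ofNat 0, .ofNat 0, .ofNat 3]⟩,
  ⟨14, 0, [.ofNat 0, .ofNat 0, .ofNat 0, .negSucc 11, .ofNat 0, .ofNat 6, .negSucc 3, .ofNat 0]⟩,
  ⟨15, 0, [.ofNat 0, .ofNat 0, .ofNat 0, .negSucc 1, .ofNat 0, .ofNat 0, .ofNat 0, .negSucc 2]⟩]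

theorem z1_pad : padS E.length x6b.cls x6b_l1 pool z1L = true := by decide +kernel

theorem z1_A : z1.chkA ((E ++ Gc1).map El.isK) pool = true := by decide +kernel

theorem z1_B : z1.chkB pool [(4, z1L)] = true := by decide +kernel

theorem z1_C : z1.chkC 12 (E ++ Gc1).length 64 1 pool [(4, z1L)] = true := by decide +kernel

/-- **a trivial element** -/
theorem z1_zero {k : Type*} [Field k] [CharZero k] {F : Type*} [Field F] [Algebra k F] {x y : F}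
    (hx : TN.Tr k x) (hC : Cc1.Eq x y) : zt (Gc1.map (El.v x y)) x6b.cls x6b_l1 ∈ TN.KC k F :=
  poolOk.zero hx hC (by decide) z1_pad z1_A z1_B z1_C

end Pool.Agent.AXX6b
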