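import Pool.Agent.Lib_helper87.AX.Cd
import Pool.Agent.Lib_helper40.MC.X6b.Dat
import Pool.Agent.Lib_helper60.N6S.K

/-!
# `t = -(1 / 3)`: relations between the symbols
-/

set_option autoImplicit false
set_option linter.unusedVariables false
set_option maxRecDepth 100000

namespace Pool.Agent.AXX6bW

open Pool.Agent.KC72 Pool.Agent.AX Pool.Agent.MK4 Pool.Agent.MCX6b

/-- the auxiliary functions -/
noncomputable def E : List El := [⟨[.ofNat 1, .ofNat 6], [.ofNat 9], 9⟩]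

/-- the classes -/
noncomputable def pool : List (Mo × Mo) := [
  ((true, [.ofNat 0, .ofNat 1, .ofNat 0, .ofNat 0, .ofNat 0, .ofNat 0, .negSucc 0, .ofNat 2]), (false, [.ofNat 0, .ofNat 0, .ofNat 1, .ofNat 0, .ofNat 0, .ofNat 0, .negSucc 0, .ofNat 2])),
  ((false, [.ofNat 0, .negSucc 1, .ofNat 0, .ofNat 0, .ofNat 1, .ofNat 0, .ofNat 0, .ofNat 0]), (false, [.ofNat 0, .negSucc 1, .negSucc 0, .ofNat 0, .ofNat 1, .ofNat 1, .ofNat 0, .ofNat 0])),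
  ((false, [.ofNat 0, .ofNat 1, .negSucc 0, .ofNat 0, .negSucc 0, .ofNat 1, .ofNat 0, .ofNat 0]), (true, [.ofNat 0, .ofNat 0, .negSucc 0, .negSucc 0, .negSucc 0, .ofNat 2, .ofNat 0, .negSucc 0])),
  ((false, [.ofNat 0, .ofNat 0, .ofNat 1, .negSucc 0, .ofNat 0, .ofNat 0, .negSucc 0, .ofNat 1]), (true, [.ofNat 0, .ofNat 1, .ofNat 0, .negSucc 0, .ofNat 0, .ofNat 0, .negSucc 0, .ofNat 0])),
  ((false, [.ofNat 0, .ofNat 0, .negSucc 0, .ofNat 1, .ofNat 1, .negSucc 0, .ofNat 0, .ofNat 0]), (false, [.ofNat 0, .ofNat 0, .ofNat 0, .ofNat 1, .ofNat 1, .negSucc 1, .ofNat 0, .negSucc 0])),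
  ((true, [.ofNat 0, .ofNat 0, .ofNat 1, .ofNat 0, .negSucc 0, .ofNat 0, .ofNat 0, .ofNat 0]), (false, [.ofNat 0, .ofNat 1, .ofNat 1, .ofNat 1, .negSucc 0, .negSucc 0, .ofNat 0, .ofNat 0])),
  ((true, [.ofNat 0, .ofNat 1, .ofNat 0, .ofNat 0, .ofNat 0, .ofNat 0, .ofNat 0, .ofNat 1]), (false, [.ofNat 0, .ofNat 0, .ofNat 0, .ofNat 1, .ofNat 0, .ofNat 0, .ofNat 0, .ofNat 1])),
  ((false, [.ofNat 0, .negSucc 1, .ofNat 0, .ofNat 0, .ofNat 1, .ofNat 0, .ofNat 1, .negSucc 0]), (false, [.ofNat 0, .negSucc 1, .ofNat 0, .negSucc 0, .ofNat 0, .ofNat 2, .ofNat 0, .ofNat 0])),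
  ((false, [.ofNat 0, .ofNat 1, .negSucc 0, .ofNat 0, .negSucc 0, .ofNat 1, .ofNat 1, .negSucc 0]), (false, [.ofNat 0, .ofNat 0, .negSucc 1, .negSucc 0, .ofNat 0, .ofNat 2, .ofNat 0, .negSucc 0])),
  ((false, [.ofNat 0, .ofNat 0, .ofNat 1, .negSucc 0, .ofNat 0, .ofNat 0, .ofNat 0, .ofNat 0]), (false, [.ofNat 0, .ofNat 0, .ofNat 0, .negSucc 0, .ofNat 0, .ofNat 0, .ofNat 0, .negSucc 1])),
  ((false, [.ofNat 0, .ofNat 0, .negSucc 0, .ofNat 1, .ofNat 1, .negSucc 0, .ofNat 1, .negSucc 0]), (false, [.ofNat 0, .ofNat 2, .ofNat 0, .ofNat 1, .ofNat 0, .negSucc 1, .ofNat 0, .negSucc 0])),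
  ((true, [.ofNat 0, .ofNat 0, .ofNat 1, .ofNat 0, .negSucc 0, .ofNat 0, .ofNat 1, .negSucc 0]), (false, [.ofNat 0, .ofNat 0, .ofNat 2, .ofNat 1, .ofNat 0, .negSucc 1, .ofNat 0, .ofNat 0])),
  ((true, [.ofNat 0, .negSucc 0, .ofNat 0, .ofNat 0, .ofNat 1, .ofNat 0, .ofNat 0, .ofNat 1]), (false, [.ofNat 0, .negSucc 0, .ofNat 0, .ofNat 0, .ofNat 0, .ofNat 1, .ofNat 0, .ofNat 1])),
  ((false, [.ofNat 0, .negSucc 0, .negSucc 0, .ofNat 0, .ofNat 0, .ofNat 1, .ofNat 1, .negSucc 0]), (false, [.ofNat 0, .negSucc 0, .negSucc 0, .negSucc 0, .ofNat 0, .ofNat 2, .ofNat 0, .ofNat 0])),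
  ((false, [.ofNat 0, .ofNat 1, .ofNat 0, .negSucc 0, .negSucc 0, .ofNat 1, .ofNat 0, .ofNat 0]), (true, [.ofNat 0, .ofNat 0, .negSucc 0, .negSucc 0, .ofNat 0, .ofNat 1, .ofNat 0, .negSucc 0])),
  ((true, [.ofNat 0, .ofNat 0, .ofNat 1, .negSucc 0, .negSucc 0, .ofNat 2, .negSucc 0, .ofNat 3]), (false, [.ofNat 0, .ofNat 0, .ofNat 2, .ofNat 1, .ofNat 1, .negSucc 1, .negSucc 0, .ofNat 3])),
  ((true, [.ofNat 0, .negSucc 2, .negSucc 1, .negSucc 0, .ofNat 2, .ofNat 2, .ofNat 0, .ofNat 0]), (false, [.ofNat 0, .negSucc 2, .negSucc 0, .ofNat 1, .ofNat 1, .ofNat 1, .ofNat 1, .ofNat 0])),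
  ((false, [.ofNat 1, .negSucc 0, .negSucc 0, .negSucc 0, .ofNat 0, .ofNat 1, .ofNat 0, .ofNat 0]), (false, [.ofNat 0, .negSucc 0, .negSucc 0, .ofNat 0, .ofNat 0, .ofNat 1, .ofNat 0, .negSucc 0])),
  ((false, [.ofNat 1, .negSucc 0, .negSucc 0, .negSucc 0, .ofNat 0, .ofNat 1, .ofNat 1, .ofNat 0]), (true, [.ofNat 0, .negSucc 0, .negSucc 0, .negSucc 0, .ofNat 0, .ofNat 2, .ofNat 0, .ofNat 0])),
  ((false, [.ofNat 1, .ofNat 0, .ofNat 0, .ofNat 0, .ofNat 0, .negSucc 0, .ofNat 0, .ofNat 0]), (true, [.ofNat 0, .ofNat 0, .ofNat 0, .ofNat 1, .ofNat 0, .negSucc 0, .ofNat 0, .negSucc 0])),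
  ((false, [.negSucc 0, .ofNat 0, .ofNat 1, .ofNat 2, .ofNat 0, .negSucc 0, .ofNat 0, .ofNat 0]), (true, [.negSucc 0, .ofNat 2, .ofNat 1, .ofNat 1, .negSucc 0, .negSucc 0, .ofNat 0, .negSucc 0])),
  ((false, [.negSucc 0, .ofNat 0, .ofNat 1, .ofNat 2, .ofNat 1, .negSucc 1, .ofNat 0, .ofNat 0]), (true, [.negSucc 0, .ofNat 1, .ofNat 0, .ofNat 1, .ofNat 0, .negSucc 0, .ofNat 0, .negSucc 1])),
  ((false, [.ofNat 0, .ofNat 1, .ofNat 0, .negSucc 0, .negSucc 1, .ofNat 2, .ofNat 0, .ofNat 0]), (true, [.ofNat 1, .ofNat 0, .negSucc 0, .negSucc 0, .negSucc 0, .ofNat 1, .ofNat 1, .negSucc 0])),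
  ((false, [.ofNat 1, .negSucc 1, .negSucc 0, .ofNat 0, .ofNat 1, .ofNat 0, .ofNat 1, .ofNat 0]), (true, [.ofNat 0, .negSucc 1, .negSucc 0, .ofNat 0, .ofNat 2, .ofNat 0, .ofNat 0, .ofNat 0])),
  ((false, [.ofNat 1, .ofNat 0, .ofNat 0, .ofNat 0, .ofNat 1, .negSucc 1, .ofNat 0, .ofNat 0]), (false, [.ofNat 0, .ofNat 0, .negSucc 0, .ofNat 0, .ofNat 1, .negSucc 0, .ofNat 0, .negSucc 1])),
  ((false, [.ofNat 1, .ofNat 1, .ofNat 0, .negSucc 0, .ofNat 0, .negSucc 0, .ofNat 0, .ofNat 0]), (true, [.ofNat 0, .ofNat 0, .negSucc 0, .negSucc 0, .ofNat 1, .ofNat 0, .ofNat 0, .negSucc 0]))]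

theorem poolOk : PoolOk Cc1 E Gc1 pool :=
  ⟨by decide, by decide +kernel, by decide +kernel⟩

theorem tab : chkT E.length N6S.clsS1 pool = true := by decide +kernel

/-- the relations for the class `16` -/
noncomputable def r16 : List (Rel × ℤ) := [
  (⟨(12, 0), (14, 1), (21, 3), some (17, 1), some (20, 5)⟩, .negSucc 0),
  (⟨(12, 0), (14, 2), (19, 1), some (25, 4), some (24, 4)⟩, .negSucc 0),
  (⟨(12, 0), (14, 5), (23, 4), some (22, 0), some (18, 1)⟩, .negSucc 0),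
  (⟨(13, 0), (15, 4), (21, 3), some (24, 1), some (22, 2)⟩, .ofNat 1),
  (⟨(13, 0), (16, 1), (20, 5), some (25, 4), some (23, 4)⟩, .ofNat 1),
  (⟨(13, 0), (18, 0), (19, 5), some (17, 5), none⟩, .ofNat 1)]

/-- the coefficients for the class `16` -/
noncomputable def q16 : List ℤ := [.ofNat 0, .ofNat 0, .ofNat 0, .ofNat 0, .ofNat 0, .ofNat 0, .ofNat 0, .ofNat 0, .ofNat 0, .ofNat 0, .ofNat 0, .ofNat 0, .ofNat 3, .negSucc 2, .ofNat 3, .ofNat 1, .negSucc 0]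

theorem c16 : chk2 7 ((E ++ Gc1).map El.isK) pool r16 q16 = true := by decide +kernel

/-- **the relation between the symbols for the class `16`** -/
theorem s16 {k : Type*} [Field k] [CharZero k] {F : Type*} [Field F] [Algebra k F] {x y : F}
    (hx : TN.Tr k x) (hC : Cc1.Eq x y) : ssum (Gc1.map (El.v x y)) N6S.clsS1 q16 ∈ SC k F :=
  poolOk.rel2 hx hC tab (by decide +kernel) c16

/-- relations -/
noncomputable def w16x0r0 : List (Rel × List ℤ) := [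
  (⟨(12, 0), (14, 1), (21, 3), some (17, 1), some (20, 5)⟩, [.ofNat 0, .ofNat 3, .ofNat 2, .ofNat 1, .negSucc 1, .negSucc 1, .ofNat 0, .ofNat 0]),
  (⟨(12, 0), (14, 2), (19, 1), some (25, 4), some (24, 4)⟩, [.ofNat 0, .ofNat 3, .ofNat 2, .ofNat 1, .negSucc 1, .negSucc 1, .ofNat 0, .ofNat 0]),
  (⟨(12, 0), (14, 5), (23, 4), some (22, 0), some (18, 1)⟩, [.ofNat 0, .ofNat 3, .ofNat 2, .ofNat 1, .negSucc 1, .negSucc 1, .ofNat 0, .ofNat 0]),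
  (⟨(13, 0), (15, 4), (21, 3), some (24, 1), some (22, 2)⟩, [.ofNat 0, .negSucc 2, .negSucc 1, .negSucc 0, .ofNat 2, .ofNat 2, .ofNat 0, .ofNat 0]),
  (⟨(13, 0), (16, 1), (20, 5), some (25, 4), some (23, 4)⟩, [.ofNat 0, .negSucc 2, .negSucc 1, .negSucc 0, .ofNat 2, .ofNat 2, .ofNat 0, .ofNat 0]),
  (⟨(13, 0), (18, 0), (19, 5), some (17, 5), none⟩, [.ofNat 0, .negSucc 2, .negSucc 1, .negSucc 0, .ofNat 2, .ofNat 2, .ofNat 0, .ofNat 0])]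

/-- trivial elements -/
noncomputable def w16x0t0 : List (ℕ × ℤ × ℤ) := [
  (16, .negSucc 0, .ofNat 0)]

/-- the identity -/
noncomputable def w16x0 : Id3 := ⟨[w16x0r0], [w16x0t0]⟩

/-- the element -/
noncomputable def w16x0L : List Tm := [
  ⟨12, 0, [.ofNat 0, .negSucc 8, .negSucc 5, .negSucc 2, .ofNat 6, .ofNat 6, .ofNat 0, .ofNat 0]⟩,
  ⟨13, 0, [.ofNat 0, .ofNat 9, .ofNat 6, .ofNat 3, .negSucc 5, .negSucc 5, .ofNat 0, .ofNat 0]⟩,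
  ⟨14, 0, [.ofNat 0, .negSucc 8, .negSucc 5, .negSucc 2, .ofNat 6, .ofNat 6, .ofNat 0, .ofNat 0]⟩,
  ⟨15, 0, [.ofNat 0, .negSucc 2, .negSucc 1, .negSucc 0, .ofNat 2, .ofNat 2, .ofNat 0, .ofNat 0]⟩]

theorem w16x0_pad : padS E.length x6b.cls x6b_l2 pool w16x0L = true := by decide +kernel

theorem w16x0_A : w16x0.chkA ((E ++ Gc1).map El.isK) pool = true := by decide +kernel

theorem w16x0_B : w16x0.chkB pool [(1, w16x0L)] = true := by decide +kernel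

theorem w16x0_C : w16x0.chkC 10 (E ++ Gc1).length 64 1 pool [(1, w16x0L)] = true := by decide +kernel

/-- **a trivial element** -/
theorem w16x0_zero {k : Type*} [Field k] [CharZero k] {F : Type*} [Field F] [Algebra k F] {x y : F}
    (hx : TN.Tr k x) (hC : Cc1.Eq x y) : zt (Gc1.map (El.v x y)) x6b.cls x6b_l2 ∈ TN.KC k F :=
  poolOk.zero hx hC (by decide) w16x0_pad w16x0_A w16x0_B w16x0_C

/-- relations -/
noncomputable def w16x1r0 : List (Rel × List ℤ) := [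
  (⟨(12, 0), (14, 1), (21, 3), some (17, 1), some (20, 5)⟩, [.ofNat 0, .ofNat 3, .ofNat 1, .negSucc 0, .negSucc 0, .negSucc 0, .negSucc 0, .ofNat 0]),
  (⟨(12, 0), (14, 2), (19, 1), some (25, 4), some (24, 4)⟩, [.ofNat 0, .ofNat 3, .ofNat 1, .negSucc 0, .negSucc 0, .negSucc 0, .negSucc 0, .ofNat 0]),
  (⟨(12, 0), (14, 5), (23, 4), some (22, 0), some (18, 1)⟩, [.ofNat 0, .ofNat 3, .ofNat 1, .negSucc 0, .negSucc 0, .negSucc 0, .negSucc 0, .ofNat 0]),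
  (⟨(13, 0), (15, 4), (21, 3), some (24, 1), some (22, 2)⟩, [.ofNat 0, .negSucc 2, .negSucc 0, .ofNat 1, .ofNat 1, .ofNat 1, .ofNat 1, .ofNat 0]),
  (⟨(13, 0), (16, 1), (20, 5), some (25, 4), some (23, 4)⟩, [.ofNat 0, .negSucc 2, .negSucc 0, .ofNat 1, .ofNat 1, .ofNat 1, .ofNat 1, .ofNat 0]),
  (⟨(13, 0), (18, 0), (19, 5), some (17, 5), none⟩, [.ofNat 0, .negSucc 2, .negSucc 0, .ofNat 1, .ofNat 1, .ofNat 1, .ofNat 1, .ofNat 0])]

/-- trivial elements -/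
noncomputable def w16x1t0 : List (ℕ × ℤ × ℤ) := [
  (16, .ofNat 0, .negSucc 0)]

/-- the identity -/
noncomputable def w16x1 : Id3 := ⟨[w16x1r0], [w16x1t0]⟩

/-- the element -/
noncomputable def w16x1L : List Tm := [
  ⟨12, 0, [.ofNat 0, .negSucc 8, .negSucc 2, .ofNat 3, .ofNat 3, .ofNat 3, .ofNat 3, .ofNat 0]⟩,
  ⟨13, 0, [.ofNat 0, .ofNat 9, .ofNat 3, .negSucc 2, .negSucc 2, .negSucc 2, .negSucc 2, .ofNat 0]⟩,
  ⟨14, 0, [.ofNat 0, .negSucc 8, .negSucc 2, .ofNat 3, .ofNat 3, .ofNat 3, .ofNat 3, .ofNat 0]⟩,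
  ⟨15, 0, [.ofNat 0, .negSucc 2, .negSucc 0, .ofNat 1, .ofNat 1, .ofNat 1, .ofNat 1, .ofNat 0]⟩]

theorem w16x1_pad : padS E.length x6b.cls x6b_l3 pool w16x1L = true := by decide +kernel

theorem w16x1_A : w16x1.chkA ((E ++ Gc1).map El.isK) pool = true := by decide +kernel

theorem w16x1_B : w16x1.chkB pool [(1, w16x1L)] = true := by decide +kernel

theorem w16x1_C : w16x1.chkC 10 (E ++ Gc1).length 64 1 pool [(1, w16x1L)] = true := by decide +kernel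

/-- **a trivial element** -/
theorem w16x1_zero {k : Type*} [Field k] [CharZero k] {F : Type*} [Field F] [Algebra k F] {x y : F}
    (hx : TN.Tr k x) (hC : Cc1.Eq x y) : zt (Gc1.map (El.v x y)) x6b.cls x6b_l3 ∈ TN.KC k F :=
  poolOk.zero hx hC (by decide) w16x1_pad w16x1_A w16x1_B w16x1_C

end Pool.Agent.AXX6bW
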