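import Pool.Agent.Lib_helper87.AX.Cd
import Pool.Agent.Lib_helper40.MC.X6c.Dat

/-!
# `t = -(1 / 5)`: the trivial closed elements
-/

set_option autoImplicit false
set_option linter.unusedVariables false
set_option maxRecDepth 100000

namespace Pool.Agent.AXX6c

open Pool.Agent.KC72 Pool.Agent.AX Pool.Agent.MK4 Pool.Agent.MCX6c

/-- the auxiliary functions -/
noncomputable def E : List El := [⟨[.ofNat 0, .ofNat 2], [.ofNat 5], 5⟩, ⟨[.ofNat 2, .ofNat 15], [.ofNat 25], 25⟩, ⟨[.ofNat 8, .ofNat 50], [.ofNat 25], 25⟩, ⟨[.ofNat 24, .ofNat 150], [.ofNat 125], 125⟩, ⟨[.ofNat 3], [], 1⟩]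

/-- the classes -/
noncomputable def pool : List (Mo × Mo) := [
  ((true, [.ofNat 0, .ofNat 0, .ofNat 0, .ofNat 0, .ofNat 0, .ofNat 1, .ofNat 0, .ofNat 0, .ofNat 0, .ofNat 0, .negSucc 1, .ofNat 2]), (false, [.ofNat 0, .ofNat 0, .ofNat 0, .ofNat 0, .ofNat 0, .ofNat 0, .ofNat 1, .ofNat 0, .ofNat 0, .ofNat 0, .negSucc 1, .ofNat 2])),
  ((false, [.ofNat 0, .ofNat 0, .ofNat 0, .ofNat 0, .ofNat 0, .negSucc 1, .ofNat 0, .ofNat 0, .ofNat 1, .ofNat 0, .ofNat 0, .ofNat 0]), (false, [.ofNat 0, .ofNat 0, .ofNat 0, .ofNat 0, .ofNat 0, .negSucc 1, .negSucc 0, .ofNat 0, .ofNat 1, .ofNat 1, .ofNat 0, .ofNat 0])),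
  ((false, [.ofNat 0, .ofNat 0, .ofNat 0, .ofNat 0, .ofNat 0, .ofNat 1, .negSucc 0, .ofNat 0, .negSucc 0, .ofNat 1, .ofNat 0, .ofNat 0]), (true, [.ofNat 0, .ofNat 0, .ofNat 0, .ofNat 0, .ofNat 0, .ofNat 0, .negSucc 0, .negSucc 0, .negSucc 0, .ofNat 2, .ofNat 0, .negSucc 0])),
  ((false, [.ofNat 0, .ofNat 0, .ofNat 0, .ofNat 0, .ofNat 0, .ofNat 0, .ofNat 1, .negSucc 0, .ofNat 0, .ofNat 0, .negSucc 1, .ofNat 1]), (true, [.ofNat 0, .ofNat 0, .ofNat 0, .ofNat 0, .ofNat 0, .ofNat 1, .ofNat 0, .negSucc 0, .ofNat 0, .ofNat 0, .negSucc 1, .ofNat 0])),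
  ((false, [.ofNat 0, .ofNat 0, .ofNat 0, .ofNat 0, .ofNat 0, .ofNat 0, .negSucc 0, .ofNat 1, .ofNat 1, .negSucc 0, .ofNat 0, .ofNat 0]), (false, [.ofNat 0, .ofNat 0, .ofNat 0, .ofNat 0, .ofNat 0, .ofNat 0, .ofNat 0, .ofNat 1, .ofNat 1, .negSucc 1, .ofNat 0, .negSucc 0])),
  ((true, [.ofNat 0, .ofNat 0, .ofNat 0, .ofNat 0, .ofNat 0, .ofNat 0, .ofNat 1, .ofNat 0, .negSucc 0, .ofNat 0, .ofNat 0, .ofNat 0]), (false, [.ofNat 0, .ofNat 0, .ofNat 0, .ofNat 0, .ofNat 0, .ofNat 1, .ofNat 1, .ofNat 1, .negSucc 0, .negSucc 0, .ofNat 0, .ofNat 0])),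
  ((true, [.ofNat 0, .ofNat 0, .ofNat 0, .ofNat 0, .ofNat 0, .ofNat 1, .ofNat 0, .ofNat 0, .ofNat 0, .ofNat 0, .ofNat 0, .ofNat 1]), (false, [.ofNat 0, .ofNat 0, .ofNat 0, .ofNat 0, .ofNat 0, .ofNat 0, .ofNat 0, .ofNat 1, .ofNat 0, .ofNat 0, .ofNat 0, .ofNat 1])),
  ((false, [.ofNat 0, .ofNat 0, .ofNat 0, .ofNat 0, .ofNat 0, .negSucc 1, .ofNat 0, .ofNat 0, .ofNat 1, .ofNat 0, .ofNat 2, .negSucc 0]), (false, [.ofNat 0, .ofNat 0, .ofNat 0, .ofNat 0, .ofNat 0, .negSucc 1, .ofNat 0, .negSucc 0, .ofNat 0, .ofNat 2, .ofNat 0, .ofNat 0])),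
  ((false, [.ofNat 0, .ofNat 0, .ofNat 0, .ofNat 0, .ofNat 0, .ofNat 1, .negSucc 0, .ofNat 0, .negSucc 0, .ofNat 1, .ofNat 2, .negSucc 0]), (false, [.ofNat 0, .ofNat 0, .ofNat 0, .ofNat 0, .ofNat 0, .ofNat 0, .negSucc 1, .negSucc 0, .ofNat 0, .ofNat 2, .ofNat 0, .negSucc 0])),
  ((false, [.ofNat 0, .ofNat 0, .ofNat 0, .ofNat 0, .ofNat 0, .ofNat 0, .ofNat 1, .negSucc 0, .ofNat 0, .ofNat 0, .ofNat 0, .ofNat 0]), (false, [.ofNat 0, .ofNat 0, .ofNat 0, .ofNat 0, .ofNat 0, .ofNat 0, .ofNat 0, .negSucc 0, .ofNat 0, .ofNat 0, .ofNat 0, .negSucc 1])),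
  ((false, [.ofNat 0, .ofNat 0, .ofNat 0, .ofNat 0, .ofNat 0, .ofNat 0, .negSucc 0, .ofNat 1, .ofNat 1, .negSucc 0, .ofNat 2, .negSucc 0]), (false, [.ofNat 0, .ofNat 0, .ofNat 0, .ofNat 0, .ofNat 0, .ofNat 2, .ofNat 0, .ofNat 1, .ofNat 0, .negSucc 1, .ofNat 0, .negSucc 0])),
  ((true, [.ofNat 0, .ofNat 0, .ofNat 0, .ofNat 0, .ofNat 0, .ofNat 0, .ofNat 1, .ofNat 0, .negSucc 0, .ofNat 0, .ofNat 2, .negSucc 0]), (false, [.ofNat 0, .ofNat 0, .ofNat 0, .ofNat 0, .ofNat 0, .ofNat 0, .ofNat 2, .ofNat 1, .ofNat 0, .negSucc 1, .ofNat 0, .ofNat 0])),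
  ((true, [.ofNat 0, .ofNat 0, .ofNat 0, .ofNat 0, .ofNat 0, .negSucc 0, .ofNat 0, .ofNat 0, .ofNat 1, .ofNat 0, .ofNat 0, .ofNat 1]), (false, [.ofNat 0, .ofNat 0, .ofNat 0, .ofNat 0, .ofNat 0, .negSucc 0, .ofNat 0, .ofNat 0, .ofNat 0, .ofNat 1, .ofNat 0, .ofNat 1])),
  ((false, [.ofNat 0, .ofNat 0, .ofNat 0, .ofNat 0, .ofNat 0, .negSucc 0, .negSucc 0, .ofNat 0, .ofNat 0, .ofNat 1, .ofNat 2, .negSucc 0]), (false, [.ofNat 0, .ofNat 0, .ofNat 0, .ofNat 0, .ofNat 0, .negSucc 0, .negSucc 0, .negSucc 0, .ofNat 0, .ofNat 2, .ofNat 0, .ofNat 0])),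
  ((false, [.ofNat 0, .ofNat 0, .ofNat 0, .ofNat 0, .ofNat 0, .ofNat 1, .ofNat 0, .negSucc 0, .negSucc 0, .ofNat 1, .ofNat 0, .ofNat 0]), (true, [.ofNat 0, .ofNat 0, .ofNat 0, .ofNat 0, .ofNat 0, .ofNat 0, .negSucc 0, .negSucc 0, .ofNat 0, .ofNat 1, .ofNat 0, .negSucc 0])),
  ((false, [.ofNat 0, .ofNat 0, .ofNat 0, .ofNat 0, .ofNat 0, .ofNat 5, .ofNat 2, .negSucc 1, .negSucc 1, .negSucc 0, .negSucc 3, .ofNat 1]), (true, [.ofNat 0, .ofNat 0, .ofNat 0, .ofNat 0, .ofNat 0, .ofNat 0, .negSucc 0, .negSucc 2, .ofNat 2, .ofNat 1, .negSucc 3, .ofNat 1])),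
  ((false, [.ofNat 0, .ofNat 0, .ofNat 0, .ofNat 0, .ofNat 0, .ofNat 1, .ofNat 2, .negSucc 1, .negSucc 1, .ofNat 3, .negSucc 3, .ofNat 5]), (true, [.ofNat 0, .ofNat 0, .ofNat 0, .ofNat 0, .ofNat 0, .ofNat 0, .ofNat 3, .ofNat 1, .ofNat 2, .negSucc 2, .negSucc 3, .ofNat 5])),
  ((false, [.ofNat 0, .ofNat 0, .ofNat 0, .ofNat 1, .ofNat 0, .negSucc 0, .negSucc 0, .negSucc 0, .ofNat 0, .ofNat 1, .negSucc 0, .ofNat 0]), (false, [.ofNat 0, .ofNat 0, .ofNat 0, .ofNat 0, .ofNat 0, .negSucc 0, .ofNat 1, .ofNat 0, .ofNat 1, .negSucc 0, .negSucc 0, .ofNat 0])),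
  ((false, [.ofNat 0, .ofNat 0, .ofNat 0, .ofNat 1, .ofNat 0, .ofNat 0, .negSucc 0, .ofNat 0, .ofNat 0, .ofNat 0, .negSucc 0, .ofNat 1]), (true, [.ofNat 0, .ofNat 0, .ofNat 0, .ofNat 0, .ofNat 0, .ofNat 0, .ofNat 1, .ofNat 1, .ofNat 1, .negSucc 1, .negSucc 0, .ofNat 1])),
  ((false, [.ofNat 0, .ofNat 0, .ofNat 0, .ofNat 1, .ofNat 0, .ofNat 0, .negSucc 0, .ofNat 0, .ofNat 0, .ofNat 0, .ofNat 0, .ofNat 1]), (true, [.ofNat 0, .ofNat 0, .ofNat 0, .ofNat 0, .ofNat 0, .ofNat 1, .ofNat 0, .ofNat 1, .ofNat 0, .negSucc 0, .ofNat 0, .ofNat 1])),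
  ((true, [.ofNat 0, .ofNat 0, .ofNat 1, .ofNat 0, .ofNat 0, .ofNat 0, .ofNat 0, .ofNat 0, .negSucc 0, .ofNat 0, .ofNat 0, .ofNat 0]), (false, [.ofNat 0, .ofNat 0, .ofNat 0, .ofNat 0, .ofNat 0, .ofNat 1, .ofNat 1, .ofNat 1, .negSucc 0, .negSucc 0, .ofNat 1, .ofNat 0])),
  ((false, [.ofNat 0, .ofNat 0, .ofNat 1, .ofNat 0, .ofNat 0, .ofNat 0, .negSucc 0, .ofNat 0, .ofNat 0, .ofNat 0, .negSucc 0, .ofNat 0]), (true, [.ofNat 0, .ofNat 0, .ofNat 0, .ofNat 0, .ofNat 0, .ofNat 0, .negSucc 0, .ofNat 0, .ofNat 1, .ofNat 0, .negSucc 0, .ofNat 0])),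
  ((false, [.ofNat 0, .ofNat 1, .ofNat 0, .ofNat 0, .ofNat 0, .ofNat 0, .ofNat 0, .ofNat 0, .ofNat 0, .negSucc 0, .ofNat 1, .ofNat 0]), (true, [.ofNat 0, .ofNat 0, .ofNat 0, .ofNat 0, .ofNat 0, .ofNat 1, .ofNat 1, .ofNat 1, .ofNat 0, .negSucc 1, .ofNat 0, .ofNat 0])),
  ((true, [.ofNat 0, .ofNat 1, .ofNat 0, .ofNat 0, .ofNat 0, .ofNat 0, .ofNat 0, .negSucc 0, .ofNat 0, .ofNat 0, .negSucc 0, .ofNat 1]), (false, [.ofNat 0, .ofNat 0, .ofNat 0, .ofNat 0, .ofNat 0, .ofNat 1, .ofNat 1, .ofNat 0, .ofNat 0, .negSucc 0, .negSucc 0, .ofNat 1])),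
  ((false, [.ofNat 0, .ofNat 1, .ofNat 0, .ofNat 0, .ofNat 0, .ofNat 0, .ofNat 0, .negSucc 0, .ofNat 0, .ofNat 0, .negSucc 0, .ofNat 1]), (true, [.ofNat 0, .ofNat 0, .ofNat 0, .ofNat 0, .ofNat 0, .ofNat 0, .ofNat 0, .negSucc 0, .ofNat 0, .ofNat 1, .negSucc 0, .ofNat 1])),
  ((true, [.negSucc 0, .ofNat 1, .ofNat 0, .ofNat 1, .ofNat 0, .ofNat 0, .negSucc 0, .negSucc 0, .ofNat 0, .ofNat 1, .negSucc 0, .ofNat 2]), (false, [.negSucc 0, .ofNat 0, .ofNat 0, .ofNat 0, .ofNat 0, .ofNat 1, .ofNat 2, .ofNat 1, .ofNat 1, .negSucc 1, .negSucc 0, .ofNat 2])),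
  ((true, [.ofNat 0, .ofNat 1, .ofNat 1, .ofNat 0, .ofNat 0, .ofNat 0, .ofNat 0, .ofNat 0, .negSucc 0, .negSucc 0, .ofNat 0, .ofNat 0]), (false, [.ofNat 1, .ofNat 0, .ofNat 0, .ofNat 0, .ofNat 0, .ofNat 0, .ofNat 1, .ofNat 2, .negSucc 0, .negSucc 1, .ofNat 1, .ofNat 0])),
  ((false, [.ofNat 0, .ofNat 1, .ofNat 1, .ofNat 0, .ofNat 0, .ofNat 0, .ofNat 0, .negSucc 0, .negSucc 0, .ofNat 0, .negSucc 0, .ofNat 1]), (true, [.ofNat 0, .ofNat 0, .ofNat 0, .ofNat 0, .ofNat 0, .ofNat 3, .ofNat 2, .ofNat 0, .negSucc 1, .negSucc 0, .negSucc 0, .ofNat 1])),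
  ((true, [.ofNat 0, .ofNat 2, .ofNat 0, .ofNat 0, .ofNat 0, .negSucc 1, .negSucc 0, .negSucc 0, .ofNat 1, .ofNat 0, .ofNat 0, .ofNat 1]), (false, [.ofNat 1, .ofNat 0, .ofNat 0, .ofNat 0, .ofNat 0, .negSucc 1, .ofNat 0, .ofNat 1, .ofNat 1, .negSucc 0, .ofNat 0, .ofNat 1])),
  ((true, [.negSucc 0, .ofNat 2, .ofNat 0, .ofNat 0, .ofNat 0, .ofNat 0, .ofNat 0, .negSucc 0, .ofNat 0, .ofNat 0, .ofNat 0, .ofNat 1]), (false, [.negSucc 0, .ofNat 0, .ofNat 0, .ofNat 0, .ofNat 0, .ofNat 1, .ofNat 1, .ofNat 0, .negSucc 0, .ofNat 1, .ofNat 0, .ofNat 1])),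
  ((false, [.ofNat 0, .ofNat 2, .ofNat 0, .ofNat 0, .ofNat 0, .ofNat 0, .ofNat 0, .negSucc 1, .ofNat 0, .ofNat 0, .negSucc 1, .ofNat 2]), (true, [.ofNat 0, .ofNat 0, .ofNat 0, .ofNat 0, .ofNat 0, .ofNat 1, .ofNat 1, .negSucc 0, .ofNat 0, .ofNat 0, .negSucc 1, .ofNat 2])),
  ((true, [.ofNat 1, .ofNat 0, .ofNat 0, .ofNat 0, .ofNat 0, .ofNat 0, .ofNat 0, .ofNat 0, .negSucc 0, .ofNat 0, .ofNat 0, .ofNat 0]), (false, [.ofNat 0, .ofNat 0, .ofNat 0, .ofNat 0, .ofNat 0, .ofNat 0, .ofNat 0, .ofNat 0, .negSucc 0, .ofNat 1, .ofNat 1, .ofNat 0])),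
  ((false, [.ofNat 1, .ofNat 0, .ofNat 0, .ofNat 0, .ofNat 0, .negSucc 0, .ofNat 0, .ofNat 0, .ofNat 0, .ofNat 0, .negSucc 0, .ofNat 1]), (true, [.ofNat 0, .ofNat 0, .ofNat 0, .ofNat 0, .ofNat 0, .negSucc 0, .ofNat 0, .ofNat 0, .ofNat 1, .ofNat 0, .negSucc 0, .ofNat 1])),
  ((false, [.ofNat 2, .ofNat 0, .ofNat 0, .ofNat 0, .ofNat 0, .ofNat 0, .ofNat 0, .ofNat 1, .ofNat 0, .negSucc 1, .negSucc 1, .ofNat 2]), (true, [.ofNat 0, .ofNat 0, .ofNat 0, .ofNat 0, .ofNat 0, .ofNat 0, .ofNat 2, .ofNat 2, .ofNat 2, .negSucc 3, .negSucc 1, .ofNat 2])),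
  ((true, [.ofNat 2, .ofNat 0, .ofNat 0, .ofNat 0, .ofNat 0, .negSucc 0, .ofNat 0, .ofNat 1, .ofNat 0, .negSucc 1, .ofNat 0, .ofNat 0]), (false, [.ofNat 0, .ofNat 1, .ofNat 0, .ofNat 0, .ofNat 0, .negSucc 0, .ofNat 0, .ofNat 1, .ofNat 1, .negSucc 1, .ofNat 1, .ofNat 0])),
  ((true, [.ofNat 2, .ofNat 0, .ofNat 0, .ofNat 0, .ofNat 0, .ofNat 0, .ofNat 1, .ofNat 1, .negSucc 0, .negSucc 1, .ofNat 0, .ofNat 1]), (false, [.ofNat 0, .ofNat 0, .ofNat 0, .ofNat 0, .ofNat 0, .ofNat 1, .ofNat 2, .ofNat 2, .ofNat 0, .negSucc 2, .ofNat 0, .ofNat 1])),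
  ((false, [.ofNat 2, .ofNat 0, .ofNat 0, .ofNat 0, .ofNat 0, .ofNat 0, .ofNat 2, .ofNat 1, .negSucc 1, .negSucc 1, .ofNat 0, .ofNat 1]), (true, [.ofNat 0, .ofNat 0, .ofNat 0, .ofNat 0, .ofNat 0, .ofNat 2, .ofNat 2, .ofNat 2, .negSucc 1, .negSucc 1, .ofNat 2, .ofNat 0])),
  ((true, [.ofNat 2, .negSucc 0, .ofNat 0, .ofNat 0, .ofNat 0, .ofNat 0, .ofNat 1, .ofNat 1, .negSucc 0, .negSucc 0, .negSucc 0, .ofNat 1]), (false, [.ofNat 0, .negSucc 0, .ofNat 0, .ofNat 0, .ofNat 0, .ofNat 2, .ofNat 2, .ofNat 1, .negSucc 0, .negSucc 0, .negSucc 0, .ofNat 1])),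
  ((false, [.ofNat 2, .ofNat 0, .ofNat 0, .ofNat 0, .ofNat 0, .negSucc 0, .ofNat 0, .ofNat 0, .ofNat 0, .negSucc 0, .negSucc 1, .ofNat 1]), (true, [.ofNat 0, .ofNat 0, .ofNat 0, .ofNat 0, .ofNat 0, .negSucc 0, .ofNat 0, .ofNat 0, .ofNat 2, .negSucc 0, .negSucc 1, .ofNat 1])),
  ((true, [.ofNat 0, .ofNat 0, .ofNat 1, .ofNat 0, .ofNat 0, .ofNat 1, .ofNat 0, .negSucc 0, .negSucc 0, .ofNat 0, .negSucc 1, .ofNat 0]), (false, [.ofNat 1, .ofNat 0, .ofNat 0, .ofNat 0, .ofNat 0, .ofNat 0, .ofNat 1, .negSucc 0, .negSucc 0, .ofNat 0, .negSucc 1, .ofNat 1])),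
  ((false, [.ofNat 0, .ofNat 1, .ofNat 0, .ofNat 0, .ofNat 0, .ofNat 1, .ofNat 1, .ofNat 0, .negSucc 0, .negSucc 0, .ofNat 0, .ofNat 1]), (true, [.ofNat 1, .ofNat 0, .ofNat 0, .ofNat 0, .ofNat 0, .ofNat 0, .ofNat 1, .ofNat 1, .negSucc 0, .negSucc 0, .ofNat 0, .ofNat 1])),
  ((false, [.ofNat 1, .ofNat 0, .ofNat 0, .ofNat 0, .ofNat 0, .ofNat 1, .ofNat 0, .ofNat 0, .negSucc 0, .ofNat 0, .negSucc 1, .ofNat 2]), (true, [.ofNat 0, .ofNat 0, .ofNat 0, .ofNat 1, .ofNat 0, .ofNat 0, .negSucc 0, .negSucc 0, .negSucc 0, .ofNat 2, .negSucc 1, .ofNat 2])),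
  ((true, [.ofNat 1, .ofNat 0, .ofNat 0, .ofNat 0, .ofNat 0, .ofNat 1, .ofNat 1, .ofNat 0, .negSucc 0, .negSucc 0, .negSucc 1, .ofNat 1]), (false, [.ofNat 0, .ofNat 0, .ofNat 1, .ofNat 0, .ofNat 0, .ofNat 0, .ofNat 0, .negSucc 0, .negSucc 0, .ofNat 1, .negSucc 1, .ofNat 1])),
  ((true, [.ofNat 0, .ofNat 0, .ofNat 0, .ofNat 0, .ofNat 0, .ofNat 3, .ofNat 1, .negSucc 0, .negSucc 0, .negSucc 0, .negSucc 1, .ofNat 0]), (false, [.ofNat 1, .ofNat 0, .ofNat 0, .ofNat 0, .ofNat 0, .ofNat 0, .ofNat 1, .negSucc 0, .ofNat 0, .negSucc 0, .negSucc 1, .ofNat 1])),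
  ((false, [.ofNat 0, .negSucc 0, .ofNat 0, .ofNat 0, .ofNat 0, .ofNat 3, .ofNat 1, .ofNat 1, .negSucc 0, .negSucc 0, .negSucc 0, .ofNat 0]), (true, [.ofNat 0, .negSucc 0, .ofNat 0, .ofNat 0, .ofNat 0, .ofNat 0, .negSucc 0, .ofNat 0, .ofNat 1, .ofNat 1, .negSucc 0, .ofNat 0])),
  ((false, [.negSucc 0, .ofNat 0, .ofNat 1, .ofNat 0, .ofNat 0, .ofNat 3, .ofNat 0, .negSucc 0, .negSucc 0, .ofNat 0, .negSucc 1, .ofNat 0]), (true, [.negSucc 0, .ofNat 0, .ofNat 0, .ofNat 0, .ofNat 0, .ofNat 0, .negSucc 1, .negSucc 1, .ofNat 2, .ofNat 2, .negSucc 1, .ofNat 0])),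
  ((false, [.ofNat 0, .ofNat 0, .ofNat 0, .ofNat 1, .ofNat 0, .ofNat 0, .ofNat 0, .ofNat 0, .ofNat 0, .ofNat 0, .negSucc 1, .ofNat 3]), (true, [.ofNat 0, .ofNat 0, .ofNat 0, .ofNat 0, .ofNat 0, .ofNat 2, .ofNat 1, .ofNat 0, .negSucc 0, .ofNat 0, .negSucc 1, .ofNat 3])),
  ((true, [.negSucc 0, .ofNat 0, .ofNat 1, .ofNat 0, .ofNat 0, .ofNat 0, .ofNat 0, .ofNat 0, .ofNat 0, .ofNat 0, .ofNat 0, .ofNat 0]), (false, [.negSucc 0, .ofNat 0, .ofNat 0, .ofNat 0, .ofNat 0, .ofNat 2, .ofNat 1, .ofNat 0, .negSucc 0, .ofNat 0, .ofNat 1, .ofNat 0])),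
  ((false, [.ofNat 0, .ofNat 0, .ofNat 1, .ofNat 0, .ofNat 0, .ofNat 0, .ofNat 0, .negSucc 0, .ofNat 0, .ofNat 0, .negSucc 1, .ofNat 1]), (true, [.ofNat 0, .ofNat 0, .ofNat 0, .ofNat 0, .ofNat 0, .ofNat 2, .ofNat 1, .negSucc 0, .negSucc 0, .ofNat 0, .negSucc 1, .ofNat 1])),
  ((false, [.ofNat 0, .ofNat 0, .ofNat 1, .ofNat 0, .ofNat 0, .ofNat 0, .ofNat 0, .negSucc 0, .ofNat 0, .ofNat 0, .negSucc 2, .ofNat 1]), (true, [.ofNat 1, .ofNat 0, .ofNat 0, .ofNat 0, .ofNat 0, .ofNat 0, .ofNat 0, .negSucc 0, .ofNat 0, .ofNat 0, .negSucc 2, .ofNat 1])),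
  ((true, [.ofNat 0, .ofNat 1, .ofNat 0, .ofNat 0, .ofNat 0, .ofNat 0, .ofNat 1, .ofNat 0, .ofNat 0, .negSucc 0, .negSucc 0, .ofNat 2]), (false, [.ofNat 1, .ofNat 0, .ofNat 0, .ofNat 0, .ofNat 0, .ofNat 0, .ofNat 1, .ofNat 0, .negSucc 0, .ofNat 0, .negSucc 0, .ofNat 2])),
  ((true, [.ofNat 1, .ofNat 0, .ofNat 0, .negSucc 0, .ofNat 0, .ofNat 0, .ofNat 2, .ofNat 1, .ofNat 0, .negSucc 1, .ofNat 0, .ofNat 0]), (false, [.ofNat 0, .ofNat 0, .ofNat 0, .negSucc 0, .ofNat 0, .ofNat 1, .ofNat 2, .ofNat 0, .negSucc 0, .ofNat 0, .ofNat 1, .ofNat 0])),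
  ((false, [.ofNat 1, .ofNat 0, .ofNat 0, .ofNat 0, .ofNat 0, .ofNat 0, .ofNat 1, .ofNat 0, .ofNat 0, .negSucc 0, .negSucc 1, .ofNat 2]), (true, [.ofNat 0, .ofNat 0, .ofNat 0, .ofNat 0, .ofNat 0, .ofNat 1, .ofNat 1, .negSucc 0, .negSucc 0, .ofNat 1, .negSucc 1, .ofNat 2])),
  ((false, [.negSucc 0, .ofNat 1, .ofNat 0, .ofNat 0, .ofNat 0, .ofNat 0, .ofNat 1, .ofNat 0, .ofNat 1, .negSucc 0, .negSucc 0, .ofNat 2]), (true, [.negSucc 0, .ofNat 0, .ofNat 0, .ofNat 0, .ofNat 0, .ofNat 1, .ofNat 1, .negSucc 0, .negSucc 0, .ofNat 2, .negSucc 0, .ofNat 2])),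
  ((true, [.ofNat 0, .ofNat 0, .ofNat 0, .ofNat 0, .ofNat 0, .ofNat 0, .ofNat 1, .ofNat 2, .ofNat 2, .negSucc 3, .ofNat 0, .ofNat 0]), (false, [.ofNat 0, .ofNat 1, .ofNat 0, .ofNat 0, .ofNat 0, .ofNat 0, .negSucc 0, .ofNat 1, .ofNat 1, .negSucc 1, .ofNat 1, .ofNat 0])),
  ((false, [.negSucc 0, .ofNat 0, .ofNat 0, .ofNat 0, .ofNat 0, .ofNat 0, .ofNat 3, .ofNat 1, .ofNat 2, .negSucc 2, .negSucc 1, .ofNat 2]), (true, [.negSucc 0, .ofNat 0, .ofNat 0, .ofNat 1, .ofNat 0, .ofNat 0, .ofNat 0, .negSucc 1, .negSucc 0, .ofNat 3, .negSucc 1, .ofNat 2])),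
  ((false, [.negSucc 0, .ofNat 0, .ofNat 0, .ofNat 1, .ofNat 0, .ofNat 0, .negSucc 0, .ofNat 0, .ofNat 0, .ofNat 1, .ofNat 0, .ofNat 1]), (true, [.negSucc 0, .ofNat 0, .ofNat 0, .ofNat 0, .ofNat 0, .ofNat 1, .ofNat 1, .ofNat 0, .ofNat 0, .ofNat 0, .ofNat 0, .ofNat 1])),
  ((false, [.negSucc 0, .ofNat 0, .ofNat 1, .ofNat 0, .ofNat 0, .ofNat 0, .negSucc 0, .ofNat 0, .ofNat 0, .ofNat 1, .ofNat 0, .ofNat 0]), (true, [.negSucc 0, .ofNat 0, .ofNat 0, .ofNat 0, .ofNat 0, .ofNat 2, .ofNat 0, .ofNat 0, .ofNat 0, .ofNat 0, .ofNat 0, .ofNat 0])),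
  ((false, [.ofNat 0, .ofNat 1, .ofNat 0, .ofNat 0, .ofNat 0, .ofNat 0, .ofNat 0, .ofNat 0, .negSucc 0, .ofNat 0, .ofNat 1, .ofNat 0]), (true, [.ofNat 0, .ofNat 0, .ofNat 0, .ofNat 0, .ofNat 0, .ofNat 2, .ofNat 1, .ofNat 0, .negSucc 1, .ofNat 0, .ofNat 0, .ofNat 0])),
  ((false, [.ofNat 1, .ofNat 0, .negSucc 0, .ofNat 0, .ofNat 0, .ofNat 0, .ofNat 1, .ofNat 1, .ofNat 0, .negSucc 0, .ofNat 0, .ofNat 1]), (true, [.ofNat 0, .ofNat 0, .negSucc 0, .ofNat 0, .ofNat 0, .ofNat 1, .ofNat 1, .ofNat 0, .ofNat 0, .ofNat 0, .ofNat 0, .ofNat 1])),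
  ((false, [.ofNat 1, .ofNat 0, .ofNat 1, .ofNat 0, .ofNat 0, .ofNat 0, .ofNat 1, .ofNat 1, .negSucc 1, .negSucc 0, .ofNat 0, .ofNat 1]), (true, [.ofNat 0, .ofNat 0, .ofNat 0, .ofNat 0, .ofNat 0, .ofNat 4, .ofNat 3, .ofNat 1, .negSucc 2, .negSucc 1, .ofNat 0, .ofNat 1])),
  ((false, [.negSucc 0, .ofNat 0, .ofNat 0, .ofNat 0, .ofNat 0, .ofNat 0, .ofNat 1, .ofNat 1, .ofNat 1, .negSucc 0, .ofNat 0, .ofNat 1]), (true, [.negSucc 0, .ofNat 1, .ofNat 0, .ofNat 0, .ofNat 0, .ofNat 0, .ofNat 0, .negSucc 0, .ofNat 0, .ofNat 1, .ofNat 0, .ofNat 1])),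
  ((false, [.ofNat 1, .negSucc 0, .ofNat 0, .ofNat 0, .ofNat 0, .ofNat 0, .ofNat 1, .ofNat 2, .negSucc 0, .negSucc 0, .ofNat 1, .ofNat 0]), (true, [.ofNat 0, .negSucc 0, .ofNat 0, .ofNat 0, .ofNat 0, .ofNat 3, .ofNat 2, .ofNat 1, .negSucc 1, .negSucc 0, .ofNat 0, .ofNat 0])),
  ((true, [.ofNat 0, .ofNat 0, .negSucc 0, .ofNat 0, .ofNat 0, .ofNat 0, .ofNat 1, .ofNat 2, .ofNat 0, .negSucc 0, .ofNat 2, .ofNat 0]), (false, [.ofNat 0, .ofNat 0, .negSucc 0, .ofNat 0, .ofNat 0, .ofNat 1, .ofNat 2, .ofNat 0, .negSucc 0, .ofNat 0, .ofNat 0, .ofNat 1])),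
  ((true, [.ofNat 0, .ofNat 0, .ofNat 1, .ofNat 0, .ofNat 0, .ofNat 0, .ofNat 1, .ofNat 2, .negSucc 1, .negSucc 0, .ofNat 2, .ofNat 0]), (false, [.ofNat 1, .ofNat 0, .ofNat 0, .ofNat 0, .ofNat 0, .ofNat 2, .ofNat 3, .ofNat 1, .negSucc 2, .negSucc 1, .ofNat 0, .ofNat 1])),
  ((false, [.ofNat 0, .ofNat 2, .ofNat 0, .ofNat 0, .ofNat 0, .negSucc 0, .ofNat 0, .negSucc 1, .ofNat 0, .ofNat 1, .negSucc 1, .ofNat 3]), (true, [.ofNat 1, .ofNat 0, .ofNat 0, .ofNat 0, .ofNat 0, .negSucc 0, .ofNat 1, .ofNat 0, .ofNat 1, .negSucc 0, .negSucc 1, .ofNat 3])),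
  ((false, [.ofNat 0, .ofNat 0, .ofNat 0, .ofNat 0, .ofNat 0, .ofNat 2, .ofNat 1, .negSucc 0, .negSucc 0, .ofNat 0, .negSucc 1, .ofNat 1]), (true, [.ofNat 1, .ofNat 0, .ofNat 0, .ofNat 0, .ofNat 0, .ofNat 0, .ofNat 0, .negSucc 0, .ofNat 0, .ofNat 0, .negSucc 1, .ofNat 1])),
  ((false, [.ofNat 0, .ofNat 0, .ofNat 0, .ofNat 0, .ofNat 0, .ofNat 1, .ofNat 1, .negSucc 0, .negSucc 0, .ofNat 1, .negSucc 1, .ofNat 2]), (true, [.ofNat 0, .ofNat 0, .ofNat 0, .ofNat 1, .ofNat 0, .ofNat 0, .negSucc 0, .negSucc 0, .ofNat 0, .ofNat 1, .negSucc 1, .ofNat 2])),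
  ((false, [.ofNat 0, .negSucc 0, .ofNat 0, .ofNat 0, .ofNat 0, .ofNat 1, .ofNat 1, .ofNat 0, .negSucc 0, .ofNat 1, .negSucc 0, .ofNat 1]), (true, [.ofNat 0, .negSucc 0, .ofNat 0, .ofNat 0, .ofNat 0, .ofNat 0, .ofNat 1, .ofNat 1, .ofNat 1, .negSucc 0, .negSucc 0, .ofNat 1])),
  ((false, [.ofNat 0, .negSucc 1, .ofNat 0, .ofNat 0, .ofNat 0, .ofNat 3, .ofNat 2, .ofNat 0, .negSucc 1, .ofNat 1, .negSucc 1, .ofNat 1]), (true, [.ofNat 2, .negSucc 1, .ofNat 0, .ofNat 0, .ofNat 0, .ofNat 0, .ofNat 1, .ofNat 1, .ofNat 0, .negSucc 0, .negSucc 1, .ofNat 1])),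
  ((false, [.ofNat 0, .ofNat 0, .ofNat 0, .ofNat 0, .ofNat 0, .ofNat 2, .ofNat 2, .negSucc 1, .negSucc 1, .ofNat 2, .negSucc 3, .ofNat 4]), (true, [.ofNat 1, .ofNat 0, .ofNat 0, .ofNat 1, .ofNat 0, .ofNat 0, .ofNat 0, .negSucc 0, .ofNat 0, .ofNat 0, .negSucc 3, .ofNat 4]))]

theorem poolOk : PoolOk Cc2 E Gc2 pool :=
  ⟨by decide, by decide +kernel, by decide +kernel⟩

/-- relations -/
noncomputable def z1r0 : List (Rel × List ℤ) := [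
  (⟨(0, 0), (4, 5), (13, 0), some (14, 2), some (11, 3)⟩, [.negSucc 15, .ofNat 0, .ofNat 0, .ofNat 0, .ofNat 0, .ofNat 0, .negSucc 79, .negSucc 15, .ofNat 64, .ofNat 32, .negSucc 63, .ofNat 48]),
  (⟨(0, 0), (14, 3), (46, 4), some (19, 4), some (67, 0)⟩, [.ofNat 16, .ofNat 0, .ofNat 0, .ofNat 0, .ofNat 0, .negSucc 15, .ofNat 0, .ofNat 16, .ofNat 16, .negSucc 31, .ofNat 0, .ofNat 0]),
  (⟨(1, 0), (3, 5), (14, 5), some (13, 3), some (8, 3)⟩, [.ofNat 6, .ofNat 0, .ofNat 0, .ofNat 0, .ofNat 0, .ofNat 141, .negSucc 22, .negSucc 226, .ofNat 11, .ofNat 75, .negSucc 283, .ofNat 60]),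
  (⟨(1, 0), (5, 0), (58, 1), some (22, 4), some (44, 3)⟩, [.negSucc 5, .ofNat 0, .ofNat 93, .ofNat 0, .ofNat 0, .ofNat 21, .ofNat 90, .ofNat 181, .negSucc 166, .negSucc 131, .ofNat 188, .negSucc 49]),
  (⟨(1, 0), (21, 2), (47, 3), some (31, 1), some (57, 5)⟩, [.ofNat 0, .ofNat 0, .negSucc 92, .ofNat 0, .ofNat 0, .ofNat 122, .ofNat 63, .negSucc 9, .ofNat 54, .negSucc 72, .ofNat 0, .ofNat 14]),
  (⟨(2, 0), (4, 0), (68, 3), some (22, 4), some (54, 2)⟩, [.negSucc 15, .ofNat 0, .ofNat 0, .ofNat 0, .ofNat 0, .ofNat 0, .ofNat 36, .negSucc 7, .ofNat 8, .ofNat 0, .negSucc 31, .ofNat 32]),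
  (⟨(2, 0), (4, 5), (12, 0), some (14, 3), some (9, 3)⟩, [.ofNat 0, .ofNat 0, .ofNat 0, .ofNat 0, .ofNat 0, .ofNat 0, .negSucc 43, .ofNat 24, .ofNat 0, .ofNat 0, .ofNat 0, .negSucc 39]),
  (⟨(2, 0), (11, 2), (38, 1), some (35, 4), some (33, 4)⟩, [.ofNat 16, .ofNat 0, .ofNat 0, .ofNat 0, .ofNat 0, .ofNat 0, .negSucc 47, .negSucc 39, .negSucc 47, .ofNat 80, .ofNat 32, .negSucc 31]),
  (⟨(2, 0), (18, 5), (19, 5), some (17, 0), none⟩, [.negSucc 15, .ofNat 0, .ofNat 0, .ofNat 16, .ofNat 0, .ofNat 32, .negSucc 15, .ofNat 0, .negSucc 15, .ofNat 16, .ofNat 0, .ofNat 32]),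
  (⟨(2, 0), (41, 0), (52, 0), some (56, 2), some (46, 2)⟩, [.ofNat 16, .ofNat 0, .ofNat 0, .negSucc 15, .ofNat 0, .ofNat 16, .ofNat 16, .ofNat 16, .ofNat 0, .negSucc 31, .ofNat 0, .ofNat 0]),
  (⟨(3, 0), (21, 2), (49, 2), some (32, 4), some (39, 0)⟩, [.negSucc 5, .ofNat 0, .ofNat 0, .ofNat 0, .ofNat 0, .negSucc 100, .ofNat 19, .ofNat 191, .negSucc 26, .negSucc 58, .ofNat 180, .negSucc 63]),
  (⟨(5, 0), (8, 2), (38, 1), some (35, 1), some (36, 1)⟩, [.negSucc 5, .ofNat 0, .ofNat 0, .ofNat 0, .ofNat 0, .negSucc 87, .ofNat 80, .ofNat 282, .negSucc 63, .negSucc 131, .ofNat 390, .negSucc 57]),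
  (⟨(5, 0), (39, 1), (66, 1), some (59, 0), some (63, 0)⟩, [.ofNat 0, .ofNat 0, .ofNat 93, .ofNat 0, .ofNat 0, .ofNat 8, .negSucc 84, .negSucc 201, .negSucc 7, .ofNat 101, .negSucc 201, .ofNat 8]),
  (⟨(12, 0), (14, 5), (58, 1), some (68, 5), some (22, 4)⟩, [.negSucc 53, .ofNat 340, .ofNat 0, .ofNat 0, .ofNat 0, .negSucc 838, .negSucc 48, .ofNat 149, .ofNat 171, .ofNat 249, .ofNat 278, .ofNat 640]),
  (⟨(12, 0), (28, 0), (30, 5), some (65, 5), some (52, 3)⟩, [.negSucc 116, .negSucc 169, .ofNat 0, .ofNat 0, .ofNat 0, .ofNat 202, .negSucc 116, .ofNat 170, .negSucc 116, .ofNat 32, .ofNat 404, .negSucc 605]),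
  (⟨(12, 0), (39, 2), (48, 2), some (43, 4), some (57, 0)⟩, [.ofNat 24, .ofNat 0, .ofNat 0, .ofNat 0, .ofNat 0, .ofNat 186, .ofNat 84, .negSucc 99, .negSucc 75, .negSucc 41, .negSucc 199, .ofNat 74])]

/-- relations -/
noncomputable def z1r1 : List (Rel × List ℤ) := [
  (⟨(12, 0), (42, 2), (52, 2), some (48, 2), some (59, 0)⟩, [.ofNat 147, .negSucc 169, .ofNat 0, .ofNat 0, .ofNat 0, .ofNat 219, .ofNat 62, .negSucc 242, .negSucc 55, .ofNat 135, .negSucc 545, .ofNat 244]),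
  (⟨(13, 0), (20, 5), (49, 0), some (42, 1), some (31, 1)⟩, [.negSucc 485, .ofNat 170, .negSucc 92, .ofNat 0, .ofNat 0, .negSucc 557, .negSucc 400, .ofNat 336, .ofNat 488, .ofNat 111, .ofNat 1410, .negSucc 675]),
  (⟨(13, 0), (22, 5), (24, 0), some (23, 0), none⟩, [.ofNat 508, .negSucc 169, .ofNat 93, .ofNat 0, .ofNat 0, .ofNat 1001, .ofNat 760, .ofNat 415, .negSucc 540, .negSucc 1331, .negSucc 309, .ofNat 28]),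
  (⟨(14, 0), (18, 5), (56, 5), some (51, 4), some (31, 4)⟩, [.negSucc 527, .ofNat 0, .ofNat 0, .ofNat 0, .ofNat 0, .ofNat 528, .ofNat 0, .negSucc 527, .negSucc 527, .ofNat 1056, .ofNat 528, .ofNat 0]),
  (⟨(14, 0), (20, 5), (47, 5), some (59, 4), some (32, 4)⟩, [.ofNat 255, .negSucc 169, .ofNat 0, .ofNat 0, .ofNat 0, .ofNat 149, .ofNat 268, .ofNat 285, .negSucc 245, .negSucc 242, .negSucc 124, .ofNat 186]),
  (⟨(14, 0), (22, 0), (34, 1), some (37, 4), some (35, 4)⟩, [.ofNat 476, .ofNat 0, .ofNat 0, .ofNat 0, .ofNat 0, .ofNat 521, .ofNat 965, .ofNat 771, .negSucc 210, .negSucc 1540, .negSucc 357, .ofNat 686]),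
  (⟨(14, 0), (24, 1), (32, 1), some (40, 2), some (50, 2)⟩, [.negSucc 110, .negSucc 169, .ofNat 0, .ofNat 0, .ofNat 0, .ofNat 856, .ofNat 185, .negSucc 389, .negSucc 248, .ofNat 96, .negSucc 542, .ofNat 0]),
  (⟨(15, 0), (43, 0), (48, 4), some (64, 4), some (45, 1)⟩, [.ofNat 0, .ofNat 0, .ofNat 0, .ofNat 0, .ofNat 0, .negSucc 257, .negSucc 83, .ofNat 100, .ofNat 100, .ofNat 42, .ofNat 200, .negSucc 49]),
  (⟨(17, 0), (25, 5), (54, 3), some (53, 0), some (55, 0)⟩, [.negSucc 15, .ofNat 0, .ofNat 0, .ofNat 0, .ofNat 0, .ofNat 0, .ofNat 48, .ofNat 16, .ofNat 32, .negSucc 47, .negSucc 31, .ofNat 32]),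
  (⟨(18, 0), (23, 1), (56, 3), some (25, 3), some (61, 5)⟩, [.ofNat 544, .ofNat 0, .ofNat 0, .ofNat 0, .ofNat 0, .negSucc 559, .negSucc 1071, .negSucc 543, .negSucc 527, .ofNat 1072, .ofNat 528, .negSucc 1087]),
  (⟨(20, 0), (23, 2), (27, 2), some (48, 2), some (58, 0)⟩, [.ofNat 103, .ofNat 0, .ofNat 93, .ofNat 0, .ofNat 0, .ofNat 206, .ofNat 288, .ofNat 390, .negSucc 396, .negSucc 388, .ofNat 340, .ofNat 0]),
  (⟨(20, 0), (24, 3), (26, 2), some (59, 1), some (40, 0)⟩, [.ofNat 25, .ofNat 0, .ofNat 93, .ofNat 0, .ofNat 0, .ofNat 21, .ofNat 121, .ofNat 243, .negSucc 197, .negSucc 193, .ofNat 219, .negSucc 49]),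
  (⟨(20, 0), (27, 5), (62, 4), some (40, 0), some (60, 1)⟩, [.ofNat 103, .ofNat 0, .ofNat 93, .ofNat 0, .ofNat 0, .ofNat 1826, .ofNat 1368, .ofNat 390, .negSucc 1476, .negSucc 928, .negSucc 199, .ofNat 540]),
  (⟨(21, 0), (26, 0), (44, 4), some (62, 2), some (45, 1)⟩, [.ofNat 6, .ofNat 0, .negSucc 92, .ofNat 0, .ofNat 0, .negSucc 20, .negSucc 89, .negSucc 180, .ofNat 167, .ofNat 132, .negSucc 187, .ofNat 50]),
  (⟨(23, 0), (24, 1), (24, 3), some (30, 3), some (23, 3)⟩, [.ofNat 117, .ofNat 436, .ofNat 0, .ofNat 0, .ofNat 0, .negSucc 637, .negSucc 318, .ofNat 0, .ofNat 117, .negSucc 31, .ofNat 202, .ofNat 0]),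
  (⟨(23, 0), (28, 0), (58, 5), some (40, 5), some (62, 3)⟩, [.negSucc 372, .negSucc 447, .ofNat 0, .ofNat 0, .ofNat 0, .ofNat 331, .negSucc 117, .negSucc 24, .ofNat 150, .ofNat 349, .ofNat 124, .negSucc 589])]

/-- relations -/
noncomputable def z1r2 : List (Rel × List ℤ) := [
  (⟨(24, 0), (29, 5), (68, 2), some (61, 1), some (53, 1)⟩, [.negSucc 605, .ofNat 264, .ofNat 0, .ofNat 0, .ofNat 0, .negSucc 559, .negSucc 185, .ofNat 78, .ofNat 358, .ofNat 450, .ofNat 528, .ofNat 62]),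
  (⟨(28, 0), (29, 0), (66, 5), some (52, 5), some (69, 3)⟩, [.negSucc 115, .ofNat 170, .ofNat 0, .ofNat 0, .ofNat 0, .negSucc 1002, .negSucc 628, .ofNat 125, .ofNat 801, .ofNat 7, .ofNat 528, .negSucc 427]),
  (⟨(31, 0), (32, 0), (32, 1), some (31, 1), some (38, 4)⟩, [.ofNat 74, .ofNat 0, .ofNat 0, .ofNat 0, .ofNat 0, .negSucc 175, .ofNat 32, .ofNat 242, .ofNat 0, .negSucc 139, .ofNat 246, .negSucc 1]),
  (⟨(31, 0), (34, 0), (52, 5), some (50, 3), some (53, 3)⟩, [.negSucc 231, .ofNat 170, .ofNat 0, .ofNat 0, .ofNat 0, .negSucc 855, .negSucc 527, .ofNat 390, .ofNat 592, .negSucc 95, .ofNat 886, .negSucc 685]),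
  (⟨(34, 0), (37, 0), (68, 0), some (58, 5), some (69, 2)⟩, [.negSucc 535, .negSucc 685, .ofNat 0, .ofNat 0, .ofNat 0, .ofNat 911, .ofNat 437, .negSucc 84, .negSucc 474, .ofNat 855, .negSucc 327, .ofNat 0]),
  (⟨(36, 0), (57, 2), (60, 2), some (66, 4), some (64, 0)⟩, [.negSucc 9, .ofNat 0, .ofNat 0, .ofNat 0, .ofNat 0, .negSucc 277, .negSucc 113, .ofNat 90, .ofNat 130, .ofNat 62, .ofNat 200, .negSucc 59]),
  (⟨(47, 0), (48, 0), (66, 1), none, some (49, 4)⟩, [.ofNat 226, .negSucc 169, .negSucc 92, .ofNat 0, .ofNat 0, .ofNat 457, .ofNat 420, .ofNat 295, .negSucc 514, .negSucc 169, .ofNat 90, .ofNat 172]),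
  (⟨(52, 0), (67, 0), (52, 3), some (70, 5), some (67, 5)⟩, [.ofNat 8, .ofNat 0, .ofNat 0, .ofNat 8, .ofNat 0, .negSucc 15, .negSucc 15, .ofNat 8, .ofNat 16, .negSucc 15, .ofNat 0, .ofNat 0])]

/-- trivial elements -/
noncomputable def z1t0 : List (ℕ × ℤ × ℤ) := [
  (0, .negSucc 103, .ofNat 80),
  (1, .negSucc 27, .ofNat 130),
  (2, .negSucc 47, .negSucc 7),
  (3, .ofNat 4, .negSucc 39),
  (4, .ofNat 8, .negSucc 23),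
  (5, .negSucc 5, .ofNat 101),
  (8, .negSucc 52, .ofNat 55),
  (9, .ofNat 44, .negSucc 19),
  (11, .ofNat 16, .ofNat 56),
  (12, .ofNat 78, .negSucc 373),
  (13, .negSucc 659, .ofNat 962),
  (14, .negSucc 961, .ofNat 1356),
  (15, .ofNat 50, .ofNat 0),
  (17, .ofNat 16, .negSucc 47),
  (18, .negSucc 15, .ofNat 1072),
  (19, .ofNat 16, .ofNat 16),
  (20, .negSucc 185, .negSucc 1643),
  (21, .ofNat 186, .negSucc 193),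
  (22, .negSucc 169, .ofNat 380),
  (23, .negSucc 593, .ofNat 2300),
  (24, .negSucc 795, .ofNat 656),
  (25, .ofNat 0, .negSucc 559),
  (26, .ofNat 0, .ofNat 31),
  (27, .ofNat 0, .negSucc 539),
  (28, .negSucc 393, .negSucc 373),
  (29, .negSucc 46, .negSucc 442),
  (30, .ofNat 133, .negSucc 435),
  (31, .ofNat 126, .negSucc 495),
  (32, .negSucc 223, .negSucc 29),
  (33, .negSucc 7, .ofNat 24),
  (34, .ofNat 390, .ofNat 856),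
  (35, .negSucc 226, .negSucc 432)]

/-- trivial elements -/
noncomputable def z1t1 : List (ℕ × ℤ × ℤ) := [
  (36, .ofNat 2, .ofNat 95),
  (37, .negSucc 29, .ofNat 716),
  (38, .negSucc 31, .negSucc 55),
  (39, .negSucc 92, .negSucc 17),
  (40, .ofNat 618, .ofNat 562),
  (41, .ofNat 16, .negSucc 15),
  (42, .ofNat 339, .ofNat 93),
  (43, .negSucc 23, .ofNat 24),
  (45, .negSucc 92, .ofNat 87),
  (46, .negSucc 15, .ofNat 16),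
  (47, .ofNat 186, .negSucc 214),
  (48, .negSucc 185, .ofNat 238),
  (49, .ofNat 186, .ofNat 254),
  (50, .ofNat 0, .negSucc 342),
  (51, .negSucc 527, .ofNat 528),
  (52, .ofNat 116, .ofNat 180),
  (53, .ofNat 94, .ofNat 296),
  (54, .negSucc 11, .ofNat 0),
  (55, .negSucc 15, .ofNat 0),
  (56, .ofNat 16, .ofNat 1072),
  (57, .negSucc 92, .ofNat 107),
  (58, .ofNat 578, .negSucc 801),
  (59, .ofNat 83, .negSucc 82),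
  (60, .ofNat 93, .ofNat 387),
  (61, .negSucc 885, .negSucc 263),
  (62, .ofNat 264, .negSucc 711),
  (63, .ofNat 101, .negSucc 7),
  (64, .ofNat 0, .ofNat 10),
  (65, .ofNat 85, .ofNat 117),
  (66, .negSucc 407, .ofNat 100),
  (67, .negSucc 15, .ofNat 16),
  (68, .negSucc 631, .ofNat 22)]

/-- trivial elements -/
noncomputable def z1t2 : List (ℕ × ℤ × ℤ) := [
  (69, .ofNat 638, .negSucc 209),
  (70, .ofNat 8, .negSucc 7)]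

/-- the identity -/
noncomputable def z1 : Id3 := ⟨[z1r0, z1r1, z1r2], [z1t0, z1t1, z1t2]⟩

/-- the element -/
noncomputable def z1L : List Tm := [
  ⟨0, 0, [.ofNat 0, .ofNat 0, .ofNat 0, .ofNat 0, .ofNat 0, .ofNat 15, .ofNat 0, .ofNat 0, .negSucc 9, .ofNat 0, .ofNat 2, .ofNat 0]⟩,
  ⟨1, 0, [.ofNat 0, .ofNat 0, .ofNat 0, .ofNat 0, .ofNat 0, .negSucc 9, .ofNat 0, .ofNat 7, .ofNat 0, .ofNat 0, .ofNat 12, .negSucc 2]⟩,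
  ⟨3, 0, [.ofNat 0, .ofNat 0, .ofNat 0, .ofNat 0, .ofNat 0, .ofNat 0, .ofNat 0, .ofNat 0, .ofNat 2, .negSucc 1, .ofNat 4, .ofNat 0]⟩,
  ⟨4, 0, [.ofNat 0, .ofNat 0, .ofNat 0, .ofNat 0, .ofNat 0, .ofNat 0, .ofNat 21, .ofNat 0, .negSucc 4, .negSucc 8, .ofNat 4, .ofNat 0]⟩,
  ⟨12, 0, [.ofNat 0, .ofNat 0, .ofNat 0, .ofNat 0, .ofNat 0, .negSucc 7, .ofNat 8, .ofNat 0, .ofNat 0, .ofNat 0, .ofNat 8, .negSucc 1]⟩,
  ⟨14, 0, [.ofNat 0, .ofNat 0, .ofNat 0, .ofNat 0, .ofNat 0, .negSucc 15, .ofNat 0, .negSucc 7, .ofNat 8, .ofNat 0, .ofNat 0, .negSucc 22]⟩,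
  ⟨15, 0, [.ofNat 0, .ofNat 0, .ofNat 0, .ofNat 0, .ofNat 0, .ofNat 1, .negSucc 1, .ofNat 0, .ofNat 0, .ofNat 1, .ofNat 0, .ofNat 0]⟩]

theorem z1_pad : padS E.length x6c.cls x6c_l1 pool z1L = true := by decide +kernel

theorem z1_A : z1.chkA ((E ++ Gc2).map El.isK) pool = true := by decide +kernel

theorem z1_B : z1.chkB pool [(8, z1L)] = true := by decide +kernel

theorem z1_C : z1.chkC 21 (E ++ Gc2).length 64 2 pool [(8, z1L)] = true := by decide +kernel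

/-- **a trivial element** -/
theorem z1_zero {k : Type*} [Field k] [CharZero k] {F : Type*} [Field F] [Algebra k F] {x y : F}
    (hx : TN.Tr k x) (hC : Cc2.Eq x y) : zt (Gc2.map (El.v x y)) x6c.cls x6c_l1 ∈ TN.KC k F :=
  poolOk.zero hx hC (by decide) z1_pad z1_A z1_B z1_C

end Pool.Agent.AXX6c
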