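import Pool.Agent.Lib_helper87.AX.Cd
import Pool.Agent.Lib_helper40.MC.X6c.Dat
import Pool.Agent.Lib_helper60.N6S.K

/-!
# `t = -(1 / 5)`: relations between the symbols
-/

set_option autoImplicit false
set_option linter.unusedVariables false
set_option maxRecDepth 100000

namespace Pool.Agent.AXX6cW

open Pool.Agent.KC72 Pool.Agent.AX Pool.Agent.MK4 Pool.Agent.MCX6c

/-- the auxiliary functions -/
noncomputable def E : List El := [⟨[.ofNat 2, .ofNat 15], [.ofNat 25], 25⟩, ⟨[.ofNat 0, .ofNat 2], [.ofNat 5], 5⟩, ⟨[.ofNat 4, .ofNat 20], [.ofNat 25], 25⟩]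

/-- the classes -/
noncomputable def pool : List (Mo × Mo) := [
  ((true, [.ofNat 0, .ofNat 0, .ofNat 0, .ofNat 1, .ofNat 0, .ofNat 0, .ofNat 0, .ofNat 0, .negSucc 1, .ofNat 2]), (false, [.ofNat 0, .ofNat 0, .ofNat 0, .ofNat 0, .ofNat 1, .ofNat 0, .ofNat 0, .ofNat 0, .negSucc 1, .ofNat 2])),
  ((false, [.ofNat 0, .ofNat 0, .ofNat 0, .negSucc 1, .ofNat 0, .ofNat 0, .ofNat 1, .ofNat 0, .ofNat 0, .ofNat 0]), (false, [.ofNat 0, .ofNat 0, .ofNat 0, .negSucc 1, .negSucc 0, .ofNat 0, .ofNat 1, .ofNat 1, .ofNat 0, .ofNat 0])),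
  ((false, [.ofNat 0, .ofNat 0, .ofNat 0, .ofNat 1, .negSucc 0, .ofNat 0, .negSucc 0, .ofNat 1, .ofNat 0, .ofNat 0]), (true, [.ofNat 0, .ofNat 0, .ofNat 0, .ofNat 0, .negSucc 0, .negSucc 0, .negSucc 0, .ofNat 2, .ofNat 0, .negSucc 0])),
  ((false, [.ofNat 0, .ofNat 0, .ofNat 0, .ofNat 0, .ofNat 1, .negSucc 0, .ofNat 0, .ofNat 0, .negSucc 1, .ofNat 1]), (true, [.ofNat 0, .ofNat 0, .ofNat 0, .ofNat 1, .ofNat 0, .negSucc 0, .ofNat 0, .ofNat 0, .negSucc 1, .ofNat 0])),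
  ((false, [.ofNat 0, .ofNat 0, .ofNat 0, .ofNat 0, .negSucc 0, .ofNat 1, .ofNat 1, .negSucc 0, .ofNat 0, .ofNat 0]), (false, [.ofNat 0, .ofNat 0, .ofNat 0, .ofNat 0, .ofNat 0, .ofNat 1, .ofNat 1, .negSucc 1, .ofNat 0, .negSucc 0])),
  ((true, [.ofNat 0, .ofNat 0, .ofNat 0, .ofNat 0, .ofNat 1, .ofNat 0, .negSucc 0, .ofNat 0, .ofNat 0, .ofNat 0]), (false, [.ofNat 0, .ofNat 0, .ofNat 0, .ofNat 1, .ofNat 1, .ofNat 1, .negSucc 0, .negSucc 0, .ofNat 0, .ofNat 0])),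
  ((true, [.ofNat 0, .ofNat 0, .ofNat 0, .ofNat 1, .ofNat 0, .ofNat 0, .ofNat 0, .ofNat 0, .ofNat 0, .ofNat 1]), (false, [.ofNat 0, .ofNat 0, .ofNat 0, .ofNat 0, .ofNat 0, .ofNat 1, .ofNat 0, .ofNat 0, .ofNat 0, .ofNat 1])),
  ((false, [.ofNat 0, .ofNat 0, .ofNat 0, .negSucc 1, .ofNat 0, .ofNat 0, .ofNat 1, .ofNat 0, .ofNat 2, .negSucc 0]), (false, [.ofNat 0, .ofNat 0, .ofNat 0, .negSucc 1, .ofNat 0, .negSucc 0, .ofNat 0, .ofNat 2, .ofNat 0, .ofNat 0])),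
  ((false, [.ofNat 0, .ofNat 0, .ofNat 0, .ofNat 1, .negSucc 0, .ofNat 0, .negSucc 0, .ofNat 1, .ofNat 2, .negSucc 0]), (false, [.ofNat 0, .ofNat 0, .ofNat 0, .ofNat 0, .negSucc 1, .negSucc 0, .ofNat 0, .ofNat 2, .ofNat 0, .negSucc 0])),
  ((false, [.ofNat 0, .ofNat 0, .ofNat 0, .ofNat 0, .ofNat 1, .negSucc 0, .ofNat 0, .ofNat 0, .ofNat 0, .ofNat 0]), (false, [.ofNat 0, .ofNat 0, .ofNat 0, .ofNat 0, .ofNat 0, .negSucc 0, .ofNat 0, .ofNat 0, .ofNat 0, .negSucc 1])),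
  ((false, [.ofNat 0, .ofNat 0, .ofNat 0, .ofNat 0, .negSucc 0, .ofNat 1, .ofNat 1, .negSucc 0, .ofNat 2, .negSucc 0]), (false, [.ofNat 0, .ofNat 0, .ofNat 0, .ofNat 2, .ofNat 0, .ofNat 1, .ofNat 0, .negSucc 1, .ofNat 0, .negSucc 0])),
  ((true, [.ofNat 0, .ofNat 0, .ofNat 0, .ofNat 0, .ofNat 1, .ofNat 0, .negSucc 0, .ofNat 0, .ofNat 2, .negSucc 0]), (false, [.ofNat 0, .ofNat 0, .ofNat 0, .ofNat 0, .ofNat 2, .ofNat 1, .ofNat 0, .negSucc 1, .ofNat 0, .ofNat 0])),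
  ((true, [.ofNat 0, .ofNat 0, .ofNat 0, .negSucc 0, .ofNat 0, .ofNat 0, .ofNat 1, .ofNat 0, .ofNat 0, .ofNat 1]), (false, [.ofNat 0, .ofNat 0, .ofNat 0, .negSucc 0, .ofNat 0, .ofNat 0, .ofNat 0, .ofNat 1, .ofNat 0, .ofNat 1])),
  ((false, [.ofNat 0, .ofNat 0, .ofNat 0, .negSucc 0, .negSucc 0, .ofNat 0, .ofNat 0, .ofNat 1, .ofNat 2, .negSucc 0]), (false, [.ofNat 0, .ofNat 0, .ofNat 0, .negSucc 0, .negSucc 0, .negSucc 0, .ofNat 0, .ofNat 2, .ofNat 0, .ofNat 0])),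
  ((false, [.ofNat 0, .ofNat 0, .ofNat 0, .ofNat 1, .ofNat 0, .negSucc 0, .negSucc 0, .ofNat 1, .ofNat 0, .ofNat 0]), (true, [.ofNat 0, .ofNat 0, .ofNat 0, .ofNat 0, .negSucc 0, .negSucc 0, .ofNat 0, .ofNat 1, .ofNat 0, .negSucc 0])),
  ((false, [.ofNat 0, .ofNat 0, .ofNat 0, .ofNat 5, .ofNat 2, .negSucc 1, .negSucc 1, .negSucc 0, .negSucc 3, .ofNat 1]), (true, [.ofNat 0, .ofNat 0, .ofNat 0, .ofNat 0, .negSucc 0, .negSucc 2, .ofNat 2, .ofNat 1, .negSucc 3, .ofNat 1])),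
  ((false, [.ofNat 0, .ofNat 0, .ofNat 0, .ofNat 1, .ofNat 2, .negSucc 1, .negSucc 1, .ofNat 3, .negSucc 3, .ofNat 5]), (true, [.ofNat 0, .ofNat 0, .ofNat 0, .ofNat 0, .ofNat 3, .ofNat 1, .ofNat 2, .negSucc 2, .negSucc 3, .ofNat 5])),
  ((false, [.ofNat 0, .ofNat 1, .ofNat 0, .ofNat 0, .ofNat 0, .ofNat 0, .negSucc 0, .ofNat 0, .ofNat 0, .ofNat 0]), (true, [.ofNat 0, .ofNat 0, .ofNat 0, .ofNat 1, .ofNat 0, .ofNat 0, .negSucc 0, .ofNat 0, .ofNat 1, .negSucc 0])),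
  ((false, [.ofNat 0, .ofNat 1, .ofNat 0, .ofNat 0, .ofNat 0, .ofNat 0, .ofNat 0, .negSucc 0, .negSucc 0, .ofNat 0]), (false, [.ofNat 0, .ofNat 0, .ofNat 0, .ofNat 0, .ofNat 0, .ofNat 0, .ofNat 1, .negSucc 0, .negSucc 0, .ofNat 0])),
  ((false, [.ofNat 1, .ofNat 0, .ofNat 0, .negSucc 0, .negSucc 0, .negSucc 0, .ofNat 0, .ofNat 1, .ofNat 0, .ofNat 0]), (false, [.ofNat 0, .ofNat 0, .ofNat 0, .negSucc 0, .negSucc 0, .ofNat 0, .ofNat 0, .ofNat 1, .ofNat 1, .negSucc 0])),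
  ((false, [.ofNat 1, .ofNat 0, .ofNat 0, .negSucc 0, .negSucc 0, .negSucc 0, .ofNat 0, .ofNat 1, .ofNat 1, .ofNat 0]), (true, [.ofNat 0, .ofNat 0, .ofNat 0, .negSucc 0, .negSucc 0, .negSucc 0, .ofNat 0, .ofNat 2, .ofNat 0, .ofNat 0])),
  ((false, [.ofNat 1, .ofNat 0, .ofNat 0, .ofNat 0, .ofNat 0, .ofNat 0, .ofNat 0, .negSucc 0, .ofNat 0, .ofNat 0]), (true, [.ofNat 0, .ofNat 0, .ofNat 0, .ofNat 0, .ofNat 0, .ofNat 1, .ofNat 0, .negSucc 0, .ofNat 1, .negSucc 0])),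
  ((false, [.negSucc 0, .ofNat 0, .ofNat 0, .ofNat 0, .ofNat 1, .ofNat 2, .ofNat 1, .negSucc 1, .ofNat 0, .ofNat 0]), (true, [.negSucc 0, .ofNat 1, .ofNat 0, .ofNat 0, .ofNat 0, .ofNat 1, .ofNat 0, .negSucc 0, .ofNat 0, .negSucc 0])),
  ((false, [.negSucc 0, .ofNat 0, .ofNat 1, .negSucc 0, .ofNat 0, .ofNat 1, .ofNat 1, .negSucc 0, .ofNat 0, .ofNat 0]), (true, [.negSucc 0, .ofNat 0, .ofNat 0, .ofNat 1, .ofNat 0, .ofNat 1, .ofNat 0, .negSucc 0, .ofNat 1, .negSucc 1])),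
  ((false, [.ofNat 0, .negSucc 0, .ofNat 0, .ofNat 1, .ofNat 1, .ofNat 1, .ofNat 1, .negSucc 1, .ofNat 0, .ofNat 0]), (true, [.ofNat 0, .negSucc 0, .ofNat 1, .negSucc 0, .negSucc 0, .ofNat 0, .ofNat 1, .ofNat 0, .ofNat 1, .negSucc 0])),
  ((false, [.ofNat 0, .negSucc 0, .ofNat 0, .ofNat 2, .ofNat 1, .ofNat 0, .negSucc 0, .ofNat 0, .ofNat 0, .ofNat 0]), (true, [.ofNat 0, .negSucc 0, .ofNat 0, .ofNat 0, .ofNat 0, .ofNat 1, .ofNat 0, .ofNat 0, .ofNat 2, .negSucc 0])),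
  ((false, [.ofNat 0, .ofNat 0, .ofNat 0, .ofNat 1, .ofNat 0, .negSucc 0, .negSucc 1, .ofNat 2, .ofNat 0, .ofNat 0]), (true, [.ofNat 1, .ofNat 0, .ofNat 0, .ofNat 0, .negSucc 0, .negSucc 0, .negSucc 0, .ofNat 1, .ofNat 1, .negSucc 0])),
  ((false, [.ofNat 0, .ofNat 1, .negSucc 0, .ofNat 2, .ofNat 1, .ofNat 0, .negSucc 0, .negSucc 0, .negSucc 0, .ofNat 0]), (false, [.ofNat 0, .ofNat 0, .negSucc 0, .ofNat 1, .ofNat 0, .negSucc 0, .ofNat 0, .ofNat 1, .negSucc 0, .ofNat 0])),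
  ((false, [.ofNat 0, .ofNat 1, .ofNat 0, .negSucc 0, .ofNat 0, .ofNat 1, .ofNat 1, .negSucc 1, .ofNat 0, .ofNat 0]), (true, [.ofNat 0, .ofNat 0, .ofNat 0, .negSucc 0, .negSucc 0, .ofNat 1, .ofNat 1, .negSucc 0, .ofNat 2, .negSucc 1])),
  ((false, [.ofNat 0, .ofNat 1, .ofNat 0, .ofNat 1, .ofNat 0, .negSucc 0, .negSucc 0, .ofNat 0, .negSucc 0, .ofNat 0]), (false, [.ofNat 1, .ofNat 0, .ofNat 0, .ofNat 0, .negSucc 0, .negSucc 1, .ofNat 0, .ofNat 1, .negSucc 0, .ofNat 0])),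
  ((false, [.ofNat 1, .negSucc 0, .ofNat 0, .ofNat 0, .ofNat 0, .ofNat 0, .ofNat 1, .negSucc 0, .ofNat 0, .ofNat 0]), (false, [.ofNat 0, .negSucc 0, .ofNat 0, .ofNat 0, .negSucc 0, .ofNat 0, .ofNat 1, .ofNat 0, .ofNat 1, .negSucc 1])),
  ((false, [.ofNat 1, .negSucc 0, .ofNat 0, .ofNat 1, .ofNat 0, .negSucc 0, .ofNat 0, .ofNat 0, .ofNat 0, .ofNat 0]), (true, [.ofNat 0, .negSucc 0, .ofNat 0, .ofNat 0, .negSucc 0, .negSucc 0, .ofNat 1, .ofNat 1, .ofNat 0, .negSucc 0])),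
  ((false, [.ofNat 1, .ofNat 0, .ofNat 0, .negSucc 1, .negSucc 0, .ofNat 0, .ofNat 1, .ofNat 0, .ofNat 1, .ofNat 0]), (true, [.ofNat 0, .ofNat 0, .ofNat 0, .negSucc 1, .negSucc 0, .ofNat 0, .ofNat 2, .ofNat 0, .ofNat 0, .ofNat 0])),
  ((false, [.ofNat 1, .ofNat 0, .ofNat 0, .ofNat 1, .ofNat 0, .negSucc 0, .ofNat 0, .negSucc 0, .negSucc 0, .ofNat 0]), (false, [.ofNat 0, .ofNat 0, .ofNat 1, .negSucc 0, .negSucc 0, .negSucc 0, .ofNat 1, .ofNat 0, .negSucc 0, .ofNat 0])),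
  ((false, [.ofNat 0, .negSucc 0, .ofNat 1, .negSucc 0, .ofNat 0, .ofNat 1, .ofNat 2, .negSucc 1, .ofNat 0, .ofNat 0]), (true, [.ofNat 0, .negSucc 0, .ofNat 0, .ofNat 0, .negSucc 0, .ofNat 1, .ofNat 1, .negSucc 0, .ofNat 3, .negSucc 2])),
  ((false, [.ofNat 0, .ofNat 1, .negSucc 0, .ofNat 2, .ofNat 1, .ofNat 0, .negSucc 1, .ofNat 0, .ofNat 0, .ofNat 0]), (true, [.ofNat 1, .ofNat 0, .negSucc 0, .ofNat 1, .ofNat 0, .ofNat 0, .negSucc 0, .ofNat 0, .ofNat 2, .negSucc 0])),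
  ((false, [.ofNat 0, .ofNat 1, .negSucc 0, .ofNat 3, .ofNat 2, .ofNat 1, .negSucc 1, .negSucc 1, .ofNat 0, .ofNat 0]), (true, [.ofNat 0, .ofNat 0, .negSucc 0, .ofNat 1, .ofNat 1, .ofNat 2, .negSucc 0, .negSucc 0, .ofNat 3, .negSucc 0])),
  ((false, [.ofNat 0, .ofNat 1, .ofNat 0, .negSucc 2, .negSucc 0, .ofNat 1, .ofNat 1, .ofNat 0, .ofNat 1, .ofNat 0]), (true, [.ofNat 1, .ofNat 0, .ofNat 0, .negSucc 2, .negSucc 1, .negSucc 0, .ofNat 2, .ofNat 1, .ofNat 0, .ofNat 0])),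
  ((false, [.ofNat 1, .negSucc 0, .ofNat 0, .ofNat 1, .ofNat 0, .negSucc 0, .negSucc 0, .ofNat 1, .ofNat 0, .ofNat 0]), (true, [.ofNat 0, .negSucc 0, .ofNat 1, .negSucc 0, .negSucc 0, .ofNat 0, .ofNat 0, .ofNat 1, .ofNat 1, .negSucc 0])),
  ((false, [.ofNat 1, .negSucc 0, .ofNat 1, .negSucc 0, .negSucc 0, .negSucc 0, .ofNat 0, .ofNat 1, .ofNat 0, .ofNat 0]), (true, [.ofNat 0, .negSucc 0, .ofNat 0, .ofNat 2, .ofNat 0, .ofNat 0, .negSucc 0, .ofNat 0, .ofNat 1, .negSucc 1])),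
  ((false, [.ofNat 1, .ofNat 0, .negSucc 0, .ofNat 3, .ofNat 1, .negSucc 0, .negSucc 0, .negSucc 0, .negSucc 0, .ofNat 0]), (false, [.ofNat 0, .ofNat 0, .negSucc 0, .ofNat 1, .ofNat 0, .negSucc 0, .ofNat 1, .ofNat 0, .negSucc 0, .ofNat 0])),
  ((false, [.ofNat 1, .ofNat 0, .ofNat 0, .negSucc 0, .ofNat 0, .ofNat 1, .ofNat 2, .negSucc 2, .ofNat 0, .ofNat 0]), (true, [.ofNat 0, .ofNat 1, .ofNat 0, .negSucc 0, .negSucc 0, .ofNat 1, .ofNat 1, .negSucc 1, .ofNat 1, .negSucc 1])),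
  ((false, [.ofNat 1, .ofNat 0, .ofNat 0, .ofNat 0, .negSucc 0, .negSucc 1, .negSucc 1, .ofNat 3, .ofNat 0, .ofNat 0]), (true, [.ofNat 0, .ofNat 0, .ofNat 1, .negSucc 0, .negSucc 1, .negSucc 0, .negSucc 0, .ofNat 2, .ofNat 1, .negSucc 1])),
  ((false, [.ofNat 1, .ofNat 0, .ofNat 1, .negSucc 0, .negSucc 0, .negSucc 0, .ofNat 1, .negSucc 0, .negSucc 0, .ofNat 0]), (false, [.ofNat 0, .ofNat 1, .ofNat 0, .ofNat 0, .ofNat 0, .ofNat 0, .ofNat 1, .negSucc 1, .negSucc 0, .ofNat 0])),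
  ((false, [.ofNat 1, .ofNat 1, .negSucc 0, .ofNat 0, .ofNat 0, .ofNat 0, .ofNat 0, .negSucc 0, .ofNat 0, .ofNat 0]), (true, [.ofNat 0, .ofNat 0, .negSucc 0, .ofNat 0, .negSucc 0, .ofNat 0, .ofNat 1, .ofNat 0, .ofNat 1, .negSucc 1])),
  ((false, [.ofNat 1, .ofNat 1, .ofNat 0, .negSucc 1, .negSucc 0, .ofNat 0, .ofNat 1, .negSucc 0, .ofNat 0, .ofNat 0]), (false, [.ofNat 0, .ofNat 0, .ofNat 0, .negSucc 1, .negSucc 0, .ofNat 1, .ofNat 2, .negSucc 0, .ofNat 1, .negSucc 0])),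
  ((false, [.ofNat 1, .ofNat 1, .ofNat 0, .ofNat 0, .negSucc 0, .negSucc 1, .negSucc 0, .ofNat 1, .negSucc 0, .ofNat 0]), (false, [.ofNat 0, .ofNat 0, .ofNat 1, .ofNat 0, .negSucc 0, .negSucc 1, .negSucc 0, .ofNat 2, .negSucc 0, .ofNat 0])),
  ((false, [.ofNat 2, .ofNat 0, .ofNat 0, .negSucc 0, .negSucc 0, .negSucc 0, .ofNat 0, .ofNat 0, .ofNat 0, .ofNat 0]), (true, [.ofNat 0, .ofNat 0, .ofNat 0, .negSucc 0, .negSucc 0, .ofNat 1, .ofNat 0, .ofNat 0, .ofNat 2, .negSucc 1])),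
  ((false, [.ofNat 0, .negSucc 1, .ofNat 2, .negSucc 0, .negSucc 0, .negSucc 0, .ofNat 0, .ofNat 2, .ofNat 0, .ofNat 0]), (true, [.ofNat 0, .negSucc 1, .ofNat 0, .ofNat 0, .negSucc 0, .ofNat 1, .ofNat 0, .ofNat 1, .ofNat 4, .negSucc 2])),
  ((false, [.ofNat 0, .negSucc 0, .ofNat 1, .ofNat 0, .negSucc 0, .negSucc 1, .negSucc 1, .ofNat 4, .ofNat 0, .ofNat 0]), (true, [.ofNat 1, .negSucc 0, .ofNat 0, .ofNat 0, .negSucc 1, .negSucc 0, .negSucc 0, .ofNat 2, .ofNat 3, .negSucc 2])),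
  ((false, [.ofNat 0, .negSucc 0, .ofNat 1, .ofNat 2, .ofNat 1, .ofNat 0, .negSucc 1, .ofNat 0, .ofNat 0, .ofNat 0]), (true, [.ofNat 1, .negSucc 0, .ofNat 0, .ofNat 0, .ofNat 0, .ofNat 1, .negSucc 0, .ofNat 0, .ofNat 3, .negSucc 0]))]

theorem poolOk : PoolOk Cc2 E Gc2 pool :=
  ⟨by decide, by decide +kernel, by decide +kernel⟩

theorem tab : chkT E.length N6S.clsS2 pool = true := by decide +kernel

/-- the relations for the class `16` -/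
noncomputable def r16 : List (Rel × ℤ) := [
  (⟨(12, 0), (14, 5), (32, 4), some (26, 0), some (20, 1)⟩, .ofNat 4),
  (⟨(12, 0), (22, 4), (38, 0), some (42, 0), some (24, 2)⟩, .ofNat 2),
  (⟨(12, 0), (27, 2), (38, 1), some (40, 4), some (31, 4)⟩, .ofNat 2),
  (⟨(13, 0), (20, 0), (21, 5), some (19, 5), none⟩, .negSucc 3),
  (⟨(13, 0), (23, 5), (34, 5), some (35, 4), some (30, 3)⟩, .negSucc 1),
  (⟨(13, 0), (29, 0), (36, 5), some (35, 5), some (33, 2)⟩, .negSucc 1),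
  (⟨(14, 0), (17, 1), (21, 1), some (30, 1), some (31, 1)⟩, .ofNat 2),
  (⟨(14, 0), (18, 2), (29, 2), some (19, 1), some (22, 3)⟩, .ofNat 2),
  (⟨(15, 0), (36, 5), (37, 0), some (50, 2), some (40, 1)⟩, .negSucc 0),
  (⟨(16, 0), (34, 4), (41, 1), some (49, 2), some (42, 4)⟩, .ofNat 1),
  (⟨(17, 0), (19, 3), (45, 3), some (28, 3), some (26, 1)⟩, .negSucc 1),
  (⟨(18, 0), (21, 1), (25, 1), some (45, 3), some (32, 3)⟩, .negSucc 1),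
  (⟨(23, 0), (27, 4), (32, 5), some (28, 3), some (44, 3)⟩, .ofNat 2),
  (⟨(24, 0), (25, 0), (26, 0), some (46, 1), some (33, 1)⟩, .ofNat 2),
  (⟨(34, 0), (43, 0), (46, 0), some (49, 1), some (48, 1)⟩, .negSucc 0),
  (⟨(36, 0), (39, 3), (44, 3), some (48, 1), some (50, 1)⟩, .negSucc 0),
  (⟨(37, 0), (39, 4), (47, 4), some (40, 1), some (44, 1)⟩, .ofNat 1),
  (⟨(41, 0), (42, 2), (47, 2), some (43, 3), some (46, 5)⟩, .ofNat 1)]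

/-- the coefficients for the class `16` -/
noncomputable def q16 : List ℤ := [.ofNat 0, .ofNat 0, .ofNat 0, .ofNat 0, .ofNat 0, .ofNat 0, .ofNat 0, .ofNat 0, .ofNat 0, .ofNat 0, .ofNat 0, .ofNat 0, .negSucc 7, .ofNat 8, .negSucc 7, .ofNat 1, .negSucc 0]

theorem c16 : chk2 9 ((E ++ Gc2).map El.isK) pool r16 q16 = true := by decide +kernel

/-- **the relation between the symbols for the class `16`** -/
theorem s16 {k : Type*} [Field k] [CharZero k] {F : Type*} [Field F] [Algebra k F] {x y : F}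
    (hx : TN.Tr k x) (hC : Cc2.Eq x y) : ssum (Gc2.map (El.v x y)) N6S.clsS2 q16 ∈ SC k F :=
  poolOk.rel2 hx hC tab (by decide +kernel) c16

/-- relations -/
noncomputable def w16x0r0 : List (Rel × List ℤ) := [
  (⟨(12, 0), (14, 5), (32, 4), some (26, 0), some (20, 1)⟩, [.ofNat 0, .ofNat 0, .ofNat 0, .ofNat 4, .ofNat 8, .negSucc 7, .negSucc 7, .ofNat 12, .negSucc 15, .ofNat 20]),
  (⟨(12, 0), (22, 4), (38, 0), some (42, 0), some (24, 2)⟩, [.ofNat 0, .ofNat 0, .ofNat 0, .ofNat 2, .ofNat 4, .negSucc 3, .negSucc 3, .ofNat 6, .negSucc 7, .ofNat 10]),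
  (⟨(12, 0), (27, 2), (38, 1), some (40, 4), some (31, 4)⟩, [.ofNat 0, .ofNat 0, .ofNat 0, .ofNat 2, .ofNat 4, .negSucc 3, .negSucc 3, .ofNat 6, .negSucc 7, .ofNat 10]),
  (⟨(13, 0), (20, 0), (21, 5), some (19, 5), none⟩, [.ofNat 0, .ofNat 0, .ofNat 0, .negSucc 3, .negSucc 7, .ofNat 8, .ofNat 8, .negSucc 11, .ofNat 16, .negSucc 19]),
  (⟨(13, 0), (23, 5), (34, 5), some (35, 4), some (30, 3)⟩, [.ofNat 0, .ofNat 0, .ofNat 0, .negSucc 1, .negSucc 3, .ofNat 4, .ofNat 4, .negSucc 5, .ofNat 8, .negSucc 9]),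
  (⟨(13, 0), (29, 0), (36, 5), some (35, 5), some (33, 2)⟩, [.ofNat 0, .ofNat 0, .ofNat 0, .negSucc 1, .negSucc 3, .ofNat 4, .ofNat 4, .negSucc 5, .ofNat 8, .negSucc 9]),
  (⟨(14, 0), (17, 1), (21, 1), some (30, 1), some (31, 1)⟩, [.ofNat 0, .ofNat 0, .ofNat 0, .ofNat 2, .ofNat 4, .negSucc 3, .negSucc 3, .ofNat 6, .negSucc 7, .ofNat 10]),
  (⟨(14, 0), (18, 2), (29, 2), some (19, 1), some (22, 3)⟩, [.ofNat 0, .ofNat 0, .ofNat 0, .ofNat 2, .ofNat 4, .negSucc 3, .negSucc 3, .ofNat 6, .negSucc 7, .ofNat 10]),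
  (⟨(15, 0), (36, 5), (37, 0), some (50, 2), some (40, 1)⟩, [.ofNat 0, .ofNat 0, .ofNat 0, .negSucc 0, .negSucc 1, .ofNat 2, .ofNat 2, .negSucc 2, .ofNat 4, .negSucc 4]),
  (⟨(16, 0), (34, 4), (41, 1), some (49, 2), some (42, 4)⟩, [.ofNat 0, .ofNat 0, .ofNat 0, .ofNat 1, .ofNat 2, .negSucc 1, .negSucc 1, .ofNat 3, .negSucc 3, .ofNat 5]),
  (⟨(17, 0), (19, 3), (45, 3), some (28, 3), some (26, 1)⟩, [.ofNat 0, .ofNat 0, .ofNat 0, .negSucc 1, .negSucc 3, .ofNat 4, .ofNat 4, .negSucc 5, .ofNat 8, .negSucc 9]),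
  (⟨(18, 0), (21, 1), (25, 1), some (45, 3), some (32, 3)⟩, [.ofNat 0, .ofNat 0, .ofNat 0, .negSucc 1, .negSucc 3, .ofNat 4, .ofNat 4, .negSucc 5, .ofNat 8, .negSucc 9]),
  (⟨(23, 0), (27, 4), (32, 5), some (28, 3), some (44, 3)⟩, [.ofNat 0, .ofNat 0, .ofNat 0, .ofNat 2, .ofNat 4, .negSucc 3, .negSucc 3, .ofNat 6, .negSucc 7, .ofNat 10]),
  (⟨(24, 0), (25, 0), (26, 0), some (46, 1), some (33, 1)⟩, [.ofNat 0, .ofNat 0, .ofNat 0, .ofNat 2, .ofNat 4, .negSucc 3, .negSucc 3, .ofNat 6, .negSucc 7, .ofNat 10]),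
  (⟨(34, 0), (43, 0), (46, 0), some (49, 1), some (48, 1)⟩, [.ofNat 0, .ofNat 0, .ofNat 0, .negSucc 0, .negSucc 1, .ofNat 2, .ofNat 2, .negSucc 2, .ofNat 4, .negSucc 4]),
  (⟨(36, 0), (39, 3), (44, 3), some (48, 1), some (50, 1)⟩, [.ofNat 0, .ofNat 0, .ofNat 0, .negSucc 0, .negSucc 1, .ofNat 2, .ofNat 2, .negSucc 2, .ofNat 4, .negSucc 4])]

/-- relations -/
noncomputable def w16x0r1 : List (Rel × List ℤ) := [
  (⟨(37, 0), (39, 4), (47, 4), some (40, 1), some (44, 1)⟩, [.ofNat 0, .ofNat 0, .ofNat 0, .ofNat 1, .ofNat 2, .negSucc 1, .negSucc 1, .ofNat 3, .negSucc 3, .ofNat 5]),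
  (⟨(41, 0), (42, 2), (47, 2), some (43, 3), some (46, 5)⟩, [.ofNat 0, .ofNat 0, .ofNat 0, .ofNat 1, .ofNat 2, .negSucc 1, .negSucc 1, .ofNat 3, .negSucc 3, .ofNat 5])]

/-- trivial elements -/
noncomputable def w16x0t0 : List (ℕ × ℤ × ℤ) := [
  (16, .negSucc 0, .ofNat 0)]

/-- the identity -/
noncomputable def w16x0 : Id3 := ⟨[w16x0r0, w16x0r1], [w16x0t0]⟩

/-- the element -/
noncomputable def w16x0L : List Tm := [
  ⟨12, 0, [.ofNat 0, .ofNat 0, .ofNat 0, .negSucc 7, .negSucc 15, .ofNat 16, .ofNat 16, .negSucc 23, .ofNat 32, .negSucc 39]⟩,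
  ⟨13, 0, [.ofNat 0, .ofNat 0, .ofNat 0, .ofNat 8, .ofNat 16, .negSucc 15, .negSucc 15, .ofNat 24, .negSucc 31, .ofNat 40]⟩,
  ⟨14, 0, [.ofNat 0, .ofNat 0, .ofNat 0, .negSucc 7, .negSucc 15, .ofNat 16, .ofNat 16, .negSucc 23, .ofNat 32, .negSucc 39]⟩,
  ⟨15, 0, [.ofNat 0, .ofNat 0, .ofNat 0, .ofNat 1, .ofNat 2, .negSucc 1, .negSucc 1, .ofNat 3, .negSucc 3, .ofNat 5]⟩]

theorem w16x0_pad : padS E.length x6c.cls x6c_l2 pool w16x0L = true := by decide +kernel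

theorem w16x0_A : w16x0.chkA ((E ++ Gc2).map El.isK) pool = true := by decide +kernel

theorem w16x0_B : w16x0.chkB pool [(1, w16x0L)] = true := by decide +kernel

theorem w16x0_C : w16x0.chkC 13 (E ++ Gc2).length 64 1 pool [(1, w16x0L)] = true := by decide +kernel

/-- **a trivial element** -/
theorem w16x0_zero {k : Type*} [Field k] [CharZero k] {F : Type*} [Field F] [Algebra k F] {x y : F}
    (hx : TN.Tr k x) (hC : Cc2.Eq x y) : zt (Gc2.map (El.v x y)) x6c.cls x6c_l2 ∈ TN.KC k F :=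
  poolOk.zero hx hC (by decide) w16x0_pad w16x0_A w16x0_B w16x0_C

/-- relations -/
noncomputable def w16x1r0 : List (Rel × List ℤ) := [
  (⟨(12, 0), (14, 5), (32, 4), some (26, 0), some (20, 1)⟩, [.ofNat 0, .ofNat 0, .ofNat 0, .ofNat 0, .ofNat 12, .ofNat 4, .ofNat 8, .negSucc 11, .negSucc 15, .ofNat 20]),
  (⟨(12, 0), (22, 4), (38, 0), some (42, 0), some (24, 2)⟩, [.ofNat 0, .ofNat 0, .ofNat 0, .ofNat 0, .ofNat 6, .ofNat 2, .ofNat 4, .negSucc 5, .negSucc 7, .ofNat 10]),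
  (⟨(12, 0), (27, 2), (38, 1), some (40, 4), some (31, 4)⟩, [.ofNat 0, .ofNat 0, .ofNat 0, .ofNat 0, .ofNat 6, .ofNat 2, .ofNat 4, .negSucc 5, .negSucc 7, .ofNat 10]),
  (⟨(13, 0), (20, 0), (21, 5), some (19, 5), none⟩, [.ofNat 0, .ofNat 0, .ofNat 0, .ofNat 0, .negSucc 11, .negSucc 3, .negSucc 7, .ofNat 12, .ofNat 16, .negSucc 19]),
  (⟨(13, 0), (23, 5), (34, 5), some (35, 4), some (30, 3)⟩, [.ofNat 0, .ofNat 0, .ofNat 0, .ofNat 0, .negSucc 5, .negSucc 1, .negSucc 3, .ofNat 6, .ofNat 8, .negSucc 9]),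
  (⟨(13, 0), (29, 0), (36, 5), some (35, 5), some (33, 2)⟩, [.ofNat 0, .ofNat 0, .ofNat 0, .ofNat 0, .negSucc 5, .negSucc 1, .negSucc 3, .ofNat 6, .ofNat 8, .negSucc 9]),
  (⟨(14, 0), (17, 1), (21, 1), some (30, 1), some (31, 1)⟩, [.ofNat 0, .ofNat 0, .ofNat 0, .ofNat 0, .ofNat 6, .ofNat 2, .ofNat 4, .negSucc 5, .negSucc 7, .ofNat 10]),
  (⟨(14, 0), (18, 2), (29, 2), some (19, 1), some (22, 3)⟩, [.ofNat 0, .ofNat 0, .ofNat 0, .ofNat 0, .ofNat 6, .ofNat 2, .ofNat 4, .negSucc 5, .negSucc 7, .ofNat 10]),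
  (⟨(15, 0), (36, 5), (37, 0), some (50, 2), some (40, 1)⟩, [.ofNat 0, .ofNat 0, .ofNat 0, .ofNat 0, .negSucc 2, .negSucc 0, .negSucc 1, .ofNat 3, .ofNat 4, .negSucc 4]),
  (⟨(16, 0), (34, 4), (41, 1), some (49, 2), some (42, 4)⟩, [.ofNat 0, .ofNat 0, .ofNat 0, .ofNat 0, .ofNat 3, .ofNat 1, .ofNat 2, .negSucc 2, .negSucc 3, .ofNat 5]),
  (⟨(17, 0), (19, 3), (45, 3), some (28, 3), some (26, 1)⟩, [.ofNat 0, .ofNat 0, .ofNat 0, .ofNat 0, .negSucc 5, .negSucc 1, .negSucc 3, .ofNat 6, .ofNat 8, .negSucc 9]),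
  (⟨(18, 0), (21, 1), (25, 1), some (45, 3), some (32, 3)⟩, [.ofNat 0, .ofNat 0, .ofNat 0, .ofNat 0, .negSucc 5, .negSucc 1, .negSucc 3, .ofNat 6, .ofNat 8, .negSucc 9]),
  (⟨(23, 0), (27, 4), (32, 5), some (28, 3), some (44, 3)⟩, [.ofNat 0, .ofNat 0, .ofNat 0, .ofNat 0, .ofNat 6, .ofNat 2, .ofNat 4, .negSucc 5, .negSucc 7, .ofNat 10]),
  (⟨(24, 0), (25, 0), (26, 0), some (46, 1), some (33, 1)⟩, [.ofNat 0, .ofNat 0, .ofNat 0, .ofNat 0, .ofNat 6, .ofNat 2, .ofNat 4, .negSucc 5, .negSucc 7, .ofNat 10]),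
  (⟨(34, 0), (43, 0), (46, 0), some (49, 1), some (48, 1)⟩, [.ofNat 0, .ofNat 0, .ofNat 0, .ofNat 0, .negSucc 2, .negSucc 0, .negSucc 1, .ofNat 3, .ofNat 4, .negSucc 4]),
  (⟨(36, 0), (39, 3), (44, 3), some (48, 1), some (50, 1)⟩, [.ofNat 0, .ofNat 0, .ofNat 0, .ofNat 0, .negSucc 2, .negSucc 0, .negSucc 1, .ofNat 3, .ofNat 4, .negSucc 4])]

/-- relations -/
noncomputable def w16x1r1 : List (Rel × List ℤ) := [
  (⟨(37, 0), (39, 4), (47, 4), some (40, 1), some (44, 1)⟩, [.ofNat 0, .ofNat 0, .ofNat 0, .ofNat 0, .ofNat 3, .ofNat 1, .ofNat 2, .negSucc 2, .negSucc 3, .ofNat 5]),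
  (⟨(41, 0), (42, 2), (47, 2), some (43, 3), some (46, 5)⟩, [.ofNat 0, .ofNat 0, .ofNat 0, .ofNat 0, .ofNat 3, .ofNat 1, .ofNat 2, .negSucc 2, .negSucc 3, .ofNat 5])]

/-- trivial elements -/
noncomputable def w16x1t0 : List (ℕ × ℤ × ℤ) := [
  (16, .ofNat 0, .negSucc 0)]

/-- the identity -/
noncomputable def w16x1 : Id3 := ⟨[w16x1r0, w16x1r1], [w16x1t0]⟩

/-- the element -/
noncomputable def w16x1L : List Tm := [
  ⟨12, 0, [.ofNat 0, .ofNat 0, .ofNat 0, .ofNat 0, .negSucc 23, .negSucc 7, .negSucc 15, .ofNat 24, .ofNat 32, .negSucc 39]⟩,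
  ⟨13, 0, [.ofNat 0, .ofNat 0, .ofNat 0, .ofNat 0, .ofNat 24, .ofNat 8, .ofNat 16, .negSucc 23, .negSucc 31, .ofNat 40]⟩,
  ⟨14, 0, [.ofNat 0, .ofNat 0, .ofNat 0, .ofNat 0, .negSucc 23, .negSucc 7, .negSucc 15, .ofNat 24, .ofNat 32, .negSucc 39]⟩,
  ⟨15, 0, [.ofNat 0, .ofNat 0, .ofNat 0, .ofNat 0, .ofNat 3, .ofNat 1, .ofNat 2, .negSucc 2, .negSucc 3, .ofNat 5]⟩]

theorem w16x1_pad : padS E.length x6c.cls x6c_l3 pool w16x1L = true := by decide +kernel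

theorem w16x1_A : w16x1.chkA ((E ++ Gc2).map El.isK) pool = true := by decide +kernel

theorem w16x1_B : w16x1.chkB pool [(1, w16x1L)] = true := by decide +kernel

theorem w16x1_C : w16x1.chkC 13 (E ++ Gc2).length 64 1 pool [(1, w16x1L)] = true := by decide +kernel

/-- **a trivial element** -/
theorem w16x1_zero {k : Type*} [Field k] [CharZero k] {F : Type*} [Field F] [Algebra k F] {x y : F}
    (hx : TN.Tr k x) (hC : Cc2.Eq x y) : zt (Gc2.map (El.v x y)) x6c.cls x6c_l3 ∈ TN.KC k F :=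
  poolOk.zero hx hC (by decide) w16x1_pad w16x1_A w16x1_B w16x1_C

end Pool.Agent.AXX6cW
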