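import Pool.Agent.Lib_helper87.AX.Cu
import Pool.Agent.Lib_helper87.AX.X6c
import Pool.Agent.Lib_helper87.AX.X6cW
import Pool.Agent.Lib_helper40.MC.X6c.Ix

/-!
# `t = -(1 / 5)`: the multiples and the kept classes
-/

set_option autoImplicit false
set_option linter.unusedSectionVars false
set_option linter.unusedVariables false
set_option maxRecDepth 100000

open scoped TensorProduct

namespace Pool.Agent.AXH

open Pool.Agent.KC72 Pool.Agent.AX Pool.Agent.MK4 Pool.Agent.MC Pool.Agent.MCX6c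

/-- the explicit class -/
noncomputable def xi6c : List Tm := [
  ⟨1, 0, [.ofNat 0, .ofNat 0, .ofNat 8, .negSucc 6, .ofNat 2, .ofNat 8, .negSucc 1]⟩,
  ⟨5, 0, [.ofNat 0, .ofNat 0, .ofNat 1, .ofNat 0, .ofNat 0, .negSucc 3, .ofNat 1]⟩,
  ⟨8, 0, [.ofNat 0, .ofNat 0, .ofNat 0, .negSucc 1, .ofNat 2, .ofNat 0, .ofNat 0]⟩,
  ⟨12, 0, [.ofNat 0, .ofNat 0, .ofNat 1, .ofNat 0, .ofNat 0, .ofNat 4, .ofNat 1]⟩,
  ⟨15, 0, [.ofNat 0, .negSucc 0, .ofNat 0, .ofNat 0, .ofNat 1, .ofNat 0, .ofNat 0]⟩]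

theorem pad6c : padS 0 kept xi6c x6c.cls x6c_l0 = true := by decide +kernel

theorem okT6c : okT 7 kept xi6c = true := by decide +kernel

theorem chkD6c : chkD 7 kept xi6c = true := by decide +kernel

variable {k : Type*} [Field k] [CharZero k] {F : Type*} [Field F] [Algebra k F] {t : k} {x y : F}

/-- **the multiples** -/
theorem hmul6c (hk : N6S.KdS 2 t) (h : N6.G6 t x y) : ∀ L' ∈ x6c_ll, ∃ β : ℚ,
    KC72.zt (N6S.glS 2 t x y) x6c.cls L' - β • KC72.zt (N6S.glS 2 t x y) kept xi6c ∈ Cst k F := by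
  have : CharZero F := charZero_of_injective_algebraMap (algebraMap k F).injective
  have hx : TN.Tr k x := h.tr
  have hC := Cc2_eq hk h
  have hg : ∀ z ∈ N6S.glS 2 t x y, z ≠ 0 := N6S.glS_ne 2 h
  have h0 := zt_same hg pad6c
  rw [Gc2_eq hk] at h0 ⊢
  intro L' hL'
  simp only [x6c_ll, List.mem_cons, List.not_mem_nil, or_false] at hL'
  rcases hL' with rfl | rfl | rfl | rfl
  · exact ⟨1, by rw [one_smul, h0, sub_self]; exact Submodule.zero_mem _⟩
  · exact ex_zero (AXX6c.z1_zero hx hC)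
  · exact ex_zero (AXX6cW.w16x0_zero hx hC)
  · exact ex_zero (AXX6cW.w16x1_zero hx hC)

/-- the kept classes -/
def idx6c : List ℕ := [0, 1, 2, 3, 4, 5, 6, 7, 8, 9, 10, 11, 12, 13, 14, 15]

/-- the vectors of the dropped classes -/
noncomputable def dr6c : List (ℕ × List ℤ) := [(16, AXX6cW.q16)]

theorem chkDr6c : chkDr (N6S.clsS2).length idx6c dr6c = true := by decide +kernel

theorem kept6c : ∀ i ∈ idx6c, (N6S.clsS2).getD i default ∈ kept := by decide +kernel

/-- **the dropped classes** -/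
theorem hred6c (hk : N6S.KdS 2 t) (h : N6.G6 t x y) : ∀ p ∈ N6S.clsS2, sy (ev (N6S.glS 2 t x y) p.1) ∈ SC k F ⊔
    Submodule.span ℚ {a : B2 F | ∃ p ∈ kept, a = sy (ev (N6S.glS 2 t x y) p.1)} := by
  have : CharZero F := charZero_of_injective_algebraMap (algebraMap k F).injective
  have hx : TN.Tr k x := h.tr
  have hC := Cc2_eq hk h
  refine hred_of (dr := dr6c) ?_ chkDr6c kept6c
  rw [Gc2_eq hk]
  intro d hd
  simp only [dr6c, List.mem_cons, List.not_mem_nil, or_false] at hd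
  rcases hd with rfl
  · exact AXX6cW.s16 hx hC

end Pool.Agent.AXH
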