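import Pool.Agent.Lib_helper87.AX.Cd
import Pool.Agent.Lib_helper40.MC.X8c.Dat

/-!
# `d = 3 / 2`: the trivial closed elements
-/

set_option autoImplicit false
set_option linter.unusedVariables false
set_option maxRecDepth 100000

namespace Pool.Agent.AXX8c

open Pool.Agent.KC72 Pool.Agent.AX Pool.Agent.MK4 Pool.Agent.MCX8c

/-- the auxiliary functions -/
noncomputable def E : List El := [⟨[.negSucc 2, .ofNat 4], [.ofNat 3], 3⟩, ⟨[.negSucc 0], [.ofNat 3], 3⟩]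

/-- the classes -/
noncomputable def pool : List (Mo × Mo) := [
  ((true, [.ofNat 0, .ofNat 0, .ofNat 2, .ofNat 0, .ofNat 1, .ofNat 0, .ofNat 0, .negSucc 0, .negSucc 0, .negSucc 2, .ofNat 0]), (false, [.ofNat 0, .ofNat 0, .ofNat 0, .ofNat 0, .ofNat 1, .negSucc 0, .ofNat 0, .negSucc 0, .ofNat 1, .negSucc 2, .ofNat 2])),
  ((false, [.ofNat 0, .ofNat 0, .ofNat 2, .ofNat 1, .ofNat 0, .ofNat 0, .negSucc 0, .negSucc 0, .ofNat 0, .negSucc 1, .ofNat 0]), (false, [.ofNat 0, .ofNat 0, .ofNat 0, .ofNat 1, .ofNat 0, .negSucc 0, .negSucc 0, .negSucc 0, .ofNat 2, .negSucc 1, .ofNat 1])),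
  ((false, [.ofNat 0, .ofNat 0, .ofNat 2, .ofNat 0, .ofNat 0, .ofNat 0, .negSucc 0, .ofNat 0, .ofNat 0, .negSucc 1, .ofNat 1]), (true, [.ofNat 0, .ofNat 0, .ofNat 0, .ofNat 0, .ofNat 0, .negSucc 0, .negSucc 0, .ofNat 0, .ofNat 2, .negSucc 1, .ofNat 1])),
  ((false, [.ofNat 0, .ofNat 0, .ofNat 2, .ofNat 1, .ofNat 0, .ofNat 0, .negSucc 0, .negSucc 0, .ofNat 0, .ofNat 0, .negSucc 0]), (false, [.ofNat 0, .ofNat 0, .ofNat 0, .ofNat 1, .negSucc 0, .ofNat 0, .negSucc 0, .ofNat 0, .ofNat 1, .ofNat 1, .negSucc 0])),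
  ((false, [.ofNat 0, .ofNat 0, .ofNat 2, .ofNat 0, .ofNat 0, .ofNat 0, .negSucc 0, .ofNat 0, .ofNat 0, .ofNat 1, .negSucc 0]), (true, [.ofNat 0, .ofNat 0, .ofNat 0, .ofNat 0, .negSucc 0, .ofNat 0, .negSucc 0, .ofNat 1, .ofNat 1, .ofNat 1, .negSucc 0])),
  ((false, [.ofNat 0, .ofNat 0, .ofNat 2, .ofNat 0, .ofNat 0, .ofNat 0, .negSucc 0, .ofNat 0, .ofNat 0, .ofNat 0, .ofNat 0]), (true, [.ofNat 0, .ofNat 0, .ofNat 0, .negSucc 0, .ofNat 0, .ofNat 0, .ofNat 0, .ofNat 1, .ofNat 0, .ofNat 0, .ofNat 0])),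
  ((false, [.ofNat 0, .ofNat 0, .ofNat 1, .ofNat 1, .ofNat 1, .ofNat 0, .ofNat 0, .negSucc 0, .negSucc 0, .negSucc 1, .ofNat 0]), (false, [.ofNat 0, .ofNat 0, .ofNat 0, .ofNat 1, .ofNat 0, .negSucc 0, .negSucc 0, .ofNat 0, .ofNat 1, .negSucc 1, .ofNat 1])),
  ((false, [.ofNat 0, .ofNat 0, .ofNat 1, .ofNat 1, .ofNat 0, .ofNat 0, .ofNat 0, .negSucc 0, .ofNat 0, .negSucc 0, .ofNat 0]), (true, [.ofNat 0, .ofNat 0, .ofNat 0, .ofNat 1, .negSucc 0, .negSucc 0, .negSucc 0, .ofNat 0, .ofNat 2, .negSucc 0, .ofNat 0])),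
  ((false, [.ofNat 0, .ofNat 0, .ofNat 1, .ofNat 1, .ofNat 0, .ofNat 0, .ofNat 0, .negSucc 0, .ofNat 0, .ofNat 1, .negSucc 0]), (true, [.ofNat 0, .ofNat 0, .ofNat 0, .ofNat 0, .negSucc 0, .ofNat 0, .ofNat 0, .ofNat 0, .ofNat 1, .ofNat 1, .negSucc 0])),
  ((true, [.ofNat 0, .ofNat 0, .ofNat 0, .ofNat 0, .ofNat 2, .ofNat 1, .ofNat 2, .negSucc 1, .negSucc 1, .ofNat 0, .ofNat 1]), (false, [.ofNat 0, .ofNat 0, .ofNat 1, .negSucc 0, .ofNat 2, .ofNat 1, .ofNat 1, .negSucc 0, .negSucc 1, .ofNat 2, .ofNat 0])),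
  ((true, [.ofNat 0, .ofNat 0, .ofNat 0, .ofNat 1, .ofNat 1, .ofNat 1, .ofNat 1, .negSucc 0, .negSucc 1, .ofNat 1, .ofNat 0]), (false, [.ofNat 0, .ofNat 0, .ofNat 1, .ofNat 0, .ofNat 1, .ofNat 1, .ofNat 0, .ofNat 0, .negSucc 1, .ofNat 0, .ofNat 1])),
  ((false, [.ofNat 0, .ofNat 0, .ofNat 0, .ofNat 1, .ofNat 1, .ofNat 0, .ofNat 1, .negSucc 0, .negSucc 0, .negSucc 0, .ofNat 1]), (true, [.ofNat 0, .ofNat 0, .ofNat 1, .ofNat 0, .ofNat 1, .ofNat 0, .ofNat 0, .ofNat 0, .negSucc 0, .negSucc 0, .ofNat 1])),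
  ((false, [.ofNat 0, .ofNat 0, .ofNat 0, .ofNat 1, .ofNat 1, .ofNat 1, .ofNat 1, .negSucc 0, .negSucc 1, .negSucc 1, .ofNat 0]), (false, [.ofNat 0, .ofNat 0, .ofNat 0, .ofNat 1, .negSucc 0, .ofNat 0, .negSucc 0, .ofNat 1, .ofNat 0, .negSucc 1, .ofNat 1])),
  ((false, [.ofNat 0, .ofNat 0, .ofNat 0, .ofNat 1, .ofNat 1, .ofNat 0, .ofNat 1, .negSucc 0, .negSucc 0, .negSucc 2, .ofNat 1]), (true, [.ofNat 0, .ofNat 0, .ofNat 0, .ofNat 1, .negSucc 0, .negSucc 0, .negSucc 0, .ofNat 1, .ofNat 1, .negSucc 2, .ofNat 1])),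
  ((false, [.ofNat 0, .ofNat 0, .ofNat 0, .ofNat 1, .ofNat 1, .ofNat 0, .ofNat 1, .negSucc 0, .negSucc 0, .negSucc 0, .ofNat 0]), (true, [.ofNat 0, .ofNat 0, .ofNat 0, .ofNat 0, .ofNat 0, .negSucc 0, .ofNat 0, .ofNat 0, .ofNat 1, .negSucc 0, .ofNat 0])),
  ((false, [.ofNat 0, .ofNat 0, .ofNat 1, .ofNat 0, .ofNat 1, .ofNat 1, .ofNat 0, .ofNat 0, .negSucc 1, .ofNat 0, .negSucc 0]), (false, [.ofNat 0, .ofNat 0, .ofNat 0, .ofNat 1, .negSucc 0, .ofNat 0, .negSucc 0, .ofNat 1, .ofNat 0, .ofNat 1, .negSucc 0])),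
  ((false, [.ofNat 0, .ofNat 0, .ofNat 1, .ofNat 0, .ofNat 1, .ofNat 0, .ofNat 0, .ofNat 0, .negSucc 0, .negSucc 0, .ofNat 0]), (true, [.ofNat 0, .ofNat 0, .ofNat 0, .ofNat 1, .negSucc 0, .negSucc 0, .negSucc 0, .ofNat 1, .ofNat 1, .negSucc 0, .ofNat 0])),
  ((false, [.ofNat 0, .ofNat 0, .ofNat 1, .ofNat 0, .ofNat 1, .ofNat 0, .ofNat 0, .ofNat 0, .negSucc 0, .negSucc 1, .ofNat 1]), (true, [.ofNat 0, .ofNat 0, .ofNat 0, .ofNat 0, .ofNat 0, .negSucc 0, .ofNat 0, .ofNat 0, .ofNat 1, .negSucc 1, .ofNat 1])),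
  ((true, [.ofNat 0, .ofNat 0, .ofNat 0, .ofNat 0, .ofNat 2, .ofNat 1, .ofNat 1, .negSucc 0, .negSucc 1, .ofNat 0, .ofNat 1]), (false, [.ofNat 0, .ofNat 0, .ofNat 1, .ofNat 0, .ofNat 1, .ofNat 1, .ofNat 0, .negSucc 0, .negSucc 0, .ofNat 2, .ofNat 0])),
  ((false, [.ofNat 0, .ofNat 0, .ofNat 0, .ofNat 0, .ofNat 1, .ofNat 1, .ofNat 1, .ofNat 0, .negSucc 1, .ofNat 1, .ofNat 0]), (true, [.ofNat 0, .ofNat 0, .ofNat 1, .ofNat 0, .ofNat 0, .ofNat 1, .ofNat 0, .ofNat 0, .negSucc 0, .ofNat 1, .ofNat 0])),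
  ((false, [.ofNat 0, .ofNat 0, .ofNat 0, .ofNat 0, .ofNat 1, .ofNat 1, .ofNat 1, .ofNat 0, .negSucc 1, .negSucc 0, .ofNat 0]), (true, [.ofNat 0, .ofNat 0, .ofNat 0, .ofNat 0, .negSucc 0, .ofNat 0, .ofNat 0, .ofNat 1, .ofNat 0, .negSucc 0, .ofNat 0])),
  ((false, [.ofNat 0, .ofNat 0, .negSucc 0, .negSucc 0, .ofNat 1, .ofNat 1, .ofNat 1, .ofNat 1, .negSucc 1, .ofNat 0, .ofNat 1]), (true, [.ofNat 0, .ofNat 0, .negSucc 0, .ofNat 0, .ofNat 0, .ofNat 1, .ofNat 1, .ofNat 0, .negSucc 0, .ofNat 1, .ofNat 0])),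
  ((false, [.ofNat 0, .ofNat 0, .ofNat 0, .ofNat 0, .ofNat 2, .ofNat 1, .ofNat 0, .ofNat 0, .negSucc 1, .ofNat 0, .ofNat 2]), (true, [.ofNat 0, .ofNat 0, .ofNat 0, .ofNat 1, .ofNat 1, .ofNat 1, .ofNat 0, .negSucc 0, .negSucc 0, .ofNat 3, .ofNat 0])),
  ((true, [.ofNat 0, .ofNat 0, .ofNat 0, .negSucc 0, .ofNat 2, .ofNat 1, .ofNat 1, .ofNat 0, .negSucc 1, .ofNat 1, .ofNat 1]), (false, [.ofNat 0, .ofNat 0, .ofNat 0, .ofNat 0, .ofNat 1, .ofNat 1, .ofNat 1, .negSucc 0, .negSucc 0, .ofNat 1, .ofNat 1])),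
  ((true, [.ofNat 0, .ofNat 0, .ofNat 0, .ofNat 0, .ofNat 2, .ofNat 1, .ofNat 0, .ofNat 0, .negSucc 1, .ofNat 0, .ofNat 1]), (false, [.ofNat 0, .ofNat 0, .ofNat 1, .ofNat 1, .ofNat 1, .ofNat 0, .negSucc 0, .negSucc 0, .ofNat 0, .ofNat 2, .ofNat 0])),
  ((false, [.ofNat 0, .ofNat 0, .ofNat 0, .negSucc 0, .ofNat 2, .ofNat 1, .ofNat 1, .ofNat 0, .negSucc 1, .ofNat 0, .ofNat 1]), (true, [.ofNat 0, .ofNat 0, .ofNat 1, .ofNat 0, .ofNat 1, .ofNat 0, .ofNat 0, .negSucc 0, .ofNat 0, .ofNat 0, .ofNat 1])),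
  ((false, [.ofNat 0, .ofNat 0, .ofNat 0, .negSucc 0, .ofNat 2, .ofNat 1, .ofNat 1, .ofNat 0, .negSucc 1, .negSucc 1, .ofNat 1]), (true, [.ofNat 0, .ofNat 0, .ofNat 0, .negSucc 0, .ofNat 0, .ofNat 0, .ofNat 1, .ofNat 0, .ofNat 0, .negSucc 1, .ofNat 1])),
  ((false, [.ofNat 0, .ofNat 0, .ofNat 1, .ofNat 0, .ofNat 0, .ofNat 1, .ofNat 0, .ofNat 0, .negSucc 0, .ofNat 1, .negSucc 0]), (true, [.ofNat 0, .ofNat 0, .ofNat 0, .ofNat 0, .negSucc 0, .ofNat 0, .ofNat 0, .ofNat 1, .ofNat 0, .ofNat 1, .negSucc 0])),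
  ((true, [.ofNat 0, .ofNat 0, .ofNat 0, .ofNat 1, .ofNat 1, .ofNat 1, .ofNat 0, .negSucc 0, .negSucc 0, .ofNat 1, .ofNat 0]), (false, [.ofNat 0, .ofNat 0, .ofNat 1, .ofNat 1, .ofNat 1, .ofNat 0, .negSucc 0, .negSucc 0, .ofNat 0, .ofNat 0, .ofNat 1])),
  ((false, [.ofNat 0, .ofNat 0, .ofNat 0, .ofNat 0, .ofNat 1, .ofNat 1, .ofNat 1, .negSucc 0, .negSucc 0, .ofNat 1, .ofNat 0]), (true, [.ofNat 0, .ofNat 0, .ofNat 1, .ofNat 0, .ofNat 1, .ofNat 0, .ofNat 0, .negSucc 0, .ofNat 0, .ofNat 1, .ofNat 0])),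
  ((false, [.ofNat 0, .ofNat 0, .ofNat 0, .ofNat 0, .ofNat 1, .ofNat 1, .ofNat 1, .negSucc 0, .negSucc 0, .ofNat 1, .negSucc 0]), (true, [.ofNat 0, .ofNat 0, .ofNat 0, .negSucc 0, .ofNat 0, .ofNat 0, .ofNat 1, .ofNat 0, .ofNat 0, .ofNat 1, .negSucc 0])),
  ((false, [.ofNat 0, .ofNat 0, .negSucc 0, .negSucc 0, .ofNat 1, .ofNat 1, .ofNat 1, .ofNat 0, .negSucc 0, .ofNat 2, .ofNat 0]), (true, [.ofNat 0, .ofNat 0, .negSucc 0, .ofNat 0, .ofNat 1, .ofNat 0, .ofNat 1, .negSucc 0, .ofNat 0, .ofNat 0, .ofNat 1])),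
  ((true, [.ofNat 0, .ofNat 0, .ofNat 0, .ofNat 0, .ofNat 1, .ofNat 1, .ofNat 0, .ofNat 0, .negSucc 0, .ofNat 1, .ofNat 1]), (false, [.ofNat 0, .ofNat 0, .ofNat 0, .ofNat 1, .ofNat 1, .ofNat 0, .ofNat 0, .negSucc 0, .ofNat 0, .ofNat 1, .ofNat 1])),
  ((false, [.ofNat 0, .ofNat 0, .ofNat 0, .ofNat 0, .ofNat 1, .ofNat 1, .ofNat 0, .ofNat 0, .negSucc 0, .ofNat 1, .ofNat 0]), (true, [.ofNat 0, .ofNat 0, .ofNat 1, .ofNat 1, .ofNat 0, .ofNat 0, .negSucc 0, .ofNat 0, .ofNat 0, .ofNat 1, .ofNat 0])),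
  ((false, [.ofNat 0, .ofNat 0, .ofNat 0, .negSucc 0, .ofNat 0, .ofNat 1, .ofNat 0, .ofNat 0, .ofNat 0, .ofNat 2, .ofNat 0]), (true, [.ofNat 0, .ofNat 0, .ofNat 0, .negSucc 0, .ofNat 1, .ofNat 0, .ofNat 0, .ofNat 0, .ofNat 0, .ofNat 0, .ofNat 1])),
  ((true, [.ofNat 0, .ofNat 0, .negSucc 0, .ofNat 0, .ofNat 0, .ofNat 1, .ofNat 0, .ofNat 0, .ofNat 0, .ofNat 3, .ofNat 0]), (false, [.ofNat 0, .ofNat 0, .negSucc 0, .ofNat 0, .ofNat 1, .ofNat 0, .ofNat 0, .ofNat 0, .ofNat 0, .ofNat 0, .ofNat 2])),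
  ((true, [.ofNat 0, .ofNat 0, .ofNat 0, .ofNat 0, .ofNat 0, .ofNat 1, .ofNat 0, .ofNat 0, .ofNat 0, .ofNat 2, .ofNat 1]), (false, [.ofNat 0, .ofNat 0, .ofNat 0, .ofNat 0, .ofNat 1, .ofNat 0, .ofNat 0, .ofNat 0, .ofNat 0, .ofNat 2, .ofNat 1])),
  ((false, [.ofNat 0, .ofNat 0, .negSucc 0, .ofNat 0, .ofNat 0, .ofNat 1, .ofNat 0, .ofNat 0, .ofNat 0, .ofNat 2, .ofNat 0]), (true, [.ofNat 0, .ofNat 0, .negSucc 0, .ofNat 1, .ofNat 0, .ofNat 0, .ofNat 0, .ofNat 0, .ofNat 0, .ofNat 0, .ofNat 1])),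
  ((false, [.ofNat 0, .ofNat 0, .ofNat 0, .ofNat 0, .ofNat 0, .ofNat 1, .ofNat 0, .ofNat 0, .ofNat 0, .ofNat 2, .ofNat 0]), (true, [.ofNat 0, .ofNat 0, .ofNat 0, .ofNat 1, .ofNat 0, .ofNat 0, .ofNat 0, .ofNat 0, .ofNat 0, .ofNat 2, .ofNat 0])),
  ((true, [.ofNat 0, .ofNat 0, .ofNat 0, .ofNat 0, .ofNat 0, .ofNat 1, .ofNat 0, .ofNat 0, .ofNat 0, .ofNat 2, .negSucc 0]), (false, [.ofNat 0, .ofNat 0, .ofNat 1, .ofNat 0, .ofNat 0, .ofNat 0, .ofNat 0, .ofNat 0, .ofNat 0, .ofNat 2, .negSucc 0])),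
  ((false, [.ofNat 0, .ofNat 0, .ofNat 1, .ofNat 0, .ofNat 1, .ofNat 0, .ofNat 0, .negSucc 0, .ofNat 0, .ofNat 0, .ofNat 0]), (true, [.ofNat 0, .ofNat 0, .ofNat 0, .negSucc 0, .ofNat 0, .ofNat 0, .ofNat 1, .ofNat 0, .ofNat 0, .ofNat 0, .ofNat 0])),
  ((false, [.ofNat 0, .ofNat 0, .ofNat 0, .ofNat 1, .ofNat 1, .ofNat 0, .ofNat 0, .negSucc 0, .ofNat 0, .negSucc 0, .ofNat 1]), (true, [.ofNat 0, .ofNat 0, .ofNat 1, .ofNat 1, .ofNat 0, .ofNat 0, .negSucc 0, .ofNat 0, .ofNat 0, .negSucc 0, .ofNat 1])),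
  ((false, [.ofNat 0, .ofNat 0, .negSucc 0, .ofNat 0, .ofNat 1, .ofNat 0, .ofNat 0, .ofNat 0, .ofNat 0, .ofNat 0, .ofNat 1]), (true, [.ofNat 0, .ofNat 0, .negSucc 0, .ofNat 1, .ofNat 0, .ofNat 0, .ofNat 0, .ofNat 0, .ofNat 0, .ofNat 1, .ofNat 0])),
  ((false, [.ofNat 0, .ofNat 0, .ofNat 0, .ofNat 0, .ofNat 1, .ofNat 0, .ofNat 0, .ofNat 0, .ofNat 0, .ofNat 0, .ofNat 1]), (true, [.ofNat 0, .ofNat 0, .ofNat 0, .ofNat 1, .ofNat 0, .ofNat 0, .ofNat 0, .ofNat 0, .ofNat 0, .ofNat 0, .ofNat 1])),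
  ((true, [.ofNat 0, .ofNat 0, .ofNat 0, .ofNat 0, .ofNat 1, .ofNat 0, .ofNat 0, .ofNat 0, .ofNat 0, .negSucc 0, .ofNat 1]), (false, [.ofNat 0, .ofNat 0, .ofNat 1, .ofNat 0, .ofNat 0, .ofNat 0, .ofNat 0, .ofNat 0, .ofNat 0, .negSucc 0, .ofNat 1])),
  ((false, [.ofNat 0, .ofNat 0, .ofNat 0, .ofNat 0, .ofNat 0, .ofNat 0, .negSucc 0, .ofNat 0, .ofNat 1, .ofNat 2, .ofNat 0]), (true, [.ofNat 0, .ofNat 0, .ofNat 0, .ofNat 0, .ofNat 0, .ofNat 0, .negSucc 0, .ofNat 1, .ofNat 0, .ofNat 0, .ofNat 1])),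
  ((false, [.ofNat 0, .ofNat 0, .negSucc 0, .ofNat 0, .ofNat 0, .ofNat 0, .ofNat 0, .ofNat 0, .ofNat 1, .ofNat 1, .ofNat 1]), (true, [.ofNat 0, .ofNat 0, .negSucc 0, .ofNat 0, .ofNat 0, .ofNat 0, .ofNat 0, .ofNat 1, .ofNat 0, .ofNat 1, .ofNat 1])),
  ((true, [.ofNat 0, .ofNat 0, .negSucc 0, .ofNat 0, .ofNat 0, .ofNat 0, .ofNat 0, .ofNat 0, .ofNat 1, .ofNat 1, .ofNat 0]), (false, [.ofNat 0, .ofNat 0, .negSucc 0, .ofNat 0, .ofNat 0, .ofNat 0, .ofNat 1, .ofNat 0, .ofNat 0, .ofNat 1, .ofNat 0])),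
  ((false, [.ofNat 0, .ofNat 0, .ofNat 0, .ofNat 1, .ofNat 0, .negSucc 0, .negSucc 0, .negSucc 0, .ofNat 2, .ofNat 0, .ofNat 1]), (true, [.ofNat 0, .ofNat 0, .ofNat 0, .ofNat 1, .negSucc 0, .ofNat 0, .negSucc 0, .ofNat 0, .ofNat 1, .ofNat 1, .ofNat 0])),
  ((false, [.ofNat 0, .ofNat 0, .ofNat 0, .ofNat 0, .ofNat 0, .negSucc 0, .negSucc 0, .ofNat 0, .ofNat 2, .ofNat 1, .ofNat 1]), (true, [.ofNat 0, .ofNat 0, .ofNat 0, .ofNat 0, .negSucc 0, .ofNat 0, .negSucc 0, .ofNat 1, .ofNat 1, .ofNat 1, .ofNat 1])),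
  ((true, [.ofNat 0, .ofNat 0, .ofNat 0, .ofNat 0, .ofNat 0, .negSucc 0, .negSucc 0, .ofNat 0, .ofNat 2, .ofNat 0, .ofNat 1]), (false, [.ofNat 0, .ofNat 0, .ofNat 0, .negSucc 0, .ofNat 0, .ofNat 0, .ofNat 0, .ofNat 1, .ofNat 0, .ofNat 0, .ofNat 1])),
  ((true, [.ofNat 0, .ofNat 0, .ofNat 0, .ofNat 1, .ofNat 0, .ofNat 0, .ofNat 0, .ofNat 0, .ofNat 0, .ofNat 0, .ofNat 0]), (false, [.ofNat 0, .ofNat 0, .ofNat 1, .ofNat 0, .ofNat 0, .ofNat 0, .ofNat 0, .ofNat 0, .ofNat 0, .ofNat 0, .ofNat 0])),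
  ((true, [.ofNat 0, .ofNat 0, .negSucc 0, .ofNat 0, .ofNat 0, .ofNat 0, .ofNat 0, .ofNat 1, .ofNat 0, .negSucc 0, .ofNat 1]), (false, [.ofNat 0, .ofNat 0, .negSucc 0, .ofNat 0, .ofNat 0, .ofNat 0, .ofNat 1, .ofNat 0, .ofNat 0, .negSucc 0, .ofNat 1])),
  ((true, [.ofNat 0, .ofNat 0, .ofNat 0, .ofNat 0, .negSucc 0, .ofNat 0, .negSucc 0, .ofNat 1, .ofNat 1, .ofNat 1, .ofNat 0]), (false, [.ofNat 0, .ofNat 0, .ofNat 0, .negSucc 0, .ofNat 0, .ofNat 0, .ofNat 0, .ofNat 1, .ofNat 0, .ofNat 1, .ofNat 0])),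
  ((true, [.ofNat 0, .ofNat 0, .ofNat 0, .ofNat 1, .negSucc 0, .negSucc 0, .negSucc 0, .ofNat 0, .ofNat 2, .ofNat 1, .ofNat 0]), (false, [.ofNat 0, .ofNat 0, .ofNat 0, .ofNat 0, .negSucc 0, .ofNat 0, .ofNat 0, .ofNat 0, .ofNat 1, .ofNat 1, .ofNat 0])),
  ((true, [.ofNat 0, .ofNat 0, .ofNat 0, .ofNat 1, .negSucc 0, .negSucc 0, .negSucc 0, .ofNat 1, .ofNat 1, .negSucc 0, .ofNat 1]), (false, [.ofNat 0, .ofNat 0, .ofNat 0, .ofNat 0, .ofNat 0, .negSucc 0, .ofNat 0, .ofNat 0, .ofNat 1, .negSucc 0, .ofNat 1])),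
  ((false, [.ofNat 0, .ofNat 0, .ofNat 2, .ofNat 0, .ofNat 1, .negSucc 0, .negSucc 0, .negSucc 0, .ofNat 1, .negSucc 0, .ofNat 1]), (true, [.ofNat 0, .ofNat 0, .ofNat 0, .negSucc 1, .ofNat 1, .ofNat 0, .ofNat 1, .ofNat 1, .negSucc 0, .negSucc 0, .ofNat 1])),
  ((true, [.ofNat 0, .ofNat 0, .ofNat 0, .ofNat 2, .ofNat 0, .negSucc 0, .ofNat 0, .ofNat 0, .ofNat 0, .negSucc 1, .ofNat 1]), (false, [.ofNat 0, .ofNat 0, .ofNat 1, .ofNat 0, .ofNat 1, .negSucc 0, .ofNat 0, .ofNat 0, .ofNat 0, .negSucc 1, .ofNat 1])),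
  ((false, [.ofNat 0, .ofNat 1, .ofNat 0, .negSucc 0, .ofNat 0, .ofNat 1, .ofNat 1, .ofNat 0, .negSucc 1, .ofNat 1, .ofNat 0]), (true, [.ofNat 0, .ofNat 0, .ofNat 1, .ofNat 0, .ofNat 1, .ofNat 1, .ofNat 1, .negSucc 0, .negSucc 1, .ofNat 0, .ofNat 0])),
  ((false, [.ofNat 0, .ofNat 1, .ofNat 0, .ofNat 0, .ofNat 0, .ofNat 0, .ofNat 0, .ofNat 0, .negSucc 0, .negSucc 0, .ofNat 1]), (true, [.ofNat 0, .ofNat 0, .ofNat 1, .ofNat 1, .ofNat 1, .ofNat 0, .ofNat 0, .negSucc 0, .negSucc 0, .negSucc 0, .ofNat 0])),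
  ((true, [.ofNat 0, .ofNat 1, .ofNat 0, .ofNat 0, .negSucc 0, .ofNat 0, .ofNat 0, .ofNat 0, .ofNat 0, .ofNat 0, .ofNat 0]), (false, [.ofNat 0, .ofNat 0, .ofNat 1, .ofNat 1, .ofNat 0, .ofNat 0, .ofNat 0, .negSucc 0, .ofNat 0, .ofNat 0, .ofNat 0])),
  ((false, [.ofNat 0, .ofNat 1, .ofNat 0, .ofNat 0, .ofNat 0, .ofNat 0, .ofNat 0, .ofNat 0, .negSucc 0, .negSucc 0, .ofNat 0]), (false, [.ofNat 0, .ofNat 0, .ofNat 0, .ofNat 1, .ofNat 0, .negSucc 0, .negSucc 0, .ofNat 0, .ofNat 1, .negSucc 0, .ofNat 0])),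
  ((false, [.ofNat 0, .ofNat 1, .ofNat 0, .ofNat 0, .negSucc 0, .ofNat 0, .ofNat 0, .ofNat 0, .ofNat 0, .ofNat 0, .ofNat 0]), (true, [.ofNat 0, .ofNat 0, .ofNat 0, .ofNat 1, .negSucc 0, .negSucc 0, .negSucc 0, .ofNat 0, .ofNat 2, .ofNat 0, .ofNat 0])),
  ((false, [.ofNat 0, .ofNat 1, .ofNat 0, .ofNat 0, .negSucc 0, .ofNat 0, .ofNat 0, .ofNat 0, .ofNat 0, .ofNat 1, .ofNat 0]), (true, [.ofNat 0, .ofNat 0, .ofNat 0, .ofNat 0, .negSucc 0, .ofNat 0, .ofNat 0, .ofNat 0, .ofNat 1, .ofNat 1, .ofNat 0])),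
  ((true, [.ofNat 0, .ofNat 2, .ofNat 0, .negSucc 1, .ofNat 0, .ofNat 1, .ofNat 1, .ofNat 0, .negSucc 1, .negSucc 1, .ofNat 1]), (false, [.ofNat 2, .ofNat 0, .negSucc 1, .negSucc 1, .ofNat 0, .ofNat 0, .ofNat 1, .ofNat 0, .ofNat 0, .negSucc 1, .ofNat 1])),
  ((true, [.ofNat 0, .ofNat 2, .ofNat 0, .negSucc 1, .negSucc 0, .ofNat 0, .ofNat 0, .ofNat 1, .negSucc 0, .negSucc 0, .ofNat 0]), (false, [.ofNat 0, .ofNat 0, .ofNat 0, .negSucc 1, .ofNat 2, .ofNat 0, .ofNat 0, .ofNat 1, .negSucc 0, .negSucc 0, .ofNat 1])),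
  ((false, [.ofNat 0, .ofNat 2, .ofNat 0, .negSucc 0, .negSucc 0, .ofNat 0, .ofNat 0, .ofNat 1, .negSucc 0, .negSucc 0, .ofNat 1]), (true, [.ofNat 0, .ofNat 0, .ofNat 1, .ofNat 0, .ofNat 1, .negSucc 0, .negSucc 0, .ofNat 0, .ofNat 1, .negSucc 0, .ofNat 1])),
  ((false, [.ofNat 0, .ofNat 2, .ofNat 0, .ofNat 0, .negSucc 1, .ofNat 0, .ofNat 0, .ofNat 0, .ofNat 0, .ofNat 0, .ofNat 0]), (true, [.ofNat 0, .ofNat 0, .ofNat 1, .ofNat 2, .negSucc 0, .negSucc 0, .negSucc 0, .negSucc 0, .ofNat 2, .ofNat 0, .ofNat 0])),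
  ((true, [.ofNat 0, .ofNat 2, .ofNat 0, .negSucc 1, .ofNat 0, .ofNat 1, .ofNat 1, .ofNat 0, .negSucc 1, .ofNat 0, .ofNat 1]), (false, [.ofNat 0, .ofNat 0, .ofNat 1, .negSucc 1, .ofNat 2, .ofNat 1, .ofNat 1, .ofNat 0, .negSucc 1, .ofNat 0, .ofNat 1])),
  ((true, [.ofNat 0, .ofNat 2, .ofNat 0, .negSucc 0, .negSucc 0, .ofNat 1, .ofNat 1, .ofNat 0, .negSucc 1, .ofNat 1, .ofNat 0]), (false, [.ofNat 0, .ofNat 0, .ofNat 1, .ofNat 0, .ofNat 0, .ofNat 1, .ofNat 1, .negSucc 0, .negSucc 0, .ofNat 1, .ofNat 0])),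
  ((false, [.ofNat 0, .ofNat 2, .ofNat 0, .negSucc 0, .ofNat 0, .ofNat 1, .ofNat 1, .ofNat 0, .negSucc 1, .ofNat 0, .ofNat 1]), (true, [.ofNat 0, .ofNat 0, .ofNat 2, .ofNat 0, .ofNat 1, .ofNat 0, .ofNat 0, .negSucc 0, .ofNat 0, .ofNat 0, .ofNat 1])),
  ((true, [.ofNat 1, .ofNat 0, .negSucc 1, .negSucc 0, .ofNat 0, .ofNat 0, .ofNat 1, .ofNat 0, .ofNat 0, .ofNat 0, .ofNat 0]), (false, [.ofNat 0, .ofNat 0, .negSucc 0, .negSucc 0, .ofNat 1, .ofNat 1, .ofNat 1, .ofNat 0, .negSucc 0, .ofNat 1, .ofNat 0])),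
  ((false, [.ofNat 1, .ofNat 0, .negSucc 0, .ofNat 0, .ofNat 0, .ofNat 0, .ofNat 0, .ofNat 0, .ofNat 0, .ofNat 0, .ofNat 0]), (true, [.ofNat 0, .ofNat 0, .ofNat 1, .ofNat 1, .ofNat 0, .ofNat 0, .negSucc 0, .ofNat 0, .ofNat 0, .ofNat 0, .ofNat 0])),
  ((false, [.ofNat 2, .ofNat 0, .negSucc 1, .negSucc 0, .ofNat 0, .negSucc 0, .ofNat 1, .ofNat 0, .ofNat 0, .negSucc 1, .ofNat 1]), (true, [.ofNat 0, .ofNat 0, .ofNat 2, .ofNat 0, .ofNat 1, .negSucc 0, .ofNat 0, .negSucc 0, .ofNat 0, .negSucc 1, .ofNat 1])),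
  ((false, [.ofNat 0, .ofNat 1, .ofNat 1, .ofNat 0, .negSucc 0, .ofNat 0, .negSucc 0, .ofNat 0, .ofNat 0, .negSucc 0, .ofNat 0]), (false, [.ofNat 1, .ofNat 0, .negSucc 0, .ofNat 0, .negSucc 0, .negSucc 0, .negSucc 0, .ofNat 0, .ofNat 2, .negSucc 0, .ofNat 0])),
  ((false, [.ofNat 0, .ofNat 1, .ofNat 1, .ofNat 0, .ofNat 0, .ofNat 0, .ofNat 0, .ofNat 0, .negSucc 0, .negSucc 1, .ofNat 1]), (true, [.ofNat 1, .ofNat 0, .negSucc 0, .ofNat 0, .ofNat 0, .negSucc 0, .ofNat 0, .ofNat 0, .ofNat 1, .negSucc 1, .ofNat 1])),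
  ((false, [.ofNat 0, .ofNat 1, .ofNat 1, .ofNat 0, .ofNat 0, .ofNat 0, .ofNat 0, .ofNat 0, .negSucc 0, .negSucc 0, .ofNat 1]), (true, [.ofNat 0, .ofNat 0, .ofNat 0, .ofNat 0, .ofNat 1, .ofNat 0, .ofNat 1, .ofNat 0, .negSucc 0, .negSucc 0, .ofNat 1])),
  ((false, [.ofNat 1, .ofNat 0, .ofNat 0, .ofNat 0, .ofNat 0, .negSucc 0, .ofNat 0, .ofNat 0, .ofNat 0, .negSucc 1, .ofNat 1]), (true, [.ofNat 0, .ofNat 0, .ofNat 0, .ofNat 0, .ofNat 0, .negSucc 0, .ofNat 1, .ofNat 0, .ofNat 0, .negSucc 1, .ofNat 1])),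
  ((false, [.ofNat 0, .negSucc 0, .ofNat 3, .ofNat 1, .ofNat 1, .ofNat 0, .negSucc 0, .negSucc 0, .ofNat 0, .ofNat 0, .negSucc 0]), (true, [.ofNat 0, .negSucc 0, .ofNat 0, .ofNat 1, .negSucc 0, .negSucc 0, .negSucc 0, .ofNat 1, .ofNat 2, .ofNat 0, .negSucc 0])),
  ((false, [.ofNat 0, .ofNat 1, .negSucc 0, .ofNat 0, .ofNat 0, .ofNat 0, .ofNat 1, .ofNat 0, .negSucc 0, .negSucc 0, .ofNat 1]), (true, [.ofNat 0, .ofNat 0, .negSucc 0, .negSucc 0, .ofNat 1, .ofNat 0, .ofNat 1, .ofNat 1, .negSucc 0, .negSucc 0, .ofNat 1])),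
  ((true, [.ofNat 1, .negSucc 0, .negSucc 0, .ofNat 0, .ofNat 1, .ofNat 0, .ofNat 1, .negSucc 0, .ofNat 0, .ofNat 0, .ofNat 0]), (false, [.ofNat 0, .negSucc 0, .ofNat 1, .ofNat 0, .ofNat 2, .ofNat 0, .ofNat 0, .negSucc 0, .ofNat 0, .ofNat 1, .ofNat 0])),
  ((false, [.ofNat 0, .negSucc 0, .ofNat 2, .ofNat 2, .ofNat 1, .ofNat 0, .ofNat 0, .negSucc 1, .ofNat 0, .negSucc 1, .ofNat 0]), (true, [.ofNat 0, .negSucc 0, .ofNat 0, .ofNat 2, .negSucc 0, .negSucc 1, .negSucc 1, .ofNat 0, .ofNat 4, .negSucc 1, .ofNat 0])),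
  ((false, [.ofNat 0, .ofNat 1, .ofNat 0, .negSucc 1, .ofNat 1, .ofNat 1, .ofNat 1, .ofNat 0, .negSucc 1, .ofNat 0, .ofNat 1]), (true, [.ofNat 0, .ofNat 0, .ofNat 2, .negSucc 0, .ofNat 1, .ofNat 1, .ofNat 0, .negSucc 0, .negSucc 0, .ofNat 1, .ofNat 0])),
  ((false, [.ofNat 0, .ofNat 1, .ofNat 0, .negSucc 0, .ofNat 1, .ofNat 1, .ofNat 1, .ofNat 0, .negSucc 1, .negSucc 0, .ofNat 1]), (true, [.ofNat 1, .ofNat 0, .negSucc 0, .negSucc 0, .ofNat 0, .ofNat 0, .ofNat 1, .ofNat 0, .ofNat 0, .negSucc 0, .ofNat 1])),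
  ((false, [.ofNat 1, .ofNat 0, .negSucc 0, .negSucc 0, .ofNat 1, .ofNat 0, .ofNat 1, .ofNat 0, .negSucc 0, .negSucc 1, .ofNat 1]), (true, [.ofNat 0, .ofNat 1, .ofNat 0, .negSucc 0, .ofNat 0, .ofNat 0, .ofNat 1, .ofNat 0, .negSucc 0, .negSucc 1, .ofNat 1])),
  ((false, [.ofNat 0, .ofNat 0, .ofNat 0, .ofNat 0, .ofNat 2, .ofNat 0, .ofNat 1, .ofNat 0, .negSucc 1, .negSucc 1, .ofNat 1]), (true, [.ofNat 0, .ofNat 1, .ofNat 0, .ofNat 0, .ofNat 0, .negSucc 0, .ofNat 0, .ofNat 0, .ofNat 0, .negSucc 1, .ofNat 1])),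
  ((true, [.ofNat 0, .negSucc 0, .ofNat 0, .negSucc 0, .ofNat 3, .ofNat 1, .ofNat 1, .ofNat 0, .negSucc 1, .ofNat 0, .ofNat 1]), (false, [.ofNat 0, .negSucc 0, .ofNat 1, .ofNat 0, .ofNat 1, .ofNat 1, .ofNat 0, .negSucc 0, .ofNat 0, .ofNat 2, .ofNat 0])),
  ((true, [.negSucc 0, .ofNat 1, .ofNat 1, .ofNat 0, .ofNat 0, .ofNat 1, .ofNat 0, .ofNat 0, .negSucc 0, .ofNat 1, .ofNat 0]), (false, [.negSucc 0, .ofNat 0, .ofNat 3, .ofNat 1, .ofNat 1, .ofNat 0, .negSucc 0, .negSucc 0, .ofNat 0, .ofNat 1, .ofNat 0])),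
  ((false, [.negSucc 0, .ofNat 1, .ofNat 1, .ofNat 0, .ofNat 0, .ofNat 1, .ofNat 0, .ofNat 0, .negSucc 0, .ofNat 1, .ofNat 0]), (true, [.negSucc 0, .ofNat 0, .ofNat 1, .ofNat 1, .ofNat 0, .ofNat 0, .ofNat 0, .ofNat 0, .ofNat 0, .ofNat 1, .ofNat 0])),
  ((false, [.ofNat 1, .negSucc 0, .negSucc 0, .ofNat 0, .ofNat 0, .ofNat 0, .ofNat 0, .ofNat 0, .ofNat 1, .ofNat 1, .ofNat 0]), (true, [.ofNat 0, .negSucc 0, .ofNat 0, .ofNat 1, .ofNat 1, .ofNat 0, .ofNat 0, .ofNat 0, .ofNat 0, .ofNat 1, .ofNat 0])),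
  ((false, [.ofNat 0, .ofNat 1, .ofNat 1, .ofNat 1, .negSucc 1, .ofNat 0, .negSucc 0, .negSucc 0, .ofNat 1, .ofNat 1, .negSucc 0]), (false, [.ofNat 0, .ofNat 0, .ofNat 0, .ofNat 3, .negSucc 1, .negSucc 0, .negSucc 0, .negSucc 0, .ofNat 2, .ofNat 0, .negSucc 0])),
  ((false, [.negSucc 1, .ofNat 2, .ofNat 2, .ofNat 0, .ofNat 0, .ofNat 2, .ofNat 0, .ofNat 0, .negSucc 1, .ofNat 2, .ofNat 0]), (true, [.negSucc 1, .ofNat 0, .ofNat 4, .ofNat 2, .ofNat 1, .ofNat 0, .negSucc 0, .negSucc 0, .ofNat 0, .ofNat 2, .ofNat 0])),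
  ((true, [.ofNat 0, .ofNat 1, .ofNat 0, .ofNat 0, .ofNat 0, .ofNat 0, .ofNat 0, .ofNat 0, .ofNat 0, .ofNat 0, .ofNat 1]), (false, [.ofNat 0, .ofNat 0, .ofNat 0, .ofNat 0, .ofNat 0, .ofNat 0, .ofNat 1, .ofNat 0, .ofNat 0, .ofNat 0, .ofNat 1])),
  ((false, [.negSucc 0, .ofNat 0, .ofNat 3, .ofNat 1, .ofNat 1, .ofNat 0, .negSucc 0, .negSucc 0, .ofNat 0, .ofNat 0, .ofNat 0]), (true, [.negSucc 0, .ofNat 0, .ofNat 1, .ofNat 1, .ofNat 0, .ofNat 0, .ofNat 0, .ofNat 0, .ofNat 0, .ofNat 0, .ofNat 0])),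
  ((false, [.ofNat 0, .ofNat 0, .ofNat 3, .ofNat 1, .ofNat 1, .negSucc 0, .negSucc 0, .negSucc 0, .ofNat 0, .negSucc 1, .ofNat 1]), (true, [.ofNat 1, .ofNat 0, .negSucc 0, .ofNat 0, .ofNat 0, .negSucc 0, .ofNat 1, .ofNat 0, .ofNat 0, .negSucc 1, .ofNat 1])),
  ((false, [.ofNat 0, .negSucc 0, .ofNat 1, .ofNat 1, .ofNat 1, .ofNat 0, .negSucc 0, .negSucc 0, .ofNat 1, .ofNat 1, .ofNat 0]), (true, [.ofNat 0, .negSucc 0, .ofNat 0, .ofNat 2, .ofNat 1, .ofNat 0, .ofNat 0, .negSucc 0, .ofNat 0, .ofNat 0, .ofNat 0])),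
  ((true, [.ofNat 0, .negSucc 0, .ofNat 1, .ofNat 1, .ofNat 1, .negSucc 0, .negSucc 0, .negSucc 0, .ofNat 2, .ofNat 0, .ofNat 0]), (false, [.ofNat 0, .negSucc 0, .ofNat 0, .ofNat 1, .ofNat 1, .ofNat 0, .ofNat 1, .negSucc 0, .ofNat 0, .ofNat 0, .ofNat 0])),
  ((true, [.ofNat 0, .ofNat 0, .ofNat 2, .ofNat 1, .ofNat 1, .negSucc 0, .negSucc 0, .negSucc 0, .ofNat 1, .negSucc 0, .ofNat 1]), (false, [.ofNat 0, .ofNat 1, .ofNat 0, .ofNat 0, .ofNat 0, .ofNat 0, .ofNat 1, .ofNat 0, .negSucc 0, .negSucc 0, .ofNat 1])),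
  ((false, [.ofNat 0, .ofNat 0, .ofNat 3, .ofNat 2, .ofNat 0, .negSucc 0, .negSucc 1, .negSucc 1, .ofNat 2, .ofNat 0, .ofNat 0]), (true, [.ofNat 0, .ofNat 1, .ofNat 0, .ofNat 2, .negSucc 0, .ofNat 0, .ofNat 0, .negSucc 0, .ofNat 0, .ofNat 0, .ofNat 0])),
  ((true, [.ofNat 0, .ofNat 1, .negSucc 0, .ofNat 0, .negSucc 0, .ofNat 0, .ofNat 0, .ofNat 1, .ofNat 0, .ofNat 0, .ofNat 1]), (false, [.ofNat 0, .ofNat 0, .negSucc 0, .negSucc 0, .ofNat 0, .ofNat 0, .ofNat 1, .ofNat 1, .ofNat 0, .ofNat 0, .ofNat 1])),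
  ((true, [.ofNat 0, .ofNat 0, .negSucc 0, .ofNat 1, .negSucc 0, .ofNat 0, .ofNat 0, .ofNat 1, .ofNat 0, .ofNat 0, .ofNat 0]), (false, [.ofNat 1, .ofNat 0, .negSucc 1, .negSucc 0, .negSucc 0, .ofNat 0, .ofNat 1, .ofNat 1, .ofNat 0, .ofNat 0, .ofNat 0]))]

theorem poolOk : PoolOk C8c E G8c pool :=
  ⟨by decide, by decide +kernel, by decide +kernel⟩

/-- relations -/
noncomputable def z1r0 : List (Rel × List ℤ) := [
  (⟨(1, 0), (2, 0), (50, 1), none, some (5, 4)⟩, [.ofNat 0, .ofNat 0, .negSucc 985, .ofNat 18, .negSucc 143, .negSucc 495, .negSucc 245, .ofNat 382, .ofNat 992, .ofNat 1212, .ofNat 58]),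
  (⟨(1, 0), (9, 4), (78, 3), some (81, 3), some (96, 5)⟩, [.ofNat 0, .ofNat 0, .negSucc 229, .ofNat 278, .ofNat 144, .ofNat 72, .ofNat 246, .negSucc 165, .negSucc 143, .negSucc 459, .ofNat 302]),
  (⟨(2, 0), (17, 0), (19, 5), some (44, 5), some (47, 5)⟩, [.ofNat 0, .ofNat 0, .ofNat 78, .ofNat 18, .negSucc 143, .negSucc 401, .negSucc 563, .ofNat 126, .ofNat 804, .negSucc 47, .ofNat 568]),
  (⟨(5, 0), (16, 1), (82, 4), some (78, 3), some (59, 4)⟩, [.ofNat 0, .ofNat 0, .ofNat 118, .ofNat 278, .ofNat 376, .ofNat 188, .ofNat 246, .negSucc 397, .negSucc 375, .negSucc 459, .ofNat 302]),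
  (⟨(5, 0), (27, 0), (28, 5), some (33, 5), some (42, 5)⟩, [.ofNat 0, .ofNat 48, .ofNat 652, .ofNat 596, .ofNat 364, .ofNat 104, .negSucc 171, .negSucc 847, .negSucc 87, .negSucc 195, .ofNat 144]),
  (⟨(5, 0), (40, 0), (41, 5), some (44, 5), some (52, 5)⟩, [.ofNat 0, .negSucc 47, .ofNat 824, .negSucc 267, .ofNat 284, .ofNat 452, .negSucc 83, .ofNat 592, .negSucc 1023, .negSucc 555, .ofNat 0]),
  (⟨(6, 0), (12, 0), (29, 5), some (41, 5), some (49, 5)⟩, [.ofNat 0, .negSucc 47, .negSucc 391, .negSucc 355, .ofNat 804, .ofNat 452, .ofNat 1116, .negSucc 391, .negSucc 1023, .ofNat 140, .negSucc 567]),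
  (⟨(6, 0), (16, 0), (53, 1), some (34, 1), some (27, 4)⟩, [.ofNat 0, .ofNat 0, .ofNat 310, .ofNat 258, .ofNat 588, .ofNat 208, .ofNat 266, .negSucc 417, .negSucc 587, .negSucc 631, .ofNat 302]),
  (⟨(6, 0), (17, 0), (50, 1), some (45, 1), some (40, 4)⟩, [.ofNat 0, .ofNat 0, .ofNat 956, .ofNat 264, .negSucc 167, .ofNat 610, .negSucc 207, .negSucc 215, .negSucc 847, .ofNat 256, .negSucc 819]),
  (⟨(6, 0), (58, 3), (61, 2), none, some (59, 0)⟩, [.ofNat 0, .ofNat 48, .ofNat 706, .ofNat 318, .ofNat 356, .negSucc 173, .negSucc 77, .negSucc 553, .negSucc 215, .negSucc 731, .negSucc 9]),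
  (⟨(7, 0), (20, 0), (25, 5), some (44, 5), some (50, 5)⟩, [.ofNat 0, .ofNat 0, .ofNat 30, .ofNat 26, .ofNat 320, .negSucc 253, .ofNat 322, .negSucc 481, .ofNat 128, .negSucc 1475, .ofNat 770]),
  (⟨(7, 0), (58, 1), (7, 4), some (58, 2), some (81, 1)⟩, [.ofNat 0, .negSucc 229, .ofNat 762, .ofNat 182, .ofNat 158, .ofNat 0, .negSucc 173, .negSucc 365, .ofNat 0, .ofNat 0, .negSucc 301]),
  (⟨(7, 0), (58, 3), (62, 2), none, some (60, 0)⟩, [.ofNat 0, .ofNat 460, .ofNat 68, .ofNat 432, .negSucc 911, .negSucc 443, .negSucc 659, .ofNat 84, .ofNat 768, .ofNat 320, .negSucc 343]),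
  (⟨(7, 0), (74, 0), (96, 4), some (80, 2), some (93, 1)⟩, [.ofNat 0, .ofNat 0, .negSucc 569, .negSucc 165, .negSucc 127, .ofNat 294, .ofNat 282, .ofNat 238, .negSucc 87, .negSucc 299, .ofNat 162]),
  (⟨(8, 0), (20, 0), (24, 5), some (33, 5), some (45, 5)⟩, [.ofNat 0, .ofNat 0, .negSucc 187, .ofNat 40, .negSucc 215, .negSucc 13, .negSucc 167, .ofNat 316, .ofNat 28, .ofNat 720, .negSucc 363]),
  (⟨(8, 0), (59, 3), (63, 2), none, some (60, 0)⟩, [.ofNat 0, .ofNat 0, .ofNat 280, .ofNat 52, .ofNat 188, .ofNat 14, .ofNat 168, .negSucc 407, .ofNat 0, .negSucc 599, .ofNat 244])]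

/-- relations -/
noncomputable def z1r1 : List (Rel × List ℤ) := [
  (⟨(12, 0), (20, 0), (53, 1), some (45, 1), some (30, 4)⟩, [.ofNat 0, .negSucc 47, .negSucc 391, .negSucc 403, .negSucc 331, .negSucc 139, .negSucc 19, .ofNat 744, .ofNat 160, .ofNat 236, .negSucc 23]),
  (⟨(17, 0), (19, 3), (85, 2), some (63, 1), some (76, 1)⟩, [.ofNat 0, .ofNat 200, .ofNat 82, .ofNat 74, .negSucc 1219, .negSucc 267, .negSucc 667, .negSucc 101, .ofNat 1272, .ofNat 736, .negSucc 515]),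
  (⟨(17, 0), (62, 2), (75, 2), some (72, 4), some (84, 1)⟩, [.ofNat 0, .negSucc 199, .negSucc 7, .ofNat 208, .negSucc 51, .negSucc 119, .negSucc 103, .ofNat 12, .ofNat 240, .ofNat 200, .negSucc 99]),
  (⟨(18, 0), (19, 0), (27, 1), none, some (20, 4)⟩, [.ofNat 0, .negSucc 47, .negSucc 549, .negSucc 337, .ofNat 240, .negSucc 103, .ofNat 438, .ofNat 414, .negSucc 291, .negSucc 659, .ofNat 382]),
  (⟨(18, 0), (42, 0), (58, 4), some (95, 5), some (82, 1)⟩, [.ofNat 0, .ofNat 48, .negSucc 69, .ofNat 338, .ofNat 172, .ofNat 0, .ofNat 78, .negSucc 309, .negSucc 119, .negSucc 579, .ofNat 134]),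
  (⟨(19, 0), (29, 0), (46, 5), some (36, 5), some (49, 3)⟩, [.ofNat 0, .negSucc 47, .negSucc 391, .negSucc 179, .negSucc 283, .ofNat 484, .ofNat 60, .ofNat 520, .ofNat 0, .ofNat 1012, .ofNat 496]),
  (⟨(19, 0), (61, 5), (89, 4), some (74, 0), some (72, 1)⟩, [.ofNat 0, .ofNat 200, .ofNat 234, .negSucc 65, .ofNat 12, .negSucc 173, .negSucc 1, .negSucc 81, .negSucc 151, .ofNat 100, .negSucc 61]),
  (⟨(21, 0), (25, 0), (40, 0), some (28, 5), some (56, 2)⟩, [.ofNat 0, .ofNat 0, .ofNat 340, .ofNat 72, .ofNat 56, .negSucc 91, .negSucc 127, .negSucc 127, .ofNat 128, .negSucc 55, .ofNat 56]),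
  (⟨(21, 0), (43, 1), (67, 1), some (65, 4), some (66, 4)⟩, [.ofNat 0, .ofNat 0, .negSucc 163, .ofNat 28, .negSucc 155, .negSucc 83, .negSucc 47, .ofNat 28, .ofNat 148, .negSucc 19, .negSucc 155]),
  (⟨(24, 0), (25, 0), (40, 1), none, some (26, 4)⟩, [.ofNat 0, .ofNat 0, .ofNat 0, .ofNat 228, .negSucc 11, .negSucc 5, .negSucc 355, .ofNat 128, .ofNat 12, .ofNat 1096, .negSucc 355]),
  (⟨(25, 0), (34, 0), (85, 2), some (86, 3), some (60, 1)⟩, [.ofNat 0, .negSucc 47, .negSucc 81, .negSucc 73, .ofNat 536, .ofNat 116, .ofNat 326, .ofNat 102, .negSucc 587, .negSucc 355, .ofNat 326]),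
  (⟨(25, 0), (51, 5), (68, 4), some (67, 1), some (70, 1)⟩, [.ofNat 0, .ofNat 48, .negSucc 179, .ofNat 140, .negSucc 283, .negSucc 207, .negSucc 227, .ofNat 48, .ofNat 336, .negSucc 79, .negSucc 227]),
  (⟨(28, 0), (29, 0), (40, 1), none, some (30, 4)⟩, [.ofNat 0, .ofNat 48, .ofNat 392, .ofNat 364, .ofNat 148, .negSucc 43, .negSucc 123, .negSucc 559, .ofNat 24, .negSucc 379, .ofNat 168]),
  (⟨(29, 0), (44, 5), (69, 4), some (66, 1), some (70, 1)⟩, [.ofNat 0, .ofNat 0, .ofNat 348, .ofNat 440, .ofNat 248, .ofNat 18, .ofNat 168, .negSucc 455, .negSucc 335, .ofNat 40, .ofNat 116]),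
  (⟨(29, 0), (60, 1), (71, 4), some (87, 3), some (80, 1)⟩, [.ofNat 0, .negSucc 47, .negSucc 727, .negSucc 611, .negSucc 231, .ofNat 210, .ofNat 220, .ofNat 676, .ofNat 0, .ofNat 80, .negSucc 19]),
  (⟨(33, 0), (76, 1), (77, 1), some (88, 3), some (84, 4)⟩, [.ofNat 0, .negSucc 47, .negSucc 399, .negSucc 571, .negSucc 87, .negSucc 29, .ofNat 276, .ofNat 532, .ofNat 0, .negSucc 399, .ofNat 220])]

/-- relations -/
noncomputable def z1r2 : List (Rel × List ℤ) := [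
  (⟨(34, 0), (36, 0), (43, 1), none, some (38, 4)⟩, [.ofNat 0, .negSucc 47, .negSucc 391, .negSucc 179, .negSucc 75, .negSucc 219, .ofNat 60, .ofNat 520, .ofNat 0, .ofNat 20, .ofNat 0]),
  (⟨(38, 0), (64, 3), (91, 2), some (73, 0), some (70, 0)⟩, [.ofNat 0, .ofNat 48, .ofNat 392, .ofNat 580, .ofNat 76, .negSucc 189, .negSucc 59, .negSucc 519, .ofNat 0, .negSucc 39, .ofNat 0]),
  (⟨(40, 0), (43, 5), (60, 4), some (99, 1), some (92, 1)⟩, [.ofNat 0, .ofNat 48, .negSucc 37, .negSucc 153, .ofNat 520, .negSucc 31, .ofNat 398, .ofNat 182, .negSucc 355, .negSucc 419, .ofNat 758]),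
  (⟨(40, 0), (51, 0), (100, 0), some (93, 3), some (72, 4)⟩, [.ofNat 0, .negSucc 47, .negSucc 181, .negSucc 421, .negSucc 127, .negSucc 83, .negSucc 61, .ofNat 462, .ofNat 88, .ofNat 380, .negSucc 181]),
  (⟨(42, 0), (43, 0), (51, 1), none, some (44, 4)⟩, [.ofNat 0, .ofNat 96, .ofNat 190, .ofNat 2, .negSucc 155, .ofNat 104, .ofNat 290, .negSucc 309, .negSucc 207, .negSucc 459, .negSucc 45]),
  (⟨(44, 0), (47, 5), (76, 4), some (63, 1), some (92, 1)⟩, [.ofNat 0, .ofNat 240, .ofNat 38, .ofNat 154, .negSucc 519, .ofNat 32, .ofNat 72, .negSucc 181, .ofNat 356, .ofNat 420, .ofNat 0]),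
  (⟨(44, 0), (61, 3), (83, 2), some (71, 4), some (75, 0)⟩, [.ofNat 0, .negSucc 287, .negSucc 391, .negSucc 339, .negSucc 115, .ofNat 50, .negSucc 59, .ofNat 520, .ofNat 280, .ofNat 280, .negSucc 119]),
  (⟨(45, 0), (46, 0), (52, 1), none, some (47, 4)⟩, [.ofNat 0, .ofNat 48, .negSucc 751, .ofNat 180, .ofNat 284, .negSucc 483, .negSucc 59, .negSucc 43, .ofNat 668, .ofNat 132, .ofNat 648]),
  (⟨(47, 0), (62, 1), (71, 4), some (88, 3), some (74, 2)⟩, [.ofNat 0, .negSucc 239, .ofNat 296, .ofNat 232, .ofNat 156, .negSucc 119, .negSucc 239, .negSucc 155, .ofNat 240, .ofNat 240, .negSucc 99]),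
  (⟨(47, 0), (75, 3), (87, 2), some (94, 1), some (97, 1)⟩, [.ofNat 0, .negSucc 47, .negSucc 343, .negSucc 547, .negSucc 63, .ofNat 170, .ofNat 44, .ofNat 508, .ofNat 0, .ofNat 0, .ofNat 20]),
  (⟨(48, 0), (49, 0), (53, 1), none, some (50, 4)⟩, [.ofNat 0, .ofNat 0, .ofNat 0, .ofNat 176, .ofNat 8, .negSucc 183, .negSucc 175, .negSucc 183, .ofNat 360, .negSucc 7, .ofNat 184]),
  (⟨(51, 0), (56, 2), (97, 2), some (79, 4), some (98, 0)⟩, [.ofNat 0, .ofNat 0, .ofNat 468, .ofNat 312, .ofNat 0, .negSucc 155, .negSucc 311, .negSucc 311, .ofNat 312, .ofNat 0, .ofNat 0]),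
  (⟨(52, 0), (53, 5), (79, 4), some (63, 1), some (99, 1)⟩, [.ofNat 0, .ofNat 0, .ofNat 76, .negSucc 87, .ofNat 568, .negSucc 31, .ofNat 332, .ofNat 68, .negSucc 355, .negSucc 419, .ofNat 644]),
  (⟨(53, 0), (80, 2), (89, 2), some (95, 2), some (100, 1)⟩, [.ofNat 0, .negSucc 47, .negSucc 157, .negSucc 445, .negSucc 103, .negSucc 83, .negSucc 61, .ofNat 438, .ofNat 88, .ofNat 380, .negSucc 181]),
  (⟨(58, 0), (60, 2), (69, 2), some (63, 2), some (61, 5)⟩, [.ofNat 0, .ofNat 1056, .ofNat 84, .negSucc 87, .negSucc 279, .ofNat 282, .ofNat 432, .negSucc 191, .negSucc 1127, .ofNat 304, .ofNat 116]),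
  (⟨(60, 0), (62, 1), (62, 3), some (67, 3), some (60, 3)⟩, [.ofNat 0, .ofNat 14, .negSucc 109, .negSucc 75, .ofNat 0, .negSucc 29, .negSucc 85, .ofNat 114, .ofNat 0, .negSucc 59, .negSucc 71])]

/-- relations -/
noncomputable def z1r3 : List (Rel × List ℤ) := [
  (⟨(60, 0), (66, 5), (96, 2), some (76, 0), some (97, 0)⟩, [.ofNat 0, .ofNat 48, .negSucc 387, .negSucc 491, .negSucc 319, .ofNat 270, .ofNat 84, .ofNat 452, .negSucc 39, .ofNat 160, .negSucc 139]),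
  (⟨(60, 0), (68, 0), (82, 0), some (79, 5), some (90, 1)⟩, [.ofNat 0, .ofNat 72, .negSucc 107, .negSucc 27, .negSucc 139, .negSucc 123, .negSucc 143, .ofNat 48, .ofNat 168, .negSucc 79, .negSucc 143]),
  (⟨(61, 0), (65, 0), (95, 4), some (86, 2), some (90, 1)⟩, [.ofNat 0, .negSucc 15, .ofNat 164, .ofNat 204, .negSucc 51, .ofNat 84, .ofNat 48, .negSucc 143, .negSucc 31, .ofNat 136, .ofNat 48]),
  (⟨(64, 0), (83, 0), (89, 1), some (84, 5), some (88, 4)⟩, [.ofNat 40, .ofNat 248, .ofNat 352, .ofNat 340, .ofNat 76, .negSucc 89, .ofNat 60, .negSucc 519, .negSucc 199, .negSucc 279, .ofNat 120]),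
  (⟨(72, 0), (73, 5), (93, 2), some (77, 0), some (94, 0)⟩, [.ofNat 16, .ofNat 48, .ofNat 400, .ofNat 572, .ofNat 88, .negSucc 209, .negSucc 51, .negSucc 531, .ofNat 0, .negSucc 79, .ofNat 20]),
  (⟨(87, 0), (88, 1), (88, 3), some (91, 3), some (87, 3)⟩, [.ofNat 40, .negSucc 231, .negSucc 287, .negSucc 435, .negSucc 3, .ofNat 6, .negSucc 11, .ofNat 448, .ofNat 184, .ofNat 0, .ofNat 0])]

/-- trivial elements -/
noncomputable def z1t0 : List (ℕ × ℤ × ℤ) := [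
  (1, .ofNat 128, .negSucc 423),
  (2, .negSucc 531, .ofNat 94),
  (5, .negSucc 303, .ofNat 624),
  (6, .negSucc 1579, .ofNat 1096),
  (7, .negSucc 1051, .negSucc 403),
  (8, .negSucc 91, .negSucc 27),
  (9, .ofNat 302, .negSucc 229),
  (12, .ofNat 592, .negSucc 543),
  (16, .ofNat 192, .negSucc 19),
  (17, .ofNat 960, .negSucc 595),
  (18, .negSucc 515, .ofNat 620),
  (19, .negSucc 851, .negSucc 231),
  (20, .negSucc 303, .ofNat 164),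
  (21, .ofNat 100, .ofNat 76),
  (24, .negSucc 7, .negSucc 187),
  (25, .negSucc 259, .ofNat 632),
  (26, .ofNat 6, .ofNat 350),
  (27, .negSucc 207, .negSucc 15),
  (28, .ofNat 240, .negSucc 79),
  (29, .ofNat 664, .negSucc 11),
  (30, .ofNat 184, .negSucc 39),
  (33, .negSucc 59, .negSucc 63),
  (34, .ofNat 128, .ofNat 24),
  (36, .negSucc 703, .ofNat 208),
  (38, .ofNat 410, .negSucc 399),
  (40, .ofNat 140, .negSucc 563),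
  (41, .negSucc 519, .ofNat 1216),
  (42, .ofNat 692, .negSucc 315),
  (43, .negSucc 595, .negSucc 51),
  (44, .ofNat 84, .negSucc 1883),
  (45, .ofNat 48, .negSucc 167),
  (46, .ofNat 668, .ofNat 476)]

/-- trivial elements -/
noncomputable def z1t1 : List (ℕ × ℤ × ℤ) := [
  (47, .negSucc 459, .negSucc 379),
  (48, .negSucc 183, .ofNat 8),
  (49, .ofNat 216, .negSucc 1095),
  (50, .negSucc 43, .negSucc 131),
  (51, .negSucc 871, .negSucc 279),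
  (52, .ofNat 480, .negSucc 475),
  (53, .ofNat 200, .negSucc 563),
  (56, .negSucc 63, .ofNat 120),
  (58, .negSucc 135, .negSucc 763),
  (59, .negSucc 47, .negSucc 543),
  (60, .negSucc 1711, .ofNat 968),
  (61, .ofNat 632, .negSucc 247),
  (62, .ofNat 872, .ofNat 144),
  (63, .negSucc 1495, .negSucc 143),
  (64, .negSucc 99, .negSucc 19),
  (65, .negSucc 7, .negSucc 107),
  (66, .negSucc 23, .ofNat 204),
  (67, .negSucc 16, .negSucc 93),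
  (68, .ofNat 12, .ofNat 72),
  (69, .ofNat 528, .negSucc 263),
  (70, .ofNat 0, .negSucc 111),
  (71, .ofNat 0, .negSucc 39),
  (72, .negSucc 15, .negSucc 7),
  (73, .negSucc 7, .negSucc 11),
  (74, .negSucc 39, .ofNat 0),
  (75, .ofNat 40, .ofNat 0),
  (76, .ofNat 56, .negSucc 931),
  (77, .ofNat 16, .ofNat 224),
  (78, .ofNat 116, .negSucc 115),
  (79, .negSucc 71, .negSucc 427),
  (81, .ofNat 266, .negSucc 35),
  (82, .negSucc 23, .negSucc 39)]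

/-- trivial elements -/
noncomputable def z1t2 : List (ℕ × ℤ × ℤ) := [
  (83, .negSucc 39, .ofNat 40),
  (84, .negSucc 39, .negSucc 399),
  (85, .negSucc 341, .ofNat 152),
  (86, .ofNat 278, .negSucc 245),
  (87, .ofNat 368, .negSucc 287),
  (88, .negSucc 71, .ofNat 192),
  (89, .ofNat 40, .negSucc 39),
  (90, .ofNat 56, .ofNat 40),
  (91, .negSucc 91, .ofNat 72),
  (92, .ofNat 288, .ofNat 470),
  (93, .negSucc 167, .ofNat 152),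
  (94, .negSucc 23, .negSucc 15),
  (95, .ofNat 64, .negSucc 79),
  (96, .negSucc 47, .ofNat 0),
  (97, .ofNat 256, .negSucc 95),
  (98, .negSucc 155, .ofNat 0),
  (99, .negSucc 47, .negSucc 65),
  (100, .negSucc 23, .ofNat 0)]

/-- the identity -/
noncomputable def z1 : Id3 := ⟨[z1r0, z1r1, z1r2, z1r3], [z1t0, z1t1, z1t2]⟩

/-- the element -/
noncomputable def z1L : List Tm := [
  ⟨1, 0, [.ofNat 0, .ofNat 0, .ofNat 120, .ofNat 0, .ofNat 0, .ofNat 0, .negSucc 36, .negSucc 63, .ofNat 0, .negSucc 167, .ofNat 8]⟩,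
  ⟨2, 0, [.ofNat 0, .ofNat 0, .ofNat 0, .ofNat 0, .ofNat 0, .ofNat 0, .negSucc 14, .ofNat 32, .ofNat 0, .ofNat 48, .negSucc 8]⟩,
  ⟨5, 0, [.ofNat 0, .ofNat 0, .ofNat 0, .ofNat 0, .negSucc 109, .negSucc 30, .negSucc 5, .negSucc 43, .ofNat 62, .ofNat 0, .negSucc 62]⟩,
  ⟨7, 0, [.ofNat 0, .ofNat 0, .ofNat 0, .ofNat 100, .ofNat 0, .ofNat 0, .ofNat 0, .negSucc 19, .ofNat 0, .ofNat 0, .ofNat 2]⟩,
  ⟨9, 0, [.ofNat 0, .ofNat 0, .ofNat 0, .ofNat 6, .ofNat 0, .ofNat 0, .negSucc 15, .ofNat 26, .ofNat 0, .ofNat 0, .ofNat 0]⟩,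
  ⟨26, 0, [.ofNat 0, .ofNat 0, .ofNat 0, .ofNat 16, .ofNat 0, .ofNat 0, .ofNat 0, .negSucc 15, .ofNat 0, .negSucc 47, .ofNat 0]⟩,
  ⟨41, 0, [.ofNat 0, .ofNat 0, .ofNat 0, .negSucc 75, .ofNat 0, .ofNat 0, .ofNat 2, .ofNat 58, .ofNat 0, .ofNat 0, .negSucc 15]⟩,
  ⟨42, 0, [.ofNat 0, .ofNat 0, .ofNat 96, .ofNat 156, .ofNat 0, .ofNat 0, .negSucc 47, .negSucc 105, .ofNat 0, .ofNat 0, .negSucc 45]⟩,
  ⟨44, 0, [.ofNat 0, .ofNat 0, .ofNat 96, .negSucc 3, .ofNat 0, .ofNat 0, .negSucc 17, .ofNat 24, .ofNat 0, .ofNat 0, .ofNat 64]⟩,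
  ⟨51, 0, [.ofNat 0, .ofNat 0, .ofNat 0, .ofNat 0, .ofNat 0, .ofNat 48, .ofNat 96, .ofNat 52, .negSucc 95, .ofNat 0, .ofNat 0]⟩]

theorem z1_pad : padS E.length x8c.cls x8c_l1 pool z1L = true := by decide +kernel

theorem z1_A : z1.chkA ((E ++ G8c).map El.isK) pool = true := by decide +kernel

theorem z1_B : z1.chkB pool [(8, z1L)] = true := by decide +kernel

theorem z1_C : z1.chkC 21 (E ++ G8c).length 64 2 pool [(8, z1L)] = true := by decide +kernel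

/-- **a trivial element** -/
theorem z1_zero {k : Type*} [Field k] [CharZero k] {F : Type*} [Field F] [Algebra k F] {x y : F}
    (hx : TN.Tr k x) (hC : C8c.Eq x y) : zt (G8c.map (El.v x y)) x8c.cls x8c_l1 ∈ TN.KC k F :=
  poolOk.zero hx hC (by decide) z1_pad z1_A z1_B z1_C

end Pool.Agent.AXX8c
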