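import Pool.Agent.Lib_helper87.AX.Cu
import Pool.Agent.Lib_helper87.AX.X8c
import Pool.Agent.Lib_helper40.MC.X8c.Ix

/-!
# `d = 3 / 2`: the multiples and the kept classes
-/

set_option autoImplicit false
set_option linter.unusedSectionVars false
set_option linter.unusedVariables false
set_option maxRecDepth 100000

open scoped TensorProduct

namespace Pool.Agent.AXH

open Pool.Agent.KC72 Pool.Agent.AX Pool.Agent.MK4 Pool.Agent.MC Pool.Agent.MCX8c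

/-- the explicit class -/
noncomputable def xi8c : List Tm := [
  ⟨2, 0, [.ofNat 2, .negSucc 1, .ofNat 0, .ofNat 0, .ofNat 0, .ofNat 0, .ofNat 0, .ofNat 0, .ofNat 0]⟩,
  ⟨4, 0, [.negSucc 1, .negSucc 3, .ofNat 0, .ofNat 0, .ofNat 4, .ofNat 0, .ofNat 0, .ofNat 0, .ofNat 0]⟩,
  ⟨28, 0, [.ofNat 4, .negSucc 3, .ofNat 0, .ofNat 0, .ofNat 0, .ofNat 0, .ofNat 0, .ofNat 0, .ofNat 0]⟩,
  ⟨29, 0, [.negSucc 3, .ofNat 8, .ofNat 0, .ofNat 0, .negSucc 3, .ofNat 0, .ofNat 0, .negSucc 3, .ofNat 4]⟩,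
  ⟨30, 0, [.ofNat 2, .ofNat 0, .ofNat 0, .ofNat 4, .ofNat 0, .ofNat 0, .negSucc 3, .ofNat 0, .ofNat 0]⟩,
  ⟨38, 0, [.ofNat 1, .negSucc 3, .ofNat 0, .ofNat 0, .ofNat 2, .ofNat 0, .ofNat 0, .ofNat 0, .negSucc 1]⟩,
  ⟨47, 0, [.negSucc 7, .ofNat 8, .ofNat 0, .ofNat 0, .ofNat 0, .ofNat 0, .ofNat 0, .ofNat 0, .ofNat 4]⟩,
  ⟨51, 0, [.ofNat 0, .ofNat 0, .negSucc 1, .negSucc 2, .ofNat 2, .ofNat 2, .ofNat 6, .ofNat 0, .negSucc 1]⟩]

theorem pad8c : padS 0 kept xi8c x8c.cls x8c_l0 = true := by decide +kernel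

theorem okT8c : okT 9 kept xi8c = true := by decide +kernel

theorem chkD8c : chkD 9 kept xi8c = true := by decide +kernel

variable {k : Type*} [Field k] [CharZero k] {F : Type*} [Field F] [Algebra k F] {x y : F}

/-- **the multiples** -/
theorem hmul8c (h : TN.Gen (1 : k) (2 / 3) x y) : ∀ L' ∈ x8c_ll, ∃ β : ℚ,
    KC72.zt (List.ofFn (K8c.G8 x y)) x8c.cls L' - β • KC72.zt (List.ofFn (K8c.G8 x y)) kept xi8c ∈ Cst k F := by
  have : CharZero F := charZero_of_injective_algebraMap (algebraMap k F).injective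
  have hx : TN.Tr k x := h.tr
  have hC := C8c_eq h
  have hg : ∀ z ∈ List.ofFn (K8c.G8 x y), z ≠ 0 := K8c.G8l_ne h
  have h0 := zt_same hg pad8c
  rw [G8c_eq] at h0 ⊢
  intro L' hL'
  simp only [x8c_ll, List.mem_cons, List.not_mem_nil, or_false] at hL'
  rcases hL' with rfl | rfl
  · exact ⟨1, by rw [one_smul, h0, sub_self]; exact Submodule.zero_mem _⟩
  · exact ex_zero (AXX8c.z1_zero hx hC)

end Pool.Agent.AXH
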