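import Pool.Agent.Lib_helper87.AX.Cd
import Pool.Agent.Lib_helper40.MC.X8d.Dat

/-!
# `d = 3 / 4`: the trivial closed elements
-/

set_option autoImplicit false
set_option linter.unusedVariables false
set_option maxRecDepth 100000

namespace Pool.Agent.AXX8d

open Pool.Agent.KC72 Pool.Agent.AX Pool.Agent.MK4 Pool.Agent.MCX8d

/-- the auxiliary functions -/
noncomputable def E : List El := [⟨[.ofNat 0, .ofNat 1], [.ofNat 2], 2⟩, ⟨[.ofNat 1, .ofNat 9], [.ofNat 12], 12⟩]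

/-- the classes -/
noncomputable def pool : List (Mo × Mo) := [
  ((true, [.ofNat 0, .ofNat 0, .ofNat 2, .ofNat 0, .ofNat 1, .ofNat 0, .ofNat 0, .negSucc 0, .negSucc 0, .negSucc 2, .ofNat 0]), (false, [.ofNat 0, .ofNat 0, .ofNat 0, .ofNat 0, .ofNat 1, .negSucc 0, .ofNat 0, .negSucc 0, .ofNat 1, .negSucc 2, .ofNat 2])),
  ((true, [.ofNat 0, .ofNat 0, .ofNat 2, .ofNat 1, .ofNat 0, .ofNat 0, .negSucc 0, .negSucc 0, .ofNat 0, .negSucc 0, .ofNat 0]), (false, [.ofNat 0, .ofNat 0, .ofNat 0, .ofNat 1, .ofNat 0, .negSucc 0, .negSucc 0, .negSucc 0, .ofNat 2, .negSucc 0, .ofNat 1])),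
  ((false, [.ofNat 0, .ofNat 0, .ofNat 2, .ofNat 0, .ofNat 0, .ofNat 0, .negSucc 0, .ofNat 0, .ofNat 0, .negSucc 0, .ofNat 1]), (true, [.ofNat 0, .ofNat 0, .ofNat 0, .ofNat 0, .ofNat 0, .negSucc 0, .negSucc 0, .ofNat 0, .ofNat 2, .negSucc 0, .ofNat 1])),
  ((true, [.ofNat 0, .ofNat 0, .ofNat 2, .ofNat 1, .ofNat 0, .ofNat 0, .negSucc 0, .negSucc 0, .ofNat 0, .ofNat 0, .negSucc 0]), (false, [.ofNat 0, .ofNat 0, .ofNat 0, .ofNat 1, .negSucc 0, .ofNat 0, .negSucc 0, .ofNat 0, .ofNat 1, .ofNat 2, .negSucc 0])),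
  ((false, [.ofNat 0, .ofNat 0, .ofNat 2, .ofNat 0, .ofNat 0, .ofNat 0, .negSucc 0, .ofNat 0, .ofNat 0, .ofNat 2, .negSucc 0]), (true, [.ofNat 0, .ofNat 0, .ofNat 0, .ofNat 0, .negSucc 0, .ofNat 0, .negSucc 0, .ofNat 1, .ofNat 1, .ofNat 2, .negSucc 0])),
  ((false, [.ofNat 0, .ofNat 0, .ofNat 2, .ofNat 0, .ofNat 0, .ofNat 0, .negSucc 0, .ofNat 0, .ofNat 0, .ofNat 0, .ofNat 0]), (true, [.ofNat 0, .ofNat 0, .ofNat 0, .negSucc 0, .ofNat 0, .ofNat 0, .ofNat 0, .ofNat 1, .ofNat 0, .ofNat 0, .ofNat 0])),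
  ((true, [.ofNat 0, .ofNat 0, .ofNat 1, .ofNat 1, .ofNat 1, .ofNat 0, .ofNat 0, .negSucc 0, .negSucc 0, .negSucc 0, .ofNat 0]), (false, [.ofNat 0, .ofNat 0, .ofNat 0, .ofNat 1, .ofNat 0, .negSucc 0, .negSucc 0, .ofNat 0, .ofNat 1, .negSucc 0, .ofNat 1])),
  ((false, [.ofNat 0, .ofNat 0, .ofNat 1, .ofNat 1, .ofNat 0, .ofNat 0, .ofNat 0, .negSucc 0, .ofNat 0, .ofNat 1, .ofNat 0]), (true, [.ofNat 0, .ofNat 0, .ofNat 0, .ofNat 1, .negSucc 0, .negSucc 0, .negSucc 0, .ofNat 0, .ofNat 2, .ofNat 1, .ofNat 0])),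
  ((false, [.ofNat 0, .ofNat 0, .ofNat 1, .ofNat 1, .ofNat 0, .ofNat 0, .ofNat 0, .negSucc 0, .ofNat 0, .ofNat 2, .negSucc 0]), (true, [.ofNat 0, .ofNat 0, .ofNat 0, .ofNat 0, .negSucc 0, .ofNat 0, .ofNat 0, .ofNat 0, .ofNat 1, .ofNat 2, .negSucc 0])),
  ((false, [.ofNat 0, .ofNat 0, .ofNat 0, .ofNat 0, .ofNat 2, .ofNat 1, .ofNat 2, .negSucc 1, .negSucc 1, .ofNat 0, .ofNat 1]), (true, [.ofNat 0, .ofNat 0, .ofNat 1, .negSucc 0, .ofNat 2, .ofNat 1, .ofNat 1, .negSucc 0, .negSucc 1, .ofNat 1, .ofNat 0])),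
  ((false, [.ofNat 0, .ofNat 0, .ofNat 0, .ofNat 1, .ofNat 1, .ofNat 1, .ofNat 1, .negSucc 0, .negSucc 1, .ofNat 2, .ofNat 0]), (true, [.ofNat 0, .ofNat 0, .ofNat 1, .ofNat 0, .ofNat 1, .ofNat 1, .ofNat 0, .ofNat 0, .negSucc 1, .ofNat 0, .ofNat 1])),
  ((true, [.ofNat 0, .ofNat 0, .ofNat 0, .ofNat 1, .ofNat 1, .ofNat 0, .ofNat 1, .negSucc 0, .negSucc 0, .ofNat 1, .ofNat 1]), (false, [.ofNat 0, .ofNat 0, .ofNat 1, .ofNat 0, .ofNat 1, .ofNat 0, .ofNat 0, .ofNat 0, .negSucc 0, .ofNat 1, .ofNat 1])),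
  ((true, [.ofNat 0, .ofNat 0, .ofNat 0, .ofNat 1, .ofNat 1, .ofNat 1, .ofNat 1, .negSucc 0, .negSucc 1, .negSucc 0, .ofNat 0]), (false, [.ofNat 0, .ofNat 0, .ofNat 0, .ofNat 1, .negSucc 0, .ofNat 0, .negSucc 0, .ofNat 1, .ofNat 0, .negSucc 0, .ofNat 1])),
  ((false, [.ofNat 0, .ofNat 0, .ofNat 0, .ofNat 1, .ofNat 1, .ofNat 0, .ofNat 1, .negSucc 0, .negSucc 0, .ofNat 0, .ofNat 1]), (true, [.ofNat 0, .ofNat 0, .ofNat 0, .ofNat 1, .negSucc 0, .negSucc 0, .negSucc 0, .ofNat 1, .ofNat 1, .ofNat 0, .ofNat 1])),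
  ((false, [.ofNat 0, .ofNat 0, .ofNat 0, .ofNat 1, .ofNat 1, .ofNat 0, .ofNat 1, .negSucc 0, .negSucc 0, .ofNat 1, .ofNat 0]), (true, [.ofNat 0, .ofNat 0, .ofNat 0, .ofNat 0, .ofNat 0, .negSucc 0, .ofNat 0, .ofNat 0, .ofNat 1, .ofNat 1, .ofNat 0])),
  ((true, [.ofNat 0, .ofNat 0, .ofNat 1, .ofNat 0, .ofNat 1, .ofNat 1, .ofNat 0, .ofNat 0, .negSucc 1, .ofNat 0, .negSucc 0]), (false, [.ofNat 0, .ofNat 0, .ofNat 0, .ofNat 1, .negSucc 0, .ofNat 0, .negSucc 0, .ofNat 1, .ofNat 0, .ofNat 2, .negSucc 0])),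
  ((false, [.ofNat 0, .ofNat 0, .ofNat 1, .ofNat 0, .ofNat 1, .ofNat 0, .ofNat 0, .ofNat 0, .negSucc 0, .ofNat 1, .ofNat 0]), (true, [.ofNat 0, .ofNat 0, .ofNat 0, .ofNat 1, .negSucc 0, .negSucc 0, .negSucc 0, .ofNat 1, .ofNat 1, .ofNat 1, .ofNat 0])),
  ((false, [.ofNat 0, .ofNat 0, .ofNat 1, .ofNat 0, .ofNat 1, .ofNat 0, .ofNat 0, .ofNat 0, .negSucc 0, .negSucc 0, .ofNat 1]), (true, [.ofNat 0, .ofNat 0, .ofNat 0, .ofNat 0, .ofNat 0, .negSucc 0, .ofNat 0, .ofNat 0, .ofNat 1, .negSucc 0, .ofNat 1])),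
  ((false, [.ofNat 0, .ofNat 0, .ofNat 0, .ofNat 0, .ofNat 2, .ofNat 1, .ofNat 1, .negSucc 0, .negSucc 1, .ofNat 0, .ofNat 1]), (true, [.ofNat 0, .ofNat 0, .ofNat 1, .ofNat 0, .ofNat 1, .ofNat 1, .ofNat 0, .negSucc 0, .negSucc 0, .ofNat 1, .ofNat 0])),
  ((true, [.ofNat 0, .ofNat 0, .ofNat 0, .ofNat 0, .ofNat 1, .ofNat 1, .ofNat 1, .ofNat 0, .negSucc 1, .ofNat 2, .ofNat 0]), (false, [.ofNat 0, .ofNat 0, .ofNat 1, .ofNat 0, .ofNat 0, .ofNat 1, .ofNat 0, .ofNat 0, .negSucc 0, .ofNat 2, .ofNat 0])),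
  ((false, [.ofNat 0, .ofNat 0, .ofNat 0, .ofNat 0, .ofNat 1, .ofNat 1, .ofNat 1, .ofNat 0, .negSucc 1, .ofNat 1, .ofNat 0]), (true, [.ofNat 0, .ofNat 0, .ofNat 0, .ofNat 0, .negSucc 0, .ofNat 0, .ofNat 0, .ofNat 1, .ofNat 0, .ofNat 1, .ofNat 0])),
  ((true, [.ofNat 0, .ofNat 0, .negSucc 0, .negSucc 0, .ofNat 1, .ofNat 1, .ofNat 1, .ofNat 1, .negSucc 1, .ofNat 0, .ofNat 1]), (false, [.ofNat 0, .ofNat 0, .negSucc 0, .ofNat 0, .ofNat 0, .ofNat 1, .ofNat 1, .ofNat 0, .negSucc 0, .ofNat 2, .ofNat 0])),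
  ((false, [.ofNat 0, .ofNat 0, .ofNat 0, .ofNat 0, .ofNat 2, .ofNat 1, .ofNat 0, .ofNat 0, .negSucc 1, .ofNat 0, .ofNat 2]), (true, [.ofNat 0, .ofNat 0, .ofNat 0, .ofNat 1, .ofNat 1, .ofNat 1, .ofNat 0, .negSucc 0, .negSucc 0, .ofNat 3, .ofNat 0])),
  ((true, [.ofNat 0, .ofNat 0, .ofNat 0, .negSucc 0, .ofNat 2, .ofNat 1, .ofNat 1, .ofNat 0, .negSucc 1, .ofNat 2, .ofNat 1]), (false, [.ofNat 0, .ofNat 0, .ofNat 0, .ofNat 0, .ofNat 1, .ofNat 1, .ofNat 1, .negSucc 0, .negSucc 0, .ofNat 2, .ofNat 1])),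
  ((false, [.ofNat 0, .ofNat 0, .ofNat 0, .ofNat 0, .ofNat 2, .ofNat 1, .ofNat 0, .ofNat 0, .negSucc 1, .ofNat 0, .ofNat 1]), (true, [.ofNat 0, .ofNat 0, .ofNat 1, .ofNat 1, .ofNat 1, .ofNat 0, .negSucc 0, .negSucc 0, .ofNat 0, .ofNat 1, .ofNat 0])),
  ((true, [.ofNat 0, .ofNat 0, .ofNat 0, .negSucc 0, .ofNat 2, .ofNat 1, .ofNat 1, .ofNat 0, .negSucc 1, .ofNat 0, .ofNat 1]), (false, [.ofNat 0, .ofNat 0, .ofNat 1, .ofNat 0, .ofNat 1, .ofNat 0, .ofNat 0, .negSucc 0, .ofNat 0, .ofNat 0, .ofNat 1])),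
  ((false, [.ofNat 0, .ofNat 0, .ofNat 0, .negSucc 0, .ofNat 2, .ofNat 1, .ofNat 1, .ofNat 0, .negSucc 1, .negSucc 0, .ofNat 1]), (true, [.ofNat 0, .ofNat 0, .ofNat 0, .negSucc 0, .ofNat 0, .ofNat 0, .ofNat 1, .ofNat 0, .ofNat 0, .negSucc 0, .ofNat 1])),
  ((false, [.ofNat 0, .ofNat 0, .ofNat 1, .ofNat 0, .ofNat 0, .ofNat 1, .ofNat 0, .ofNat 0, .negSucc 0, .ofNat 2, .negSucc 0]), (true, [.ofNat 0, .ofNat 0, .ofNat 0, .ofNat 0, .negSucc 0, .ofNat 0, .ofNat 0, .ofNat 1, .ofNat 0, .ofNat 2, .negSucc 0])),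
  ((false, [.ofNat 0, .ofNat 0, .ofNat 0, .ofNat 1, .ofNat 1, .ofNat 1, .ofNat 0, .negSucc 0, .negSucc 0, .ofNat 2, .ofNat 0]), (true, [.ofNat 0, .ofNat 0, .ofNat 1, .ofNat 1, .ofNat 1, .ofNat 0, .negSucc 0, .negSucc 0, .ofNat 0, .ofNat 0, .ofNat 1])),
  ((true, [.ofNat 0, .ofNat 0, .ofNat 0, .ofNat 0, .ofNat 1, .ofNat 1, .ofNat 1, .negSucc 0, .negSucc 0, .ofNat 2, .ofNat 0]), (false, [.ofNat 0, .ofNat 0, .ofNat 1, .ofNat 0, .ofNat 1, .ofNat 0, .ofNat 0, .negSucc 0, .ofNat 0, .ofNat 2, .ofNat 0])),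
  ((false, [.ofNat 0, .ofNat 0, .ofNat 0, .ofNat 0, .ofNat 1, .ofNat 1, .ofNat 1, .negSucc 0, .negSucc 0, .ofNat 2, .negSucc 0]), (true, [.ofNat 0, .ofNat 0, .ofNat 0, .negSucc 0, .ofNat 0, .ofNat 0, .ofNat 1, .ofNat 0, .ofNat 0, .ofNat 2, .negSucc 0])),
  ((true, [.ofNat 0, .ofNat 0, .negSucc 0, .negSucc 0, .ofNat 1, .ofNat 1, .ofNat 1, .ofNat 0, .negSucc 0, .ofNat 1, .ofNat 0]), (false, [.ofNat 0, .ofNat 0, .negSucc 0, .ofNat 0, .ofNat 1, .ofNat 0, .ofNat 1, .negSucc 0, .ofNat 0, .ofNat 0, .ofNat 1])),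
  ((true, [.ofNat 0, .ofNat 0, .ofNat 0, .ofNat 0, .ofNat 1, .ofNat 1, .ofNat 0, .ofNat 0, .negSucc 0, .ofNat 2, .ofNat 1]), (false, [.ofNat 0, .ofNat 0, .ofNat 0, .ofNat 1, .ofNat 1, .ofNat 0, .ofNat 0, .negSucc 0, .ofNat 0, .ofNat 2, .ofNat 1])),
  ((true, [.ofNat 0, .ofNat 0, .ofNat 0, .ofNat 0, .ofNat 1, .ofNat 1, .ofNat 0, .ofNat 0, .negSucc 0, .ofNat 2, .ofNat 0]), (false, [.ofNat 0, .ofNat 0, .ofNat 1, .ofNat 1, .ofNat 0, .ofNat 0, .negSucc 0, .ofNat 0, .ofNat 0, .ofNat 2, .ofNat 0])),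
  ((true, [.ofNat 0, .ofNat 0, .ofNat 0, .negSucc 0, .ofNat 0, .ofNat 1, .ofNat 0, .ofNat 0, .ofNat 0, .ofNat 1, .ofNat 0]), (false, [.ofNat 0, .ofNat 0, .ofNat 0, .negSucc 0, .ofNat 1, .ofNat 0, .ofNat 0, .ofNat 0, .ofNat 0, .ofNat 0, .ofNat 1])),
  ((true, [.ofNat 0, .ofNat 0, .negSucc 0, .ofNat 0, .ofNat 0, .ofNat 1, .ofNat 0, .ofNat 0, .ofNat 0, .ofNat 3, .ofNat 0]), (false, [.ofNat 0, .ofNat 0, .negSucc 0, .ofNat 0, .ofNat 1, .ofNat 0, .ofNat 0, .ofNat 0, .ofNat 0, .ofNat 0, .ofNat 2])),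
  ((false, [.ofNat 0, .ofNat 0, .ofNat 0, .ofNat 0, .ofNat 0, .ofNat 1, .ofNat 0, .ofNat 0, .ofNat 0, .ofNat 4, .ofNat 1]), (true, [.ofNat 0, .ofNat 0, .ofNat 0, .ofNat 0, .ofNat 1, .ofNat 0, .ofNat 0, .ofNat 0, .ofNat 0, .ofNat 4, .ofNat 1])),
  ((true, [.ofNat 0, .ofNat 0, .negSucc 0, .ofNat 0, .ofNat 0, .ofNat 1, .ofNat 0, .ofNat 0, .ofNat 0, .ofNat 1, .ofNat 0]), (false, [.ofNat 0, .ofNat 0, .negSucc 0, .ofNat 1, .ofNat 0, .ofNat 0, .ofNat 0, .ofNat 0, .ofNat 0, .ofNat 0, .ofNat 1])),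
  ((false, [.ofNat 0, .ofNat 0, .ofNat 0, .ofNat 0, .ofNat 0, .ofNat 1, .ofNat 0, .ofNat 0, .ofNat 0, .ofNat 4, .ofNat 0]), (true, [.ofNat 0, .ofNat 0, .ofNat 0, .ofNat 1, .ofNat 0, .ofNat 0, .ofNat 0, .ofNat 0, .ofNat 0, .ofNat 4, .ofNat 0])),
  ((false, [.ofNat 0, .ofNat 0, .ofNat 0, .ofNat 0, .ofNat 0, .ofNat 1, .ofNat 0, .ofNat 0, .ofNat 0, .ofNat 4, .negSucc 0]), (true, [.ofNat 0, .ofNat 0, .ofNat 1, .ofNat 0, .ofNat 0, .ofNat 0, .ofNat 0, .ofNat 0, .ofNat 0, .ofNat 4, .negSucc 0])),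
  ((false, [.ofNat 0, .ofNat 0, .ofNat 1, .ofNat 0, .ofNat 1, .ofNat 0, .ofNat 0, .negSucc 0, .ofNat 0, .ofNat 0, .ofNat 0]), (true, [.ofNat 0, .ofNat 0, .ofNat 0, .negSucc 0, .ofNat 0, .ofNat 0, .ofNat 1, .ofNat 0, .ofNat 0, .ofNat 0, .ofNat 0])),
  ((true, [.ofNat 0, .ofNat 0, .ofNat 0, .ofNat 1, .ofNat 1, .ofNat 0, .ofNat 0, .negSucc 0, .ofNat 0, .ofNat 1, .ofNat 1]), (false, [.ofNat 0, .ofNat 0, .ofNat 1, .ofNat 1, .ofNat 0, .ofNat 0, .negSucc 0, .ofNat 0, .ofNat 0, .ofNat 1, .ofNat 1])),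
  ((true, [.ofNat 0, .ofNat 0, .negSucc 0, .ofNat 0, .ofNat 1, .ofNat 0, .ofNat 0, .ofNat 0, .ofNat 0, .ofNat 0, .ofNat 1]), (false, [.ofNat 0, .ofNat 0, .negSucc 0, .ofNat 1, .ofNat 0, .ofNat 0, .ofNat 0, .ofNat 0, .ofNat 0, .ofNat 2, .ofNat 0])),
  ((false, [.ofNat 0, .ofNat 0, .ofNat 0, .ofNat 0, .ofNat 1, .ofNat 0, .ofNat 0, .ofNat 0, .ofNat 0, .ofNat 3, .ofNat 1]), (true, [.ofNat 0, .ofNat 0, .ofNat 0, .ofNat 1, .ofNat 0, .ofNat 0, .ofNat 0, .ofNat 0, .ofNat 0, .ofNat 3, .ofNat 1])),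
  ((false, [.ofNat 0, .ofNat 0, .ofNat 0, .ofNat 0, .ofNat 1, .ofNat 0, .ofNat 0, .ofNat 0, .ofNat 0, .ofNat 1, .ofNat 1]), (true, [.ofNat 0, .ofNat 0, .ofNat 1, .ofNat 0, .ofNat 0, .ofNat 0, .ofNat 0, .ofNat 0, .ofNat 0, .ofNat 1, .ofNat 1])),
  ((true, [.ofNat 0, .ofNat 0, .ofNat 0, .ofNat 0, .ofNat 0, .ofNat 0, .negSucc 0, .ofNat 0, .ofNat 1, .ofNat 1, .ofNat 0]), (false, [.ofNat 0, .ofNat 0, .ofNat 0, .ofNat 0, .ofNat 0, .ofNat 0, .negSucc 0, .ofNat 1, .ofNat 0, .ofNat 0, .ofNat 1])),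
  ((false, [.ofNat 0, .ofNat 0, .negSucc 0, .ofNat 0, .ofNat 0, .ofNat 0, .ofNat 0, .ofNat 0, .ofNat 1, .ofNat 2, .ofNat 1]), (true, [.ofNat 0, .ofNat 0, .negSucc 0, .ofNat 0, .ofNat 0, .ofNat 0, .ofNat 0, .ofNat 1, .ofNat 0, .ofNat 2, .ofNat 1])),
  ((false, [.ofNat 0, .ofNat 0, .negSucc 0, .ofNat 0, .ofNat 0, .ofNat 0, .ofNat 0, .ofNat 0, .ofNat 1, .ofNat 2, .ofNat 0]), (true, [.ofNat 0, .ofNat 0, .negSucc 0, .ofNat 0, .ofNat 0, .ofNat 0, .ofNat 1, .ofNat 0, .ofNat 0, .ofNat 2, .ofNat 0])),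
  ((true, [.ofNat 0, .ofNat 0, .ofNat 0, .ofNat 1, .ofNat 0, .negSucc 0, .negSucc 0, .negSucc 0, .ofNat 2, .ofNat 0, .ofNat 1]), (false, [.ofNat 0, .ofNat 0, .ofNat 0, .ofNat 1, .negSucc 0, .ofNat 0, .negSucc 0, .ofNat 0, .ofNat 1, .ofNat 2, .ofNat 0])),
  ((false, [.ofNat 0, .ofNat 0, .ofNat 0, .ofNat 0, .ofNat 0, .negSucc 0, .negSucc 0, .ofNat 0, .ofNat 2, .ofNat 2, .ofNat 1]), (true, [.ofNat 0, .ofNat 0, .ofNat 0, .ofNat 0, .negSucc 0, .ofNat 0, .negSucc 0, .ofNat 1, .ofNat 1, .ofNat 2, .ofNat 1])),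
  ((false, [.ofNat 0, .ofNat 0, .ofNat 0, .ofNat 0, .ofNat 0, .negSucc 0, .negSucc 0, .ofNat 0, .ofNat 2, .ofNat 0, .ofNat 1]), (true, [.ofNat 0, .ofNat 0, .ofNat 0, .negSucc 0, .ofNat 0, .ofNat 0, .ofNat 0, .ofNat 1, .ofNat 0, .ofNat 0, .ofNat 1])),
  ((false, [.ofNat 0, .ofNat 0, .ofNat 0, .ofNat 1, .ofNat 0, .ofNat 0, .ofNat 0, .ofNat 0, .ofNat 0, .ofNat 3, .ofNat 0]), (true, [.ofNat 0, .ofNat 0, .ofNat 1, .ofNat 0, .ofNat 0, .ofNat 0, .ofNat 0, .ofNat 0, .ofNat 0, .ofNat 3, .ofNat 0])),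
  ((false, [.ofNat 0, .ofNat 0, .negSucc 0, .ofNat 0, .ofNat 0, .ofNat 0, .ofNat 0, .ofNat 1, .ofNat 0, .ofNat 1, .ofNat 1]), (true, [.ofNat 0, .ofNat 0, .negSucc 0, .ofNat 0, .ofNat 0, .ofNat 0, .ofNat 1, .ofNat 0, .ofNat 0, .ofNat 1, .ofNat 1])),
  ((false, [.ofNat 0, .ofNat 0, .ofNat 0, .ofNat 0, .negSucc 0, .ofNat 0, .negSucc 0, .ofNat 1, .ofNat 1, .ofNat 2, .ofNat 0]), (true, [.ofNat 0, .ofNat 0, .ofNat 0, .negSucc 0, .ofNat 0, .ofNat 0, .ofNat 0, .ofNat 1, .ofNat 0, .ofNat 2, .ofNat 0])),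
  ((false, [.ofNat 0, .ofNat 0, .ofNat 0, .ofNat 1, .negSucc 0, .negSucc 0, .negSucc 0, .ofNat 0, .ofNat 2, .ofNat 2, .ofNat 0]), (true, [.ofNat 0, .ofNat 0, .ofNat 0, .ofNat 0, .negSucc 0, .ofNat 0, .ofNat 0, .ofNat 0, .ofNat 1, .ofNat 2, .ofNat 0])),
  ((false, [.ofNat 0, .ofNat 0, .ofNat 0, .ofNat 1, .negSucc 0, .negSucc 0, .negSucc 0, .ofNat 1, .ofNat 1, .ofNat 1, .ofNat 1]), (true, [.ofNat 0, .ofNat 0, .ofNat 0, .ofNat 0, .ofNat 0, .negSucc 0, .ofNat 0, .ofNat 0, .ofNat 1, .ofNat 1, .ofNat 1])),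
  ((true, [.ofNat 0, .ofNat 0, .ofNat 4, .negSucc 0, .ofNat 2, .ofNat 1, .ofNat 0, .negSucc 1, .negSucc 1, .negSucc 2, .ofNat 0]), (false, [.ofNat 0, .ofNat 0, .ofNat 0, .negSucc 2, .ofNat 4, .ofNat 2, .ofNat 2, .ofNat 0, .negSucc 3, .negSucc 2, .ofNat 2])),
  ((false, [.ofNat 0, .ofNat 0, .ofNat 4, .ofNat 1, .ofNat 1, .negSucc 0, .negSucc 0, .negSucc 0, .negSucc 0, .negSucc 2, .ofNat 1]), (true, [.ofNat 0, .ofNat 0, .ofNat 0, .negSucc 0, .negSucc 0, .negSucc 1, .ofNat 1, .ofNat 1, .ofNat 1, .negSucc 2, .ofNat 1])),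
  ((true, [.ofNat 0, .ofNat 0, .ofNat 0, .ofNat 3, .ofNat 2, .ofNat 1, .ofNat 1, .negSucc 2, .negSucc 1, .ofNat 0, .ofNat 1]), (false, [.ofNat 0, .ofNat 0, .ofNat 0, .ofNat 1, .ofNat 0, .ofNat 2, .negSucc 0, .negSucc 0, .ofNat 0, .ofNat 2, .ofNat 0])),
  ((false, [.ofNat 0, .ofNat 0, .ofNat 0, .ofNat 2, .ofNat 2, .ofNat 1, .ofNat 2, .negSucc 1, .negSucc 1, .ofNat 6, .ofNat 1]), (true, [.ofNat 0, .ofNat 0, .ofNat 1, .ofNat 1, .ofNat 1, .negSucc 0, .negSucc 0, .negSucc 0, .ofNat 2, .ofNat 6, .ofNat 1])),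
  ((false, [.ofNat 0, .ofNat 0, .ofNat 0, .negSucc 0, .ofNat 3, .ofNat 1, .ofNat 1, .ofNat 1, .negSucc 2, .ofNat 1, .ofNat 3]), (true, [.ofNat 0, .ofNat 0, .ofNat 0, .ofNat 1, .ofNat 1, .negSucc 1, .negSucc 0, .negSucc 0, .ofNat 3, .ofNat 1, .ofNat 3])),
  ((false, [.ofNat 0, .ofNat 0, .ofNat 0, .negSucc 1, .ofNat 2, .ofNat 3, .ofNat 2, .negSucc 1, .negSucc 1, .ofNat 2, .negSucc 0]), (true, [.ofNat 0, .ofNat 0, .ofNat 3, .negSucc 0, .ofNat 3, .ofNat 1, .ofNat 1, .negSucc 2, .negSucc 1, .ofNat 0, .negSucc 0])),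
  ((false, [.ofNat 0, .ofNat 0, .ofNat 2, .ofNat 0, .ofNat 1, .negSucc 0, .negSucc 0, .negSucc 0, .ofNat 1, .negSucc 1, .ofNat 1]), (true, [.ofNat 0, .ofNat 0, .ofNat 0, .negSucc 1, .ofNat 1, .ofNat 0, .ofNat 1, .ofNat 1, .negSucc 0, .negSucc 1, .ofNat 1])),
  ((false, [.ofNat 0, .ofNat 0, .ofNat 0, .ofNat 2, .ofNat 2, .negSucc 0, .negSucc 1, .negSucc 1, .ofNat 2, .ofNat 0, .ofNat 2]), (true, [.ofNat 0, .ofNat 0, .ofNat 0, .ofNat 3, .ofNat 2, .ofNat 1, .ofNat 0, .negSucc 1, .negSucc 1, .ofNat 3, .ofNat 0])),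
  ((false, [.ofNat 0, .ofNat 0, .ofNat 0, .ofNat 2, .ofNat 0, .negSucc 0, .ofNat 0, .ofNat 0, .ofNat 0, .ofNat 2, .ofNat 1]), (true, [.ofNat 0, .ofNat 0, .ofNat 1, .ofNat 0, .ofNat 1, .negSucc 0, .ofNat 0, .ofNat 0, .ofNat 0, .ofNat 2, .ofNat 1])),
  ((false, [.ofNat 0, .ofNat 0, .ofNat 0, .ofNat 2, .negSucc 1, .negSucc 0, .negSucc 1, .ofNat 2, .ofNat 2, .ofNat 6, .ofNat 1]), (true, [.ofNat 0, .ofNat 0, .ofNat 0, .negSucc 0, .ofNat 2, .ofNat 1, .ofNat 1, .ofNat 1, .negSucc 1, .ofNat 6, .ofNat 1])),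
  ((false, [.ofNat 0, .ofNat 1, .ofNat 0, .negSucc 0, .ofNat 0, .ofNat 1, .ofNat 1, .ofNat 0, .negSucc 1, .ofNat 1, .ofNat 0]), (true, [.ofNat 0, .ofNat 0, .ofNat 1, .ofNat 0, .ofNat 1, .ofNat 1, .ofNat 1, .negSucc 0, .negSucc 1, .ofNat 0, .ofNat 0])),
  ((false, [.ofNat 0, .ofNat 1, .ofNat 0, .ofNat 0, .ofNat 0, .ofNat 0, .ofNat 0, .ofNat 0, .negSucc 0, .ofNat 0, .ofNat 1]), (true, [.ofNat 0, .ofNat 0, .ofNat 1, .ofNat 1, .ofNat 1, .ofNat 0, .ofNat 0, .negSucc 0, .negSucc 0, .ofNat 1, .ofNat 0])),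
  ((true, [.ofNat 0, .ofNat 1, .ofNat 0, .ofNat 0, .negSucc 0, .ofNat 0, .ofNat 0, .ofNat 0, .ofNat 0, .ofNat 2, .ofNat 0]), (false, [.ofNat 0, .ofNat 0, .ofNat 1, .ofNat 1, .ofNat 0, .ofNat 0, .ofNat 0, .negSucc 0, .ofNat 0, .ofNat 2, .ofNat 0])),
  ((true, [.ofNat 0, .ofNat 1, .ofNat 0, .ofNat 0, .ofNat 0, .ofNat 0, .ofNat 0, .ofNat 0, .negSucc 0, .ofNat 0, .ofNat 0]), (false, [.ofNat 0, .ofNat 0, .ofNat 0, .ofNat 1, .ofNat 0, .negSucc 0, .negSucc 0, .ofNat 0, .ofNat 1, .ofNat 1, .ofNat 0])),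
  ((false, [.ofNat 0, .ofNat 1, .ofNat 0, .ofNat 0, .negSucc 0, .ofNat 0, .ofNat 0, .ofNat 0, .ofNat 0, .ofNat 2, .ofNat 0]), (true, [.ofNat 0, .ofNat 0, .ofNat 0, .ofNat 1, .negSucc 0, .negSucc 0, .negSucc 0, .ofNat 0, .ofNat 2, .ofNat 2, .ofNat 0])),
  ((true, [.ofNat 0, .ofNat 2, .ofNat 0, .negSucc 0, .ofNat 0, .ofNat 1, .ofNat 0, .ofNat 0, .negSucc 1, .ofNat 1, .ofNat 0]), (false, [.ofNat 0, .ofNat 0, .ofNat 0, .negSucc 0, .ofNat 3, .ofNat 1, .ofNat 0, .ofNat 0, .negSucc 1, .ofNat 0, .ofNat 1])),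
  ((true, [.ofNat 0, .ofNat 2, .ofNat 0, .negSucc 0, .ofNat 0, .ofNat 1, .ofNat 1, .ofNat 0, .negSucc 1, .ofNat 4, .ofNat 1]), (false, [.ofNat 0, .ofNat 0, .ofNat 1, .ofNat 0, .ofNat 1, .ofNat 1, .ofNat 0, .negSucc 0, .ofNat 0, .ofNat 4, .ofNat 1])),
  ((false, [.ofNat 0, .ofNat 2, .ofNat 0, .ofNat 0, .ofNat 0, .ofNat 1, .ofNat 0, .ofNat 0, .negSucc 1, .ofNat 4, .ofNat 1]), (true, [.ofNat 0, .ofNat 0, .ofNat 1, .ofNat 1, .ofNat 2, .ofNat 0, .negSucc 0, .negSucc 0, .ofNat 0, .ofNat 4, .ofNat 1])),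
  ((false, [.ofNat 0, .ofNat 2, .ofNat 0, .ofNat 0, .negSucc 1, .ofNat 0, .ofNat 0, .ofNat 0, .ofNat 0, .ofNat 4, .ofNat 0]), (true, [.ofNat 0, .ofNat 0, .ofNat 1, .ofNat 2, .negSucc 0, .negSucc 0, .negSucc 0, .negSucc 0, .ofNat 2, .ofNat 4, .ofNat 0])),
  ((true, [.ofNat 1, .ofNat 0, .ofNat 0, .ofNat 0, .ofNat 0, .ofNat 0, .ofNat 0, .negSucc 0, .ofNat 0, .ofNat 0, .negSucc 0]), (false, [.ofNat 0, .ofNat 0, .ofNat 0, .ofNat 0, .ofNat 0, .ofNat 0, .ofNat 0, .negSucc 0, .ofNat 1, .ofNat 2, .negSucc 0])),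
  ((true, [.ofNat 1, .ofNat 0, .ofNat 0, .ofNat 0, .ofNat 0, .ofNat 0, .negSucc 0, .ofNat 0, .ofNat 0, .ofNat 0, .ofNat 0]), (false, [.ofNat 0, .ofNat 0, .ofNat 0, .ofNat 0, .ofNat 0, .ofNat 0, .negSucc 0, .ofNat 0, .ofNat 1, .ofNat 1, .ofNat 0])),
  ((true, [.ofNat 1, .ofNat 0, .ofNat 0, .ofNat 0, .ofNat 0, .ofNat 0, .negSucc 0, .ofNat 0, .ofNat 0, .negSucc 0, .ofNat 0]), (false, [.ofNat 0, .ofNat 0, .ofNat 0, .ofNat 0, .ofNat 0, .ofNat 0, .negSucc 0, .ofNat 1, .ofNat 0, .negSucc 0, .ofNat 1])),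
  ((false, [.ofNat 1, .ofNat 0, .negSucc 0, .ofNat 0, .ofNat 0, .ofNat 0, .ofNat 0, .ofNat 0, .ofNat 0, .ofNat 0, .ofNat 1]), (true, [.ofNat 0, .ofNat 0, .negSucc 0, .ofNat 0, .ofNat 0, .ofNat 0, .ofNat 0, .ofNat 1, .ofNat 0, .ofNat 0, .ofNat 1])),
  ((false, [.ofNat 1, .ofNat 0, .negSucc 0, .ofNat 0, .ofNat 0, .ofNat 0, .ofNat 0, .ofNat 0, .ofNat 0, .ofNat 1, .ofNat 0]), (true, [.ofNat 0, .ofNat 0, .negSucc 0, .ofNat 0, .ofNat 0, .ofNat 0, .ofNat 1, .ofNat 0, .ofNat 0, .ofNat 1, .ofNat 0])),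
  ((true, [.ofNat 1, .ofNat 1, .ofNat 0, .ofNat 0, .negSucc 0, .ofNat 0, .negSucc 0, .ofNat 0, .ofNat 0, .ofNat 2, .ofNat 0]), (false, [.ofNat 0, .ofNat 0, .ofNat 2, .ofNat 1, .ofNat 0, .negSucc 0, .negSucc 1, .negSucc 0, .ofNat 2, .ofNat 2, .ofNat 0])),
  ((true, [.ofNat 2, .ofNat 0, .negSucc 0, .ofNat 0, .ofNat 0, .ofNat 1, .ofNat 0, .ofNat 0, .negSucc 1, .negSucc 0, .ofNat 0]), (false, [.ofNat 0, .ofNat 0, .negSucc 0, .ofNat 0, .ofNat 2, .ofNat 2, .ofNat 2, .ofNat 0, .negSucc 3, .negSucc 0, .ofNat 1])),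
  ((true, [.ofNat 2, .ofNat 0, .negSucc 0, .negSucc 0, .ofNat 1, .ofNat 1, .ofNat 1, .negSucc 0, .negSucc 1, .ofNat 0, .negSucc 0]), (false, [.ofNat 0, .ofNat 0, .negSucc 0, .ofNat 0, .ofNat 2, .ofNat 2, .ofNat 3, .negSucc 1, .negSucc 2, .ofNat 2, .negSucc 0])),
  ((true, [.ofNat 2, .ofNat 0, .ofNat 0, .ofNat 0, .ofNat 0, .ofNat 0, .negSucc 0, .ofNat 0, .negSucc 0, .negSucc 2, .ofNat 0]), (false, [.ofNat 0, .ofNat 0, .ofNat 0, .ofNat 0, .ofNat 0, .ofNat 0, .negSucc 0, .ofNat 2, .negSucc 0, .negSucc 2, .ofNat 2])),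
  ((false, [.ofNat 2, .ofNat 0, .negSucc 0, .ofNat 0, .ofNat 0, .ofNat 0, .ofNat 0, .ofNat 0, .negSucc 0, .ofNat 0, .ofNat 0]), (true, [.ofNat 0, .ofNat 0, .negSucc 0, .ofNat 0, .ofNat 0, .ofNat 0, .ofNat 2, .ofNat 0, .negSucc 0, .ofNat 0, .ofNat 0])),
  ((false, [.ofNat 2, .ofNat 0, .ofNat 0, .ofNat 1, .negSucc 0, .negSucc 0, .negSucc 0, .negSucc 0, .ofNat 1, .ofNat 1, .negSucc 0]), (true, [.ofNat 0, .ofNat 0, .ofNat 0, .ofNat 0, .negSucc 1, .negSucc 1, .ofNat 0, .ofNat 0, .ofNat 3, .ofNat 1, .negSucc 0])),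
  ((false, [.ofNat 0, .ofNat 1, .ofNat 1, .ofNat 0, .ofNat 0, .ofNat 1, .ofNat 0, .ofNat 0, .negSucc 1, .ofNat 2, .ofNat 0]), (true, [.ofNat 1, .ofNat 0, .ofNat 0, .ofNat 0, .ofNat 1, .ofNat 1, .ofNat 0, .ofNat 0, .negSucc 1, .ofNat 2, .ofNat 0])),
  ((true, [.ofNat 1, .negSucc 0, .ofNat 1, .ofNat 1, .ofNat 1, .ofNat 0, .negSucc 0, .negSucc 0, .ofNat 0, .negSucc 0, .ofNat 0]), (false, [.ofNat 0, .negSucc 0, .ofNat 0, .ofNat 1, .ofNat 2, .ofNat 0, .ofNat 0, .negSucc 0, .ofNat 0, .negSucc 0, .ofNat 1])),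
  ((true, [.ofNat 0, .ofNat 1, .ofNat 2, .negSucc 0, .ofNat 1, .ofNat 1, .ofNat 0, .negSucc 0, .negSucc 1, .negSucc 0, .ofNat 0]), (false, [.ofNat 0, .ofNat 0, .ofNat 0, .negSucc 1, .ofNat 3, .ofNat 2, .ofNat 1, .ofNat 0, .negSucc 2, .negSucc 0, .ofNat 1])),
  ((false, [.ofNat 0, .negSucc 0, .ofNat 3, .ofNat 1, .ofNat 1, .ofNat 0, .negSucc 0, .negSucc 0, .ofNat 0, .ofNat 1, .negSucc 0]), (true, [.ofNat 0, .negSucc 0, .ofNat 0, .ofNat 1, .negSucc 0, .negSucc 0, .negSucc 0, .ofNat 1, .ofNat 2, .ofNat 1, .negSucc 0])),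
  ((true, [.ofNat 0, .ofNat 1, .ofNat 0, .ofNat 0, .ofNat 0, .ofNat 1, .ofNat 1, .ofNat 0, .negSucc 1, .ofNat 3, .ofNat 0]), (false, [.ofNat 1, .ofNat 0, .ofNat 0, .ofNat 0, .ofNat 0, .ofNat 1, .ofNat 0, .ofNat 0, .negSucc 0, .ofNat 3, .ofNat 0])),
  ((false, [.ofNat 1, .ofNat 0, .ofNat 0, .ofNat 1, .ofNat 0, .ofNat 0, .ofNat 0, .negSucc 0, .ofNat 0, .ofNat 3, .ofNat 0]), (true, [.ofNat 0, .ofNat 0, .ofNat 1, .ofNat 1, .ofNat 0, .negSucc 0, .negSucc 0, .negSucc 0, .ofNat 2, .ofNat 3, .ofNat 0])),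
  ((true, [.ofNat 0, .ofNat 1, .ofNat 0, .ofNat 1, .ofNat 1, .ofNat 1, .ofNat 1, .negSucc 0, .negSucc 1, .ofNat 5, .ofNat 1]), (false, [.ofNat 0, .ofNat 0, .ofNat 1, .ofNat 1, .ofNat 1, .ofNat 0, .negSucc 0, .negSucc 0, .ofNat 1, .ofNat 5, .ofNat 1])),
  ((false, [.ofNat 0, .ofNat 0, .ofNat 1, .ofNat 1, .ofNat 2, .ofNat 1, .ofNat 1, .negSucc 1, .negSucc 1, .ofNat 2, .ofNat 0]), (true, [.ofNat 1, .ofNat 0, .ofNat 0, .ofNat 0, .ofNat 1, .ofNat 1, .ofNat 0, .negSucc 0, .negSucc 0, .ofNat 2, .ofNat 0])),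
  ((true, [.ofNat 0, .ofNat 0, .ofNat 0, .ofNat 1, .ofNat 2, .ofNat 1, .ofNat 2, .negSucc 1, .negSucc 1, .ofNat 3, .ofNat 0]), (false, [.ofNat 1, .ofNat 0, .ofNat 0, .ofNat 0, .ofNat 1, .ofNat 0, .ofNat 0, .negSucc 0, .ofNat 0, .ofNat 3, .ofNat 0])),
  ((false, [.ofNat 0, .ofNat 1, .ofNat 0, .negSucc 1, .ofNat 1, .ofNat 1, .ofNat 1, .ofNat 0, .negSucc 1, .negSucc 0, .ofNat 1]), (true, [.ofNat 0, .ofNat 0, .ofNat 2, .negSucc 0, .ofNat 1, .ofNat 1, .ofNat 0, .negSucc 0, .negSucc 0, .negSucc 0, .ofNat 0])),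
  ((false, [.ofNat 1, .ofNat 0, .ofNat 0, .ofNat 0, .ofNat 1, .ofNat 0, .ofNat 0, .ofNat 0, .negSucc 0, .ofNat 1, .ofNat 1]), (true, [.ofNat 0, .ofNat 0, .ofNat 1, .ofNat 1, .ofNat 0, .negSucc 0, .negSucc 0, .ofNat 0, .ofNat 1, .ofNat 1, .ofNat 1])),
  ((true, [.negSucc 0, .ofNat 1, .ofNat 0, .ofNat 0, .ofNat 1, .ofNat 1, .ofNat 1, .ofNat 0, .negSucc 1, .ofNat 2, .ofNat 1]), (false, [.negSucc 0, .ofNat 0, .ofNat 1, .ofNat 1, .ofNat 1, .negSucc 0, .negSucc 0, .negSucc 0, .ofNat 2, .ofNat 2, .ofNat 1])),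
  ((true, [.ofNat 0, .ofNat 0, .ofNat 0, .ofNat 1, .ofNat 2, .ofNat 1, .ofNat 1, .negSucc 0, .negSucc 1, .ofNat 4, .ofNat 1]), (false, [.ofNat 0, .ofNat 1, .ofNat 0, .ofNat 0, .ofNat 0, .ofNat 1, .ofNat 0, .ofNat 0, .negSucc 0, .ofNat 4, .ofNat 1])),
  ((false, [.negSucc 0, .ofNat 0, .ofNat 0, .ofNat 1, .ofNat 2, .ofNat 1, .ofNat 2, .negSucc 0, .negSucc 1, .ofNat 3, .ofNat 1]), (true, [.negSucc 0, .ofNat 0, .ofNat 1, .ofNat 1, .ofNat 0, .negSucc 0, .negSucc 0, .ofNat 0, .ofNat 2, .ofNat 3, .ofNat 1])),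
  ((false, [.ofNat 1, .negSucc 0, .ofNat 0, .ofNat 0, .ofNat 2, .ofNat 0, .ofNat 0, .ofNat 0, .negSucc 0, .negSucc 0, .ofNat 1]), (true, [.ofNat 0, .negSucc 0, .ofNat 0, .ofNat 1, .ofNat 0, .negSucc 1, .negSucc 0, .ofNat 0, .ofNat 3, .negSucc 0, .ofNat 1])),
  ((true, [.ofNat 0, .ofNat 0, .negSucc 0, .ofNat 0, .ofNat 2, .ofNat 1, .ofNat 1, .ofNat 0, .negSucc 1, .ofNat 2, .ofNat 1]), (false, [.ofNat 0, .ofNat 1, .negSucc 0, .ofNat 0, .ofNat 0, .ofNat 0, .ofNat 0, .ofNat 0, .ofNat 0, .ofNat 2, .ofNat 1])),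
  ((true, [.ofNat 0, .ofNat 0, .negSucc 1, .negSucc 0, .ofNat 2, .ofNat 1, .ofNat 1, .ofNat 1, .negSucc 1, .ofNat 0, .ofNat 1]), (false, [.ofNat 0, .ofNat 1, .negSucc 1, .ofNat 0, .negSucc 0, .ofNat 0, .ofNat 0, .ofNat 1, .ofNat 0, .ofNat 2, .ofNat 0])),
  ((false, [.ofNat 0, .ofNat 1, .ofNat 0, .negSucc 0, .ofNat 0, .ofNat 1, .ofNat 0, .ofNat 0, .negSucc 0, .ofNat 1, .ofNat 0]), (true, [.ofNat 0, .ofNat 0, .ofNat 2, .ofNat 0, .ofNat 1, .ofNat 0, .negSucc 0, .negSucc 0, .ofNat 0, .ofNat 0, .ofNat 0])),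
  ((true, [.ofNat 0, .ofNat 1, .ofNat 0, .ofNat 0, .ofNat 0, .ofNat 1, .ofNat 0, .ofNat 0, .negSucc 0, .ofNat 4, .ofNat 0]), (false, [.ofNat 1, .ofNat 0, .ofNat 0, .ofNat 1, .ofNat 0, .ofNat 0, .negSucc 0, .ofNat 0, .ofNat 0, .ofNat 4, .ofNat 0])),
  ((false, [.ofNat 0, .ofNat 0, .ofNat 0, .ofNat 1, .ofNat 1, .ofNat 1, .ofNat 1, .negSucc 0, .negSucc 0, .ofNat 5, .ofNat 1]), (true, [.ofNat 0, .ofNat 1, .ofNat 0, .ofNat 0, .ofNat 0, .ofNat 0, .ofNat 0, .ofNat 0, .ofNat 0, .ofNat 5, .ofNat 1])),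
  ((false, [.ofNat 0, .ofNat 0, .negSucc 0, .ofNat 0, .ofNat 1, .ofNat 1, .ofNat 1, .ofNat 0, .negSucc 0, .ofNat 3, .ofNat 1]), (true, [.ofNat 0, .ofNat 1, .negSucc 0, .ofNat 0, .negSucc 0, .ofNat 0, .ofNat 0, .ofNat 1, .ofNat 0, .ofNat 3, .ofNat 1])),
  ((false, [.ofNat 0, .ofNat 0, .negSucc 1, .negSucc 0, .ofNat 1, .ofNat 1, .ofNat 1, .ofNat 1, .negSucc 0, .ofNat 1, .ofNat 1]), (true, [.ofNat 0, .ofNat 1, .negSucc 1, .negSucc 0, .negSucc 0, .ofNat 0, .ofNat 1, .ofNat 1, .ofNat 0, .ofNat 1, .ofNat 1])),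
  ((false, [.ofNat 0, .ofNat 0, .ofNat 2, .ofNat 1, .ofNat 0, .negSucc 0, .negSucc 0, .negSucc 0, .ofNat 1, .ofNat 1, .ofNat 0]), (true, [.ofNat 1, .ofNat 0, .ofNat 0, .ofNat 1, .negSucc 0, .negSucc 0, .negSucc 0, .ofNat 0, .ofNat 1, .ofNat 1, .ofNat 0])),
  ((false, [.negSucc 0, .ofNat 0, .ofNat 0, .ofNat 1, .ofNat 1, .ofNat 0, .ofNat 1, .negSucc 0, .ofNat 0, .ofNat 2, .ofNat 1]), (true, [.negSucc 0, .ofNat 1, .ofNat 0, .ofNat 0, .negSucc 0, .ofNat 0, .ofNat 0, .ofNat 1, .ofNat 0, .ofNat 2, .ofNat 1])),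
  ((true, [.ofNat 0, .negSucc 0, .ofNat 1, .ofNat 1, .ofNat 1, .ofNat 0, .negSucc 0, .negSucc 0, .ofNat 1, .ofNat 0, .ofNat 0]), (false, [.ofNat 0, .negSucc 0, .ofNat 0, .ofNat 2, .ofNat 1, .ofNat 0, .ofNat 0, .negSucc 0, .ofNat 0, .ofNat 1, .ofNat 0])),
  ((false, [.ofNat 0, .ofNat 1, .ofNat 0, .ofNat 1, .negSucc 1, .negSucc 0, .negSucc 0, .ofNat 0, .ofNat 2, .ofNat 3, .ofNat 0]), (true, [.ofNat 0, .ofNat 0, .ofNat 1, .ofNat 1, .negSucc 0, .ofNat 0, .ofNat 0, .negSucc 0, .ofNat 1, .ofNat 3, .ofNat 0]))]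

theorem poolOk : PoolOk C8d E G8d pool :=
  ⟨by decide, by decide +kernel, by decide +kernel⟩

/-- relations -/
noncomputable def z1r0 : List (Rel × List ℤ) := [
  (⟨(1, 0), (6, 0), (19, 5), some (41, 5), some (46, 5)⟩, [.ofNat 0, .ofNat 624, .negSucc 34583, .ofNat 25428, .ofNat 12654, .negSucc 41483, .negSucc 9971, .negSucc 44087, .ofNat 78918, .negSucc 26447, .ofNat 49386]),
  (⟨(1, 0), (7, 0), (47, 1), some (31, 1), some (27, 4)⟩, [.ofNat 0, .negSucc 623, .ofNat 1248, .ofNat 6810, .negSucc 12653, .negSucc 6953, .negSucc 21953, .ofNat 12162, .ofNat 17958, .negSucc 4853, .negSucc 947]),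
  (⟨(3, 0), (7, 0), (52, 1), some (21, 1), some (17, 4)⟩, [.ofNat 0, .ofNat 0, .ofNat 900, .ofNat 348, .ofNat 276, .negSucc 899, .ofNat 2988, .negSucc 1919, .negSucc 935, .negSucc 2015, .ofNat 2016]),
  (⟨(3, 0), (34, 4), (103, 4), some (95, 4), some (69, 1)⟩, [.ofNat 0, .ofNat 0, .negSucc 107, .negSucc 851, .ofNat 1320, .negSucc 1307, .negSucc 935, .ofNat 1212, .negSucc 191, .negSucc 4895, .ofNat 348]),
  (⟨(3, 0), (56, 5), (102, 2), some (95, 1), some (88, 1)⟩, [.ofNat 0, .ofNat 0, .ofNat 4176, .negSucc 2555, .ofNat 3948, .ofNat 2208, .ofNat 1008, .negSucc 1775, .negSucc 4415, .negSucc 4175, .ofNat 696]),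
  (⟨(5, 0), (16, 1), (95, 4), some (89, 3), some (67, 4)⟩, [.ofNat 0, .negSucc 119, .ofNat 1368, .ofNat 120, .ofNat 792, .ofNat 336, .negSucc 119, .negSucc 791, .negSucc 671, .ofNat 120, .negSucc 119]),
  (⟨(5, 0), (17, 0), (18, 5), some (25, 5), some (31, 5)⟩, [.ofNat 0, .ofNat 492, .negSucc 3176, .negSucc 13142, .negSucc 25352, .ofNat 3840, .ofNat 486, .ofNat 37407, .negSucc 14678, .ofNat 6771, .negSucc 1259]),
  (⟨(5, 0), (40, 0), (41, 5), some (44, 5), some (52, 5)⟩, [.ofNat 0, .negSucc 371, .negSucc 17822, .ofNat 6543, .ofNat 24561, .negSucc 4175, .ofNat 9450, .negSucc 30134, .ofNat 15351, .negSucc 6890, .ofNat 1380]),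
  (⟨(6, 0), (12, 0), (29, 5), some (41, 5), some (49, 5)⟩, [.ofNat 0, .ofNat 0, .ofNat 444, .ofNat 2268, .ofNat 10848, .ofNat 6366, .ofNat 10344, .negSucc 11231, .negSucc 12479, .negSucc 2075, .negSucc 4673]),
  (⟨(6, 0), (16, 0), (53, 1), some (34, 1), some (27, 4)⟩, [.ofNat 0, .ofNat 624, .ofNat 5064, .negSucc 7745, .ofNat 26274, .ofNat 14202, .ofNat 22578, .negSucc 24221, .negSucc 26141, .negSucc 7889, .ofNat 7320]),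
  (⟨(6, 0), (17, 0), (50, 1), some (45, 1), some (40, 4)⟩, [.ofNat 0, .negSucc 371, .negSucc 8630, .ofNat 13371, .ofNat 12921, .negSucc 14591, .ofNat 2622, .negSucc 39326, .ofNat 36183, .negSucc 6050, .ofNat 540]),
  (⟨(6, 0), (66, 3), (69, 2), none, some (67, 0)⟩, [.ofNat 0, .ofNat 372, .ofNat 936, .ofNat 2556, .negSucc 4991, .negSucc 83, .ofNat 1860, .negSucc 1703, .ofNat 1584, .ofNat 4548, .negSucc 1175]),
  (⟨(7, 0), (13, 0), (18, 5), some (41, 5), some (45, 5)⟩, [.ofNat 0, .ofNat 0, .ofNat 1548, .ofNat 6960, .ofNat 0, .negSucc 4253, .negSucc 1547, .ofNat 1548, .ofNat 0, .ofNat 1548, .ofNat 0]),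
  (⟨(7, 0), (14, 0), (19, 5), some (51, 5), some (53, 5)⟩, [.ofNat 0, .ofNat 744, .negSucc 491, .negSucc 9797, .negSucc 11153, .ofNat 3336, .negSucc 10133, .ofNat 10770, .ofNat 5382, .negSucc 16733, .negSucc 695]),
  (⟨(7, 0), (66, 3), (70, 2), none, some (68, 0)⟩, [.ofNat 0, .negSucc 1367, .negSucc 227, .ofNat 0, .ofNat 7452, .ofNat 1740, .ofNat 1392, .negSucc 755, .negSucc 5711, .negSucc 1679, .ofNat 1764]),
  (⟨(9, 0), (11, 0), (16, 1), none, some (13, 4)⟩, [.ofNat 0, .ofNat 0, .ofNat 1548, .negSucc 1547, .negSucc 13919, .negSucc 6959, .negSucc 15467, .ofNat 15468, .ofNat 13920, .ofNat 1548, .negSucc 8507])]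

/-- relations -/
noncomputable def z1r1 : List (Rel × List ℤ) := [
  (⟨(11, 0), (29, 0), (37, 5), some (32, 5), some (45, 3)⟩, [.ofNat 0, .negSucc 623, .negSucc 2087, .ofNat 7284, .negSucc 25433, .negSucc 18503, .negSucc 23513, .ofNat 25434, .ofNat 25950, .ofNat 0, .ofNat 13938]),
  (⟨(11, 0), (41, 0), (47, 5), some (43, 5), some (53, 3)⟩, [.ofNat 0, .ofNat 624, .ofNat 5292, .negSucc 19931, .ofNat 2070, .ofNat 11544, .negSucc 3053, .ofNat 1134, .negSucc 2585, .negSucc 7895, .negSucc 31889]),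
  (⟨(12, 0), (21, 2), (81, 4), some (82, 4), some (83, 1)⟩, [.ofNat 0, .ofNat 0, .ofNat 444, .ofNat 0, .negSucc 383, .negSucc 383, .negSucc 887, .ofNat 0, .ofNat 1020, .ofNat 192, .negSucc 191]),
  (⟨(14, 0), (24, 1), (84, 4), some (81, 4), some (85, 1)⟩, [.ofNat 0, .ofNat 0, .ofNat 0, .ofNat 0, .ofNat 504, .ofNat 504, .ofNat 0, .ofNat 0, .negSucc 755, .negSucc 251, .ofNat 252]),
  (⟨(14, 0), (29, 2), (94, 2), some (93, 2), some (79, 1)⟩, [.ofNat 0, .ofNat 744, .negSucc 491, .negSucc 47, .negSucc 1907, .negSucc 1451, .negSucc 383, .ofNat 1020, .ofNat 672, .negSucc 2447, .negSucc 947]),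
  (⟨(16, 0), (25, 5), (108, 2), some (78, 1), some (96, 1)⟩, [.ofNat 0, .ofNat 744, .ofNat 132, .negSucc 47, .negSucc 2915, .negSucc 2459, .negSucc 2135, .ofNat 1404, .ofNat 2928, .negSucc 2207, .negSucc 1067]),
  (⟨(17, 0), (70, 4), (96, 4), some (86, 2), some (100, 1)⟩, [.ofNat 0, .ofNat 120, .ofNat 0, .negSucc 119, .ofNat 0, .ofNat 240, .ofNat 120, .ofNat 0, .negSucc 359, .ofNat 120, .negSucc 119]),
  (⟨(18, 0), (24, 0), (52, 5), some (32, 5), some (54, 3)⟩, [.ofNat 0, .ofNat 252, .negSucc 9350, .negSucc 7502, .ofNat 43041, .ofNat 28614, .ofNat 35688, .ofNat 9495, .negSucc 81236, .negSucc 5102, .ofNat 37086]),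
  (⟨(18, 0), (42, 0), (66, 4), some (110, 5), some (95, 1)⟩, [.ofNat 0, .ofNat 240, .negSucc 1595, .ofNat 1320, .ofNat 156, .ofNat 588, .ofNat 2184, .negSucc 155, .negSucc 1991, .ofNat 4104, .ofNat 588]),
  (⟨(19, 0), (25, 0), (42, 5), some (32, 5), some (48, 3)⟩, [.ofNat 0, .ofNat 1368, .ofNat 21726, .ofNat 56514, .negSucc 28607, .negSucc 40391, .negSucc 50597, .negSucc 33209, .ofNat 88734, .ofNat 61470, .ofNat 48690]),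
  (⟨(19, 0), (32, 4), (98, 2), some (101, 2), some (68, 1)⟩, [.ofNat 0, .negSucc 119, .negSucc 1163, .ofNat 1200, .ofNat 1452, .negSucc 227, .ofNat 1836, .negSucc 107, .negSucc 2639, .negSucc 167, .ofNat 0]),
  (⟨(19, 0), (33, 0), (47, 5), some (38, 5), some (54, 3)⟩, [.ofNat 0, .ofNat 120, .ofNat 0, .negSucc 42083, .ofNat 0, .ofNat 29454, .ofNat 0, .ofNat 0, .negSucc 119, .negSucc 50519, .ofNat 0]),
  (⟨(21, 0), (31, 0), (45, 5), some (35, 5), some (48, 3)⟩, [.ofNat 0, .negSucc 623, .negSucc 22445, .negSucc 14573, .negSucc 5015, .ofNat 3762, .negSucc 23201, .ofNat 25746, .ofNat 25014, .ofNat 16446, .ofNat 32448]),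
  (⟨(21, 0), (42, 0), (50, 5), some (46, 5), some (54, 3)⟩, [.ofNat 0, .negSucc 371, .ofNat 9351, .negSucc 1448, .ofNat 23127, .negSucc 7031, .ofNat 15348, .negSucc 9494, .negSucc 35846, .negSucc 76712, .negSucc 37085]),
  (⟨(21, 0), (43, 0), (91, 1), some (75, 1), some (96, 4)⟩, [.ofNat 0, .ofNat 624, .negSucc 587, .ofNat 48, .negSucc 2003, .negSucc 1787, .negSucc 587, .ofNat 924, .ofNat 1464, .negSucc 2015, .negSucc 983]),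
  (⟨(21, 0), (44, 3), (102, 2), some (111, 1), some (106, 0)⟩, [.ofNat 0, .ofNat 372, .ofNat 19053, .ofNat 19425, .negSucc 19796, .negSucc 371, .negSucc 371, .negSucc 19052, .ofNat 19797, .ofNat 58275, .ofNat 0])]

/-- relations -/
noncomputable def z1r2 : List (Rel × List ℤ) := [
  (⟨(24, 0), (25, 0), (40, 1), none, some (26, 4)⟩, [.ofNat 0, .ofNat 0, .ofNat 0, .ofNat 840, .negSucc 20831, .negSucc 10415, .negSucc 839, .ofNat 0, .ofNat 20832, .ofNat 840, .negSucc 839]),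
  (⟨(24, 0), (43, 3), (71, 4), some (74, 1), some (73, 1)⟩, [.ofNat 0, .ofNat 624, .ofNat 48, .ofNat 684, .ofNat 660, .negSucc 1031, .negSucc 1103, .ofNat 288, .negSucc 47, .ofNat 1344, .ofNat 288]),
  (⟨(24, 0), (47, 4), (101, 2), some (107, 2), some (67, 1)⟩, [.ofNat 0, .negSucc 371, .ofNat 26493, .ofNat 26865, .ofNat 19989, .ofNat 252, .ofNat 1740, .negSucc 26684, .negSucc 22652, .ofNat 28857, .negSucc 1919]),
  (⟨(25, 0), (42, 4), (101, 2), some (102, 2), some (68, 1)⟩, [.ofNat 0, .ofNat 132, .negSucc 74198, .negSucc 26312, .ofNat 71703, .ofNat 44670, .ofNat 46446, .ofNat 28197, .negSucc 72398, .ofNat 57747, .ofNat 46194]),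
  (⟨(29, 0), (43, 4), (105, 2), some (106, 2), some (68, 1)⟩, [.ofNat 0, .negSucc 1367, .ofNat 1944, .ofNat 9600, .ofNat 11664, .ofNat 10560, .ofNat 8460, .negSucc 11159, .negSucc 8447, .ofNat 49056, .ofNat 10212]),
  (⟨(31, 0), (32, 0), (41, 1), none, some (33, 4)⟩, [.ofNat 0, .ofNat 492, .ofNat 12615, .ofNat 26769, .negSucc 57200, .negSucc 46739, .negSucc 40247, .ofNat 29181, .ofNat 53673, .negSucc 33224, .ofNat 53946]),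
  (⟨(32, 0), (90, 3), (97, 2), some (91, 0), some (92, 0)⟩, [.ofNat 0, .negSucc 623, .ofNat 1164, .ofNat 528, .ofNat 2004, .ofNat 1212, .ofNat 12, .negSucc 1499, .negSucc 311, .ofNat 3744, .ofNat 984]),
  (⟨(33, 0), (52, 4), (106, 2), some (107, 2), some (68, 1)⟩, [.ofNat 0, .negSucc 371, .ofNat 85239, .ofNat 29001, .negSucc 74366, .negSucc 55373, .negSucc 57605, .negSucc 29180, .ofNat 77775, .negSucc 84722, .negSucc 53945]),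
  (⟨(34, 0), (35, 0), (42, 1), none, some (37, 4)⟩, [.ofNat 0, .negSucc 623, .negSucc 5171, .negSucc 14105, .negSucc 25433, .ofNat 5970, .negSucc 23513, .ofNat 25434, .ofNat 25950, .ofNat 24474, .negSucc 7451]),
  (⟨(38, 0), (69, 2), (104, 2), some (76, 4), some (90, 0)⟩, [.ofNat 0, .negSucc 119, .ofNat 0, .ofNat 0, .ofNat 0, .negSucc 119, .ofNat 0, .ofNat 0, .ofNat 120, .negSucc 479, .ofNat 0]),
  (⟨(41, 0), (68, 0), (87, 4), some (109, 3), some (77, 1)⟩, [.ofNat 0, .ofNat 120, .ofNat 0, .negSucc 119, .negSucc 239, .ofNat 0, .ofNat 0, .ofNat 120, .ofNat 0, .ofNat 120, .negSucc 119]),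
  (⟨(42, 0), (43, 0), (51, 1), none, some (44, 4)⟩, [.ofNat 0, .ofNat 744, .ofNat 3888, .ofNat 12882, .negSucc 10685, .ofNat 3804, .negSucc 9821, .ofNat 11082, .ofNat 4446, .ofNat 65850, .negSucc 695]),
  (⟨(45, 0), (46, 0), (52, 1), none, some (47, 4)⟩, [.ofNat 0, .negSucc 251, .negSucc 9806, .negSucc 28340, .ofNat 9405, .ofNat 34296, .ofNat 26052, .negSucc 13388, .negSucc 13880, .ofNat 51267, .negSucc 34757]),
  (⟨(45, 0), (75, 3), (77, 2), none, some (76, 0)⟩, [.ofNat 0, .ofNat 624, .negSucc 371, .ofNat 72, .negSucc 1907, .negSucc 1691, .negSucc 871, .ofNat 1284, .ofNat 1016, .negSucc 2967, .negSucc 563]),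
  (⟨(46, 0), (86, 2), (98, 4), some (93, 4), some (109, 1)⟩, [.ofNat 0, .ofNat 744, .negSucc 1163, .negSucc 527, .negSucc 2003, .negSucc 1091, .ofNat 108, .ofNat 1620, .negSucc 47, .negSucc 3623, .negSucc 863]),
  (⟨(48, 0), (49, 0), (53, 1), none, some (50, 4)⟩, [.ofNat 0, .negSucc 743, .ofNat 720, .negSucc 1739, .ofNat 36048, .negSucc 5993, .ofNat 33600, .negSucc 35159, .negSucc 30923, .negSucc 82763, .negSucc 38513])]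

/-- relations -/
noncomputable def z1r3 : List (Rel × List ℤ) := [
  (⟨(49, 0), (90, 2), (105, 4), some (94, 4), some (109, 1)⟩, [.ofNat 0, .negSucc 743, .ofNat 1164, .ofNat 528, .ofNat 2004, .ofNat 1092, .negSucc 227, .negSucc 1499, .ofNat 48, .ofNat 3504, .ofNat 984]),
  (⟨(52, 0), (77, 3), (79, 2), none, some (78, 0)⟩, [.ofNat 0, .negSucc 743, .negSucc 515, .ofNat 48, .ofNat 2916, .ofNat 2460, .ofNat 2136, .negSucc 1019, .negSucc 2927, .ofNat 2208, .ofNat 1452]),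
  (⟨(68, 0), (70, 1), (70, 3), some (74, 3), some (68, 3)⟩, [.ofNat 0, .negSucc 95, .ofNat 72, .ofNat 732, .ofNat 1356, .negSucc 1055, .negSucc 1127, .ofNat 264, .ofNat 0, .ofNat 0, .ofNat 288]),
  (⟨(69, 0), (71, 0), (103, 0), some (102, 3), some (88, 4)⟩, [.ofNat 0, .negSucc 2063, .ofNat 48, .ofNat 3732, .negSucc 4451, .negSucc 4079, .negSucc 1103, .ofNat 288, .ofNat 6048, .ofNat 0, .negSucc 1415]),
  (⟨(69, 0), (72, 5), (110, 2), some (105, 1), some (92, 1)⟩, [.ofNat 0, .negSucc 383, .ofNat 780, .ofNat 192, .ofNat 780, .ofNat 588, .negSucc 191, .negSucc 779, .ofNat 384, .ofNat 2352, .ofNat 588]),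
  (⟨(70, 0), (76, 2), (80, 2), some (103, 2), some (108, 1)⟩, [.ofNat 0, .negSucc 743, .negSucc 371, .negSucc 71, .ofNat 2916, .ofNat 2580, .ofNat 2256, .negSucc 1283, .negSucc 3047, .ofNat 2088, .ofNat 1068]),
  (⟨(73, 0), (80, 0), (97, 2), some (86, 3), some (101, 0)⟩, [.ofNat 0, .ofNat 744, .negSucc 1283, .negSucc 647, .negSucc 2003, .negSucc 971, .ofNat 228, .ofNat 1620, .negSucc 167, .negSucc 3743, .negSucc 983]),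
  (⟨(75, 0), (77, 0), (77, 1), some (75, 1), some (83, 4)⟩, [.negSucc 63, .ofNat 0, .ofNat 444, .ofNat 0, .negSucc 383, .negSucc 383, .negSucc 951, .ofNat 192, .ofNat 956, .ofNat 0, .ofNat 0]),
  (⟨(75, 0), (82, 0), (96, 5), some (94, 3), some (99, 3)⟩, [.negSucc 47, .ofNat 0, .negSucc 671, .ofNat 24, .ofNat 864, .ofNat 864, .ofNat 1620, .negSucc 479, .negSucc 1727, .ofNat 312, .negSucc 35]),
  (⟨(76, 0), (79, 0), (79, 1), some (76, 1), some (84, 4)⟩, [.negSucc 743, .ofNat 0, .ofNat 372, .ofNat 0, .negSucc 503, .negSucc 503, .ofNat 0, .ofNat 0, .ofNat 1128, .ofNat 252, .negSucc 251]),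
  (⟨(80, 0), (92, 0), (99, 0), some (93, 5), some (106, 2)⟩, [.ofNat 0, .ofNat 0, .negSucc 167, .ofNat 24, .ofNat 912, .ofNat 864, .ofNat 996, .negSucc 407, .negSucc 1727, .negSucc 167, .ofNat 84])]

/-- trivial elements -/
noncomputable def z1t0 : List (ℕ × ℤ × ℤ) := [
  (1, .ofNat 16512, .negSucc 48437),
  (3, .negSucc 2483, .ofNat 5544),
  (5, .ofNat 9816, .negSucc 6479),
  (6, .negSucc 32396, .ofNat 47376),
  (7, .ofNat 1320, .ofNat 8676),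
  (9, .ofNat 8508, .negSucc 1547),
  (11, .ofNat 11100, .negSucc 1655),
  (12, .ofNat 6750, .negSucc 4481),
  (13, .ofNat 11214, .negSucc 2705),
  (14, .negSucc 9749, .negSucc 4283),
  (16, .ofNat 5112, .negSucc 9365),
  (17, .negSucc 12707, .ofNat 10092),
  (18, .negSucc 38933, .ofNat 9318),
  (19, .ofNat 28656, .negSucc 55637),
  (21, .ofNat 3798, .ofNat 2916),
  (24, .ofNat 39306, .negSucc 35891),
  (25, .negSucc 96857, .ofNat 100842),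
  (26, .ofNat 10416, .negSucc 9575),
  (27, .negSucc 7247, .ofNat 13620),
  (29, .negSucc 21245, .negSucc 3095),
  (31, .ofNat 61296, .negSucc 21809),
  (32, .negSucc 17897, .negSucc 28853),
  (33, .ofNat 131568, .negSucc 97853),
  (34, .negSucc 21479, .ofNat 480),
  (35, .ofNat 2676, .negSucc 19949),
  (37, .negSucc 24473, .ofNat 21390),
  (38, .negSucc 29333, .ofNat 42084),
  (40, .negSucc 9191, .ofNat 5988),
  (41, .negSucc 53831, .ofNat 32676),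
  (42, .ofNat 51630, .ofNat 3084),
  (43, .negSucc 2435, .ofNat 43146),
  (44, .negSucc 33671, .ofNat 32988)]

/-- trivial elements -/
noncomputable def z1t1 : List (ℕ × ℤ × ℤ) := [
  (45, .negSucc 24253, .ofNat 53292),
  (46, .ofNat 100932, .negSucc 48353),
  (47, .ofNat 6480, .negSucc 49319),
  (48, .negSucc 42623, .ofNat 2424),
  (49, .ofNat 720, .negSucc 44891),
  (50, .ofNat 15630, .negSucc 13661),
  (51, .ofNat 22680, .ofNat 4380),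
  (52, .negSucc 64109, .ofNat 14436),
  (53, .negSucc 49097, .negSucc 647),
  (54, .ofNat 51036, .ofNat 15132),
  (56, .negSucc 1511, .negSucc 347),
  (66, .negSucc 1235, .ofNat 2304),
  (67, .negSucc 623, .ofNat 24189),
  (68, .negSucc 47, .ofNat 11904),
  (69, .ofNat 2940, .negSucc 2219),
  (70, .negSucc 311, .negSucc 1511),
  (71, .negSucc 1343, .negSucc 1703),
  (72, .ofNat 192, .negSucc 779),
  (73, .negSucc 59, .ofNat 1332),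
  (74, .negSucc 359, .ofNat 24),
  (75, .ofNat 176, .negSucc 631),
  (76, .ofNat 1488, .negSucc 103),
  (77, .negSucc 127, .ofNat 768),
  (78, .ofNat 0, .negSucc 383),
  (79, .negSucc 1487, .ofNat 1752),
  (80, .ofNat 0, .negSucc 743),
  (81, .ofNat 0, .ofNat 444),
  (82, .negSucc 23, .ofNat 252),
  (83, .ofNat 32, .negSucc 95),
  (84, .ofNat 372, .ofNat 0),
  (85, .ofNat 0, .negSucc 251),
  (86, .negSucc 119, .ofNat 0)]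

/-- trivial elements -/
noncomputable def z1t2 : List (ℕ × ℤ × ℤ) := [
  (87, .ofNat 0, .ofNat 120),
  (88, .ofNat 2064, .ofNat 2112),
  (89, .ofNat 456, .negSucc 335),
  (90, .ofNat 240, .ofNat 0),
  (91, .ofNat 0, .ofNat 576),
  (92, .ofNat 240, .negSucc 551),
  (93, .negSucc 503, .ofNat 0),
  (94, .ofNat 504, .negSucc 47),
  (95, .ofNat 360, .negSucc 3623),
  (96, .negSucc 47, .ofNat 48),
  (97, .ofNat 120, .negSucc 119),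
  (98, .ofNat 1728, .negSucc 863),
  (99, .negSucc 887, .ofNat 840),
  (100, .ofNat 0, .negSucc 119),
  (101, .ofNat 46122, .negSucc 863),
  (102, .negSucc 46913, .negSucc 1823),
  (103, .ofNat 2808, .ofNat 216),
  (104, .negSucc 119, .ofNat 0),
  (105, .ofNat 8880, .negSucc 239),
  (106, .negSucc 64697, .ofNat 624),
  (107, .ofNat 55122, .ofNat 744),
  (108, .negSucc 119, .ofNat 0),
  (109, .negSucc 119, .ofNat 120),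
  (110, .ofNat 2376, .negSucc 1751),
  (111, .negSucc 371, .negSucc 19052)]

/-- the identity -/
noncomputable def z1 : Id3 := ⟨[z1r0, z1r1, z1r2, z1r3], [z1t0, z1t1, z1t2]⟩

/-- the element -/
noncomputable def z1L : List Tm := [
  ⟨1, 0, [.ofNat 0, .ofNat 0, .ofNat 2, .negSucc 1, .ofNat 0, .ofNat 0, .ofNat 0, .ofNat 0, .ofNat 0, .negSucc 3, .ofNat 0]⟩,
  ⟨25, 0, [.ofNat 0, .ofNat 0, .negSucc 11, .ofNat 0, .ofNat 0, .ofNat 0, .ofNat 4, .ofNat 4, .ofNat 0, .ofNat 0, .ofNat 0]⟩,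
  ⟨27, 0, [.ofNat 0, .ofNat 0, .ofNat 6, .ofNat 6, .ofNat 0, .ofNat 0, .negSucc 3, .negSucc 9, .ofNat 6, .ofNat 0, .ofNat 0]⟩,
  ⟨35, 0, [.ofNat 0, .ofNat 0, .ofNat 0, .ofNat 3, .negSucc 2, .negSucc 2, .negSucc 1, .negSucc 1, .ofNat 6, .ofNat 0, .ofNat 0]⟩,
  ⟨42, 0, [.ofNat 0, .ofNat 0, .ofNat 6, .ofNat 0, .ofNat 0, .ofNat 0, .negSucc 1, .negSucc 1, .ofNat 0, .negSucc 5, .ofNat 0]⟩,
  ⟨46, 0, [.ofNat 0, .ofNat 0, .ofNat 0, .negSucc 5, .ofNat 6, .ofNat 6, .ofNat 4, .negSucc 7, .ofNat 0, .ofNat 0, .ofNat 0]⟩,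
  ⟨51, 0, [.ofNat 0, .ofNat 0, .ofNat 0, .ofNat 0, .ofNat 3, .ofNat 3, .ofNat 2, .ofNat 2, .negSucc 5, .ofNat 9, .ofNat 0]⟩,
  ⟨56, 0, [.ofNat 0, .ofNat 0, .ofNat 12, .ofNat 0, .ofNat 3, .ofNat 0, .negSucc 1, .negSucc 7, .ofNat 0, .negSucc 8, .ofNat 0]⟩]

theorem z1_pad : padS E.length x8d.cls x8d_l1 pool z1L = true := by decide +kernel

theorem z1_A : z1.chkA ((E ++ G8d).map El.isK) pool = true := by decide +kernel

theorem z1_B : z1.chkB pool [(156, z1L)] = true := by decide +kernel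

theorem z1_C : z1.chkC 27 (E ++ G8d).length 64 2 pool [(156, z1L)] = true := by decide +kernel

/-- **a trivial element** -/
theorem z1_zero {k : Type*} [Field k] [CharZero k] {F : Type*} [Field F] [Algebra k F] {x y : F}
    (hx : TN.Tr k x) (hC : C8d.Eq x y) : zt (G8d.map (El.v x y)) x8d.cls x8d_l1 ∈ TN.KC k F :=
  poolOk.zero hx hC (by decide) z1_pad z1_A z1_B z1_C

end Pool.Agent.AXX8d
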