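import Pool.Agent.Lib_helper87.AX.Cd
import Pool.Agent.Lib_helper40.MC.X8d.Dat
import Pool.Agent.Lib_helper60.K8d.Cl

/-!
# `d = 3 / 4`: relations between the symbols
-/

set_option autoImplicit false
set_option linter.unusedVariables false
set_option maxRecDepth 100000

namespace Pool.Agent.AXX8dW

open Pool.Agent.KC72 Pool.Agent.AX Pool.Agent.MK4 Pool.Agent.MCX8d

/-- the auxiliary functions -/
noncomputable def E : List El := [⟨[.ofNat 3, .ofNat 28], [.ofNat 48], 48⟩, ⟨[.ofNat 3, .ofNat 32], [.ofNat 48], 48⟩, ⟨[.ofNat 1, .ofNat 4], [], 4⟩, ⟨[.ofNat 1, .ofNat 8], [.ofNat 16], 16⟩]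

/-- the classes -/
noncomputable def pool : List (Mo × Mo) := [
  ((true, [.ofNat 0, .ofNat 0, .ofNat 0, .ofNat 0, .ofNat 2, .ofNat 0, .ofNat 1, .ofNat 0, .ofNat 0, .negSucc 0, .negSucc 0, .negSucc 2, .ofNat 0]), (false, [.ofNat 0, .ofNat 0, .ofNat 0, .ofNat 0, .ofNat 0, .ofNat 0, .ofNat 1, .negSucc 0, .ofNat 0, .negSucc 0, .ofNat 1, .negSucc 2, .ofNat 2])),
  ((true, [.ofNat 0, .ofNat 0, .ofNat 0, .ofNat 0, .ofNat 2, .ofNat 1, .ofNat 0, .ofNat 0, .negSucc 0, .negSucc 0, .ofNat 0, .negSucc 0, .ofNat 0]), (false, [.ofNat 0, .ofNat 0, .ofNat 0, .ofNat 0, .ofNat 0, .ofNat 1, .ofNat 0, .negSucc 0, .negSucc 0, .negSucc 0, .ofNat 2, .negSucc 0, .ofNat 1])),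
  ((false, [.ofNat 0, .ofNat 0, .ofNat 0, .ofNat 0, .ofNat 2, .ofNat 0, .ofNat 0, .ofNat 0, .negSucc 0, .ofNat 0, .ofNat 0, .negSucc 0, .ofNat 1]), (true, [.ofNat 0, .ofNat 0, .ofNat 0, .ofNat 0, .ofNat 0, .ofNat 0, .ofNat 0, .negSucc 0, .negSucc 0, .ofNat 0, .ofNat 2, .negSucc 0, .ofNat 1])),
  ((true, [.ofNat 0, .ofNat 0, .ofNat 0, .ofNat 0, .ofNat 2, .ofNat 1, .ofNat 0, .ofNat 0, .negSucc 0, .negSucc 0, .ofNat 0, .ofNat 0, .negSucc 0]), (false, [.ofNat 0, .ofNat 0, .ofNat 0, .ofNat 0, .ofNat 0, .ofNat 1, .negSucc 0, .ofNat 0, .negSucc 0, .ofNat 0, .ofNat 1, .ofNat 2, .negSucc 0])),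
  ((false, [.ofNat 0, .ofNat 0, .ofNat 0, .ofNat 0, .ofNat 2, .ofNat 0, .ofNat 0, .ofNat 0, .negSucc 0, .ofNat 0, .ofNat 0, .ofNat 2, .negSucc 0]), (true, [.ofNat 0, .ofNat 0, .ofNat 0, .ofNat 0, .ofNat 0, .ofNat 0, .negSucc 0, .ofNat 0, .negSucc 0, .ofNat 1, .ofNat 1, .ofNat 2, .negSucc 0])),
  ((false, [.ofNat 0, .ofNat 0, .ofNat 0, .ofNat 0, .ofNat 2, .ofNat 0, .ofNat 0, .ofNat 0, .negSucc 0, .ofNat 0, .ofNat 0, .ofNat 0, .ofNat 0]), (true, [.ofNat 0, .ofNat 0, .ofNat 0, .ofNat 0, .ofNat 0, .negSucc 0, .ofNat 0, .ofNat 0, .ofNat 0, .ofNat 1, .ofNat 0, .ofNat 0, .ofNat 0])),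
  ((true, [.ofNat 0, .ofNat 0, .ofNat 0, .ofNat 0, .ofNat 1, .ofNat 1, .ofNat 1, .ofNat 0, .ofNat 0, .negSucc 0, .negSucc 0, .negSucc 0, .ofNat 0]), (false, [.ofNat 0, .ofNat 0, .ofNat 0, .ofNat 0, .ofNat 0, .ofNat 1, .ofNat 0, .negSucc 0, .negSucc 0, .ofNat 0, .ofNat 1, .negSucc 0, .ofNat 1])),
  ((false, [.ofNat 0, .ofNat 0, .ofNat 0, .ofNat 0, .ofNat 1, .ofNat 1, .ofNat 0, .ofNat 0, .ofNat 0, .negSucc 0, .ofNat 0, .ofNat 1, .ofNat 0]), (true, [.ofNat 0, .ofNat 0, .ofNat 0, .ofNat 0, .ofNat 0, .ofNat 1, .negSucc 0, .negSucc 0, .negSucc 0, .ofNat 0, .ofNat 2, .ofNat 1, .ofNat 0])),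
  ((false, [.ofNat 0, .ofNat 0, .ofNat 0, .ofNat 0, .ofNat 1, .ofNat 1, .ofNat 0, .ofNat 0, .ofNat 0, .negSucc 0, .ofNat 0, .ofNat 2, .negSucc 0]), (true, [.ofNat 0, .ofNat 0, .ofNat 0, .ofNat 0, .ofNat 0, .ofNat 0, .negSucc 0, .ofNat 0, .ofNat 0, .ofNat 0, .ofNat 1, .ofNat 2, .negSucc 0])),
  ((false, [.ofNat 0, .ofNat 0, .ofNat 0, .ofNat 0, .ofNat 0, .ofNat 0, .ofNat 2, .ofNat 1, .ofNat 2, .negSucc 1, .negSucc 1, .ofNat 0, .ofNat 1]), (true, [.ofNat 0, .ofNat 0, .ofNat 0, .ofNat 0, .ofNat 1, .negSucc 0, .ofNat 2, .ofNat 1, .ofNat 1, .negSucc 0, .negSucc 1, .ofNat 1, .ofNat 0])),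
  ((false, [.ofNat 0, .ofNat 0, .ofNat 0, .ofNat 0, .ofNat 0, .ofNat 1, .ofNat 1, .ofNat 1, .ofNat 1, .negSucc 0, .negSucc 1, .ofNat 2, .ofNat 0]), (true, [.ofNat 0, .ofNat 0, .ofNat 0, .ofNat 0, .ofNat 1, .ofNat 0, .ofNat 1, .ofNat 1, .ofNat 0, .ofNat 0, .negSucc 1, .ofNat 0, .ofNat 1])),
  ((true, [.ofNat 0, .ofNat 0, .ofNat 0, .ofNat 0, .ofNat 0, .ofNat 1, .ofNat 1, .ofNat 0, .ofNat 1, .negSucc 0, .negSucc 0, .ofNat 1, .ofNat 1]), (false, [.ofNat 0, .ofNat 0, .ofNat 0, .ofNat 0, .ofNat 1, .ofNat 0, .ofNat 1, .ofNat 0, .ofNat 0, .ofNat 0, .negSucc 0, .ofNat 1, .ofNat 1])),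
  ((true, [.ofNat 0, .ofNat 0, .ofNat 0, .ofNat 0, .ofNat 0, .ofNat 1, .ofNat 1, .ofNat 1, .ofNat 1, .negSucc 0, .negSucc 1, .negSucc 0, .ofNat 0]), (false, [.ofNat 0, .ofNat 0, .ofNat 0, .ofNat 0, .ofNat 0, .ofNat 1, .negSucc 0, .ofNat 0, .negSucc 0, .ofNat 1, .ofNat 0, .negSucc 0, .ofNat 1])),
  ((false, [.ofNat 0, .ofNat 0, .ofNat 0, .ofNat 0, .ofNat 0, .ofNat 1, .ofNat 1, .ofNat 0, .ofNat 1, .negSucc 0, .negSucc 0, .ofNat 0, .ofNat 1]), (true, [.ofNat 0, .ofNat 0, .ofNat 0, .ofNat 0, .ofNat 0, .ofNat 1, .negSucc 0, .negSucc 0, .negSucc 0, .ofNat 1, .ofNat 1, .ofNat 0, .ofNat 1])),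
  ((false, [.ofNat 0, .ofNat 0, .ofNat 0, .ofNat 0, .ofNat 0, .ofNat 1, .ofNat 1, .ofNat 0, .ofNat 1, .negSucc 0, .negSucc 0, .ofNat 1, .ofNat 0]), (true, [.ofNat 0, .ofNat 0, .ofNat 0, .ofNat 0, .ofNat 0, .ofNat 0, .ofNat 0, .negSucc 0, .ofNat 0, .ofNat 0, .ofNat 1, .ofNat 1, .ofNat 0])),
  ((true, [.ofNat 0, .ofNat 0, .ofNat 0, .ofNat 0, .ofNat 1, .ofNat 0, .ofNat 1, .ofNat 1, .ofNat 0, .ofNat 0, .negSucc 1, .ofNat 0, .negSucc 0]), (false, [.ofNat 0, .ofNat 0, .ofNat 0, .ofNat 0, .ofNat 0, .ofNat 1, .negSucc 0, .ofNat 0, .negSucc 0, .ofNat 1, .ofNat 0, .ofNat 2, .negSucc 0])),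
  ((false, [.ofNat 0, .ofNat 0, .ofNat 0, .ofNat 0, .ofNat 1, .ofNat 0, .ofNat 1, .ofNat 0, .ofNat 0, .ofNat 0, .negSucc 0, .ofNat 1, .ofNat 0]), (true, [.ofNat 0, .ofNat 0, .ofNat 0, .ofNat 0, .ofNat 0, .ofNat 1, .negSucc 0, .negSucc 0, .negSucc 0, .ofNat 1, .ofNat 1, .ofNat 1, .ofNat 0])),
  ((false, [.ofNat 0, .ofNat 0, .ofNat 0, .ofNat 0, .ofNat 1, .ofNat 0, .ofNat 1, .ofNat 0, .ofNat 0, .ofNat 0, .negSucc 0, .negSucc 0, .ofNat 1]), (true, [.ofNat 0, .ofNat 0, .ofNat 0, .ofNat 0, .ofNat 0, .ofNat 0, .ofNat 0, .negSucc 0, .ofNat 0, .ofNat 0, .ofNat 1, .negSucc 0, .ofNat 1])),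
  ((false, [.ofNat 0, .ofNat 0, .ofNat 0, .ofNat 0, .ofNat 0, .ofNat 0, .ofNat 2, .ofNat 1, .ofNat 1, .negSucc 0, .negSucc 1, .ofNat 0, .ofNat 1]), (true, [.ofNat 0, .ofNat 0, .ofNat 0, .ofNat 0, .ofNat 1, .ofNat 0, .ofNat 1, .ofNat 1, .ofNat 0, .negSucc 0, .negSucc 0, .ofNat 1, .ofNat 0])),
  ((true, [.ofNat 0, .ofNat 0, .ofNat 0, .ofNat 0, .ofNat 0, .ofNat 0, .ofNat 1, .ofNat 1, .ofNat 1, .ofNat 0, .negSucc 1, .ofNat 2, .ofNat 0]), (false, [.ofNat 0, .ofNat 0, .ofNat 0, .ofNat 0, .ofNat 1, .ofNat 0, .ofNat 0, .ofNat 1, .ofNat 0, .ofNat 0, .negSucc 0, .ofNat 2, .ofNat 0])),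
  ((false, [.ofNat 0, .ofNat 0, .ofNat 0, .ofNat 0, .ofNat 0, .ofNat 0, .ofNat 1, .ofNat 1, .ofNat 1, .ofNat 0, .negSucc 1, .ofNat 1, .ofNat 0]), (true, [.ofNat 0, .ofNat 0, .ofNat 0, .ofNat 0, .ofNat 0, .ofNat 0, .negSucc 0, .ofNat 0, .ofNat 0, .ofNat 1, .ofNat 0, .ofNat 1, .ofNat 0])),
  ((true, [.ofNat 0, .ofNat 0, .ofNat 0, .ofNat 0, .negSucc 0, .negSucc 0, .ofNat 1, .ofNat 1, .ofNat 1, .ofNat 1, .negSucc 1, .ofNat 0, .ofNat 1]), (false, [.ofNat 0, .ofNat 0, .ofNat 0, .ofNat 0, .negSucc 0, .ofNat 0, .ofNat 0, .ofNat 1, .ofNat 1, .ofNat 0, .negSucc 0, .ofNat 2, .ofNat 0])),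
  ((false, [.ofNat 0, .ofNat 0, .ofNat 0, .ofNat 0, .ofNat 0, .ofNat 0, .ofNat 2, .ofNat 1, .ofNat 0, .ofNat 0, .negSucc 1, .ofNat 0, .ofNat 2]), (true, [.ofNat 0, .ofNat 0, .ofNat 0, .ofNat 0, .ofNat 0, .ofNat 1, .ofNat 1, .ofNat 1, .ofNat 0, .negSucc 0, .negSucc 0, .ofNat 3, .ofNat 0])),
  ((true, [.ofNat 0, .ofNat 0, .ofNat 0, .ofNat 0, .ofNat 0, .negSucc 0, .ofNat 2, .ofNat 1, .ofNat 1, .ofNat 0, .negSucc 1, .ofNat 2, .ofNat 1]), (false, [.ofNat 0, .ofNat 0, .ofNat 0, .ofNat 0, .ofNat 0, .ofNat 0, .ofNat 1, .ofNat 1, .ofNat 1, .negSucc 0, .negSucc 0, .ofNat 2, .ofNat 1])),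
  ((false, [.ofNat 0, .ofNat 0, .ofNat 0, .ofNat 0, .ofNat 0, .ofNat 0, .ofNat 2, .ofNat 1, .ofNat 0, .ofNat 0, .negSucc 1, .ofNat 0, .ofNat 1]), (true, [.ofNat 0, .ofNat 0, .ofNat 0, .ofNat 0, .ofNat 1, .ofNat 1, .ofNat 1, .ofNat 0, .negSucc 0, .negSucc 0, .ofNat 0, .ofNat 1, .ofNat 0])),
  ((true, [.ofNat 0, .ofNat 0, .ofNat 0, .ofNat 0, .ofNat 0, .negSucc 0, .ofNat 2, .ofNat 1, .ofNat 1, .ofNat 0, .negSucc 1, .ofNat 0, .ofNat 1]), (false, [.ofNat 0, .ofNat 0, .ofNat 0, .ofNat 0, .ofNat 1, .ofNat 0, .ofNat 1, .ofNat 0, .ofNat 0, .negSucc 0, .ofNat 0, .ofNat 0, .ofNat 1])),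
  ((false, [.ofNat 0, .ofNat 0, .ofNat 0, .ofNat 0, .ofNat 0, .negSucc 0, .ofNat 2, .ofNat 1, .ofNat 1, .ofNat 0, .negSucc 1, .negSucc 0, .ofNat 1]), (true, [.ofNat 0, .ofNat 0, .ofNat 0, .ofNat 0, .ofNat 0, .negSucc 0, .ofNat 0, .ofNat 0, .ofNat 1, .ofNat 0, .ofNat 0, .negSucc 0, .ofNat 1])),
  ((false, [.ofNat 0, .ofNat 0, .ofNat 0, .ofNat 0, .ofNat 1, .ofNat 0, .ofNat 0, .ofNat 1, .ofNat 0, .ofNat 0, .negSucc 0, .ofNat 2, .negSucc 0]), (true, [.ofNat 0, .ofNat 0, .ofNat 0, .ofNat 0, .ofNat 0, .ofNat 0, .negSucc 0, .ofNat 0, .ofNat 0, .ofNat 1, .ofNat 0, .ofNat 2, .negSucc 0])),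
  ((false, [.ofNat 0, .ofNat 0, .ofNat 0, .ofNat 0, .ofNat 0, .ofNat 1, .ofNat 1, .ofNat 1, .ofNat 0, .negSucc 0, .negSucc 0, .ofNat 2, .ofNat 0]), (true, [.ofNat 0, .ofNat 0, .ofNat 0, .ofNat 0, .ofNat 1, .ofNat 1, .ofNat 1, .ofNat 0, .negSucc 0, .negSucc 0, .ofNat 0, .ofNat 0, .ofNat 1])),
  ((true, [.ofNat 0, .ofNat 0, .ofNat 0, .ofNat 0, .ofNat 0, .ofNat 0, .ofNat 1, .ofNat 1, .ofNat 1, .negSucc 0, .negSucc 0, .ofNat 2, .ofNat 0]), (false, [.ofNat 0, .ofNat 0, .ofNat 0, .ofNat 0, .ofNat 1, .ofNat 0, .ofNat 1, .ofNat 0, .ofNat 0, .negSucc 0, .ofNat 0, .ofNat 2, .ofNat 0])),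
  ((false, [.ofNat 0, .ofNat 0, .ofNat 0, .ofNat 0, .ofNat 0, .ofNat 0, .ofNat 1, .ofNat 1, .ofNat 1, .negSucc 0, .negSucc 0, .ofNat 2, .negSucc 0]), (true, [.ofNat 0, .ofNat 0, .ofNat 0, .ofNat 0, .ofNat 0, .negSucc 0, .ofNat 0, .ofNat 0, .ofNat 1, .ofNat 0, .ofNat 0, .ofNat 2, .negSucc 0])),
  ((true, [.ofNat 0, .ofNat 0, .ofNat 0, .ofNat 0, .negSucc 0, .negSucc 0, .ofNat 1, .ofNat 1, .ofNat 1, .ofNat 0, .negSucc 0, .ofNat 1, .ofNat 0]), (false, [.ofNat 0, .ofNat 0, .ofNat 0, .ofNat 0, .negSucc 0, .ofNat 0, .ofNat 1, .ofNat 0, .ofNat 1, .negSucc 0, .ofNat 0, .ofNat 0, .ofNat 1])),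
  ((true, [.ofNat 0, .ofNat 0, .ofNat 0, .ofNat 0, .ofNat 0, .ofNat 0, .ofNat 1, .ofNat 1, .ofNat 0, .ofNat 0, .negSucc 0, .ofNat 2, .ofNat 1]), (false, [.ofNat 0, .ofNat 0, .ofNat 0, .ofNat 0, .ofNat 0, .ofNat 1, .ofNat 1, .ofNat 0, .ofNat 0, .negSucc 0, .ofNat 0, .ofNat 2, .ofNat 1])),
  ((true, [.ofNat 0, .ofNat 0, .ofNat 0, .ofNat 0, .ofNat 0, .ofNat 0, .ofNat 1, .ofNat 1, .ofNat 0, .ofNat 0, .negSucc 0, .ofNat 2, .ofNat 0]), (false, [.ofNat 0, .ofNat 0, .ofNat 0, .ofNat 0, .ofNat 1, .ofNat 1, .ofNat 0, .ofNat 0, .negSucc 0, .ofNat 0, .ofNat 0, .ofNat 2, .ofNat 0])),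
  ((true, [.ofNat 0, .ofNat 0, .ofNat 0, .ofNat 0, .ofNat 0, .negSucc 0, .ofNat 0, .ofNat 1, .ofNat 0, .ofNat 0, .ofNat 0, .ofNat 1, .ofNat 0]), (false, [.ofNat 0, .ofNat 0, .ofNat 0, .ofNat 0, .ofNat 0, .negSucc 0, .ofNat 1, .ofNat 0, .ofNat 0, .ofNat 0, .ofNat 0, .ofNat 0, .ofNat 1])),
  ((true, [.ofNat 0, .ofNat 0, .ofNat 0, .ofNat 0, .negSucc 0, .ofNat 0, .ofNat 0, .ofNat 1, .ofNat 0, .ofNat 0, .ofNat 0, .ofNat 3, .ofNat 0]), (false, [.ofNat 0, .ofNat 0, .ofNat 0, .ofNat 0, .negSucc 0, .ofNat 0, .ofNat 1, .ofNat 0, .ofNat 0, .ofNat 0, .ofNat 0, .ofNat 0, .ofNat 2])),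
  ((false, [.ofNat 0, .ofNat 0, .ofNat 0, .ofNat 0, .ofNat 0, .ofNat 0, .ofNat 0, .ofNat 1, .ofNat 0, .ofNat 0, .ofNat 0, .ofNat 4, .ofNat 1]), (true, [.ofNat 0, .ofNat 0, .ofNat 0, .ofNat 0, .ofNat 0, .ofNat 0, .ofNat 1, .ofNat 0, .ofNat 0, .ofNat 0, .ofNat 0, .ofNat 4, .ofNat 1])),
  ((true, [.ofNat 0, .ofNat 0, .ofNat 0, .ofNat 0, .negSucc 0, .ofNat 0, .ofNat 0, .ofNat 1, .ofNat 0, .ofNat 0, .ofNat 0, .ofNat 1, .ofNat 0]), (false, [.ofNat 0, .ofNat 0, .ofNat 0, .ofNat 0, .negSucc 0, .ofNat 1, .ofNat 0, .ofNat 0, .ofNat 0, .ofNat 0, .ofNat 0, .ofNat 0, .ofNat 1])),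
  ((false, [.ofNat 0, .ofNat 0, .ofNat 0, .ofNat 0, .ofNat 0, .ofNat 0, .ofNat 0, .ofNat 1, .ofNat 0, .ofNat 0, .ofNat 0, .ofNat 4, .ofNat 0]), (true, [.ofNat 0, .ofNat 0, .ofNat 0, .ofNat 0, .ofNat 0, .ofNat 1, .ofNat 0, .ofNat 0, .ofNat 0, .ofNat 0, .ofNat 0, .ofNat 4, .ofNat 0])),
  ((false, [.ofNat 0, .ofNat 0, .ofNat 0, .ofNat 0, .ofNat 0, .ofNat 0, .ofNat 0, .ofNat 1, .ofNat 0, .ofNat 0, .ofNat 0, .ofNat 4, .negSucc 0]), (true, [.ofNat 0, .ofNat 0, .ofNat 0, .ofNat 0, .ofNat 1, .ofNat 0, .ofNat 0, .ofNat 0, .ofNat 0, .ofNat 0, .ofNat 0, .ofNat 4, .negSucc 0])),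
  ((false, [.ofNat 0, .ofNat 0, .ofNat 0, .ofNat 0, .ofNat 1, .ofNat 0, .ofNat 1, .ofNat 0, .ofNat 0, .negSucc 0, .ofNat 0, .ofNat 0, .ofNat 0]), (true, [.ofNat 0, .ofNat 0, .ofNat 0, .ofNat 0, .ofNat 0, .negSucc 0, .ofNat 0, .ofNat 0, .ofNat 1, .ofNat 0, .ofNat 0, .ofNat 0, .ofNat 0])),
  ((true, [.ofNat 0, .ofNat 0, .ofNat 0, .ofNat 0, .ofNat 0, .ofNat 1, .ofNat 1, .ofNat 0, .ofNat 0, .negSucc 0, .ofNat 0, .ofNat 1, .ofNat 1]), (false, [.ofNat 0, .ofNat 0, .ofNat 0, .ofNat 0, .ofNat 1, .ofNat 1, .ofNat 0, .ofNat 0, .negSucc 0, .ofNat 0, .ofNat 0, .ofNat 1, .ofNat 1])),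
  ((true, [.ofNat 0, .ofNat 0, .ofNat 0, .ofNat 0, .negSucc 0, .ofNat 0, .ofNat 1, .ofNat 0, .ofNat 0, .ofNat 0, .ofNat 0, .ofNat 0, .ofNat 1]), (false, [.ofNat 0, .ofNat 0, .ofNat 0, .ofNat 0, .negSucc 0, .ofNat 1, .ofNat 0, .ofNat 0, .ofNat 0, .ofNat 0, .ofNat 0, .ofNat 2, .ofNat 0])),
  ((false, [.ofNat 0, .ofNat 0, .ofNat 0, .ofNat 0, .ofNat 0, .ofNat 0, .ofNat 1, .ofNat 0, .ofNat 0, .ofNat 0, .ofNat 0, .ofNat 3, .ofNat 1]), (true, [.ofNat 0, .ofNat 0, .ofNat 0, .ofNat 0, .ofNat 0, .ofNat 1, .ofNat 0, .ofNat 0, .ofNat 0, .ofNat 0, .ofNat 0, .ofNat 3, .ofNat 1])),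
  ((false, [.ofNat 0, .ofNat 0, .ofNat 0, .ofNat 0, .ofNat 0, .ofNat 0, .ofNat 1, .ofNat 0, .ofNat 0, .ofNat 0, .ofNat 0, .ofNat 1, .ofNat 1]), (true, [.ofNat 0, .ofNat 0, .ofNat 0, .ofNat 0, .ofNat 1, .ofNat 0, .ofNat 0, .ofNat 0, .ofNat 0, .ofNat 0, .ofNat 0, .ofNat 1, .ofNat 1])),
  ((true, [.ofNat 0, .ofNat 0, .ofNat 0, .ofNat 0, .ofNat 0, .ofNat 0, .ofNat 0, .ofNat 0, .negSucc 0, .ofNat 0, .ofNat 1, .ofNat 1, .ofNat 0]), (false, [.ofNat 0, .ofNat 0, .ofNat 0, .ofNat 0, .ofNat 0, .ofNat 0, .ofNat 0, .ofNat 0, .negSucc 0, .ofNat 1, .ofNat 0, .ofNat 0, .ofNat 1])),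
  ((false, [.ofNat 0, .ofNat 0, .ofNat 0, .ofNat 0, .negSucc 0, .ofNat 0, .ofNat 0, .ofNat 0, .ofNat 0, .ofNat 0, .ofNat 1, .ofNat 2, .ofNat 1]), (true, [.ofNat 0, .ofNat 0, .ofNat 0, .ofNat 0, .negSucc 0, .ofNat 0, .ofNat 0, .ofNat 0, .ofNat 0, .ofNat 1, .ofNat 0, .ofNat 2, .ofNat 1])),
  ((false, [.ofNat 0, .ofNat 0, .ofNat 0, .ofNat 0, .negSucc 0, .ofNat 0, .ofNat 0, .ofNat 0, .ofNat 0, .ofNat 0, .ofNat 1, .ofNat 2, .ofNat 0]), (true, [.ofNat 0, .ofNat 0, .ofNat 0, .ofNat 0, .negSucc 0, .ofNat 0, .ofNat 0, .ofNat 0, .ofNat 1, .ofNat 0, .ofNat 0, .ofNat 2, .ofNat 0])),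
  ((true, [.ofNat 0, .ofNat 0, .ofNat 0, .ofNat 0, .ofNat 0, .ofNat 1, .ofNat 0, .negSucc 0, .negSucc 0, .negSucc 0, .ofNat 2, .ofNat 0, .ofNat 1]), (false, [.ofNat 0, .ofNat 0, .ofNat 0, .ofNat 0, .ofNat 0, .ofNat 1, .negSucc 0, .ofNat 0, .negSucc 0, .ofNat 0, .ofNat 1, .ofNat 2, .ofNat 0])),
  ((false, [.ofNat 0, .ofNat 0, .ofNat 0, .ofNat 0, .ofNat 0, .ofNat 0, .ofNat 0, .negSucc 0, .negSucc 0, .ofNat 0, .ofNat 2, .ofNat 2, .ofNat 1]), (true, [.ofNat 0, .ofNat 0, .ofNat 0, .ofNat 0, .ofNat 0, .ofNat 0, .negSucc 0, .ofNat 0, .negSucc 0, .ofNat 1, .ofNat 1, .ofNat 2, .ofNat 1])),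
  ((false, [.ofNat 0, .ofNat 0, .ofNat 0, .ofNat 0, .ofNat 0, .ofNat 0, .ofNat 0, .negSucc 0, .negSucc 0, .ofNat 0, .ofNat 2, .ofNat 0, .ofNat 1]), (true, [.ofNat 0, .ofNat 0, .ofNat 0, .ofNat 0, .ofNat 0, .negSucc 0, .ofNat 0, .ofNat 0, .ofNat 0, .ofNat 1, .ofNat 0, .ofNat 0, .ofNat 1])),
  ((false, [.ofNat 0, .ofNat 0, .ofNat 0, .ofNat 0, .ofNat 0, .ofNat 1, .ofNat 0, .ofNat 0, .ofNat 0, .ofNat 0, .ofNat 0, .ofNat 3, .ofNat 0]), (true, [.ofNat 0, .ofNat 0, .ofNat 0, .ofNat 0, .ofNat 1, .ofNat 0, .ofNat 0, .ofNat 0, .ofNat 0, .ofNat 0, .ofNat 0, .ofNat 3, .ofNat 0])),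
  ((false, [.ofNat 0, .ofNat 0, .ofNat 0, .ofNat 0, .negSucc 0, .ofNat 0, .ofNat 0, .ofNat 0, .ofNat 0, .ofNat 1, .ofNat 0, .ofNat 1, .ofNat 1]), (true, [.ofNat 0, .ofNat 0, .ofNat 0, .ofNat 0, .negSucc 0, .ofNat 0, .ofNat 0, .ofNat 0, .ofNat 1, .ofNat 0, .ofNat 0, .ofNat 1, .ofNat 1])),
  ((false, [.ofNat 0, .ofNat 0, .ofNat 0, .ofNat 0, .ofNat 0, .ofNat 0, .negSucc 0, .ofNat 0, .negSucc 0, .ofNat 1, .ofNat 1, .ofNat 2, .ofNat 0]), (true, [.ofNat 0, .ofNat 0, .ofNat 0, .ofNat 0, .ofNat 0, .negSucc 0, .ofNat 0, .ofNat 0, .ofNat 0, .ofNat 1, .ofNat 0, .ofNat 2, .ofNat 0])),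
  ((false, [.ofNat 0, .ofNat 0, .ofNat 0, .ofNat 0, .ofNat 0, .ofNat 1, .negSucc 0, .negSucc 0, .negSucc 0, .ofNat 0, .ofNat 2, .ofNat 2, .ofNat 0]), (true, [.ofNat 0, .ofNat 0, .ofNat 0, .ofNat 0, .ofNat 0, .ofNat 0, .negSucc 0, .ofNat 0, .ofNat 0, .ofNat 0, .ofNat 1, .ofNat 2, .ofNat 0])),
  ((false, [.ofNat 0, .ofNat 0, .ofNat 0, .ofNat 0, .ofNat 0, .ofNat 1, .negSucc 0, .negSucc 0, .negSucc 0, .ofNat 1, .ofNat 1, .ofNat 1, .ofNat 1]), (true, [.ofNat 0, .ofNat 0, .ofNat 0, .ofNat 0, .ofNat 0, .ofNat 0, .ofNat 0, .negSucc 0, .ofNat 0, .ofNat 0, .ofNat 1, .ofNat 1, .ofNat 1])),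
  ((true, [.ofNat 0, .ofNat 0, .ofNat 0, .ofNat 0, .ofNat 4, .negSucc 0, .ofNat 2, .ofNat 1, .ofNat 0, .negSucc 1, .negSucc 1, .negSucc 2, .ofNat 0]), (false, [.ofNat 0, .ofNat 0, .ofNat 0, .ofNat 0, .ofNat 0, .negSucc 2, .ofNat 4, .ofNat 2, .ofNat 2, .ofNat 0, .negSucc 3, .negSucc 2, .ofNat 2])),
  ((false, [.ofNat 0, .ofNat 0, .ofNat 0, .ofNat 0, .ofNat 4, .ofNat 1, .ofNat 1, .negSucc 0, .negSucc 0, .negSucc 0, .negSucc 0, .negSucc 2, .ofNat 1]), (true, [.ofNat 0, .ofNat 0, .ofNat 0, .ofNat 0, .ofNat 0, .negSucc 0, .negSucc 0, .negSucc 1, .ofNat 1, .ofNat 1, .ofNat 1, .negSucc 2, .ofNat 1])),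
  ((true, [.ofNat 0, .ofNat 0, .ofNat 0, .ofNat 0, .ofNat 0, .ofNat 3, .ofNat 2, .ofNat 1, .ofNat 1, .negSucc 2, .negSucc 1, .ofNat 0, .ofNat 1]), (false, [.ofNat 0, .ofNat 0, .ofNat 0, .ofNat 0, .ofNat 0, .ofNat 1, .ofNat 0, .ofNat 2, .negSucc 0, .negSucc 0, .ofNat 0, .ofNat 2, .ofNat 0])),
  ((false, [.ofNat 0, .ofNat 0, .ofNat 0, .ofNat 0, .ofNat 0, .ofNat 2, .ofNat 2, .ofNat 1, .ofNat 2, .negSucc 1, .negSucc 1, .ofNat 6, .ofNat 1]), (true, [.ofNat 0, .ofNat 0, .ofNat 0, .ofNat 0, .ofNat 1, .ofNat 1, .ofNat 1, .negSucc 0, .negSucc 0, .negSucc 0, .ofNat 2, .ofNat 6, .ofNat 1])),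
  ((false, [.ofNat 0, .ofNat 0, .ofNat 0, .ofNat 0, .ofNat 0, .negSucc 0, .ofNat 3, .ofNat 1, .ofNat 1, .ofNat 1, .negSucc 2, .ofNat 1, .ofNat 3]), (true, [.ofNat 0, .ofNat 0, .ofNat 0, .ofNat 0, .ofNat 0, .ofNat 1, .ofNat 1, .negSucc 1, .negSucc 0, .negSucc 0, .ofNat 3, .ofNat 1, .ofNat 3])),
  ((false, [.ofNat 0, .ofNat 0, .ofNat 0, .ofNat 0, .ofNat 0, .negSucc 1, .ofNat 2, .ofNat 3, .ofNat 2, .negSucc 1, .negSucc 1, .ofNat 2, .negSucc 0]), (true, [.ofNat 0, .ofNat 0, .ofNat 0, .ofNat 0, .ofNat 3, .negSucc 0, .ofNat 3, .ofNat 1, .ofNat 1, .negSucc 2, .negSucc 1, .ofNat 0, .negSucc 0])),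
  ((false, [.ofNat 0, .ofNat 0, .ofNat 0, .ofNat 0, .ofNat 2, .ofNat 0, .ofNat 1, .negSucc 0, .negSucc 0, .negSucc 0, .ofNat 1, .negSucc 1, .ofNat 1]), (true, [.ofNat 0, .ofNat 0, .ofNat 0, .ofNat 0, .ofNat 0, .negSucc 1, .ofNat 1, .ofNat 0, .ofNat 1, .ofNat 1, .negSucc 0, .negSucc 1, .ofNat 1])),
  ((false, [.ofNat 0, .ofNat 0, .ofNat 0, .ofNat 0, .ofNat 0, .ofNat 2, .ofNat 2, .negSucc 0, .negSucc 1, .negSucc 1, .ofNat 2, .ofNat 0, .ofNat 2]), (true, [.ofNat 0, .ofNat 0, .ofNat 0, .ofNat 0, .ofNat 0, .ofNat 3, .ofNat 2, .ofNat 1, .ofNat 0, .negSucc 1, .negSucc 1, .ofNat 3, .ofNat 0])),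
  ((false, [.ofNat 0, .ofNat 0, .ofNat 0, .ofNat 0, .ofNat 0, .ofNat 2, .ofNat 0, .negSucc 0, .ofNat 0, .ofNat 0, .ofNat 0, .ofNat 2, .ofNat 1]), (true, [.ofNat 0, .ofNat 0, .ofNat 0, .ofNat 0, .ofNat 1, .ofNat 0, .ofNat 1, .negSucc 0, .ofNat 0, .ofNat 0, .ofNat 0, .ofNat 2, .ofNat 1])),
  ((false, [.ofNat 0, .ofNat 0, .ofNat 0, .ofNat 0, .ofNat 0, .ofNat 2, .negSucc 1, .negSucc 0, .negSucc 1, .ofNat 2, .ofNat 2, .ofNat 6, .ofNat 1]), (true, [.ofNat 0, .ofNat 0, .ofNat 0, .ofNat 0, .ofNat 0, .negSucc 0, .ofNat 2, .ofNat 1, .ofNat 1, .ofNat 1, .negSucc 1, .ofNat 6, .ofNat 1])),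
  ((false, [.ofNat 0, .ofNat 0, .ofNat 0, .ofNat 0, .ofNat 3, .ofNat 2, .negSucc 0, .negSucc 1, .negSucc 1, .negSucc 2, .ofNat 4, .ofNat 2, .negSucc 1]), (true, [.ofNat 0, .ofNat 0, .ofNat 0, .ofNat 0, .ofNat 0, .ofNat 0, .negSucc 2, .negSucc 0, .ofNat 1, .negSucc 0, .ofNat 3, .ofNat 2, .negSucc 1])),
  ((false, [.ofNat 0, .ofNat 0, .ofNat 0, .ofNat 0, .ofNat 4, .ofNat 0, .negSucc 0, .ofNat 2, .negSucc 0, .ofNat 1, .negSucc 2, .ofNat 2, .negSucc 1]), (true, [.ofNat 0, .ofNat 0, .ofNat 0, .ofNat 0, .ofNat 0, .negSucc 2, .ofNat 0, .ofNat 2, .ofNat 2, .ofNat 3, .negSucc 3, .ofNat 2, .negSucc 1])),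
  ((false, [.ofNat 0, .ofNat 0, .ofNat 0, .ofNat 0, .ofNat 0, .ofNat 3, .negSucc 0, .ofNat 0, .ofNat 0, .ofNat 0, .ofNat 0, .ofNat 8, .negSucc 0]), (true, [.ofNat 0, .ofNat 0, .ofNat 0, .ofNat 0, .ofNat 1, .ofNat 0, .negSucc 0, .ofNat 2, .ofNat 0, .ofNat 0, .ofNat 0, .ofNat 8, .negSucc 0])),
  ((false, [.ofNat 0, .ofNat 0, .ofNat 0, .ofNat 0, .ofNat 1, .ofNat 2, .negSucc 0, .negSucc 1, .negSucc 1, .ofNat 2, .ofNat 1, .ofNat 1, .ofNat 3]), (true, [.ofNat 0, .ofNat 0, .ofNat 0, .ofNat 0, .ofNat 0, .ofNat 2, .ofNat 2, .negSucc 0, .ofNat 2, .negSucc 1, .negSucc 0, .ofNat 1, .ofNat 3])),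
  ((false, [.ofNat 0, .ofNat 0, .ofNat 0, .ofNat 1, .negSucc 0, .negSucc 0, .negSucc 0, .ofNat 0, .ofNat 0, .ofNat 1, .ofNat 0, .ofNat 0, .ofNat 0]), (false, [.ofNat 0, .ofNat 0, .ofNat 0, .ofNat 0, .negSucc 0, .ofNat 0, .negSucc 0, .ofNat 0, .ofNat 0, .ofNat 1, .ofNat 0, .negSucc 0, .ofNat 0])),
  ((false, [.ofNat 0, .ofNat 0, .ofNat 0, .ofNat 1, .ofNat 0, .negSucc 0, .negSucc 0, .negSucc 0, .negSucc 0, .ofNat 1, .ofNat 1, .negSucc 0, .ofNat 0]), (false, [.ofNat 0, .ofNat 0, .ofNat 0, .ofNat 0, .ofNat 1, .ofNat 0, .ofNat 0, .negSucc 0, .negSucc 0, .ofNat 0, .ofNat 1, .negSucc 0, .ofNat 0])),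
  ((false, [.ofNat 0, .ofNat 0, .ofNat 0, .ofNat 1, .ofNat 0, .negSucc 0, .negSucc 0, .negSucc 0, .negSucc 0, .ofNat 1, .ofNat 1, .ofNat 0, .ofNat 0]), (false, [.ofNat 0, .ofNat 0, .ofNat 0, .ofNat 0, .ofNat 0, .ofNat 0, .negSucc 0, .negSucc 0, .negSucc 0, .ofNat 1, .ofNat 1, .negSucc 1, .ofNat 0])),
  ((false, [.ofNat 0, .ofNat 0, .ofNat 1, .ofNat 0, .ofNat 0, .negSucc 0, .ofNat 0, .ofNat 0, .ofNat 0, .ofNat 0, .ofNat 0, .negSucc 0, .ofNat 0]), (false, [.ofNat 0, .ofNat 0, .ofNat 0, .ofNat 0, .ofNat 1, .negSucc 0, .ofNat 0, .ofNat 0, .ofNat 0, .ofNat 0, .ofNat 0, .negSucc 0, .ofNat 0])),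
  ((false, [.ofNat 0, .ofNat 0, .ofNat 1, .ofNat 0, .ofNat 0, .ofNat 0, .negSucc 0, .ofNat 0, .ofNat 0, .ofNat 0, .ofNat 0, .ofNat 0, .negSucc 0]), (false, [.ofNat 0, .ofNat 0, .ofNat 0, .ofNat 0, .ofNat 0, .ofNat 1, .negSucc 0, .ofNat 0, .ofNat 0, .ofNat 0, .ofNat 0, .ofNat 1, .negSucc 0])),
  ((false, [.ofNat 0, .ofNat 0, .ofNat 1, .ofNat 0, .ofNat 0, .ofNat 0, .negSucc 0, .ofNat 0, .ofNat 0, .ofNat 0, .ofNat 0, .ofNat 1, .negSucc 0]), (false, [.ofNat 0, .ofNat 0, .ofNat 0, .ofNat 0, .ofNat 1, .ofNat 0, .negSucc 0, .ofNat 0, .ofNat 0, .ofNat 0, .ofNat 0, .ofNat 0, .negSucc 0])),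
  ((false, [.ofNat 0, .ofNat 1, .ofNat 0, .ofNat 0, .ofNat 0, .negSucc 0, .ofNat 1, .ofNat 0, .ofNat 1, .negSucc 0, .negSucc 0, .negSucc 0, .ofNat 0]), (false, [.ofNat 0, .ofNat 0, .ofNat 0, .ofNat 0, .ofNat 0, .negSucc 0, .ofNat 1, .ofNat 0, .ofNat 1, .ofNat 0, .negSucc 0, .negSucc 0, .ofNat 0])),
  ((false, [.ofNat 0, .ofNat 1, .ofNat 0, .ofNat 0, .ofNat 0, .negSucc 0, .ofNat 1, .ofNat 0, .ofNat 1, .negSucc 0, .negSucc 0, .ofNat 0, .ofNat 0]), (true, [.ofNat 0, .ofNat 0, .ofNat 0, .ofNat 0, .ofNat 0, .ofNat 0, .ofNat 1, .ofNat 0, .ofNat 1, .negSucc 0, .negSucc 0, .negSucc 1, .ofNat 0])),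
  ((false, [.ofNat 0, .ofNat 1, .ofNat 0, .ofNat 0, .ofNat 0, .ofNat 0, .ofNat 0, .ofNat 0, .ofNat 0, .negSucc 0, .ofNat 0, .ofNat 0, .ofNat 0]), (true, [.ofNat 0, .ofNat 0, .ofNat 0, .ofNat 0, .ofNat 0, .ofNat 1, .ofNat 0, .ofNat 0, .ofNat 0, .negSucc 0, .ofNat 0, .negSucc 0, .ofNat 0])),
  ((false, [.ofNat 1, .ofNat 0, .ofNat 0, .ofNat 0, .negSucc 0, .ofNat 0, .negSucc 0, .negSucc 0, .ofNat 0, .ofNat 0, .ofNat 1, .ofNat 0, .ofNat 0]), (false, [.ofNat 0, .ofNat 0, .ofNat 0, .ofNat 0, .negSucc 0, .ofNat 0, .negSucc 0, .ofNat 0, .ofNat 0, .ofNat 0, .ofNat 1, .ofNat 0, .negSucc 0])),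
  ((false, [.ofNat 1, .ofNat 0, .ofNat 0, .ofNat 0, .negSucc 0, .ofNat 0, .negSucc 0, .negSucc 0, .ofNat 0, .ofNat 0, .ofNat 1, .ofNat 1, .ofNat 0]), (true, [.ofNat 0, .ofNat 0, .ofNat 0, .ofNat 0, .negSucc 0, .ofNat 0, .negSucc 0, .negSucc 0, .ofNat 0, .ofNat 0, .ofNat 2, .ofNat 0, .ofNat 0])),
  ((false, [.ofNat 1, .ofNat 0, .ofNat 0, .ofNat 0, .ofNat 0, .ofNat 0, .ofNat 0, .ofNat 0, .ofNat 0, .ofNat 0, .negSucc 0, .ofNat 0, .ofNat 0]), (true, [.ofNat 0, .ofNat 0, .ofNat 0, .ofNat 0, .ofNat 0, .ofNat 0, .ofNat 0, .ofNat 1, .ofNat 0, .ofNat 0, .negSucc 0, .ofNat 0, .negSucc 0])),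
  ((false, [.negSucc 0, .ofNat 0, .ofNat 0, .ofNat 0, .ofNat 0, .negSucc 0, .ofNat 2, .ofNat 2, .ofNat 1, .ofNat 0, .negSucc 1, .ofNat 0, .ofNat 0]), (true, [.negSucc 0, .ofNat 0, .ofNat 0, .ofNat 0, .ofNat 2, .ofNat 0, .ofNat 1, .ofNat 1, .ofNat 0, .negSucc 0, .negSucc 0, .negSucc 1, .negSucc 0])),
  ((false, [.negSucc 0, .ofNat 0, .ofNat 0, .ofNat 0, .ofNat 0, .negSucc 0, .ofNat 2, .ofNat 2, .ofNat 1, .ofNat 1, .negSucc 2, .ofNat 0, .ofNat 0]), (true, [.negSucc 0, .ofNat 0, .ofNat 0, .ofNat 0, .ofNat 1, .ofNat 0, .ofNat 0, .ofNat 1, .ofNat 0, .ofNat 0, .negSucc 0, .negSucc 1, .negSucc 1])),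
  ((false, [.ofNat 0, .negSucc 0, .ofNat 0, .ofNat 0, .ofNat 0, .ofNat 0, .ofNat 2, .ofNat 1, .ofNat 1, .ofNat 0, .negSucc 1, .ofNat 0, .ofNat 0]), (true, [.ofNat 0, .negSucc 0, .ofNat 0, .ofNat 0, .ofNat 0, .ofNat 0, .ofNat 0, .ofNat 0, .ofNat 0, .ofNat 0, .ofNat 0, .negSucc 3, .negSucc 0])),
  ((false, [.ofNat 0, .negSucc 0, .ofNat 0, .ofNat 0, .ofNat 0, .ofNat 1, .ofNat 1, .ofNat 1, .ofNat 1, .ofNat 0, .negSucc 1, .ofNat 0, .ofNat 0]), (false, [.ofNat 0, .negSucc 0, .ofNat 0, .ofNat 0, .ofNat 0, .ofNat 0, .negSucc 0, .ofNat 0, .ofNat 0, .ofNat 1, .ofNat 0, .negSucc 2, .negSucc 0])),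
  ((false, [.ofNat 0, .negSucc 0, .ofNat 0, .ofNat 0, .ofNat 0, .ofNat 2, .negSucc 0, .negSucc 0, .negSucc 1, .ofNat 1, .ofNat 2, .ofNat 0, .ofNat 0]), (true, [.ofNat 0, .negSucc 0, .ofNat 0, .ofNat 0, .ofNat 1, .ofNat 1, .ofNat 0, .ofNat 0, .negSucc 0, .ofNat 0, .ofNat 0, .negSucc 2, .negSucc 0])),
  ((false, [.ofNat 0, .negSucc 0, .ofNat 0, .ofNat 0, .ofNat 0, .ofNat 2, .ofNat 1, .ofNat 0, .ofNat 1, .negSucc 0, .negSucc 0, .ofNat 0, .ofNat 0]), (true, [.ofNat 0, .negSucc 0, .ofNat 0, .ofNat 0, .ofNat 0, .ofNat 0, .negSucc 0, .negSucc 0, .ofNat 0, .ofNat 1, .ofNat 1, .negSucc 1, .negSucc 0])),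
  ((false, [.ofNat 0, .negSucc 0, .ofNat 0, .ofNat 0, .ofNat 1, .ofNat 2, .ofNat 0, .ofNat 0, .negSucc 0, .ofNat 0, .ofNat 0, .ofNat 0, .ofNat 0]), (true, [.ofNat 0, .negSucc 0, .ofNat 0, .ofNat 0, .ofNat 0, .ofNat 1, .ofNat 0, .ofNat 0, .negSucc 0, .ofNat 0, .ofNat 1, .negSucc 0, .ofNat 0])),
  ((false, [.ofNat 0, .negSucc 0, .ofNat 0, .ofNat 0, .ofNat 1, .ofNat 2, .ofNat 0, .ofNat 0, .ofNat 0, .negSucc 0, .ofNat 0, .ofNat 0, .negSucc 0]), (false, [.ofNat 0, .negSucc 0, .ofNat 0, .ofNat 0, .ofNat 0, .ofNat 1, .negSucc 0, .ofNat 0, .negSucc 0, .ofNat 0, .ofNat 2, .ofNat 1, .negSucc 0])),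
  ((false, [.ofNat 0, .ofNat 0, .negSucc 0, .ofNat 0, .ofNat 1, .ofNat 1, .ofNat 1, .ofNat 1, .ofNat 1, .negSucc 0, .negSucc 1, .ofNat 1, .negSucc 0]), (false, [.ofNat 0, .ofNat 0, .negSucc 0, .ofNat 0, .ofNat 0, .negSucc 0, .negSucc 0, .ofNat 0, .ofNat 1, .ofNat 1, .ofNat 0, .ofNat 0, .negSucc 0])),
  ((false, [.ofNat 0, .ofNat 0, .negSucc 0, .ofNat 0, .ofNat 2, .ofNat 0, .ofNat 1, .ofNat 1, .ofNat 0, .negSucc 0, .negSucc 0, .ofNat 0, .ofNat 0]), (true, [.ofNat 0, .ofNat 0, .negSucc 0, .ofNat 0, .ofNat 0, .negSucc 0, .ofNat 2, .ofNat 1, .ofNat 1, .ofNat 0, .negSucc 1, .negSucc 1, .ofNat 1])),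
  ((false, [.ofNat 0, .ofNat 0, .negSucc 0, .ofNat 0, .ofNat 2, .ofNat 1, .ofNat 1, .ofNat 0, .ofNat 0, .negSucc 0, .negSucc 0, .negSucc 0, .ofNat 0]), (false, [.ofNat 0, .ofNat 0, .negSucc 0, .ofNat 0, .ofNat 0, .ofNat 0, .negSucc 0, .negSucc 0, .ofNat 0, .ofNat 1, .ofNat 1, .negSucc 0, .ofNat 0])),
  ((false, [.ofNat 0, .ofNat 0, .negSucc 0, .ofNat 0, .ofNat 3, .ofNat 1, .ofNat 0, .ofNat 0, .negSucc 0, .negSucc 0, .ofNat 0, .ofNat 0, .negSucc 0]), (false, [.ofNat 0, .ofNat 0, .negSucc 0, .ofNat 0, .ofNat 0, .ofNat 1, .negSucc 1, .negSucc 0, .negSucc 0, .ofNat 1, .ofNat 2, .ofNat 1, .negSucc 0])),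
  ((false, [.ofNat 0, .ofNat 0, .ofNat 0, .ofNat 0, .ofNat 0, .negSucc 1, .ofNat 3, .ofNat 2, .ofNat 2, .negSucc 0, .negSucc 2, .ofNat 0, .ofNat 0]), (true, [.ofNat 0, .ofNat 1, .ofNat 0, .ofNat 0, .ofNat 0, .negSucc 1, .ofNat 2, .ofNat 1, .ofNat 2, .negSucc 1, .negSucc 1, .negSucc 1, .ofNat 0])),
  ((false, [.ofNat 0, .ofNat 0, .ofNat 0, .ofNat 0, .ofNat 0, .negSucc 0, .ofNat 2, .ofNat 2, .ofNat 2, .ofNat 0, .negSucc 3, .ofNat 0, .ofNat 0]), (true, [.ofNat 0, .ofNat 0, .ofNat 1, .ofNat 0, .ofNat 0, .negSucc 0, .ofNat 0, .ofNat 1, .ofNat 1, .ofNat 0, .negSucc 1, .negSucc 0, .negSucc 0])),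
  ((false, [.ofNat 0, .ofNat 0, .ofNat 0, .ofNat 0, .ofNat 0, .ofNat 0, .ofNat 1, .ofNat 2, .ofNat 2, .ofNat 0, .negSucc 3, .ofNat 1, .negSucc 0]), (false, [.ofNat 0, .ofNat 0, .ofNat 1, .ofNat 0, .ofNat 0, .negSucc 0, .negSucc 0, .ofNat 1, .ofNat 1, .ofNat 1, .negSucc 1, .ofNat 0, .negSucc 0])),
  ((false, [.ofNat 0, .ofNat 0, .ofNat 0, .ofNat 0, .ofNat 0, .ofNat 1, .ofNat 1, .ofNat 1, .ofNat 2, .negSucc 0, .negSucc 2, .ofNat 0, .ofNat 0]), (true, [.ofNat 0, .ofNat 0, .ofNat 0, .ofNat 1, .ofNat 0, .negSucc 0, .negSucc 0, .ofNat 0, .ofNat 0, .ofNat 1, .negSucc 0, .negSucc 1, .ofNat 0])),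
  ((false, [.ofNat 0, .ofNat 0, .ofNat 0, .ofNat 0, .ofNat 1, .ofNat 0, .ofNat 0, .negSucc 0, .negSucc 0, .negSucc 0, .ofNat 2, .negSucc 0, .ofNat 0]), (false, [.ofNat 1, .ofNat 0, .ofNat 0, .ofNat 0, .ofNat 0, .negSucc 0, .negSucc 0, .negSucc 0, .ofNat 0, .ofNat 0, .ofNat 1, .negSucc 0, .ofNat 0])),
  ((false, [.ofNat 0, .ofNat 0, .ofNat 0, .ofNat 0, .ofNat 1, .ofNat 1, .ofNat 1, .ofNat 0, .ofNat 1, .negSucc 0, .negSucc 1, .negSucc 0, .ofNat 0]), (false, [.ofNat 0, .ofNat 0, .ofNat 0, .ofNat 1, .ofNat 0, .negSucc 0, .negSucc 0, .negSucc 0, .ofNat 0, .ofNat 1, .ofNat 0, .negSucc 0, .ofNat 0])),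
  ((false, [.ofNat 0, .ofNat 0, .ofNat 0, .ofNat 0, .ofNat 2, .ofNat 1, .ofNat 1, .negSucc 0, .ofNat 0, .negSucc 0, .negSucc 0, .negSucc 1, .ofNat 0]), (false, [.ofNat 0, .ofNat 0, .ofNat 0, .ofNat 1, .ofNat 0, .ofNat 0, .negSucc 0, .negSucc 1, .negSucc 0, .ofNat 1, .ofNat 1, .negSucc 1, .ofNat 1])),
  ((false, [.ofNat 0, .ofNat 0, .ofNat 0, .ofNat 0, .ofNat 3, .ofNat 1, .ofNat 0, .negSucc 0, .negSucc 0, .negSucc 0, .ofNat 0, .negSucc 1, .ofNat 0]), (false, [.ofNat 1, .ofNat 0, .ofNat 0, .ofNat 0, .ofNat 0, .ofNat 0, .negSucc 0, .negSucc 1, .ofNat 0, .ofNat 0, .ofNat 1, .negSucc 1, .ofNat 1])),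
  ((false, [.ofNat 0, .ofNat 0, .ofNat 0, .ofNat 1, .ofNat 0, .negSucc 1, .ofNat 1, .ofNat 1, .ofNat 1, .negSucc 0, .negSucc 0, .ofNat 0, .ofNat 0]), (true, [.ofNat 0, .ofNat 0, .ofNat 0, .ofNat 0, .ofNat 2, .negSucc 0, .ofNat 2, .ofNat 1, .ofNat 1, .negSucc 1, .negSucc 1, .negSucc 1, .negSucc 0])),
  ((false, [.ofNat 0, .ofNat 0, .ofNat 0, .ofNat 1, .ofNat 0, .negSucc 1, .ofNat 1, .ofNat 1, .ofNat 1, .ofNat 0, .negSucc 1, .ofNat 0, .ofNat 0]), (true, [.ofNat 0, .ofNat 0, .ofNat 0, .ofNat 0, .ofNat 1, .negSucc 0, .ofNat 1, .ofNat 1, .ofNat 1, .negSucc 0, .negSucc 1, .negSucc 2, .negSucc 0])),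
  ((false, [.ofNat 0, .ofNat 0, .ofNat 0, .ofNat 1, .ofNat 0, .negSucc 0, .negSucc 0, .negSucc 0, .negSucc 1, .ofNat 1, .ofNat 2, .ofNat 0, .ofNat 0]), (true, [.ofNat 0, .ofNat 0, .ofNat 0, .ofNat 0, .ofNat 0, .negSucc 0, .ofNat 0, .ofNat 0, .negSucc 0, .ofNat 1, .ofNat 0, .negSucc 2, .ofNat 0])),
  ((false, [.ofNat 0, .ofNat 0, .ofNat 0, .ofNat 1, .ofNat 0, .negSucc 0, .negSucc 0, .negSucc 0, .negSucc 0, .ofNat 0, .ofNat 2, .ofNat 0, .ofNat 0]), (false, [.ofNat 0, .ofNat 0, .ofNat 0, .ofNat 0, .ofNat 0, .negSucc 0, .negSucc 0, .ofNat 0, .ofNat 0, .ofNat 0, .ofNat 1, .negSucc 0, .negSucc 0])),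
  ((false, [.ofNat 0, .ofNat 0, .ofNat 0, .ofNat 1, .ofNat 0, .negSucc 0, .ofNat 0, .ofNat 1, .ofNat 1, .ofNat 0, .negSucc 1, .ofNat 0, .ofNat 0]), (true, [.ofNat 0, .ofNat 0, .ofNat 0, .ofNat 0, .ofNat 0, .negSucc 0, .ofNat 0, .ofNat 1, .ofNat 1, .ofNat 0, .negSucc 1, .negSucc 3, .negSucc 0])),
  ((false, [.ofNat 0, .ofNat 0, .ofNat 0, .ofNat 1, .ofNat 1, .negSucc 0, .ofNat 0, .ofNat 0, .negSucc 0, .ofNat 0, .ofNat 0, .ofNat 0, .ofNat 0]), (true, [.ofNat 0, .ofNat 0, .ofNat 0, .ofNat 0, .ofNat 0, .negSucc 0, .ofNat 1, .ofNat 1, .ofNat 0, .ofNat 0, .negSucc 0, .negSucc 0, .ofNat 0])),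
  ((false, [.ofNat 0, .ofNat 0, .ofNat 0, .ofNat 1, .ofNat 1, .negSucc 0, .ofNat 0, .ofNat 0, .ofNat 0, .negSucc 0, .ofNat 0, .ofNat 0, .negSucc 0]), (false, [.ofNat 0, .ofNat 0, .ofNat 0, .ofNat 0, .ofNat 0, .negSucc 0, .ofNat 0, .ofNat 1, .ofNat 1, .negSucc 0, .ofNat 0, .ofNat 1, .negSucc 0])),
  ((false, [.ofNat 0, .ofNat 0, .ofNat 1, .ofNat 0, .negSucc 0, .ofNat 0, .ofNat 0, .ofNat 0, .ofNat 1, .ofNat 0, .negSucc 0, .ofNat 0, .ofNat 0]), (false, [.ofNat 0, .ofNat 0, .ofNat 0, .ofNat 0, .negSucc 0, .negSucc 0, .ofNat 0, .ofNat 0, .ofNat 1, .ofNat 1, .negSucc 0, .negSucc 1, .ofNat 0])),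
  ((false, [.ofNat 0, .ofNat 0, .ofNat 1, .ofNat 0, .ofNat 0, .ofNat 1, .negSucc 0, .negSucc 0, .negSucc 0, .ofNat 0, .ofNat 1, .ofNat 0, .ofNat 0]), (true, [.ofNat 0, .ofNat 0, .ofNat 0, .ofNat 0, .ofNat 1, .ofNat 1, .ofNat 0, .negSucc 0, .negSucc 0, .negSucc 0, .ofNat 1, .negSucc 1, .ofNat 0])),
  ((false, [.ofNat 0, .ofNat 0, .ofNat 1, .ofNat 0, .ofNat 1, .ofNat 1, .negSucc 1, .negSucc 0, .negSucc 0, .negSucc 0, .ofNat 2, .ofNat 0, .negSucc 0]), (false, [.ofNat 0, .ofNat 0, .ofNat 0, .ofNat 0, .ofNat 0, .ofNat 2, .negSucc 2, .negSucc 1, .negSucc 1, .ofNat 0, .ofNat 4, .ofNat 1, .negSucc 0])),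
  ((false, [.ofNat 0, .ofNat 1, .ofNat 0, .ofNat 0, .ofNat 0, .negSucc 1, .ofNat 1, .ofNat 1, .ofNat 1, .ofNat 0, .negSucc 1, .ofNat 0, .ofNat 0]), (true, [.ofNat 0, .ofNat 0, .ofNat 0, .ofNat 0, .ofNat 1, .negSucc 0, .ofNat 0, .ofNat 1, .ofNat 0, .ofNat 0, .negSucc 0, .negSucc 0, .negSucc 0])),
  ((false, [.ofNat 0, .ofNat 1, .ofNat 0, .ofNat 0, .ofNat 0, .ofNat 0, .ofNat 1, .negSucc 0, .ofNat 1, .negSucc 0, .negSucc 0, .negSucc 1, .ofNat 1]), (false, [.ofNat 0, .ofNat 0, .ofNat 0, .ofNat 0, .ofNat 0, .ofNat 0, .negSucc 0, .negSucc 1, .ofNat 0, .ofNat 1, .ofNat 1, .negSucc 1, .ofNat 0])),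
  ((false, [.ofNat 0, .ofNat 1, .ofNat 0, .ofNat 0, .ofNat 1, .ofNat 0, .ofNat 0, .negSucc 0, .ofNat 0, .negSucc 0, .ofNat 0, .negSucc 0, .ofNat 0]), (false, [.ofNat 0, .ofNat 0, .ofNat 0, .ofNat 0, .ofNat 0, .ofNat 1, .negSucc 1, .negSucc 1, .negSucc 0, .ofNat 1, .ofNat 2, .negSucc 0, .ofNat 0])),
  ((false, [.ofNat 1, .ofNat 0, .ofNat 0, .ofNat 0, .negSucc 1, .negSucc 0, .ofNat 0, .ofNat 0, .ofNat 1, .ofNat 1, .negSucc 0, .ofNat 0, .ofNat 1]), (true, [.ofNat 0, .ofNat 0, .ofNat 0, .ofNat 0, .negSucc 1, .ofNat 0, .negSucc 0, .ofNat 0, .ofNat 1, .ofNat 1, .ofNat 0, .ofNat 1, .ofNat 0])),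
  ((false, [.ofNat 1, .ofNat 0, .ofNat 0, .ofNat 0, .negSucc 0, .negSucc 0, .ofNat 0, .negSucc 0, .ofNat 0, .ofNat 0, .ofNat 1, .negSucc 0, .ofNat 1]), (true, [.ofNat 0, .ofNat 0, .ofNat 0, .ofNat 0, .negSucc 0, .negSucc 1, .ofNat 0, .ofNat 0, .ofNat 1, .ofNat 1, .ofNat 0, .negSucc 0, .ofNat 0])),
  ((false, [.ofNat 1, .ofNat 0, .ofNat 0, .ofNat 0, .ofNat 0, .negSucc 0, .ofNat 0, .ofNat 1, .ofNat 1, .ofNat 1, .negSucc 2, .ofNat 0, .ofNat 0]), (false, [.ofNat 0, .ofNat 0, .ofNat 0, .ofNat 0, .ofNat 0, .negSucc 0, .negSucc 0, .ofNat 1, .ofNat 1, .ofNat 1, .negSucc 1, .negSucc 1, .negSucc 1])),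
  ((false, [.ofNat 1, .ofNat 0, .ofNat 0, .ofNat 0, .ofNat 0, .ofNat 0, .ofNat 0, .ofNat 0, .ofNat 1, .ofNat 0, .negSucc 1, .ofNat 0, .ofNat 0]), (true, [.ofNat 0, .ofNat 0, .ofNat 0, .ofNat 0, .ofNat 0, .negSucc 0, .negSucc 0, .ofNat 0, .ofNat 1, .ofNat 1, .negSucc 0, .negSucc 1, .negSucc 0])),
  ((false, [.ofNat 1, .ofNat 0, .ofNat 0, .ofNat 0, .ofNat 1, .negSucc 0, .ofNat 0, .ofNat 0, .ofNat 0, .ofNat 0, .negSucc 0, .negSucc 0, .ofNat 0]), (false, [.ofNat 0, .ofNat 0, .ofNat 0, .ofNat 0, .ofNat 0, .negSucc 1, .ofNat 1, .ofNat 1, .ofNat 1, .ofNat 1, .negSucc 1, .negSucc 0, .ofNat 0])),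
  ((false, [.ofNat 1, .ofNat 0, .ofNat 0, .ofNat 0, .ofNat 1, .ofNat 0, .ofNat 0, .negSucc 0, .ofNat 0, .ofNat 0, .negSucc 0, .negSucc 1, .ofNat 1]), (false, [.ofNat 0, .ofNat 0, .ofNat 0, .ofNat 0, .ofNat 0, .negSucc 0, .negSucc 0, .negSucc 0, .ofNat 1, .ofNat 1, .ofNat 0, .negSucc 1, .ofNat 0])),
  ((false, [.ofNat 0, .negSucc 0, .ofNat 0, .ofNat 0, .ofNat 0, .ofNat 3, .negSucc 1, .negSucc 0, .negSucc 1, .ofNat 1, .ofNat 2, .ofNat 0, .ofNat 0]), (true, [.ofNat 0, .negSucc 0, .ofNat 0, .ofNat 0, .ofNat 0, .ofNat 1, .negSucc 0, .ofNat 0, .negSucc 0, .ofNat 0, .ofNat 1, .negSucc 3, .negSucc 0])),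
  ((false, [.ofNat 0, .negSucc 0, .ofNat 0, .ofNat 0, .ofNat 0, .ofNat 3, .ofNat 0, .ofNat 0, .ofNat 0, .negSucc 0, .ofNat 0, .ofNat 0, .ofNat 0]), (true, [.ofNat 0, .negSucc 0, .ofNat 0, .ofNat 0, .ofNat 0, .ofNat 1, .negSucc 0, .ofNat 1, .negSucc 0, .ofNat 0, .ofNat 1, .ofNat 0, .negSucc 0])),
  ((false, [.ofNat 0, .ofNat 0, .negSucc 0, .ofNat 0, .ofNat 1, .ofNat 0, .ofNat 1, .negSucc 0, .negSucc 0, .negSucc 0, .ofNat 2, .negSucc 1, .ofNat 1]), (false, [.ofNat 0, .ofNat 0, .negSucc 0, .ofNat 0, .ofNat 0, .negSucc 1, .ofNat 0, .ofNat 0, .ofNat 1, .ofNat 1, .ofNat 0, .negSucc 1, .ofNat 0])),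
  ((false, [.ofNat 0, .ofNat 0, .negSucc 0, .ofNat 0, .ofNat 3, .ofNat 0, .ofNat 1, .ofNat 0, .negSucc 0, .negSucc 0, .ofNat 0, .negSucc 1, .ofNat 0]), (false, [.ofNat 0, .ofNat 0, .negSucc 0, .ofNat 0, .ofNat 0, .negSucc 1, .ofNat 2, .ofNat 1, .ofNat 1, .ofNat 1, .negSucc 1, .negSucc 1, .ofNat 1])),
  ((false, [.ofNat 0, .ofNat 0, .ofNat 0, .ofNat 0, .ofNat 1, .ofNat 2, .negSucc 0, .negSucc 1, .negSucc 1, .negSucc 1, .ofNat 4, .ofNat 0, .ofNat 0]), (true, [.ofNat 1, .ofNat 0, .ofNat 0, .ofNat 0, .ofNat 0, .ofNat 1, .negSucc 1, .negSucc 0, .negSucc 0, .negSucc 0, .ofNat 2, .ofNat 1, .negSucc 0])),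
  ((false, [.ofNat 0, .ofNat 0, .ofNat 0, .ofNat 0, .ofNat 3, .ofNat 2, .ofNat 1, .ofNat 0, .negSucc 1, .negSucc 1, .ofNat 0, .ofNat 0, .ofNat 0]), (true, [.ofNat 1, .ofNat 0, .ofNat 0, .ofNat 0, .ofNat 0, .ofNat 1, .ofNat 0, .ofNat 0, .negSucc 0, .negSucc 0, .ofNat 0, .ofNat 1, .ofNat 0])),
  ((false, [.ofNat 0, .ofNat 0, .ofNat 0, .ofNat 1, .ofNat 1, .negSucc 1, .negSucc 0, .negSucc 0, .negSucc 1, .ofNat 1, .ofNat 2, .ofNat 0, .ofNat 0]), (true, [.ofNat 0, .ofNat 0, .ofNat 0, .ofNat 0, .ofNat 0, .negSucc 1, .negSucc 0, .ofNat 0, .negSucc 0, .ofNat 1, .ofNat 1, .negSucc 3, .negSucc 0])),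
  ((false, [.ofNat 0, .ofNat 0, .ofNat 0, .ofNat 1, .ofNat 1, .negSucc 1, .ofNat 1, .ofNat 0, .ofNat 0, .negSucc 0, .ofNat 0, .ofNat 0, .ofNat 0]), (true, [.ofNat 0, .ofNat 0, .ofNat 0, .ofNat 0, .ofNat 0, .negSucc 1, .ofNat 1, .ofNat 2, .ofNat 1, .negSucc 0, .negSucc 0, .ofNat 0, .negSucc 0])),
  ((false, [.ofNat 0, .ofNat 0, .ofNat 1, .ofNat 1, .ofNat 0, .negSucc 0, .ofNat 0, .ofNat 0, .ofNat 0, .ofNat 0, .negSucc 0, .ofNat 0, .ofNat 0]), (true, [.ofNat 0, .ofNat 0, .ofNat 0, .ofNat 0, .ofNat 1, .ofNat 0, .ofNat 2, .ofNat 1, .ofNat 1, .negSucc 0, .negSucc 2, .negSucc 1, .ofNat 0])),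
  ((false, [.ofNat 0, .ofNat 1, .ofNat 1, .ofNat 0, .negSucc 0, .negSucc 0, .negSucc 0, .negSucc 0, .ofNat 0, .ofNat 0, .ofNat 1, .ofNat 0, .ofNat 0]), (false, [.ofNat 0, .ofNat 0, .ofNat 0, .ofNat 0, .negSucc 0, .ofNat 0, .negSucc 1, .negSucc 1, .negSucc 0, .ofNat 1, .ofNat 3, .negSucc 1, .ofNat 0])),
  ((false, [.ofNat 1, .ofNat 0, .ofNat 1, .ofNat 0, .negSucc 1, .negSucc 0, .negSucc 0, .ofNat 0, .ofNat 1, .ofNat 1, .negSucc 0, .ofNat 1, .ofNat 0]), (true, [.ofNat 0, .ofNat 0, .ofNat 0, .ofNat 0, .negSucc 1, .negSucc 1, .ofNat 0, .ofNat 1, .ofNat 2, .ofNat 2, .negSucc 1, .ofNat 0, .ofNat 0]))]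

theorem poolOk : PoolOk C8d E G8d pool :=
  ⟨by decide, by decide +kernel, by decide +kernel⟩

theorem tab : chkT E.length (K8d.cls.take 66) pool = true := by decide +kernel

/-- the relations for the class `57` -/
noncomputable def r57 : List (Rel × ℤ) := [
  (⟨(1, 0), (42, 4), (116, 1), some (80, 1), some (119, 4)⟩, .ofNat 1),
  (⟨(3, 0), (18, 2), (92, 3), some (93, 3), some (73, 4)⟩, .ofNat 1),
  (⟨(3, 0), (33, 0), (82, 5), some (101, 2), some (79, 1)⟩, .ofNat 1),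
  (⟨(7, 0), (25, 1), (74, 4), some (95, 2), some (111, 1)⟩, .ofNat 1),
  (⟨(17, 0), (57, 0), (101, 0), some (126, 0), some (120, 4)⟩, .negSucc 0),
  (⟨(17, 0), (62, 1), (116, 1), some (126, 2), some (115, 1)⟩, .negSucc 0),
  (⟨(17, 0), (80, 2), (81, 3), none, some (79, 5)⟩, .negSucc 0),
  (⟨(28, 0), (47, 3), (120, 1), some (81, 4), some (118, 4)⟩, .negSucc 0),
  (⟨(42, 0), (56, 3), (124, 3), some (111, 4), some (93, 5)⟩, .negSucc 0),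
  (⟨(42, 0), (73, 5), (74, 0), some (75, 0), none⟩, .negSucc 0),
  (⟨(75, 0), (115, 2), (131, 2), some (124, 0), some (119, 0)⟩, .negSucc 0),
  (⟨(82, 0), (92, 4), (131, 5), some (95, 3), some (118, 3)⟩, .ofNat 1)]

/-- the coefficients for the class `57` -/
noncomputable def q57 : List ℤ := [.ofNat 0, .negSucc 0, .ofNat 0, .negSucc 1, .ofNat 0, .ofNat 0, .ofNat 0, .negSucc 0, .ofNat 0, .ofNat 0, .ofNat 0, .ofNat 0, .ofNat 0, .ofNat 0, .ofNat 0, .ofNat 0, .ofNat 0, .ofNat 3, .negSucc 0, .ofNat 0, .ofNat 0, .ofNat 0, .ofNat 0, .ofNat 0, .ofNat 0, .negSucc 0, .ofNat 0, .ofNat 0, .ofNat 1, .ofNat 0, .ofNat 0, .ofNat 0, .ofNat 0, .ofNat 1, .ofNat 0, .ofNat 0, .ofNat 0, .ofNat 0, .ofNat 0, .ofNat 0, .ofNat 0, .ofNat 0, .ofNat 3, .ofNat 0, .ofNat 0, .ofNat 0, .ofNat 0, .negSucc 0, .ofNat 0, .ofNat 0, .ofNat 0, .ofNat 0,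 .ofNat 0, .ofNat 0, .ofNat 0, .ofNat 0, .negSucc 0, .negSucc 0, .ofNat 0, .ofNat 0, .ofNat 0, .ofNat 0, .ofNat 1, .ofNat 0, .ofNat 0, .ofNat 0]

theorem c57 : chk2 8 ((E ++ G8d).map El.isK) pool r57 q57 = true := by decide +kernel

/-- **the relation between the symbols for the class `57`** -/
theorem s57 {k : Type*} [Field k] [CharZero k] {F : Type*} [Field F] [Algebra k F] {x y : F}
    (hx : TN.Tr k x) (hC : C8d.Eq x y) : ssum (G8d.map (El.v x y)) (K8d.cls.take 66) q57 ∈ SC k F :=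
  poolOk.rel2 hx hC tab (by decide +kernel) c57

/-- the relations for the class `58` -/
noncomputable def r58 : List (Rel × ℤ) := [
  (⟨(3, 0), (18, 2), (92, 3), some (93, 3), some (73, 4)⟩, .negSucc 0),
  (⟨(5, 0), (21, 5), (91, 3), some (124, 3), some (110, 4)⟩, .ofNat 1),
  (⟨(7, 0), (18, 5), (91, 3), some (75, 4), some (109, 4)⟩, .negSucc 0),
  (⟨(7, 0), (25, 1), (74, 4), some (95, 2), some (111, 1)⟩, .negSucc 0),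
  (⟨(8, 0), (45, 5), (88, 3), some (89, 3), some (77, 4)⟩, .negSucc 0),
  (⟨(14, 0), (32, 2), (85, 3), some (87, 3), some (78, 4)⟩, .ofNat 1),
  (⟨(14, 0), (37, 5), (122, 3), some (89, 3), some (112, 4)⟩, .ofNat 1),
  (⟨(18, 0), (37, 3), (114, 1), some (76, 4), some (113, 4)⟩, .negSucc 0),
  (⟨(42, 0), (56, 3), (124, 3), some (111, 4), some (93, 5)⟩, .ofNat 1),
  (⟨(42, 0), (73, 5), (74, 0), some (75, 0), none⟩, .ofNat 1),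
  (⟨(53, 0), (58, 3), (122, 3), some (113, 4), some (87, 5)⟩, .negSucc 0),
  (⟨(53, 0), (76, 2), (78, 3), none, some (77, 5)⟩, .negSucc 0),
  (⟨(85, 0), (95, 0), (112, 0), some (109, 3), some (130, 3)⟩, .negSucc 0),
  (⟨(88, 0), (92, 5), (114, 5), some (110, 3), some (130, 3)⟩, .ofNat 1)]

/-- the coefficients for the class `58` -/
noncomputable def q58 : List ℤ := [.ofNat 0, .ofNat 0, .ofNat 0, .ofNat 1, .ofNat 0, .negSucc 0, .ofNat 0, .ofNat 2, .ofNat 1, .ofNat 0, .ofNat 0, .ofNat 0, .ofNat 0, .ofNat 0, .negSucc 1, .ofNat 0, .ofNat 0, .ofNat 0, .ofNat 3, .ofNat 0, .ofNat 0, .negSucc 0, .ofNat 0, .ofNat 0, .ofNat 0, .ofNat 1, .ofNat 0, .ofNat 0, .ofNat 0, .ofNat 0, .ofNat 0, .ofNat 0, .negSucc 0, .ofNat 0, .ofNat 0, .ofNat 0, .ofNat 0, .negSucc 1, .ofNat 0, .ofNat 0, .ofNat 0, .ofNat 0, .negSucc 1, .ofNat 0, .ofNat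 0, .ofNat 1, .ofNat 0, .ofNat 0, .ofNat 0, .ofNat 0, .ofNat 0, .ofNat 0, .ofNat 0, .ofNat 2, .ofNat 0, .ofNat 0, .ofNat 1, .ofNat 0, .negSucc 0, .ofNat 0, .ofNat 0, .ofNat 0, .ofNat 0, .ofNat 0, .ofNat 0, .ofNat 0]

theorem c58 : chk2 8 ((E ++ G8d).map El.isK) pool r58 q58 = true := by decide +kernel

/-- **the relation between the symbols for the class `58`** -/
theorem s58 {k : Type*} [Field k] [CharZero k] {F : Type*} [Field F] [Algebra k F] {x y : F}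
    (hx : TN.Tr k x) (hC : C8d.Eq x y) : ssum (G8d.map (El.v x y)) (K8d.cls.take 66) q58 ∈ SC k F :=
  poolOk.rel2 hx hC tab (by decide +kernel) c58

/-- the relations for the class `59` -/
noncomputable def r59 : List (Rel × ℤ) := [
  (⟨(3, 0), (18, 2), (92, 3), some (93, 3), some (73, 4)⟩, .negSucc 0),
  (⟨(5, 0), (21, 5), (91, 3), some (124, 3), some (110, 4)⟩, .ofNat 1),
  (⟨(7, 0), (18, 5), (91, 3), some (75, 4), some (109, 4)⟩, .negSucc 0),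
  (⟨(7, 0), (25, 1), (74, 4), some (95, 2), some (111, 1)⟩, .negSucc 0),
  (⟨(7, 0), (43, 3), (70, 1), some (103, 4), some (106, 4)⟩, .negSucc 0),
  (⟨(7, 0), (47, 4), (104, 1), some (72, 1), some (107, 4)⟩, .negSucc 0),
  (⟨(11, 0), (51, 2), (127, 1), some (104, 1), some (105, 4)⟩, .negSucc 0),
  (⟨(14, 0), (47, 0), (99, 2), some (97, 2), some (71, 1)⟩, .negSucc 0),
  (⟨(29, 0), (59, 0), (127, 4), some (97, 0), some (106, 1)⟩, .negSucc 0),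
  (⟨(29, 0), (70, 5), (71, 0), some (72, 0), none⟩, .negSucc 0),
  (⟨(42, 0), (56, 3), (124, 3), some (111, 4), some (93, 5)⟩, .ofNat 1),
  (⟨(42, 0), (73, 5), (74, 0), some (75, 0), none⟩, .ofNat 1),
  (⟨(92, 0), (99, 0), (109, 0), some (107, 2), some (129, 2)⟩, .ofNat 1),
  (⟨(95, 0), (103, 0), (105, 0), some (129, 5), some (110, 5)⟩, .ofNat 1)]

/-- the coefficients for the class `59` -/
noncomputable def q59 : List ℤ := [.ofNat 0, .ofNat 0, .ofNat 0, .ofNat 1, .ofNat 0, .negSucc 0, .ofNat 0, .ofNat 4, .ofNat 0, .ofNat 0, .ofNat 0, .ofNat 1, .ofNat 0, .ofNat 0, .ofNat 1, .ofNat 0, .ofNat 0, .ofNat 0, .ofNat 2, .ofNat 0, .ofNat 0, .negSucc 0, .ofNat 0, .ofNat 0, .ofNat 0, .ofNat 1, .ofNat 0, .ofNat 0, .ofNat 0, .ofNat 2, .ofNat 0, .ofNat 0, .ofNat 0, .ofNat 0, .ofNat 0, .ofNat 0, .ofNat 0, .ofNat 0, .ofNat 0, .ofNat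 0, .ofNat 0, .ofNat 0, .negSucc 1, .negSucc 0, .ofNat 0, .ofNat 0, .ofNat 0, .negSucc 1, .ofNat 0, .ofNat 0, .ofNat 0, .ofNat 1, .ofNat 0, .ofNat 0, .ofNat 0, .ofNat 0, .ofNat 1, .ofNat 0, .ofNat 0, .negSucc 0, .ofNat 0, .ofNat 0, .ofNat 0, .ofNat 0, .ofNat 0, .ofNat 0]

theorem c59 : chk2 8 ((E ++ G8d).map El.isK) pool r59 q59 = true := by decide +kernel

/-- **the relation between the symbols for the class `59`** -/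
theorem s59 {k : Type*} [Field k] [CharZero k] {F : Type*} [Field F] [Algebra k F] {x y : F}
    (hx : TN.Tr k x) (hC : C8d.Eq x y) : ssum (G8d.map (El.v x y)) (K8d.cls.take 66) q59 ∈ SC k F :=
  poolOk.rel2 hx hC tab (by decide +kernel) c59

/-- the relations for the class `60` -/
noncomputable def r60 : List (Rel × ℤ) := [
  (⟨(3, 0), (18, 2), (92, 3), some (93, 3), some (73, 4)⟩, .negSucc 0),
  (⟨(7, 0), (25, 1), (74, 4), some (95, 2), some (111, 1)⟩, .negSucc 0),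
  (⟨(17, 0), (60, 0), (83, 5), some (125, 2), some (117, 1)⟩, .negSucc 0),
  (⟨(17, 0), (62, 0), (98, 0), some (125, 0), some (119, 4)⟩, .negSucc 0),
  (⟨(17, 0), (80, 2), (81, 3), none, some (79, 5)⟩, .negSucc 0),
  (⟨(24, 0), (42, 0), (80, 1), some (98, 0), some (115, 4)⟩, .negSucc 0),
  (⟨(25, 0), (46, 4), (83, 3), some (82, 3), some (79, 4)⟩, .negSucc 0),
  (⟨(32, 0), (50, 3), (118, 1), some (81, 4), some (117, 4)⟩, .negSucc 0),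
  (⟨(42, 0), (56, 3), (124, 3), some (111, 4), some (93, 5)⟩, .ofNat 1),
  (⟨(42, 0), (73, 5), (74, 0), some (75, 0), none⟩, .ofNat 1),
  (⟨(75, 0), (115, 2), (131, 2), some (124, 0), some (119, 0)⟩, .ofNat 1),
  (⟨(82, 0), (92, 4), (131, 5), some (95, 3), some (118, 3)⟩, .negSucc 0)]

/-- the coefficients for the class `60` -/
noncomputable def q60 : List ℤ := [.ofNat 0, .ofNat 0, .ofNat 0, .ofNat 1, .ofNat 0, .ofNat 0, .ofNat 0, .ofNat 1, .ofNat 0, .ofNat 0, .ofNat 0, .ofNat 0, .ofNat 0, .ofNat 0, .ofNat 0, .ofNat 0, .ofNat 0, .ofNat 3, .ofNat 1, .ofNat 0, .ofNat 0, .ofNat 0, .ofNat 0, .ofNat 0, .ofNat 1, .ofNat 2, .ofNat 0, .ofNat 0, .ofNat 0, .ofNat 0, .ofNat 0, .ofNat 0, .ofNat 1, .ofNat 0, .ofNat 0, .ofNat 0, .ofNat 0, .ofNat 0, .ofNat 0, .ofNat 0, .ofNat 0, .ofNat 0, .negSucc 2, .ofNat 0, .ofNat 0, .ofNat 0,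 .negSucc 0, .ofNat 0, .ofNat 0, .ofNat 0, .negSucc 0, .ofNat 0, .ofNat 0, .ofNat 0, .ofNat 0, .ofNat 0, .ofNat 1, .ofNat 0, .ofNat 0, .ofNat 0, .negSucc 0, .ofNat 0, .negSucc 0, .ofNat 0, .ofNat 0, .ofNat 0]

theorem c60 : chk2 8 ((E ++ G8d).map El.isK) pool r60 q60 = true := by decide +kernel

/-- **the relation between the symbols for the class `60`** -/
theorem s60 {k : Type*} [Field k] [CharZero k] {F : Type*} [Field F] [Algebra k F] {x y : F}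
    (hx : TN.Tr k x) (hC : C8d.Eq x y) : ssum (G8d.map (El.v x y)) (K8d.cls.take 66) q60 ∈ SC k F :=
  poolOk.rel2 hx hC tab (by decide +kernel) c60

/-- the relations for the class `61` -/
noncomputable def r61 : List (Rel × ℤ) := [
  (⟨(3, 0), (18, 2), (92, 3), some (93, 3), some (73, 4)⟩, .ofNat 1),
  (⟨(5, 0), (21, 5), (91, 3), some (124, 3), some (110, 4)⟩, .negSucc 0),
  (⟨(6, 0), (37, 0), (100, 2), some (99, 2), some (71, 1)⟩, .negSucc 0),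
  (⟨(6, 0), (46, 4), (105, 1), some (72, 1), some (108, 4)⟩, .negSucc 0),
  (⟨(7, 0), (18, 5), (91, 3), some (75, 4), some (109, 4)⟩, .ofNat 1),
  (⟨(7, 0), (25, 1), (74, 4), some (95, 2), some (111, 1)⟩, .ofNat 1),
  (⟨(16, 0), (46, 3), (70, 1), some (102, 4), some (103, 4)⟩, .negSucc 0),
  (⟨(29, 0), (61, 0), (128, 1), some (100, 2), some (102, 4)⟩, .negSucc 0),
  (⟨(29, 0), (70, 5), (71, 0), some (72, 0), none⟩, .negSucc 0),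
  (⟨(34, 0), (55, 0), (128, 4), some (108, 4), some (107, 1)⟩, .negSucc 0),
  (⟨(42, 0), (56, 3), (124, 3), some (111, 4), some (93, 5)⟩, .negSucc 0),
  (⟨(42, 0), (73, 5), (74, 0), some (75, 0), none⟩, .negSucc 0),
  (⟨(92, 0), (99, 0), (109, 0), some (107, 2), some (129, 2)⟩, .negSucc 0),
  (⟨(95, 0), (103, 0), (105, 0), some (129, 5), some (110, 5)⟩, .negSucc 0)]

/-- the coefficients for the class `61` -/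
noncomputable def q61 : List ℤ := [.ofNat 0, .ofNat 0, .ofNat 0, .negSucc 0, .ofNat 0, .ofNat 1, .ofNat 2, .negSucc 1, .ofNat 0, .ofNat 0, .ofNat 0, .ofNat 0, .ofNat 0, .ofNat 0, .ofNat 0, .ofNat 0, .ofNat 1, .ofNat 0, .negSucc 1, .ofNat 0, .ofNat 0, .ofNat 1, .ofNat 0, .ofNat 0, .ofNat 0, .negSucc 0, .ofNat 0, .ofNat 0, .ofNat 0, .ofNat 2, .ofNat 0, .ofNat 0, .ofNat 0, .ofNat 0, .ofNat 1, .ofNat 0, .ofNat 0, .negSucc 0, .ofNat 0, .ofNat 0, .ofNat 0, .ofNat 0, .ofNat 2, .ofNat 0, .ofNat 0, .ofNat 0, .negSucc 1, .ofNat 0, .ofNat 0, .ofNat 0, .ofNat 0, .ofNat 0, .ofNat 0, .ofNat 0, .ofNat 0, .negSucc 0, .negSucc 0, .ofNat 0, .ofNat 0, .ofNat 0, .ofNat 0, .negSucc 0, .ofNat 0, .ofNat 0, .ofNat 0, .ofNat 0]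

theorem c61 : chk2 8 ((E ++ G8d).map El.isK) pool r61 q61 = true := by decide +kernel

/-- **the relation between the symbols for the class `61`** -/
theorem s61 {k : Type*} [Field k] [CharZero k] {F : Type*} [Field F] [Algebra k F] {x y : F}
    (hx : TN.Tr k x) (hC : C8d.Eq x y) : ssum (G8d.map (El.v x y)) (K8d.cls.take 66) q61 ∈ SC k F :=
  poolOk.rel2 hx hC tab (by decide +kernel) c61

/-- the relations for the class `63` -/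
noncomputable def r63 : List (Rel × ℤ) := [
  (⟨(1, 0), (42, 4), (116, 1), some (80, 1), some (119, 4)⟩, .ofNat 1),
  (⟨(3, 0), (18, 2), (92, 3), some (93, 3), some (73, 4)⟩, .ofNat 1),
  (⟨(6, 0), (28, 2), (90, 3), some (92, 3), some (73, 4)⟩, .ofNat 1),
  (⟨(7, 0), (25, 1), (74, 4), some (95, 2), some (111, 1)⟩, .ofNat 1),
  (⟨(20, 0), (50, 0), (96, 2), some (95, 2), some (74, 1)⟩, .negSucc 0),
  (⟨(24, 0), (42, 0), (80, 1), some (98, 0), some (115, 4)⟩, .ofNat 1),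
  (⟨(42, 0), (56, 3), (124, 3), some (111, 4), some (93, 5)⟩, .negSucc 0),
  (⟨(42, 0), (63, 0), (123, 5), some (96, 2), some (90, 3)⟩, .negSucc 0),
  (⟨(42, 0), (73, 5), (74, 0), some (75, 0), none⟩, .negSucc 1),
  (⟨(75, 0), (98, 0), (123, 0), some (131, 2), some (116, 2)⟩, .negSucc 0),
  (⟨(75, 0), (115, 2), (131, 2), some (124, 0), some (119, 0)⟩, .negSucc 0)]

/-- the coefficients for the class `63` -/
noncomputable def q63 : List ℤ := [.ofNat 0, .negSucc 0, .ofNat 0, .negSucc 0, .ofNat 0, .ofNat 0, .negSucc 0, .negSucc 0, .ofNat 0, .ofNat 0, .ofNat 0, .ofNat 0, .ofNat 0, .ofNat 0, .ofNat 0, .ofNat 0, .ofNat 0, .ofNat 0, .negSucc 0, .ofNat 0, .ofNat 1, .ofNat 0, .ofNat 0, .ofNat 0, .negSucc 0, .negSucc 0, .ofNat 0, .ofNat 0, .negSucc 0, .ofNat 0, .ofNat 0, .ofNat 0, .ofNat 0, .ofNat 0, .ofNat 0, .ofNat 0, .ofNat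 0, .ofNat 0, .ofNat 0, .ofNat 0, .ofNat 0, .ofNat 0, .ofNat 6, .ofNat 0, .ofNat 0, .ofNat 0, .ofNat 0, .ofNat 0, .ofNat 0, .ofNat 0, .negSucc 0, .ofNat 0, .ofNat 0, .ofNat 0, .ofNat 0, .ofNat 0, .negSucc 0, .ofNat 0, .ofNat 0, .ofNat 0, .ofNat 0, .ofNat 0, .ofNat 0, .negSucc 0, .ofNat 0, .ofNat 0]

theorem c63 : chk2 8 ((E ++ G8d).map El.isK) pool r63 q63 = true := by decide +kernel

/-- **the relation between the symbols for the class `63`** -/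
theorem s63 {k : Type*} [Field k] [CharZero k] {F : Type*} [Field F] [Algebra k F] {x y : F}
    (hx : TN.Tr k x) (hC : C8d.Eq x y) : ssum (G8d.map (El.v x y)) (K8d.cls.take 66) q63 ∈ SC k F :=
  poolOk.rel2 hx hC tab (by decide +kernel) c63

/-- the relations for the class `65` -/
noncomputable def r65 : List (Rel × ℤ) := [
  (⟨(3, 0), (18, 2), (92, 3), some (93, 3), some (73, 4)⟩, .ofNat 1),
  (⟨(5, 0), (21, 5), (91, 3), some (124, 3), some (110, 4)⟩, .negSucc 0),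
  (⟨(7, 0), (18, 5), (91, 3), some (75, 4), some (109, 4)⟩, .ofNat 1),
  (⟨(7, 0), (25, 1), (74, 4), some (95, 2), some (111, 1)⟩, .ofNat 1),
  (⟨(16, 0), (33, 1), (76, 4), some (94, 2), some (114, 1)⟩, .ofNat 1),
  (⟨(16, 0), (43, 5), (88, 3), some (86, 5), some (121, 5)⟩, .ofNat 1),
  (⟨(20, 0), (43, 2), (84, 3), some (85, 3), some (78, 4)⟩, .ofNat 1),
  (⟨(42, 0), (56, 3), (124, 3), some (111, 4), some (93, 5)⟩, .negSucc 0),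
  (⟨(42, 0), (73, 5), (74, 0), some (75, 0), none⟩, .negSucc 0),
  (⟨(52, 0), (54, 2), (86, 3), some (77, 1), some (112, 4)⟩, .negSucc 0),
  (⟨(53, 0), (65, 0), (121, 5), some (94, 2), some (84, 3)⟩, .negSucc 0),
  (⟨(53, 0), (76, 2), (78, 3), none, some (77, 5)⟩, .negSucc 0),
  (⟨(85, 0), (95, 0), (112, 0), some (109, 3), some (130, 3)⟩, .ofNat 1),
  (⟨(88, 0), (92, 5), (114, 5), some (110, 3), some (130, 3)⟩, .negSucc 0)]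

/-- the coefficients for the class `65` -/
noncomputable def q65 : List ℤ := [.ofNat 0, .ofNat 0, .ofNat 0, .negSucc 0, .ofNat 0, .ofNat 1, .ofNat 0, .negSucc 1, .ofNat 0, .ofNat 0, .ofNat 0, .ofNat 0, .ofNat 0, .ofNat 0, .ofNat 0, .ofNat 0, .negSucc 1, .ofNat 0, .negSucc 1, .ofNat 0, .negSucc 0, .ofNat 1, .ofNat 0, .ofNat 0, .ofNat 0, .negSucc 0, .ofNat 0, .ofNat 0, .ofNat 0, .ofNat 0, .ofNat 0, .ofNat 0, .ofNat 0, .negSucc 0, .ofNat 0, .ofNat 0, .ofNat 0, .ofNat 0, .ofNat 0, .ofNat 0, .ofNat 0, .ofNat 0, .ofNat 2, .negSucc 1, .ofNat 0, .ofNat 0, .ofNat 0, .ofNat 0, .ofNat 0, .ofNat 0, .ofNat 0, .ofNat 0, .ofNat 1, .ofNat 2, .ofNat 1, .ofNat 0, .negSucc 0, .ofNat 0, .ofNat 0, .ofNat 0, .ofNat 0, .ofNat 0, .ofNat 0, .ofNat 0, .ofNat 0, .negSucc 0]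

theorem c65 : chk2 8 ((E ++ G8d).map El.isK) pool r65 q65 = true := by decide +kernel

/-- **the relation between the symbols for the class `65`** -/
theorem s65 {k : Type*} [Field k] [CharZero k] {F : Type*} [Field F] [Algebra k F] {x y : F}
    (hx : TN.Tr k x) (hC : C8d.Eq x y) : ssum (G8d.map (El.v x y)) (K8d.cls.take 66) q65 ∈ SC k F :=
  poolOk.rel2 hx hC tab (by decide +kernel) c65

/-- relations -/
noncomputable def w58x1r0 : List (Rel × List ℤ) := [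
  (⟨(3, 0), (18, 2), (92, 3), some (93, 3), some (73, 4)⟩, [.ofNat 0, .ofNat 0, .ofNat 0, .ofNat 0, .ofNat 0, .negSucc 0, .ofNat 0, .negSucc 1, .ofNat 1, .ofNat 1, .ofNat 0, .negSucc 1, .ofNat 0]),
  (⟨(5, 0), (21, 5), (91, 3), some (124, 3), some (110, 4)⟩, [.ofNat 0, .ofNat 0, .ofNat 0, .ofNat 0, .ofNat 0, .ofNat 1, .ofNat 0, .ofNat 2, .negSucc 0, .negSucc 0, .ofNat 0, .ofNat 2, .ofNat 0]),
  (⟨(7, 0), (18, 5), (91, 3), some (75, 4), some (109, 4)⟩, [.ofNat 0, .ofNat 0, .ofNat 0, .ofNat 0, .ofNat 0, .negSucc 0, .ofNat 0, .negSucc 1, .ofNat 1, .ofNat 1, .ofNat 0, .negSucc 1, .ofNat 0]),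
  (⟨(7, 0), (25, 1), (74, 4), some (95, 2), some (111, 1)⟩, [.ofNat 0, .ofNat 0, .ofNat 0, .ofNat 0, .ofNat 0, .negSucc 0, .ofNat 0, .negSucc 1, .ofNat 1, .ofNat 1, .ofNat 0, .negSucc 1, .ofNat 0]),
  (⟨(8, 0), (45, 5), (88, 3), some (89, 3), some (77, 4)⟩, [.ofNat 0, .ofNat 0, .ofNat 0, .ofNat 0, .ofNat 0, .negSucc 0, .ofNat 0, .negSucc 1, .ofNat 1, .ofNat 1, .ofNat 0, .negSucc 1, .ofNat 0]),
  (⟨(14, 0), (32, 2), (85, 3), some (87, 3), some (78, 4)⟩, [.ofNat 0, .ofNat 0, .ofNat 0, .ofNat 0, .ofNat 0, .ofNat 1, .ofNat 0, .ofNat 2, .negSucc 0, .negSucc 0, .ofNat 0, .ofNat 2, .ofNat 0]),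
  (⟨(14, 0), (37, 5), (122, 3), some (89, 3), some (112, 4)⟩, [.ofNat 0, .ofNat 0, .ofNat 0, .ofNat 0, .ofNat 0, .ofNat 1, .ofNat 0, .ofNat 2, .negSucc 0, .negSucc 0, .ofNat 0, .ofNat 2, .ofNat 0]),
  (⟨(18, 0), (37, 3), (114, 1), some (76, 4), some (113, 4)⟩, [.ofNat 0, .ofNat 0, .ofNat 0, .ofNat 0, .ofNat 0, .negSucc 0, .ofNat 0, .negSucc 1, .ofNat 1, .ofNat 1, .ofNat 0, .negSucc 1, .ofNat 0]),
  (⟨(42, 0), (56, 3), (124, 3), some (111, 4), some (93, 5)⟩, [.ofNat 0, .ofNat 0, .ofNat 0, .ofNat 0, .ofNat 0, .ofNat 1, .ofNat 0, .ofNat 2, .negSucc 0, .negSucc 0, .ofNat 0, .ofNat 2, .ofNat 0]),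
  (⟨(42, 0), (73, 5), (74, 0), some (75, 0), none⟩, [.ofNat 0, .ofNat 0, .ofNat 0, .ofNat 0, .ofNat 0, .ofNat 1, .ofNat 0, .ofNat 2, .negSucc 0, .negSucc 0, .ofNat 0, .ofNat 2, .ofNat 0]),
  (⟨(53, 0), (58, 3), (122, 3), some (113, 4), some (87, 5)⟩, [.ofNat 0, .ofNat 0, .ofNat 0, .ofNat 0, .ofNat 0, .negSucc 0, .ofNat 0, .negSucc 1, .ofNat 1, .ofNat 1, .ofNat 0, .negSucc 1, .ofNat 0]),
  (⟨(53, 0), (76, 2), (78, 3), none, some (77, 5)⟩, [.ofNat 0, .ofNat 0, .ofNat 0, .ofNat 0, .ofNat 0, .negSucc 0, .ofNat 0, .negSucc 1, .ofNat 1, .ofNat 1, .ofNat 0, .negSucc 1, .ofNat 0]),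
  (⟨(85, 0), (95, 0), (112, 0), some (109, 3), some (130, 3)⟩, [.ofNat 0, .ofNat 0, .ofNat 0, .ofNat 0, .ofNat 0, .negSucc 0, .ofNat 0, .negSucc 1, .ofNat 1, .ofNat 1, .ofNat 0, .negSucc 1, .ofNat 0]),
  (⟨(88, 0), (92, 5), (114, 5), some (110, 3), some (130, 3)⟩, [.ofNat 0, .ofNat 0, .ofNat 0, .ofNat 0, .ofNat 0, .ofNat 1, .ofNat 0, .ofNat 2, .negSucc 0, .negSucc 0, .ofNat 0, .ofNat 2, .ofNat 0])]

/-- trivial elements -/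
noncomputable def w58x1t0 : List (ℕ × ℤ × ℤ) := [
  (58, .ofNat 0, .negSucc 0)]

/-- the identity -/
noncomputable def w58x1 : Id3 := ⟨[w58x1r0], [w58x1t0]⟩

/-- the element -/
noncomputable def w58x1L : List Tm := [
  ⟨3, 0, [.ofNat 0, .ofNat 0, .ofNat 0, .ofNat 0, .ofNat 0, .ofNat 1, .ofNat 0, .ofNat 2, .negSucc 0, .negSucc 0, .ofNat 0, .ofNat 2, .ofNat 0]⟩,
  ⟨5, 0, [.ofNat 0, .ofNat 0, .ofNat 0, .ofNat 0, .ofNat 0, .negSucc 0, .ofNat 0, .negSucc 1, .ofNat 1, .ofNat 1, .ofNat 0, .negSucc 1, .ofNat 0]⟩,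
  ⟨7, 0, [.ofNat 0, .ofNat 0, .ofNat 0, .ofNat 0, .ofNat 0, .ofNat 2, .ofNat 0, .ofNat 4, .negSucc 1, .negSucc 1, .ofNat 0, .ofNat 4, .ofNat 0]⟩,
  ⟨8, 0, [.ofNat 0, .ofNat 0, .ofNat 0, .ofNat 0, .ofNat 0, .ofNat 1, .ofNat 0, .ofNat 2, .negSucc 0, .negSucc 0, .ofNat 0, .ofNat 2, .ofNat 0]⟩,
  ⟨14, 0, [.ofNat 0, .ofNat 0, .ofNat 0, .ofNat 0, .ofNat 0, .negSucc 1, .ofNat 0, .negSucc 3, .ofNat 2, .ofNat 2, .ofNat 0, .negSucc 3, .ofNat 0]⟩,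
  ⟨18, 0, [.ofNat 0, .ofNat 0, .ofNat 0, .ofNat 0, .ofNat 0, .ofNat 3, .ofNat 0, .ofNat 6, .negSucc 2, .negSucc 2, .ofNat 0, .ofNat 6, .ofNat 0]⟩,
  ⟨21, 0, [.ofNat 0, .ofNat 0, .ofNat 0, .ofNat 0, .ofNat 0, .negSucc 0, .ofNat 0, .negSucc 1, .ofNat 1, .ofNat 1, .ofNat 0, .negSucc 1, .ofNat 0]⟩,
  ⟨25, 0, [.ofNat 0, .ofNat 0, .ofNat 0, .ofNat 0, .ofNat 0, .ofNat 1, .ofNat 0, .ofNat 2, .negSucc 0, .negSucc 0, .ofNat 0, .ofNat 2, .ofNat 0]⟩,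
  ⟨32, 0, [.ofNat 0, .ofNat 0, .ofNat 0, .ofNat 0, .ofNat 0, .negSucc 0, .ofNat 0, .negSucc 1, .ofNat 1, .ofNat 1, .ofNat 0, .negSucc 1, .ofNat 0]⟩,
  ⟨37, 0, [.ofNat 0, .ofNat 0, .ofNat 0, .ofNat 0, .ofNat 0, .negSucc 1, .ofNat 0, .negSucc 3, .ofNat 2, .ofNat 2, .ofNat 0, .negSucc 3, .ofNat 0]⟩,
  ⟨42, 0, [.ofNat 0, .ofNat 0, .ofNat 0, .ofNat 0, .ofNat 0, .negSucc 1, .ofNat 0, .negSucc 3, .ofNat 2, .ofNat 2, .ofNat 0, .negSucc 3, .ofNat 0]⟩,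
  ⟨45, 0, [.ofNat 0, .ofNat 0, .ofNat 0, .ofNat 0, .ofNat 0, .ofNat 1, .ofNat 0, .ofNat 2, .negSucc 0, .negSucc 0, .ofNat 0, .ofNat 2, .ofNat 0]⟩,
  ⟨53, 0, [.ofNat 0, .ofNat 0, .ofNat 0, .ofNat 0, .ofNat 0, .ofNat 2, .ofNat 0, .ofNat 4, .negSucc 1, .negSucc 1, .ofNat 0, .ofNat 4, .ofNat 0]⟩,
  ⟨56, 0, [.ofNat 0, .ofNat 0, .ofNat 0, .ofNat 0, .ofNat 0, .ofNat 1, .ofNat 0, .ofNat 2, .negSucc 0, .negSucc 0, .ofNat 0, .ofNat 2, .ofNat 0]⟩]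

theorem w58x1_pad : padS E.length x8d.cls x8d_l2 pool w58x1L = true := by decide +kernel

theorem w58x1_A : w58x1.chkA ((E ++ G8d).map El.isK) pool = true := by decide +kernel

theorem w58x1_B : w58x1.chkB pool [(1, w58x1L)] = true := by decide +kernel

theorem w58x1_C : w58x1.chkC 11 (E ++ G8d).length 64 3 pool [(1, w58x1L)] = true := by decide +kernel

/-- **a trivial element** -/
theorem w58x1_zero {k : Type*} [Field k] [CharZero k] {F : Type*} [Field F] [Algebra k F] {x y : F}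
    (hx : TN.Tr k x) (hC : C8d.Eq x y) : zt (G8d.map (El.v x y)) x8d.cls x8d_l2 ∈ TN.KC k F :=
  poolOk.zero hx hC (by decide) w58x1_pad w58x1_A w58x1_B w58x1_C

/-- relations -/
noncomputable def w61x0r0 : List (Rel × List ℤ) := [
  (⟨(3, 0), (18, 2), (92, 3), some (93, 3), some (73, 4)⟩, [.ofNat 0, .ofNat 0, .ofNat 0, .ofNat 0, .ofNat 0, .negSucc 1, .ofNat 2, .ofNat 3, .ofNat 2, .negSucc 1, .negSucc 1, .ofNat 2, .negSucc 0]),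
  (⟨(5, 0), (21, 5), (91, 3), some (124, 3), some (110, 4)⟩, [.ofNat 0, .ofNat 0, .ofNat 0, .ofNat 0, .ofNat 0, .ofNat 2, .negSucc 1, .negSucc 2, .negSucc 1, .ofNat 2, .ofNat 2, .negSucc 1, .ofNat 1]),
  (⟨(6, 0), (37, 0), (100, 2), some (99, 2), some (71, 1)⟩, [.ofNat 0, .ofNat 0, .ofNat 0, .ofNat 0, .ofNat 0, .ofNat 2, .negSucc 1, .negSucc 2, .negSucc 1, .ofNat 2, .ofNat 2, .negSucc 1, .ofNat 1]),
  (⟨(6, 0), (46, 4), (105, 1), some (72, 1), some (108, 4)⟩, [.ofNat 0, .ofNat 0, .ofNat 0, .ofNat 0, .ofNat 0, .ofNat 2, .negSucc 1, .negSucc 2, .negSucc 1, .ofNat 2, .ofNat 2, .negSucc 1, .ofNat 1]),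
  (⟨(7, 0), (18, 5), (91, 3), some (75, 4), some (109, 4)⟩, [.ofNat 0, .ofNat 0, .ofNat 0, .ofNat 0, .ofNat 0, .negSucc 1, .ofNat 2, .ofNat 3, .ofNat 2, .negSucc 1, .negSucc 1, .ofNat 2, .negSucc 0]),
  (⟨(7, 0), (25, 1), (74, 4), some (95, 2), some (111, 1)⟩, [.ofNat 0, .ofNat 0, .ofNat 0, .ofNat 0, .ofNat 0, .negSucc 1, .ofNat 2, .ofNat 3, .ofNat 2, .negSucc 1, .negSucc 1, .ofNat 2, .negSucc 0]),
  (⟨(16, 0), (46, 3), (70, 1), some (102, 4), some (103, 4)⟩, [.ofNat 0, .ofNat 0, .ofNat 0, .ofNat 0, .ofNat 0, .ofNat 2, .negSucc 1, .negSucc 2, .negSucc 1, .ofNat 2, .ofNat 2, .negSucc 1, .ofNat 1]),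
  (⟨(29, 0), (61, 0), (128, 1), some (100, 2), some (102, 4)⟩, [.ofNat 0, .ofNat 0, .ofNat 0, .ofNat 0, .ofNat 0, .ofNat 2, .negSucc 1, .negSucc 2, .negSucc 1, .ofNat 2, .ofNat 2, .negSucc 1, .ofNat 1]),
  (⟨(29, 0), (70, 5), (71, 0), some (72, 0), none⟩, [.ofNat 0, .ofNat 0, .ofNat 0, .ofNat 0, .ofNat 0, .ofNat 2, .negSucc 1, .negSucc 2, .negSucc 1, .ofNat 2, .ofNat 2, .negSucc 1, .ofNat 1]),
  (⟨(34, 0), (55, 0), (128, 4), some (108, 4), some (107, 1)⟩, [.ofNat 0, .ofNat 0, .ofNat 0, .ofNat 0, .ofNat 0, .ofNat 2, .negSucc 1, .negSucc 2, .negSucc 1, .ofNat 2, .ofNat 2, .negSucc 1, .ofNat 1]),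
  (⟨(42, 0), (56, 3), (124, 3), some (111, 4), some (93, 5)⟩, [.ofNat 0, .ofNat 0, .ofNat 0, .ofNat 0, .ofNat 0, .ofNat 2, .negSucc 1, .negSucc 2, .negSucc 1, .ofNat 2, .ofNat 2, .negSucc 1, .ofNat 1]),
  (⟨(42, 0), (73, 5), (74, 0), some (75, 0), none⟩, [.ofNat 0, .ofNat 0, .ofNat 0, .ofNat 0, .ofNat 0, .ofNat 2, .negSucc 1, .negSucc 2, .negSucc 1, .ofNat 2, .ofNat 2, .negSucc 1, .ofNat 1]),
  (⟨(92, 0), (99, 0), (109, 0), some (107, 2), some (129, 2)⟩, [.ofNat 0, .ofNat 0, .ofNat 0, .ofNat 0, .ofNat 0, .ofNat 2, .negSucc 1, .negSucc 2, .negSucc 1, .ofNat 2, .ofNat 2, .negSucc 1, .ofNat 1]),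
  (⟨(95, 0), (103, 0), (105, 0), some (129, 5), some (110, 5)⟩, [.ofNat 0, .ofNat 0, .ofNat 0, .ofNat 0, .ofNat 0, .ofNat 2, .negSucc 1, .negSucc 2, .negSucc 1, .ofNat 2, .ofNat 2, .negSucc 1, .ofNat 1])]

/-- trivial elements -/
noncomputable def w61x0t0 : List (ℕ × ℤ × ℤ) := [
  (61, .negSucc 0, .ofNat 0)]

/-- the identity -/
noncomputable def w61x0 : Id3 := ⟨[w61x0r0], [w61x0t0]⟩

/-- the element -/
noncomputable def w61x0L : List Tm := [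
  ⟨3, 0, [.ofNat 0, .ofNat 0, .ofNat 0, .ofNat 0, .ofNat 0, .ofNat 2, .negSucc 1, .negSucc 2, .negSucc 1, .ofNat 2, .ofNat 2, .negSucc 1, .ofNat 1]⟩,
  ⟨5, 0, [.ofNat 0, .ofNat 0, .ofNat 0, .ofNat 0, .ofNat 0, .negSucc 1, .ofNat 2, .ofNat 3, .ofNat 2, .negSucc 1, .negSucc 1, .ofNat 2, .negSucc 0]⟩,
  ⟨6, 0, [.ofNat 0, .ofNat 0, .ofNat 0, .ofNat 0, .ofNat 0, .negSucc 3, .ofNat 4, .ofNat 6, .ofNat 4, .negSucc 3, .negSucc 3, .ofNat 4, .negSucc 1]⟩,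
  ⟨7, 0, [.ofNat 0, .ofNat 0, .ofNat 0, .ofNat 0, .ofNat 0, .ofNat 4, .negSucc 3, .negSucc 5, .negSucc 3, .ofNat 4, .ofNat 4, .negSucc 3, .ofNat 2]⟩,
  ⟨16, 0, [.ofNat 0, .ofNat 0, .ofNat 0, .ofNat 0, .ofNat 0, .negSucc 1, .ofNat 2, .ofNat 3, .ofNat 2, .negSucc 1, .negSucc 1, .ofNat 2, .negSucc 0]⟩,
  ⟨18, 0, [.ofNat 0, .ofNat 0, .ofNat 0, .ofNat 0, .ofNat 0, .ofNat 4, .negSucc 3, .negSucc 5, .negSucc 3, .ofNat 4, .ofNat 4, .negSucc 3, .ofNat 2]⟩,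
  ⟨21, 0, [.ofNat 0, .ofNat 0, .ofNat 0, .ofNat 0, .ofNat 0, .negSucc 1, .ofNat 2, .ofNat 3, .ofNat 2, .negSucc 1, .negSucc 1, .ofNat 2, .negSucc 0]⟩,
  ⟨25, 0, [.ofNat 0, .ofNat 0, .ofNat 0, .ofNat 0, .ofNat 0, .ofNat 2, .negSucc 1, .negSucc 2, .negSucc 1, .ofNat 2, .ofNat 2, .negSucc 1, .ofNat 1]⟩,
  ⟨29, 0, [.ofNat 0, .ofNat 0, .ofNat 0, .ofNat 0, .ofNat 0, .negSucc 3, .ofNat 4, .ofNat 6, .ofNat 4, .negSucc 3, .negSucc 3, .ofNat 4, .negSucc 1]⟩,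
  ⟨34, 0, [.ofNat 0, .ofNat 0, .ofNat 0, .ofNat 0, .ofNat 0, .negSucc 1, .ofNat 2, .ofNat 3, .ofNat 2, .negSucc 1, .negSucc 1, .ofNat 2, .negSucc 0]⟩,
  ⟨37, 0, [.ofNat 0, .ofNat 0, .ofNat 0, .ofNat 0, .ofNat 0, .ofNat 2, .negSucc 1, .negSucc 2, .negSucc 1, .ofNat 2, .ofNat 2, .negSucc 1, .ofNat 1]⟩,
  ⟨42, 0, [.ofNat 0, .ofNat 0, .ofNat 0, .ofNat 0, .ofNat 0, .negSucc 3, .ofNat 4, .ofNat 6, .ofNat 4, .negSucc 3, .negSucc 3, .ofNat 4, .negSucc 1]⟩,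
  ⟨46, 0, [.ofNat 0, .ofNat 0, .ofNat 0, .ofNat 0, .ofNat 0, .ofNat 4, .negSucc 3, .negSucc 5, .negSucc 3, .ofNat 4, .ofNat 4, .negSucc 3, .ofNat 2]⟩,
  ⟨55, 0, [.ofNat 0, .ofNat 0, .ofNat 0, .ofNat 0, .ofNat 0, .ofNat 2, .negSucc 1, .negSucc 2, .negSucc 1, .ofNat 2, .ofNat 2, .negSucc 1, .ofNat 1]⟩,
  ⟨56, 0, [.ofNat 0, .ofNat 0, .ofNat 0, .ofNat 0, .ofNat 0, .ofNat 2, .negSucc 1, .negSucc 2, .negSucc 1, .ofNat 2, .ofNat 2, .negSucc 1, .ofNat 1]⟩]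

theorem w61x0_pad : padS E.length x8d.cls x8d_l3 pool w61x0L = true := by decide +kernel

theorem w61x0_A : w61x0.chkA ((E ++ G8d).map El.isK) pool = true := by decide +kernel

theorem w61x0_B : w61x0.chkB pool [(1, w61x0L)] = true := by decide +kernel

theorem w61x0_C : w61x0.chkC 12 (E ++ G8d).length 64 3 pool [(1, w61x0L)] = true := by decide +kernel

/-- **a trivial element** -/
theorem w61x0_zero {k : Type*} [Field k] [CharZero k] {F : Type*} [Field F] [Algebra k F] {x y : F}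
    (hx : TN.Tr k x) (hC : C8d.Eq x y) : zt (G8d.map (El.v x y)) x8d.cls x8d_l3 ∈ TN.KC k F :=
  poolOk.zero hx hC (by decide) w61x0_pad w61x0_A w61x0_B w61x0_C

/-- relations -/
noncomputable def w61x1r0 : List (Rel × List ℤ) := [
  (⟨(3, 0), (18, 2), (92, 3), some (93, 3), some (73, 4)⟩, [.ofNat 0, .ofNat 0, .ofNat 0, .ofNat 0, .ofNat 3, .negSucc 0, .ofNat 3, .ofNat 1, .ofNat 1, .negSucc 2, .negSucc 1, .ofNat 0, .negSucc 0]),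
  (⟨(5, 0), (21, 5), (91, 3), some (124, 3), some (110, 4)⟩, [.ofNat 0, .ofNat 0, .ofNat 0, .ofNat 0, .negSucc 2, .ofNat 1, .negSucc 2, .negSucc 0, .negSucc 0, .ofNat 3, .ofNat 2, .ofNat 0, .ofNat 1]),
  (⟨(6, 0), (37, 0), (100, 2), some (99, 2), some (71, 1)⟩, [.ofNat 0, .ofNat 0, .ofNat 0, .ofNat 0, .negSucc 2, .ofNat 1, .negSucc 2, .negSucc 0, .negSucc 0, .ofNat 3, .ofNat 2, .ofNat 0, .ofNat 1]),
  (⟨(6, 0), (46, 4), (105, 1), some (72, 1), some (108, 4)⟩, [.ofNat 0, .ofNat 0, .ofNat 0, .ofNat 0, .negSucc 2, .ofNat 1, .negSucc 2, .negSucc 0, .negSucc 0, .ofNat 3, .ofNat 2, .ofNat 0, .ofNat 1]),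
  (⟨(7, 0), (18, 5), (91, 3), some (75, 4), some (109, 4)⟩, [.ofNat 0, .ofNat 0, .ofNat 0, .ofNat 0, .ofNat 3, .negSucc 0, .ofNat 3, .ofNat 1, .ofNat 1, .negSucc 2, .negSucc 1, .ofNat 0, .negSucc 0]),
  (⟨(7, 0), (25, 1), (74, 4), some (95, 2), some (111, 1)⟩, [.ofNat 0, .ofNat 0, .ofNat 0, .ofNat 0, .ofNat 3, .negSucc 0, .ofNat 3, .ofNat 1, .ofNat 1, .negSucc 2, .negSucc 1, .ofNat 0, .negSucc 0]),
  (⟨(16, 0), (46, 3), (70, 1), some (102, 4), some (103, 4)⟩, [.ofNat 0, .ofNat 0, .ofNat 0, .ofNat 0, .negSucc 2, .ofNat 1, .negSucc 2, .negSucc 0, .negSucc 0, .ofNat 3, .ofNat 2, .ofNat 0, .ofNat 1]),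
  (⟨(29, 0), (61, 0), (128, 1), some (100, 2), some (102, 4)⟩, [.ofNat 0, .ofNat 0, .ofNat 0, .ofNat 0, .negSucc 2, .ofNat 1, .negSucc 2, .negSucc 0, .negSucc 0, .ofNat 3, .ofNat 2, .ofNat 0, .ofNat 1]),
  (⟨(29, 0), (70, 5), (71, 0), some (72, 0), none⟩, [.ofNat 0, .ofNat 0, .ofNat 0, .ofNat 0, .negSucc 2, .ofNat 1, .negSucc 2, .negSucc 0, .negSucc 0, .ofNat 3, .ofNat 2, .ofNat 0, .ofNat 1]),
  (⟨(34, 0), (55, 0), (128, 4), some (108, 4), some (107, 1)⟩, [.ofNat 0, .ofNat 0, .ofNat 0, .ofNat 0, .negSucc 2, .ofNat 1, .negSucc 2, .negSucc 0, .negSucc 0, .ofNat 3, .ofNat 2, .ofNat 0, .ofNat 1]),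
  (⟨(42, 0), (56, 3), (124, 3), some (111, 4), some (93, 5)⟩, [.ofNat 0, .ofNat 0, .ofNat 0, .ofNat 0, .negSucc 2, .ofNat 1, .negSucc 2, .negSucc 0, .negSucc 0, .ofNat 3, .ofNat 2, .ofNat 0, .ofNat 1]),
  (⟨(42, 0), (73, 5), (74, 0), some (75, 0), none⟩, [.ofNat 0, .ofNat 0, .ofNat 0, .ofNat 0, .negSucc 2, .ofNat 1, .negSucc 2, .negSucc 0, .negSucc 0, .ofNat 3, .ofNat 2, .ofNat 0, .ofNat 1]),
  (⟨(92, 0), (99, 0), (109, 0), some (107, 2), some (129, 2)⟩, [.ofNat 0, .ofNat 0, .ofNat 0, .ofNat 0, .negSucc 2, .ofNat 1, .negSucc 2, .negSucc 0, .negSucc 0, .ofNat 3, .ofNat 2, .ofNat 0, .ofNat 1]),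
  (⟨(95, 0), (103, 0), (105, 0), some (129, 5), some (110, 5)⟩, [.ofNat 0, .ofNat 0, .ofNat 0, .ofNat 0, .negSucc 2, .ofNat 1, .negSucc 2, .negSucc 0, .negSucc 0, .ofNat 3, .ofNat 2, .ofNat 0, .ofNat 1])]

/-- trivial elements -/
noncomputable def w61x1t0 : List (ℕ × ℤ × ℤ) := [
  (61, .ofNat 0, .negSucc 0)]

/-- the identity -/
noncomputable def w61x1 : Id3 := ⟨[w61x1r0], [w61x1t0]⟩

/-- the element -/
noncomputable def w61x1L : List Tm := [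
  ⟨3, 0, [.ofNat 0, .ofNat 0, .ofNat 0, .ofNat 0, .negSucc 2, .ofNat 1, .negSucc 2, .negSucc 0, .negSucc 0, .ofNat 3, .ofNat 2, .ofNat 0, .ofNat 1]⟩,
  ⟨5, 0, [.ofNat 0, .ofNat 0, .ofNat 0, .ofNat 0, .ofNat 3, .negSucc 0, .ofNat 3, .ofNat 1, .ofNat 1, .negSucc 2, .negSucc 1, .ofNat 0, .negSucc 0]⟩,
  ⟨6, 0, [.ofNat 0, .ofNat 0, .ofNat 0, .ofNat 0, .ofNat 6, .negSucc 1, .ofNat 6, .ofNat 2, .ofNat 2, .negSucc 5, .negSucc 3, .ofNat 0, .negSucc 1]⟩,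
  ⟨7, 0, [.ofNat 0, .ofNat 0, .ofNat 0, .ofNat 0, .negSucc 5, .ofNat 2, .negSucc 5, .negSucc 1, .negSucc 1, .ofNat 6, .ofNat 4, .ofNat 0, .ofNat 2]⟩,
  ⟨16, 0, [.ofNat 0, .ofNat 0, .ofNat 0, .ofNat 0, .ofNat 3, .negSucc 0, .ofNat 3, .ofNat 1, .ofNat 1, .negSucc 2, .negSucc 1, .ofNat 0, .negSucc 0]⟩,
  ⟨18, 0, [.ofNat 0, .ofNat 0, .ofNat 0, .ofNat 0, .negSucc 5, .ofNat 2, .negSucc 5, .negSucc 1, .negSucc 1, .ofNat 6, .ofNat 4, .ofNat 0, .ofNat 2]⟩,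
  ⟨21, 0, [.ofNat 0, .ofNat 0, .ofNat 0, .ofNat 0, .ofNat 3, .negSucc 0, .ofNat 3, .ofNat 1, .ofNat 1, .negSucc 2, .negSucc 1, .ofNat 0, .negSucc 0]⟩,
  ⟨25, 0, [.ofNat 0, .ofNat 0, .ofNat 0, .ofNat 0, .negSucc 2, .ofNat 1, .negSucc 2, .negSucc 0, .negSucc 0, .ofNat 3, .ofNat 2, .ofNat 0, .ofNat 1]⟩,
  ⟨29, 0, [.ofNat 0, .ofNat 0, .ofNat 0, .ofNat 0, .ofNat 6, .negSucc 1, .ofNat 6, .ofNat 2, .ofNat 2, .negSucc 5, .negSucc 3, .ofNat 0, .negSucc 1]⟩,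
  ⟨34, 0, [.ofNat 0, .ofNat 0, .ofNat 0, .ofNat 0, .ofNat 3, .negSucc 0, .ofNat 3, .ofNat 1, .ofNat 1, .negSucc 2, .negSucc 1, .ofNat 0, .negSucc 0]⟩,
  ⟨37, 0, [.ofNat 0, .ofNat 0, .ofNat 0, .ofNat 0, .negSucc 2, .ofNat 1, .negSucc 2, .negSucc 0, .negSucc 0, .ofNat 3, .ofNat 2, .ofNat 0, .ofNat 1]⟩,
  ⟨42, 0, [.ofNat 0, .ofNat 0, .ofNat 0, .ofNat 0, .ofNat 6, .negSucc 1, .ofNat 6, .ofNat 2, .ofNat 2, .negSucc 5, .negSucc 3, .ofNat 0, .negSucc 1]⟩,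
  ⟨46, 0, [.ofNat 0, .ofNat 0, .ofNat 0, .ofNat 0, .negSucc 5, .ofNat 2, .negSucc 5, .negSucc 1, .negSucc 1, .ofNat 6, .ofNat 4, .ofNat 0, .ofNat 2]⟩,
  ⟨55, 0, [.ofNat 0, .ofNat 0, .ofNat 0, .ofNat 0, .negSucc 2, .ofNat 1, .negSucc 2, .negSucc 0, .negSucc 0, .ofNat 3, .ofNat 2, .ofNat 0, .ofNat 1]⟩,
  ⟨56, 0, [.ofNat 0, .ofNat 0, .ofNat 0, .ofNat 0, .negSucc 2, .ofNat 1, .negSucc 2, .negSucc 0, .negSucc 0, .ofNat 3, .ofNat 2, .ofNat 0, .ofNat 1]⟩]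

theorem w61x1_pad : padS E.length x8d.cls x8d_l4 pool w61x1L = true := by decide +kernel

theorem w61x1_A : w61x1.chkA ((E ++ G8d).map El.isK) pool = true := by decide +kernel

theorem w61x1_B : w61x1.chkB pool [(1, w61x1L)] = true := by decide +kernel

theorem w61x1_C : w61x1.chkC 12 (E ++ G8d).length 64 3 pool [(1, w61x1L)] = true := by decide +kernel

/-- **a trivial element** -/
theorem w61x1_zero {k : Type*} [Field k] [CharZero k] {F : Type*} [Field F] [Algebra k F] {x y : F}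
    (hx : TN.Tr k x) (hC : C8d.Eq x y) : zt (G8d.map (El.v x y)) x8d.cls x8d_l4 ∈ TN.KC k F :=
  poolOk.zero hx hC (by decide) w61x1_pad w61x1_A w61x1_B w61x1_C

/-- relations -/
noncomputable def w57x1r0 : List (Rel × List ℤ) := [
  (⟨(1, 0), (42, 4), (116, 1), some (80, 1), some (119, 4)⟩, [.ofNat 0, .ofNat 0, .ofNat 0, .ofNat 0, .ofNat 0, .negSucc 0, .negSucc 0, .negSucc 1, .ofNat 1, .ofNat 1, .ofNat 1, .negSucc 2, .ofNat 1]),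
  (⟨(3, 0), (18, 2), (92, 3), some (93, 3), some (73, 4)⟩, [.ofNat 0, .ofNat 0, .ofNat 0, .ofNat 0, .ofNat 0, .negSucc 0, .negSucc 0, .negSucc 1, .ofNat 1, .ofNat 1, .ofNat 1, .negSucc 2, .ofNat 1]),
  (⟨(3, 0), (33, 0), (82, 5), some (101, 2), some (79, 1)⟩, [.ofNat 0, .ofNat 0, .ofNat 0, .ofNat 0, .ofNat 0, .negSucc 0, .negSucc 0, .negSucc 1, .ofNat 1, .ofNat 1, .ofNat 1, .negSucc 2, .ofNat 1]),
  (⟨(7, 0), (25, 1), (74, 4), some (95, 2), some (111, 1)⟩, [.ofNat 0, .ofNat 0, .ofNat 0, .ofNat 0, .ofNat 0, .negSucc 0, .negSucc 0, .negSucc 1, .ofNat 1, .ofNat 1, .ofNat 1, .negSucc 2, .ofNat 1]),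
  (⟨(17, 0), (57, 0), (101, 0), some (126, 0), some (120, 4)⟩, [.ofNat 0, .ofNat 0, .ofNat 0, .ofNat 0, .ofNat 0, .ofNat 1, .ofNat 1, .ofNat 2, .negSucc 0, .negSucc 0, .negSucc 0, .ofNat 3, .negSucc 0]),
  (⟨(17, 0), (62, 1), (116, 1), some (126, 2), some (115, 1)⟩, [.ofNat 0, .ofNat 0, .ofNat 0, .ofNat 0, .ofNat 0, .ofNat 1, .ofNat 1, .ofNat 2, .negSucc 0, .negSucc 0, .negSucc 0, .ofNat 3, .negSucc 0]),
  (⟨(17, 0), (80, 2), (81, 3), none, some (79, 5)⟩, [.ofNat 0, .ofNat 0, .ofNat 0, .ofNat 0, .ofNat 0, .ofNat 1, .ofNat 1, .ofNat 2, .negSucc 0, .negSucc 0, .negSucc 0, .ofNat 3, .negSucc 0]),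
  (⟨(28, 0), (47, 3), (120, 1), some (81, 4), some (118, 4)⟩, [.ofNat 0, .ofNat 0, .ofNat 0, .ofNat 0, .ofNat 0, .ofNat 1, .ofNat 1, .ofNat 2, .negSucc 0, .negSucc 0, .negSucc 0, .ofNat 3, .negSucc 0]),
  (⟨(42, 0), (56, 3), (124, 3), some (111, 4), some (93, 5)⟩, [.ofNat 0, .ofNat 0, .ofNat 0, .ofNat 0, .ofNat 0, .ofNat 1, .ofNat 1, .ofNat 2, .negSucc 0, .negSucc 0, .negSucc 0, .ofNat 3, .negSucc 0]),
  (⟨(42, 0), (73, 5), (74, 0), some (75, 0), none⟩, [.ofNat 0, .ofNat 0, .ofNat 0, .ofNat 0, .ofNat 0, .ofNat 1, .ofNat 1, .ofNat 2, .negSucc 0, .negSucc 0, .negSucc 0, .ofNat 3, .negSucc 0]),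
  (⟨(75, 0), (115, 2), (131, 2), some (124, 0), some (119, 0)⟩, [.ofNat 0, .ofNat 0, .ofNat 0, .ofNat 0, .ofNat 0, .ofNat 1, .ofNat 1, .ofNat 2, .negSucc 0, .negSucc 0, .negSucc 0, .ofNat 3, .negSucc 0]),
  (⟨(82, 0), (92, 4), (131, 5), some (95, 3), some (118, 3)⟩, [.ofNat 0, .ofNat 0, .ofNat 0, .ofNat 0, .ofNat 0, .negSucc 0, .negSucc 0, .negSucc 1, .ofNat 1, .ofNat 1, .ofNat 1, .negSucc 2, .ofNat 1])]

/-- trivial elements -/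
noncomputable def w57x1t0 : List (ℕ × ℤ × ℤ) := [
  (57, .ofNat 0, .negSucc 0)]

/-- the identity -/
noncomputable def w57x1 : Id3 := ⟨[w57x1r0], [w57x1t0]⟩

/-- the element -/
noncomputable def w57x1L : List Tm := [
  ⟨1, 0, [.ofNat 0, .ofNat 0, .ofNat 0, .ofNat 0, .ofNat 0, .ofNat 1, .ofNat 1, .ofNat 2, .negSucc 0, .negSucc 0, .negSucc 0, .ofNat 3, .negSucc 0]⟩,
  ⟨3, 0, [.ofNat 0, .ofNat 0, .ofNat 0, .ofNat 0, .ofNat 0, .ofNat 2, .ofNat 2, .ofNat 4, .negSucc 1, .negSucc 1, .negSucc 1, .ofNat 6, .negSucc 1]⟩,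
  ⟨7, 0, [.ofNat 0, .ofNat 0, .ofNat 0, .ofNat 0, .ofNat 0, .ofNat 1, .ofNat 1, .ofNat 2, .negSucc 0, .negSucc 0, .negSucc 0, .ofNat 3, .negSucc 0]⟩,
  ⟨17, 0, [.ofNat 0, .ofNat 0, .ofNat 0, .ofNat 0, .ofNat 0, .negSucc 2, .negSucc 2, .negSucc 5, .ofNat 3, .ofNat 3, .ofNat 3, .negSucc 8, .ofNat 3]⟩,
  ⟨18, 0, [.ofNat 0, .ofNat 0, .ofNat 0, .ofNat 0, .ofNat 0, .ofNat 1, .ofNat 1, .ofNat 2, .negSucc 0, .negSucc 0, .negSucc 0, .ofNat 3, .negSucc 0]⟩,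
  ⟨25, 0, [.ofNat 0, .ofNat 0, .ofNat 0, .ofNat 0, .ofNat 0, .ofNat 1, .ofNat 1, .ofNat 2, .negSucc 0, .negSucc 0, .negSucc 0, .ofNat 3, .negSucc 0]⟩,
  ⟨28, 0, [.ofNat 0, .ofNat 0, .ofNat 0, .ofNat 0, .ofNat 0, .negSucc 0, .negSucc 0, .negSucc 1, .ofNat 1, .ofNat 1, .ofNat 1, .negSucc 2, .ofNat 1]⟩,
  ⟨33, 0, [.ofNat 0, .ofNat 0, .ofNat 0, .ofNat 0, .ofNat 0, .negSucc 0, .negSucc 0, .negSucc 1, .ofNat 1, .ofNat 1, .ofNat 1, .negSucc 2, .ofNat 1]⟩,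
  ⟨42, 0, [.ofNat 0, .ofNat 0, .ofNat 0, .ofNat 0, .ofNat 0, .negSucc 2, .negSucc 2, .negSucc 5, .ofNat 3, .ofNat 3, .ofNat 3, .negSucc 8, .ofNat 3]⟩,
  ⟨47, 0, [.ofNat 0, .ofNat 0, .ofNat 0, .ofNat 0, .ofNat 0, .ofNat 1, .ofNat 1, .ofNat 2, .negSucc 0, .negSucc 0, .negSucc 0, .ofNat 3, .negSucc 0]⟩,
  ⟨56, 0, [.ofNat 0, .ofNat 0, .ofNat 0, .ofNat 0, .ofNat 0, .ofNat 1, .ofNat 1, .ofNat 2, .negSucc 0, .negSucc 0, .negSucc 0, .ofNat 3, .negSucc 0]⟩,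
  ⟨62, 0, [.ofNat 0, .ofNat 0, .ofNat 0, .ofNat 0, .ofNat 0, .negSucc 0, .negSucc 0, .negSucc 1, .ofNat 1, .ofNat 1, .ofNat 1, .negSucc 2, .ofNat 1]⟩]

theorem w57x1_pad : padS E.length x8d.cls x8d_l5 pool w57x1L = true := by decide +kernel

theorem w57x1_A : w57x1.chkA ((E ++ G8d).map El.isK) pool = true := by decide +kernel

theorem w57x1_B : w57x1.chkB pool [(1, w57x1L)] = true := by decide +kernel

theorem w57x1_C : w57x1.chkC 11 (E ++ G8d).length 64 3 pool [(1, w57x1L)] = true := by decide +kernel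

/-- **a trivial element** -/
theorem w57x1_zero {k : Type*} [Field k] [CharZero k] {F : Type*} [Field F] [Algebra k F] {x y : F}
    (hx : TN.Tr k x) (hC : C8d.Eq x y) : zt (G8d.map (El.v x y)) x8d.cls x8d_l5 ∈ TN.KC k F :=
  poolOk.zero hx hC (by decide) w57x1_pad w57x1_A w57x1_B w57x1_C

/-- relations -/
noncomputable def w58x0r0 : List (Rel × List ℤ) := [
  (⟨(3, 0), (18, 2), (92, 3), some (93, 3), some (73, 4)⟩, [.ofNat 0, .ofNat 0, .ofNat 0, .ofNat 0, .ofNat 0, .negSucc 2, .negSucc 1, .negSucc 0, .negSucc 0, .ofNat 3, .ofNat 2, .ofNat 0, .negSucc 0]),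
  (⟨(5, 0), (21, 5), (91, 3), some (124, 3), some (110, 4)⟩, [.ofNat 0, .ofNat 0, .ofNat 0, .ofNat 0, .ofNat 0, .ofNat 3, .ofNat 2, .ofNat 1, .ofNat 1, .negSucc 2, .negSucc 1, .ofNat 0, .ofNat 1]),
  (⟨(7, 0), (18, 5), (91, 3), some (75, 4), some (109, 4)⟩, [.ofNat 0, .ofNat 0, .ofNat 0, .ofNat 0, .ofNat 0, .negSucc 2, .negSucc 1, .negSucc 0, .negSucc 0, .ofNat 3, .ofNat 2, .ofNat 0, .negSucc 0]),
  (⟨(7, 0), (25, 1), (74, 4), some (95, 2), some (111, 1)⟩, [.ofNat 0, .ofNat 0, .ofNat 0, .ofNat 0, .ofNat 0, .negSucc 2, .negSucc 1, .negSucc 0, .negSucc 0, .ofNat 3, .ofNat 2, .ofNat 0, .negSucc 0]),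
  (⟨(8, 0), (45, 5), (88, 3), some (89, 3), some (77, 4)⟩, [.ofNat 0, .ofNat 0, .ofNat 0, .ofNat 0, .ofNat 0, .negSucc 2, .negSucc 1, .negSucc 0, .negSucc 0, .ofNat 3, .ofNat 2, .ofNat 0, .negSucc 0]),
  (⟨(14, 0), (32, 2), (85, 3), some (87, 3), some (78, 4)⟩, [.ofNat 0, .ofNat 0, .ofNat 0, .ofNat 0, .ofNat 0, .ofNat 3, .ofNat 2, .ofNat 1, .ofNat 1, .negSucc 2, .negSucc 1, .ofNat 0, .ofNat 1]),
  (⟨(14, 0), (37, 5), (122, 3), some (89, 3), some (112, 4)⟩, [.ofNat 0, .ofNat 0, .ofNat 0, .ofNat 0, .ofNat 0, .ofNat 3, .ofNat 2, .ofNat 1, .ofNat 1, .negSucc 2, .negSucc 1, .ofNat 0, .ofNat 1]),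
  (⟨(18, 0), (37, 3), (114, 1), some (76, 4), some (113, 4)⟩, [.ofNat 0, .ofNat 0, .ofNat 0, .ofNat 0, .ofNat 0, .negSucc 2, .negSucc 1, .negSucc 0, .negSucc 0, .ofNat 3, .ofNat 2, .ofNat 0, .negSucc 0]),
  (⟨(42, 0), (56, 3), (124, 3), some (111, 4), some (93, 5)⟩, [.ofNat 0, .ofNat 0, .ofNat 0, .ofNat 0, .ofNat 0, .ofNat 3, .ofNat 2, .ofNat 1, .ofNat 1, .negSucc 2, .negSucc 1, .ofNat 0, .ofNat 1]),
  (⟨(42, 0), (73, 5), (74, 0), some (75, 0), none⟩, [.ofNat 0, .ofNat 0, .ofNat 0, .ofNat 0, .ofNat 0, .ofNat 3, .ofNat 2, .ofNat 1, .ofNat 1, .negSucc 2, .negSucc 1, .ofNat 0, .ofNat 1]),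
  (⟨(53, 0), (58, 3), (122, 3), some (113, 4), some (87, 5)⟩, [.ofNat 0, .ofNat 0, .ofNat 0, .ofNat 0, .ofNat 0, .negSucc 2, .negSucc 1, .negSucc 0, .negSucc 0, .ofNat 3, .ofNat 2, .ofNat 0, .negSucc 0]),
  (⟨(53, 0), (76, 2), (78, 3), none, some (77, 5)⟩, [.ofNat 0, .ofNat 0, .ofNat 0, .ofNat 0, .ofNat 0, .negSucc 2, .negSucc 1, .negSucc 0, .negSucc 0, .ofNat 3, .ofNat 2, .ofNat 0, .negSucc 0]),
  (⟨(85, 0), (95, 0), (112, 0), some (109, 3), some (130, 3)⟩, [.ofNat 0, .ofNat 0, .ofNat 0, .ofNat 0, .ofNat 0, .negSucc 2, .negSucc 1, .negSucc 0, .negSucc 0, .ofNat 3, .ofNat 2, .ofNat 0, .negSucc 0]),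
  (⟨(88, 0), (92, 5), (114, 5), some (110, 3), some (130, 3)⟩, [.ofNat 0, .ofNat 0, .ofNat 0, .ofNat 0, .ofNat 0, .ofNat 3, .ofNat 2, .ofNat 1, .ofNat 1, .negSucc 2, .negSucc 1, .ofNat 0, .ofNat 1])]

/-- trivial elements -/
noncomputable def w58x0t0 : List (ℕ × ℤ × ℤ) := [
  (58, .negSucc 0, .ofNat 0)]

/-- the identity -/
noncomputable def w58x0 : Id3 := ⟨[w58x0r0], [w58x0t0]⟩

/-- the element -/
noncomputable def w58x0L : List Tm := [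
  ⟨3, 0, [.ofNat 0, .ofNat 0, .ofNat 0, .ofNat 0, .ofNat 0, .ofNat 3, .ofNat 2, .ofNat 1, .ofNat 1, .negSucc 2, .negSucc 1, .ofNat 0, .ofNat 1]⟩,
  ⟨5, 0, [.ofNat 0, .ofNat 0, .ofNat 0, .ofNat 0, .ofNat 0, .negSucc 2, .negSucc 1, .negSucc 0, .negSucc 0, .ofNat 3, .ofNat 2, .ofNat 0, .negSucc 0]⟩,
  ⟨7, 0, [.ofNat 0, .ofNat 0, .ofNat 0, .ofNat 0, .ofNat 0, .ofNat 6, .ofNat 4, .ofNat 2, .ofNat 2, .negSucc 5, .negSucc 3, .ofNat 0, .ofNat 2]⟩,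
  ⟨8, 0, [.ofNat 0, .ofNat 0, .ofNat 0, .ofNat 0, .ofNat 0, .ofNat 3, .ofNat 2, .ofNat 1, .ofNat 1, .negSucc 2, .negSucc 1, .ofNat 0, .ofNat 1]⟩,
  ⟨14, 0, [.ofNat 0, .ofNat 0, .ofNat 0, .ofNat 0, .ofNat 0, .negSucc 5, .negSucc 3, .negSucc 1, .negSucc 1, .ofNat 6, .ofNat 4, .ofNat 0, .negSucc 1]⟩,
  ⟨18, 0, [.ofNat 0, .ofNat 0, .ofNat 0, .ofNat 0, .ofNat 0, .ofNat 9, .ofNat 6, .ofNat 3, .ofNat 3, .negSucc 8, .negSucc 5, .ofNat 0, .ofNat 3]⟩,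
  ⟨21, 0, [.ofNat 0, .ofNat 0, .ofNat 0, .ofNat 0, .ofNat 0, .negSucc 2, .negSucc 1, .negSucc 0, .negSucc 0, .ofNat 3, .ofNat 2, .ofNat 0, .negSucc 0]⟩,
  ⟨25, 0, [.ofNat 0, .ofNat 0, .ofNat 0, .ofNat 0, .ofNat 0, .ofNat 3, .ofNat 2, .ofNat 1, .ofNat 1, .negSucc 2, .negSucc 1, .ofNat 0, .ofNat 1]⟩,
  ⟨32, 0, [.ofNat 0, .ofNat 0, .ofNat 0, .ofNat 0, .ofNat 0, .negSucc 2, .negSucc 1, .negSucc 0, .negSucc 0, .ofNat 3, .ofNat 2, .ofNat 0, .negSucc 0]⟩,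
  ⟨37, 0, [.ofNat 0, .ofNat 0, .ofNat 0, .ofNat 0, .ofNat 0, .negSucc 5, .negSucc 3, .negSucc 1, .negSucc 1, .ofNat 6, .ofNat 4, .ofNat 0, .negSucc 1]⟩,
  ⟨42, 0, [.ofNat 0, .ofNat 0, .ofNat 0, .ofNat 0, .ofNat 0, .negSucc 5, .negSucc 3, .negSucc 1, .negSucc 1, .ofNat 6, .ofNat 4, .ofNat 0, .negSucc 1]⟩,
  ⟨45, 0, [.ofNat 0, .ofNat 0, .ofNat 0, .ofNat 0, .ofNat 0, .ofNat 3, .ofNat 2, .ofNat 1, .ofNat 1, .negSucc 2, .negSucc 1, .ofNat 0, .ofNat 1]⟩,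
  ⟨53, 0, [.ofNat 0, .ofNat 0, .ofNat 0, .ofNat 0, .ofNat 0, .ofNat 6, .ofNat 4, .ofNat 2, .ofNat 2, .negSucc 5, .negSucc 3, .ofNat 0, .ofNat 2]⟩,
  ⟨56, 0, [.ofNat 0, .ofNat 0, .ofNat 0, .ofNat 0, .ofNat 0, .ofNat 3, .ofNat 2, .ofNat 1, .ofNat 1, .negSucc 2, .negSucc 1, .ofNat 0, .ofNat 1]⟩]

theorem w58x0_pad : padS E.length x8d.cls x8d_l6 pool w58x0L = true := by decide +kernel

theorem w58x0_A : w58x0.chkA ((E ++ G8d).map El.isK) pool = true := by decide +kernel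

theorem w58x0_B : w58x0.chkB pool [(1, w58x0L)] = true := by decide +kernel

theorem w58x0_C : w58x0.chkC 12 (E ++ G8d).length 64 3 pool [(1, w58x0L)] = true := by decide +kernel

/-- **a trivial element** -/
theorem w58x0_zero {k : Type*} [Field k] [CharZero k] {F : Type*} [Field F] [Algebra k F] {x y : F}
    (hx : TN.Tr k x) (hC : C8d.Eq x y) : zt (G8d.map (El.v x y)) x8d.cls x8d_l6 ∈ TN.KC k F :=
  poolOk.zero hx hC (by decide) w58x0_pad w58x0_A w58x0_B w58x0_C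

/-- relations -/
noncomputable def w60y0r0 : List (Rel × List ℤ) := [
  (⟨(3, 0), (18, 2), (92, 3), some (93, 3), some (73, 4)⟩, [.ofNat 0, .ofNat 0, .ofNat 0, .ofNat 0, .ofNat 0, .ofNat 1, .negSucc 2, .negSucc 0, .negSucc 0, .negSucc 0, .ofNat 3, .negSucc 0, .negSucc 2]),
  (⟨(7, 0), (25, 1), (74, 4), some (95, 2), some (111, 1)⟩, [.ofNat 0, .ofNat 0, .ofNat 0, .ofNat 0, .ofNat 0, .ofNat 1, .negSucc 2, .negSucc 0, .negSucc 0, .negSucc 0, .ofNat 3, .negSucc 0, .negSucc 2]),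
  (⟨(17, 0), (60, 0), (83, 5), some (125, 2), some (117, 1)⟩, [.ofNat 0, .ofNat 0, .ofNat 0, .ofNat 0, .ofNat 0, .ofNat 1, .negSucc 2, .negSucc 0, .negSucc 0, .negSucc 0, .ofNat 3, .negSucc 0, .negSucc 2]),
  (⟨(17, 0), (62, 0), (98, 0), some (125, 0), some (119, 4)⟩, [.ofNat 0, .ofNat 0, .ofNat 0, .ofNat 0, .ofNat 0, .ofNat 1, .negSucc 2, .negSucc 0, .negSucc 0, .negSucc 0, .ofNat 3, .negSucc 0, .negSucc 2]),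
  (⟨(17, 0), (80, 2), (81, 3), none, some (79, 5)⟩, [.ofNat 0, .ofNat 0, .ofNat 0, .ofNat 0, .ofNat 0, .ofNat 1, .negSucc 2, .negSucc 0, .negSucc 0, .negSucc 0, .ofNat 3, .negSucc 0, .negSucc 2]),
  (⟨(24, 0), (42, 0), (80, 1), some (98, 0), some (115, 4)⟩, [.ofNat 0, .ofNat 0, .ofNat 0, .ofNat 0, .ofNat 0, .ofNat 1, .negSucc 2, .negSucc 0, .negSucc 0, .negSucc 0, .ofNat 3, .negSucc 0, .negSucc 2]),
  (⟨(25, 0), (46, 4), (83, 3), some (82, 3), some (79, 4)⟩, [.ofNat 0, .ofNat 0, .ofNat 0, .ofNat 0, .ofNat 0, .ofNat 1, .negSucc 2, .negSucc 0, .negSucc 0, .negSucc 0, .ofNat 3, .negSucc 0, .negSucc 2]),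
  (⟨(32, 0), (50, 3), (118, 1), some (81, 4), some (117, 4)⟩, [.ofNat 0, .ofNat 0, .ofNat 0, .ofNat 0, .ofNat 0, .ofNat 1, .negSucc 2, .negSucc 0, .negSucc 0, .negSucc 0, .ofNat 3, .negSucc 0, .negSucc 2]),
  (⟨(42, 0), (56, 3), (124, 3), some (111, 4), some (93, 5)⟩, [.ofNat 0, .ofNat 0, .ofNat 0, .ofNat 0, .ofNat 0, .negSucc 0, .ofNat 3, .ofNat 1, .ofNat 1, .ofNat 1, .negSucc 2, .ofNat 1, .ofNat 3]),
  (⟨(42, 0), (73, 5), (74, 0), some (75, 0), none⟩, [.ofNat 0, .ofNat 0, .ofNat 0, .ofNat 0, .ofNat 0, .negSucc 0, .ofNat 3, .ofNat 1, .ofNat 1, .ofNat 1, .negSucc 2, .ofNat 1, .ofNat 3]),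
  (⟨(75, 0), (115, 2), (131, 2), some (124, 0), some (119, 0)⟩, [.ofNat 0, .ofNat 0, .ofNat 0, .ofNat 0, .ofNat 0, .negSucc 0, .ofNat 3, .ofNat 1, .ofNat 1, .ofNat 1, .negSucc 2, .ofNat 1, .ofNat 3]),
  (⟨(82, 0), (92, 4), (131, 5), some (95, 3), some (118, 3)⟩, [.ofNat 0, .ofNat 0, .ofNat 0, .ofNat 0, .ofNat 0, .ofNat 1, .negSucc 2, .negSucc 0, .negSucc 0, .negSucc 0, .ofNat 3, .negSucc 0, .negSucc 2])]

/-- trivial elements -/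
noncomputable def w60y0t0 : List (ℕ × ℤ × ℤ) := [
  (60, .negSucc 0, .ofNat 0)]

/-- the identity -/
noncomputable def w60y0 : Id3 := ⟨[w60y0r0], [w60y0t0]⟩

/-- the element -/
noncomputable def w60y0L : List Tm := [
  ⟨3, 0, [.ofNat 0, .ofNat 0, .ofNat 0, .ofNat 0, .ofNat 0, .negSucc 0, .ofNat 3, .ofNat 1, .ofNat 1, .ofNat 1, .negSucc 2, .ofNat 1, .ofNat 3]⟩,
  ⟨7, 0, [.ofNat 0, .ofNat 0, .ofNat 0, .ofNat 0, .ofNat 0, .negSucc 0, .ofNat 3, .ofNat 1, .ofNat 1, .ofNat 1, .negSucc 2, .ofNat 1, .ofNat 3]⟩,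
  ⟨17, 0, [.ofNat 0, .ofNat 0, .ofNat 0, .ofNat 0, .ofNat 0, .negSucc 2, .ofNat 9, .ofNat 3, .ofNat 3, .ofNat 3, .negSucc 8, .ofNat 3, .ofNat 9]⟩,
  ⟨18, 0, [.ofNat 0, .ofNat 0, .ofNat 0, .ofNat 0, .ofNat 0, .negSucc 0, .ofNat 3, .ofNat 1, .ofNat 1, .ofNat 1, .negSucc 2, .ofNat 1, .ofNat 3]⟩,
  ⟨24, 0, [.ofNat 0, .ofNat 0, .ofNat 0, .ofNat 0, .ofNat 0, .negSucc 0, .ofNat 3, .ofNat 1, .ofNat 1, .ofNat 1, .negSucc 2, .ofNat 1, .ofNat 3]⟩,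
  ⟨25, 0, [.ofNat 0, .ofNat 0, .ofNat 0, .ofNat 0, .ofNat 0, .negSucc 1, .ofNat 6, .ofNat 2, .ofNat 2, .ofNat 2, .negSucc 5, .ofNat 2, .ofNat 6]⟩,
  ⟨32, 0, [.ofNat 0, .ofNat 0, .ofNat 0, .ofNat 0, .ofNat 0, .negSucc 0, .ofNat 3, .ofNat 1, .ofNat 1, .ofNat 1, .negSucc 2, .ofNat 1, .ofNat 3]⟩,
  ⟨42, 0, [.ofNat 0, .ofNat 0, .ofNat 0, .ofNat 0, .ofNat 0, .ofNat 3, .negSucc 8, .negSucc 2, .negSucc 2, .negSucc 2, .ofNat 9, .negSucc 2, .negSucc 8]⟩,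
  ⟨46, 0, [.ofNat 0, .ofNat 0, .ofNat 0, .ofNat 0, .ofNat 0, .ofNat 1, .negSucc 2, .negSucc 0, .negSucc 0, .negSucc 0, .ofNat 3, .negSucc 0, .negSucc 2]⟩,
  ⟨50, 0, [.ofNat 0, .ofNat 0, .ofNat 0, .ofNat 0, .ofNat 0, .ofNat 1, .negSucc 2, .negSucc 0, .negSucc 0, .negSucc 0, .ofNat 3, .negSucc 0, .negSucc 2]⟩,
  ⟨56, 0, [.ofNat 0, .ofNat 0, .ofNat 0, .ofNat 0, .ofNat 0, .negSucc 0, .ofNat 3, .ofNat 1, .ofNat 1, .ofNat 1, .negSucc 2, .ofNat 1, .ofNat 3]⟩,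
  ⟨62, 0, [.ofNat 0, .ofNat 0, .ofNat 0, .ofNat 0, .ofNat 0, .ofNat 1, .negSucc 2, .negSucc 0, .negSucc 0, .negSucc 0, .ofNat 3, .negSucc 0, .negSucc 2]⟩]

theorem w60y0_pad : padS E.length x8d.cls x8d_l7 pool w60y0L = true := by decide +kernel

theorem w60y0_A : w60y0.chkA ((E ++ G8d).map El.isK) pool = true := by decide +kernel

theorem w60y0_B : w60y0.chkB pool [(1, w60y0L)] = true := by decide +kernel

theorem w60y0_C : w60y0.chkC 12 (E ++ G8d).length 64 3 pool [(1, w60y0L)] = true := by decide +kernel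

/-- **a trivial element** -/
theorem w60y0_zero {k : Type*} [Field k] [CharZero k] {F : Type*} [Field F] [Algebra k F] {x y : F}
    (hx : TN.Tr k x) (hC : C8d.Eq x y) : zt (G8d.map (El.v x y)) x8d.cls x8d_l7 ∈ TN.KC k F :=
  poolOk.zero hx hC (by decide) w60y0_pad w60y0_A w60y0_B w60y0_C

end Pool.Agent.AXX8dW
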