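import Pool.Agent.Lib_helper87.AX.Cu
import Pool.Agent.Lib_helper87.AX.X8d
import Pool.Agent.Lib_helper87.AX.X8dW
import Pool.Agent.Lib_helper40.MC.X8d.Ix

/-!
# `d = 3 / 4`: the multiples and the kept classes
-/

set_option autoImplicit false
set_option linter.unusedSectionVars false
set_option linter.unusedVariables false
set_option maxRecDepth 100000

open scoped TensorProduct

namespace Pool.Agent.AXH

open Pool.Agent.KC72 Pool.Agent.AX Pool.Agent.MK4 Pool.Agent.MC Pool.Agent.MCX8d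

/-- the explicit class -/
noncomputable def xi8d : List Tm := [
  ⟨3, 0, [.ofNat 120, .negSucc 77, .ofNat 0, .negSucc 59, .ofNat 0, .ofNat 18, .ofNat 0, .negSucc 203, .ofNat 0]⟩,
  ⟨4, 0, [.negSucc 47, .ofNat 66, .ofNat 0, .ofNat 24, .ofNat 0, .negSucc 29, .ofNat 0, .ofNat 156, .ofNat 0]⟩,
  ⟨23, 0, [.negSucc 71, .ofNat 28, .ofNat 0, .ofNat 20, .ofNat 0, .ofNat 20, .ofNat 0, .ofNat 192, .ofNat 0]⟩,
  ⟨26, 0, [.ofNat 36, .negSucc 25, .ofNat 0, .negSucc 27, .ofNat 0, .ofNat 8, .ofNat 0, .negSucc 137, .ofNat 0]⟩,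
  ⟨38, 0, [.negSucc 179, .ofNat 0, .negSucc 11, .ofNat 153, .ofNat 0, .ofNat 0, .ofNat 12, .ofNat 0, .ofNat 0]⟩,
  ⟨51, 0, [.ofNat 0, .ofNat 0, .negSucc 11, .ofNat 162, .negSucc 11, .negSucc 11, .ofNat 12, .ofNat 564, .negSucc 11]⟩,
  ⟨56, 0, [.ofNat 18, .ofNat 3, .ofNat 0, .ofNat 0, .ofNat 0, .negSucc 11, .ofNat 0, .ofNat 9, .ofNat 0]⟩]

theorem pad8d : padS 0 kept xi8d x8d.cls x8d_l0 = true := by decide +kernel

theorem okT8d : okT 9 kept xi8d = true := by decide +kernel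

theorem chkD8d : chkD 9 kept xi8d = true := by decide +kernel

variable {k : Type*} [Field k] [CharZero k] {F : Type*} [Field F] [Algebra k F] {x y : F}

/-- **the multiples** -/
theorem hmul8d (h : TN.Gen (-1 / 8 : k) (-1 / 6) x y) : ∀ L' ∈ x8d_ll, ∃ β : ℚ,
    KC72.zt (List.ofFn (K8d.G8 x y)) x8d.cls L' - β • KC72.zt (List.ofFn (K8d.G8 x y)) kept xi8d ∈ Cst k F := by
  have : CharZero F := charZero_of_injective_algebraMap (algebraMap k F).injective
  have hx : TN.Tr k x := h.tr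
  have hC := C8d_eq h
  have hg : ∀ z ∈ List.ofFn (K8d.G8 x y), z ≠ 0 := K8d.G8l_ne h
  have h0 := zt_same hg pad8d
  rw [G8d_eq] at h0 ⊢
  intro L' hL'
  simp only [x8d_ll, List.mem_cons, List.not_mem_nil, or_false] at hL'
  rcases hL' with rfl | rfl | rfl | rfl | rfl | rfl | rfl | rfl
  · exact ⟨1, by rw [one_smul, h0, sub_self]; exact Submodule.zero_mem _⟩
  · exact ex_zero (AXX8d.z1_zero hx hC)
  · exact ex_zero (AXX8dW.w58x1_zero hx hC)
  · exact ex_zero (AXX8dW.w61x0_zero hx hC)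
  · exact ex_zero (AXX8dW.w61x1_zero hx hC)
  · exact ex_zero (AXX8dW.w57x1_zero hx hC)
  · exact ex_zero (AXX8dW.w58x0_zero hx hC)
  · exact ex_zero (AXX8dW.w60y0_zero hx hC)

/-- the kept classes -/
def idx8d : List ℕ := [0, 1, 2, 3, 4, 5, 6, 7, 8, 9, 10, 11, 12, 13, 14, 15, 16, 17, 18, 19, 20, 21, 22, 23, 24, 25, 26, 27, 28, 29, 30, 31, 32, 33, 34, 35, 36, 37, 38, 39, 40, 41, 42, 43, 44, 45, 46, 47, 48, 49, 50, 51, 52, 53, 54, 55, 56, 62, 64]

/-- the vectors of the dropped classes -/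
noncomputable def dr8d : List (ℕ × List ℤ) := [(57, AXX8dW.q57), (58, AXX8dW.q58), (59, AXX8dW.q59), (60, AXX8dW.q60), (61, AXX8dW.q61), (63, AXX8dW.q63), (65, AXX8dW.q65)]

theorem chkDr8d : chkDr ((K8d.cls.take 66)).length idx8d dr8d = true := by decide +kernel

theorem kept8d : ∀ i ∈ idx8d, ((K8d.cls.take 66)).getD i default ∈ kept := by decide +kernel

/-- **the dropped classes** -/
theorem hred8d (h : TN.Gen (-1 / 8 : k) (-1 / 6) x y) : ∀ p ∈ (K8d.cls.take 66), sy (ev (List.ofFn (K8d.G8 x y)) p.1) ∈ SC k F ⊔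
    Submodule.span ℚ {a : B2 F | ∃ p ∈ kept, a = sy (ev (List.ofFn (K8d.G8 x y)) p.1)} := by
  have : CharZero F := charZero_of_injective_algebraMap (algebraMap k F).injective
  have hx : TN.Tr k x := h.tr
  have hC := C8d_eq h
  refine hred_of (dr := dr8d) ?_ chkDr8d kept8d
  rw [G8d_eq]
  intro d hd
  simp only [dr8d, List.mem_cons, List.not_mem_nil, or_false] at hd
  rcases hd with rfl | rfl | rfl | rfl | rfl | rfl | rfl
  · exact AXX8dW.s57 hx hC
  · exact AXX8dW.s58 hx hC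
  · exact AXX8dW.s59 hx hC
  · exact AXX8dW.s60 hx hC
  · exact AXX8dW.s61 hx hC
  · exact AXX8dW.s63 hx hC
  · exact AXX8dW.s65 hx hC

end Pool.Agent.AXH
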