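import Pool.Agent.Lib_helper87.AX.E

/-!
# The checks in one piece
-/

set_option autoImplicit false
set_option linter.unusedSectionVars false
set_option linter.unusedVariables false

open scoped TensorProduct

namespace Pool.Agent.AX

open MK4 KC72
open TN (KC lg1 hk_self hk_compl)

/-- a constant -/
def El.isK (a : El) : Bool := a.Q.isEmpty && Nat.ble a.P.length 1

/-- the generators and the classes are all right -/
structure PoolOk (C : Cv) (E G : List El) (pool : List (Mo × Mo)) : Prop where
  /-- the factor -/
  cd : C.cd ≠ 0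
  /-- the generators do not vanish -/
  ne : chkN C (E ++ G) = true
  /-- the classes -/
  cl : pool.all (chkP C (E ++ G)) = true

section

variable {F : Type*} [Field F] {k : Type*} [Field k] [CharZero k] [Algebra k F]

lemma El.isK_v {x y : F} {a : El} (h : a.isK = true) : ∃ c : k, a.v x y = algebraMap k F c := by
  obtain ⟨P, Q, d⟩ := a
  unfold El.isK at h
  rw [Bool.and_eq_true, List.isEmpty_iff] at h
  obtain ⟨h1, h2⟩ := h
  have h3 := Nat.ble_eq.mp h2
  simp only at h1 h3
  subst h1
  match P, h3 with
  | [], _ => exact ⟨0, by simp [El.v, pev]⟩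
  | [p], _ => exact ⟨(p : k) / d, by simp [El.v, pev]⟩

lemma msk (x y : F) (G : List El) : Msk k (G.map El.isK) (G.map (El.v x y)) := by
  unfold Msk
  induction G with
  | nil => exact List.Forall₂.nil
  | cons a G ih =>
    rw [List.map_cons, List.map_cons]
    exact List.Forall₂.cons (fun h => El.isK_v h) ih

variable {C : Cv} {E G : List El} {pool : List (Mo × Mo)} {x y : F}

lemma PoolOk.ne' (h : PoolOk C E G pool) (hx : TN.Tr k x) (hC : C.Eq x y) :
    ∀ z ∈ E.map (El.v x y) ++ G.map (El.v x y), z ≠ 0 := by
  rw [← List.map_append]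
  exact ne_chk hx hC h.ne

lemma PoolOk.sols (h : PoolOk C E G pool) (hx : TN.Tr k x) (hC : C.Eq x y) :
    Sols (E.map (El.v x y) ++ G.map (El.v x y)) pool := by
  have : CharZero F := charZero_of_injective_algebraMap (algebraMap k F).injective
  have h1 := h.ne' hx hC
  have h2 := h.ne
  rw [← List.map_append] at h1 ⊢
  refine sols_chk hC h.cd (fun a ha => ?_) h1 h.cl
  unfold chkN at h2
  rw [List.all_eq_true] at h2
  have h3 := h2 a ha
  rw [Bool.and_eq_true] at h3
  exact of_decide_eq_true h3.1

/-- **a trivial element** -/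
theorem PoolOk.zero (h : PoolOk C E G pool) (hx : TN.Tr k x) (hC : C.Eq x y) {D : Id3} {N : ℤ}
    (hN : N ≠ 0) {cls : List (Mo × Mo)} {L L' : List Tm}
    (h1 : padS E.length cls L pool L' = true) (hA : D.chkA ((E ++ G).map El.isK) pool = true)
    (hB : D.chkB pool [(N, L')] = true) {w Kb nb : ℕ}
    (hW : D.chkC w (E ++ G).length Kb nb pool [(N, L')] = true) :
    zt (G.map (El.v x y)) cls L ∈ KC k F := by
  have : CharZero F := charZero_of_injective_algebraMap (algebraMap k F).injective
  have hm := msk (k := k) x y (E ++ G)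
  rw [List.map_append (f := El.v x y)] at hm
  refine Id3.zero (A := E.map (El.v x y)) (m := E.length) (by simp) (n := (E ++ G).length)
    (by simp) (h.ne' hx hC) hm (h.sols hx hC) hN h1 hA hB hW

/-- **a multiple** -/
theorem PoolOk.mul (h : PoolOk C E G pool) (hx : TN.Tr k x) (hC : C.Eq x y) {D : Id3} {N M : ℤ}
    (hN : N ≠ 0) {cls1 cls2 : List (Mo × Mo)} {L1 L2 L1' L2' : List Tm}
    (h1 : padS E.length cls1 L1 pool L1' = true) (h2 : padS E.length cls2 L2 pool L2' = true)
    (hA : D.chkA ((E ++ G).map El.isK) pool = true)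
    (hB : D.chkB pool [(N, L1'), (M, L2')] = true) {w Kb nb : ℕ}
    (hW : D.chkC w (E ++ G).length Kb nb pool [(N, L1'), (M, L2')] = true) :
    ∃ β : ℚ, zt (G.map (El.v x y)) cls1 L1 - β • zt (G.map (El.v x y)) cls2 L2 ∈ KC k F := by
  have : CharZero F := charZero_of_injective_algebraMap (algebraMap k F).injective
  have hm := msk (k := k) x y (E ++ G)
  rw [List.map_append (f := El.v x y)] at hm
  refine Id3.mul (A := E.map (El.v x y)) (m := E.length) (by simp) (n := (E ++ G).length)
    (by simp) (h.ne' hx hC) hm (h.sols hx hC) hN h1 h2 hA hB hW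

/-- the first classes of the pool are those of the table -/
def chkT (m : ℕ) (cls0 pool : List (Mo × Mo)) : Bool :=
  decide (pool.take cls0.length = cls0.map fun p => (padM m p.1, padM m p.2))

/-- **a relation between the symbols** -/
theorem PoolOk.rel2 (h : PoolOk C E G pool) (hx : TN.Tr k x) (hC : C.Eq x y)
    {rels : List (Rel × ℤ)} {q : List ℤ} {cls0 : List (Mo × Mo)}
    (hT : chkT E.length cls0 pool = true) (hq : q.length ≤ cls0.length) {w : ℕ}
    (hA : chk2 w ((E ++ G).map El.isK) pool rels q = true) :
    ssum (G.map (El.v x y)) cls0 q ∈ SC k F := by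
  have : CharZero F := charZero_of_injective_algebraMap (algebraMap k F).injective
  have hm := msk (k := k) x y (E ++ G)
  rw [List.map_append (f := El.v x y)] at hm
  have h1 := chk2_sound (h.ne' hx hC) hm (h.sols hx hC) hA
  rwa [ssum_pad (A := E.map (El.v x y)) (m := E.length) (by simp) (of_decide_eq_true hT) hq] at h1

end

end Pool.Agent.AX
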